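import Mathlib

/-! Chains modulo two, cones, a pivoting cocycle and a degree argument. -/

set_option autoImplicit false
set_option linter.unusedSectionVars false

namespace Pool.Agent.Lib.MP_3764f3_co.DC

open Finset

lemma sym_sum {β M : Type} [DecidableEq β] [AddCommMonoid M] (h2 : ∀ a : M, a + a = 0)
    (f : β → β → M) (hf : ∀ x y, f x y = f y x) (s : Finset β) :
    ∑ x ∈ s, ∑ y ∈ s.erase x, f x y = 0 := by
  induction s using Finset.induction_on with
  | empty => simp
  | insert a s ha ih =>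
    have e : ∀ x ∈ s, ∑ y ∈ (insert a s).erase x, f x y = f a x + ∑ y ∈ s.erase x, f x y :=
      fun x hx => by
        rw [erase_insert_of_ne (by rintro rfl; exact ha hx),
          sum_insert (fun h => ha (mem_of_mem_erase h)), hf x a]
    rw [sum_insert ha, erase_insert ha, sum_congr rfl e, sum_add_distrib, ih, add_zero, h2]

variable {α : Type} [Fintype α] [DecidableEq α]

/-- Boundary of a chain. -/
def bd (c : Finset α → ZMod 2) : Finset α → ZMod 2 := fun τ => ∑ x ∈ τᶜ, c (insert x τ)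

/-- Cone over a chain. -/
def cone (x : α) (c : Finset α → ZMod 2) : Finset α → ZMod 2 :=
  fun σ => if x ∈ σ then c (σ.erase x) else 0

lemma z2 (a : ZMod 2) : a + a = 0 := CharTwo.add_self_eq_zero a

lemma c2 (c : Finset α → ZMod 2) : c + c = 0 := funext fun _ => z2 _

lemma bd_add (c d : Finset α → ZMod 2) : bd (c + d) = bd c + bd d :=
  funext fun τ => by simp [bd, sum_add_distrib]

lemma bd_sum {β : Type} (s : Finset β) (c : β → Finset α → ZMod 2) :
    bd (∑ i ∈ s, c i) = ∑ i ∈ s, bd (c i) :=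
  funext fun τ => by
    simp only [bd, Finset.sum_apply]
    exact sum_comm

lemma bd_bd (c : Finset α → ZMod 2) : bd (bd c) = 0 :=
  funext fun τ => by
    simp only [bd, compl_insert]
    exact sym_sum z2 (fun x y => c (insert y (insert x τ))) (fun x y => by rw [insert_comm]) _

lemma bd_cone (x : α) (c : Finset α → ZMod 2) : bd (cone x c) = c + cone x (bd c) :=
  funext fun τ => by
    simp only [bd, cone, Pi.add_apply]
    by_cases hx : x ∈ τ
    · rw [if_pos hx, compl_erase, sum_insert (by simpa using hx), insert_erase hx, ← add_assoc, z2,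
        zero_add]
      refine sum_congr rfl fun y hy => ?_
      rw [if_pos (mem_insert_of_mem hx), erase_insert_of_ne]
      rintro rfl
      exact (mem_compl.mp hy) hx
    · rw [if_neg hx, add_zero, sum_eq_single x]
      · rw [if_pos (mem_insert_self _ _), erase_insert hx]
      · intro y _ hy
        rw [if_neg]
        simp [hx, hy.symm]
      · intro h
        exact absurd (mem_compl.mpr hx) h

lemma bd_ne {c : Finset α → ZMod 2} {τ : Finset α} (h : bd c τ ≠ 0) : ∃ x, c (insert x τ) ≠ 0 := by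
  obtain ⟨x, -, hx⟩ := exists_ne_zero_of_sum_ne_zero h
  exact ⟨x, hx⟩

/-- Simplices of the flag complex of `R` on the vertex set `U`. -/
def K (R : α → α → Prop) (U : α → Prop) (σ : Finset α) : Prop :=
  (∀ x ∈ σ, U x) ∧ ∀ x ∈ σ, ∀ y ∈ σ, R x y

lemma acyc {R : α → α → Prop} (hs : ∀ a b, R a b → R b a) {U : α → Prop} (T : Finset α)
    (hT : ∀ x ∈ T, ∀ y ∈ T, R x y) (hU : ∀ x ∈ T, U x) (z : Finset α → ZMod 2) (hz : bd z = 0)
    (h : ∀ σ, z σ ≠ 0 → K R U σ ∧ ∃ x ∈ T, ∀ y ∈ σ, R x y) :
    ∃ c, bd c = z ∧ ∀ σ, c σ ≠ 0 → K R U σ := by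
  classical
  induction T using Finset.induction_on generalizing z with
  | empty =>
    refine ⟨0, funext fun τ => ?_, by simp⟩
    by_contra hne
    simpa using (h τ fun e => hne (by simp [bd, e])).2
  | insert x T hx ih =>
    set w : Finset α → ZMod 2 := fun σ => if ∃ x' ∈ T, ∀ y ∈ σ, R x' y then 0 else z σ with hw
    have w1 : ∀ σ, w σ ≠ 0 → K R U σ ∧ ∀ y ∈ σ, R x y := by
      intro σ hσ
      simp only [hw] at hσ
      split_ifs at hσ with h1
      · exact absurd rfl hσ
      · obtain ⟨k1, x', k2, k3⟩ := h σ hσ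
        rcases mem_insert.mp k2 with rfl | k2
        · exact ⟨k1, k3⟩
        · exact absurd ⟨x', k2, k3⟩ h1
    have w2 : ∀ σ, (z + w) σ ≠ 0 → K R U σ ∧ ∃ x' ∈ T, ∀ y ∈ σ, R x' y := by
      intro σ hσ
      simp only [hw, Pi.add_apply] at hσ
      split_ifs at hσ with h1
      · exact ⟨(h σ (by simpa using hσ)).1, h1⟩
      · exact absurd (z2 _) hσ
    have ins : ∀ ρ σ : Finset α, x ∈ σ → σ.erase x ⊆ ρ → w ρ ≠ 0 → K R U σ := by
      intro ρ σ h1 h2 h3
      obtain ⟨⟨k1, k2⟩, k3⟩ := w1 ρ h3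
      have cs : ∀ y ∈ σ, y = x ∨ y ∈ ρ := fun y hy => by
        by_cases e : y = x
        · exact Or.inl e
        · exact Or.inr (h2 (mem_erase.mpr ⟨e, hy⟩))
      refine ⟨fun y hy => ?_, fun y hy y' hy' => ?_⟩
      · rcases cs y hy with rfl | e
        · exact hU _ (mem_insert_self _ _)
        · exact k1 y e
      · rcases cs y hy with rfl | e <;> rcases cs y' hy' with rfl | e'
        · exact hT _ (mem_insert_self _ _) _ (mem_insert_self _ _)
        · exact k3 _ e'
        · exact hs _ _ (k3 _ e)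
        · exact k2 _ e _ e'
    obtain ⟨c, c1, c3⟩ := ih (fun a ha b hb => hT a (mem_insert_of_mem ha) b (mem_insert_of_mem hb))
      (fun a ha => hU a (mem_insert_of_mem ha)) (z + bd (cone x w))
      (by rw [bd_add, hz, bd_bd, add_zero]) (fun σ hσ => by
        rw [bd_cone, ← add_assoc, Pi.add_apply] at hσ
        by_cases h1 : (z + w) σ = 0
        · rw [h1, zero_add] at hσ
          unfold cone at hσ
          split_ifs at hσ with h2
          · obtain ⟨y, hy⟩ := bd_ne hσ
            refine ⟨ins _ σ h2 (subset_insert _ _) hy, ?_⟩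
            rw [← zero_add (bd w), ← hz, ← bd_add] at hσ
            obtain ⟨y', hy'⟩ := bd_ne hσ
            obtain ⟨-, x', k1, k2⟩ := w2 _ hy'
            refine ⟨x', k1, fun u hu => ?_⟩
            by_cases e : u = x
            · exact e ▸ hT _ (mem_insert_of_mem k1) _ (mem_insert_self _ _)
            · exact k2 u (mem_insert_of_mem (mem_erase.mpr ⟨e, hu⟩))
          · exact absurd rfl hσ
        · exact w2 σ h1)
    refine ⟨c + cone x w, by rw [bd_add, c1, add_assoc, c2, add_zero], fun σ hσ => ?_⟩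
    by_cases h1 : c σ = 0
    · rw [Pi.add_apply, h1, zero_add] at hσ
      unfold cone at hσ
      split_ifs at hσ with h2
      · exact ins _ σ h2 subset_rfl hσ
      · exact absurd rfl hσ
    · exact c3 σ h1

/-- `b` is a nonnegative combination of the columns indexed by `σ`. -/
def Cn {W : Type} [AddCommGroup W] [Module ℝ W] {ι : Type} (a : ι → W) (b : W) (σ : Finset ι) : Prop :=
  ∃ l : ι → ℝ, (∀ e, 0 ≤ l e) ∧ ∑ e ∈ σ, l e • a e = b

open Classical in
lemma pivot {W : Type} [AddCommGroup W] [Module ℝ W] {ι : Type} [DecidableEq ι] (a : ι → W) (b : W)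
    (ρ : Finset ι) (φ : W →ₗ[ℝ] ℝ) (hφ : ∀ e ∈ ρ, 0 < φ (a e))
    (gen : ∀ j ∈ ρ, ∀ k ∈ ρ, j ≠ k → ∀ l : ι → ℝ, l j = 0 → l k = 0 → ∑ e ∈ ρ, l e • a e ≠ b)
    (dep : ∃ ν : ι → ℝ, (∃ e ∈ ρ, ν e ≠ 0) ∧ ∑ e ∈ ρ, ν e • a e = 0) :
    ∑ j ∈ ρ, (if Cn a b (ρ.erase j) then (1 : ZMod 2) else 0) = 0 := by
  have cn : ∀ j ∈ ρ, Cn a b (ρ.erase j) ↔
      ∃ l : ι → ℝ, (∀ e ∈ ρ, 0 ≤ l e) ∧ l j = 0 ∧ ∑ e ∈ ρ, l e • a e = b := by
    intro j hj
    constructor
    · rintro ⟨l, h1, h2⟩
      refine ⟨fun e => if e = j then 0 else l e, fun e _ => by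
        dsimp only; split_ifs <;> simp [h1], by simp, ?_⟩
      rw [← add_sum_erase _ _ hj, ← h2]
      simp only [if_true, zero_smul, zero_add]
      exact sum_congr rfl fun e he => by rw [if_neg (ne_of_mem_erase he)]
    · rintro ⟨l, h1, h2, h3⟩
      refine ⟨fun e => max (l e) 0, fun e => le_max_right _ _, ?_⟩
      rw [← h3, ← add_sum_erase _ _ hj, h2, zero_smul, zero_add]
      exact sum_congr rfl fun e he => by simp only [max_eq_left (h1 e (mem_of_mem_erase he))]
  by_cases h0 : ∃ j ∈ ρ, Cn a b (ρ.erase j)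
  swap
  · exact sum_eq_zero fun j hj => if_neg fun h => h0 ⟨j, hj, h⟩
  obtain ⟨j0, m0, h0⟩ := h0
  obtain ⟨l, l1, l2, l3⟩ := (cn j0 m0).mp h0
  have comb : ∀ (x y : ι → ℝ) (t : ℝ), ∑ e ∈ ρ, (x e + t * y e) • a e =
      ∑ e ∈ ρ, x e • a e + t • ∑ e ∈ ρ, y e • a e := by
    intro x y t
    rw [smul_sum, ← sum_add_distrib]
    exact sum_congr rfl fun e _ => by rw [add_smul, mul_smul]
  have uq : ∀ ν : ι → ℝ, ν j0 = 0 → ∑ e ∈ ρ, ν e • a e = 0 → ∀ e ∈ ρ, ν e = 0 := by
    intro ν n1 n2 k hk
    by_contra hne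
    refine gen j0 m0 k hk (by rintro rfl; exact hne n1) (fun e => l e + (-(l k / ν k)) * ν e)
      (by simp [l2, n1]) (by field_simp; ring) ?_
    rw [comb, l3, n2, smul_zero, add_zero]
  obtain ⟨ν0, ⟨e0, me0, ne0⟩, n0⟩ := dep
  have nj : ν0 j0 ≠ 0 := fun h => ne0 (uq ν0 h n0 e0 me0)
  obtain ⟨ν, n1, n2⟩ : ∃ ν : ι → ℝ, ν j0 = 1 ∧ ∑ e ∈ ρ, ν e • a e = 0 :=
    ⟨fun e => 0 + (ν0 j0)⁻¹ * ν0 e, by simp [nj], by rw [comb, n0]; simp⟩
  have neg : (ρ.filter fun e => ν e < 0).Nonempty := by
    by_contra hne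
    have h1 : ∀ e ∈ ρ, 0 ≤ ν e := fun e he => not_lt.mp fun h => hne ⟨e, mem_filter.mpr ⟨he, h⟩⟩
    have h2 := congrArg φ n2
    rw [map_sum, map_zero] at h2
    refine absurd h2 (sum_pos' (fun e he => ?_) ⟨j0, m0, ?_⟩).ne'
    · rw [map_smul]
      exact mul_nonneg (h1 e he) (hφ e he).le
    · rw [map_smul, n1, one_smul]
      exact hφ j0 m0
  obtain ⟨j1, m1, hmin⟩ := exists_min_image _ (fun e => l e / -ν e) neg
  obtain ⟨m1, v1⟩ := mem_filter.mp m1
  have j01 : j0 ≠ j1 := by
    rintro rfl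
    linarith
  have z1 : l j1 + l j1 / -ν j1 * ν j1 = 0 := by
    have := v1.ne
    field_simp
    ring
  have t0 : 0 ≤ l j1 / -ν j1 := div_nonneg (l1 j1 m1) (by linarith)
  have key : ∀ j ∈ ρ, Cn a b (ρ.erase j) ↔ j = j0 ∨ j = j1 := by
    intro j hj
    constructor
    · intro h
      obtain ⟨l', p1, p2, p3⟩ := (cn j hj).mp h
      have p4 := uq (fun e => (l' e + (-1) * l e) + (-l' j0) * ν e) (by simp [l2, n1])
        (by rw [comb, comb, p3, l3, n2]; simp)
      by_contra hne
      push Not at hne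
      have p5 : l j ≠ 0 := fun e => gen j0 m0 j hj hne.1.symm l l2 e l3
      have p6 := p4 j hj
      have p7 := p4 j1 m1
      simp only [p2] at p6 p7
      have p8 : 0 < l j := lt_of_le_of_ne (l1 j hj) p5.symm
      have p9 : ν j < 0 := by
        by_contra hh
        nlinarith [p1 j0 m0]
      have q1 := hmin j (mem_filter.mpr ⟨hj, p9⟩)
      have q2 : l j / -ν j = l' j0 := by
        rw [div_eq_iff (by linarith)]
        linarith
      have q3 : l' j0 ≤ l j1 / -ν j1 := by
        rw [le_div_iff₀ (by linarith)]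
        linarith [p1 j1 m1]
      refine gen j hj j1 m1 hne.2 l' p2 ?_ p3
      have q4 : l' j0 = l j1 / -ν j1 := le_antisymm q3 (q2 ▸ q1)
      rw [q4] at p7
      linarith
    · rintro (rfl | rfl)
      · exact h0
      · refine (cn j hj).mpr ⟨fun e => l e + l j / -ν j * ν e, fun e he => ?_, z1,
          by rw [comb, l3, n2]; simp⟩
        by_cases hn : ν e < 0
        · have := hmin e (mem_filter.mpr ⟨he, hn⟩)
          rw [le_div_iff₀ (by linarith)] at this
          linarith
        · exact add_nonneg (l1 e he) (mul_nonneg t0 (not_lt.mp hn))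
  rw [sum_congr rfl (g := fun j => (if j = j0 then (1 : ZMod 2) else 0) + if j = j1 then 1 else 0)
    fun j hj => by
      rw [if_congr (key j hj) rfl rfl]
      by_cases e : j = j0
      · simp [e, j01]
      · simp [e], sum_add_distrib]
  simp [m0, m1, z2]

lemma sum_bd (F : Finset α → ZMod 2) (c : Finset α → ZMod 2) :
    ∑ τ, F τ * bd c τ = ∑ ρ, (∑ x ∈ ρ, F (ρ.erase x)) * c ρ := by
  simp only [bd, mul_sum, sum_mul]
  rw [sum_sigma', sum_sigma']
  refine sum_bij' (fun p _ => ⟨insert p.2 p.1, p.2⟩) (fun p _ => ⟨p.1.erase p.2, p.2⟩) ?_ ?_ ?_ ?_ ?_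
  · simp
  · simp
  · rintro ⟨τ, x⟩ h
    simp only [mem_sigma, mem_univ, mem_compl, true_and] at h
    simp [erase_insert h]
  · rintro ⟨τ, x⟩ h
    simp only [mem_sigma, mem_univ, true_and] at h
    simp [insert_erase h]
  · rintro ⟨τ, x⟩ h
    simp only [mem_sigma, mem_univ, mem_compl, true_and] at h
    simp [erase_insert h]

lemma sum_cone (F : Finset α → ZMod 2) (x : α) (c : Finset α → ZMod 2) :
    ∑ σ, F σ * cone x c σ = ∑ τ, (if x ∉ τ then F (insert x τ) else 0) * c τ := by
  have e1 : ∀ σ, F σ * cone x c σ = if x ∈ σ then F σ * c (σ.erase x) else 0 := fun σ => by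
    unfold cone
    split_ifs <;> simp
  simp only [ite_mul, zero_mul]
  rw [sum_congr rfl fun σ _ => e1 σ, ← sum_filter, ← sum_filter]
  refine sum_bij' (fun σ _ => σ.erase x) (fun τ _ => insert x τ) ?_ ?_ ?_ ?_ ?_
  · simp
  · simp
  · intro σ h
    exact insert_erase (by simpa using h)
  · intro σ h
    exact erase_insert (by simpa using h)
  · intro σ h
    rw [insert_erase (by simpa using h)]

variable {V : Type} [Fintype V] [DecidableEq V]

/-- Incidence vector of an edge or a loop. -/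
def col (e : Sym2 V) : V → ℝ := fun k => if k ∈ e then 1 else 0

/-- Restriction of a vector to a set of coordinates. -/
def res (b : V → ℝ) (S : Finset V) : V → ℝ := fun k => if k ∈ S then b k else 0

open Classical in
/-- Indicator of feasible bases. -/
noncomputable def fs (b : V → ℝ) (S : Finset V) (σ : Finset (Sym2 V)) : ZMod 2 :=
  if σ.card = S.card ∧ Cn col (res b S) σ then 1 else 0

/-- Genericity. -/
def Gen (b : V → ℝ) : Prop :=
  ∀ σ : Finset (Sym2 V), σ.card < Fintype.card V → b ∉ Submodule.span ℝ (col '' (σ : Set (Sym2 V)))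

lemma col_loop (i : V) : col s(i, i) = Pi.single i 1 :=
  funext fun k => by simp [col, Pi.single_apply]

lemma fs_bd {b : V → ℝ} (hb : Gen b) (S : Finset V) (ρ : Finset (Sym2 V))
    (h : ∀ e ∈ ρ, ∀ k ∈ e, k ∈ S) : ∑ x ∈ ρ, fs b S (ρ.erase x) = 0 := by
  classical
  by_cases hc : ρ.card = S.card + 1
  swap
  · refine sum_eq_zero fun x hx => if_neg fun k => hc ?_
    rw [← k.1, card_erase_add_one hx]
  refine Eq.trans ?_ (pivot col (res b S) ρ (∑ k, LinearMap.proj k) (fun e _ => ?_)
    (fun j hj k hk hjk l l1 l2 e => ?_) ?_)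
  · refine sum_congr rfl fun x hx => ?_
    unfold fs
    simp [card_erase_of_mem hx, hc]
  · simp only [LinearMap.coe_sum, Finset.sum_apply, LinearMap.proj_apply]
    refine sum_pos' (fun k _ => by unfold col; split_ifs <;> simp) ⟨e.out.1, mem_univ _, ?_⟩
    simp [col, Sym2.out_fst_mem]
  · refine hb ((ρ.erase j).erase k ∪ Sᶜ.image fun i => s(i, i)) ?_ ?_
    · have h1 := card_union_le ((ρ.erase j).erase k) (Sᶜ.image fun i => s(i, i))
      have h2 := card_image_le (s := Sᶜ) (f := fun i => s(i, i))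
      have h3 := card_erase_add_one hj
      have h4 := card_erase_add_one (mem_erase.mpr ⟨hjk.symm, hk⟩)
      have h5 := card_add_card_compl S
      omega
    · have e2 : b = res b S + ∑ i ∈ Sᶜ, b i • col s(i, i) := funext fun i => by
        simp only [res, col_loop, Pi.add_apply, Finset.sum_apply, Pi.smul_apply, Pi.single_apply,
          smul_eq_mul, mul_ite, mul_one, mul_zero, sum_ite_eq, mem_compl]
        split_ifs <;> simp
      rw [e2, ← e]
      refine Submodule.add_mem _ (Submodule.sum_mem _ fun x hx => ?_)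
        (Submodule.sum_mem _ fun i hi => Submodule.smul_mem _ _ (Submodule.subset_span
          ⟨_, mem_coe.mpr (mem_union_right _ (mem_image_of_mem _ hi)), rfl⟩))
      by_cases h1 : x = j ∨ x = k
      · rcases h1 with rfl | rfl <;> simp [l1, l2]
      · push Not at h1
        exact Submodule.smul_mem _ _ (Submodule.subset_span ⟨x, by simp [h1, hx], rfl⟩)
  · have : ¬ LinearIndependent ℝ fun (e : ρ) (k : S) => col e.1 k.1 := fun hl => by
      have := hl.fintype_card_le_finrank
      simp at this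
      omega
    obtain ⟨g, g1, i, g2⟩ := Fintype.not_linearIndependent_iff.mp this
    refine ⟨fun e => if h : e ∈ ρ then g ⟨e, h⟩ else 0, ⟨i.1, i.2, by simpa using g2⟩, funext fun k => ?_⟩
    rw [← sum_coe_sort]
    by_cases hk : k ∈ S
    · simpa using congrFun g1 ⟨k, hk⟩
    · simp only [Finset.sum_apply, Pi.smul_apply, Pi.zero_apply]
      exact sum_eq_zero fun e _ => by simp [col, show k ∉ e.1 from fun k1 => hk (h e.1 e.2 k k1)]

lemma fs_miss {b : V → ℝ} (h0 : ∀ k, 0 < b k) {S : Finset V} {σ : Finset (Sym2 V)} {j : V} (hj : j ∈ S)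
    (h : ∀ e ∈ σ, j ∉ e) : fs b S σ = 0 := by
  refine if_neg ?_
  rintro ⟨-, l, -, e⟩
  have := congrFun e j
  simp only [Finset.sum_apply, Pi.smul_apply, res, if_pos hj] at this
  rw [sum_eq_zero fun x hx => by simp [col, h x hx]] at this
  exact (h0 j).ne this

lemma fs_loop {b : V → ℝ} (h0 : ∀ k, 0 < b k) {S : Finset V} {τ : Finset (Sym2 V)} {i : V} (hi : i ∈ S)
    (h : ∀ e ∈ τ, i ∉ e) : fs b S (insert s(i, i) τ) = fs b (S.erase i) τ := by
  classical
  have n : s(i, i) ∉ τ := fun k => h _ k (by simp)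
  have e2 : res b S = b i • col s(i, i) + res b (S.erase i) := funext fun k => by
    by_cases e : k = i <;> simp [res, col, e, hi]
  unfold fs
  refine if_congr (and_congr ?_ ⟨?_, ?_⟩) rfl rfl
  · rw [card_insert_of_notMem n, ← card_erase_add_one hi]
    simp
  · rintro ⟨l, l1, l2⟩
    refine ⟨l, l1, ?_⟩
    rw [sum_insert n] at l2
    have := congrFun l2 i
    simp only [Pi.add_apply, Finset.sum_apply, Pi.smul_apply, res, if_pos hi] at this
    rw [sum_eq_zero fun x hx => by simp [col, h x hx]] at this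
    simp [col] at this
    rw [e2, this] at l2
    exact add_left_cancel l2
  · rintro ⟨l, l1, l2⟩
    refine ⟨fun e => if e = s(i, i) then b i else l e, fun e => by
      dsimp only; split_ifs; exacts [(h0 i).le, l1 e], ?_⟩
    rw [sum_insert n, e2, ← l2]
    simp only [if_true]
    congr 1
    exact sum_congr rfl fun x hx => by rw [if_neg (by rintro rfl; exact n hx)]

lemma degree {b : V → ℝ} (hb : Gen b) (h0 : ∀ k, 0 < b k) (d : Finset V → Finset (Sym2 V) → ZMod 2)
    (d0 : d ∅ = Pi.single ∅ 1) (d1 : ∀ S, S ≠ ∅ → bd (d S) = ∑ i ∈ S, d (S.erase i))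
    (d2 : ∀ S σ, d S σ ≠ 0 → ∀ e ∈ σ, ∀ k ∈ e, k ∈ S) (S : Finset V) :
    ∑ σ, fs b S σ * d S σ = 1 := by
  induction S using Finset.induction_on with
  | empty =>
    rw [d0, sum_eq_single ∅ (fun σ _ h => by simp [h]) (by simp)]
    simp only [Pi.single_eq_same, mul_one]
    exact if_pos ⟨rfl, 0, by simp, funext fun k => by simp [res]⟩
  | insert i S hi ih =>
    have e1 := sum_bd (fs b (insert i S)) (cone s(i, i) (d (insert i S)))
    have e2 : ∀ ρ, (∑ x ∈ ρ, fs b (insert i S) (ρ.erase x)) *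
        cone s(i, i) (d (insert i S)) ρ = 0 := fun ρ => by
      by_cases k : cone s(i, i) (d (insert i S)) ρ = 0
      · rw [k, mul_zero]
      · rw [fs_bd hb _ _ fun e he u hu => ?_, zero_mul]
        unfold cone at k
        split_ifs at k with k1
        · by_cases k2 : e = s(i, i)
          · simp_all
          · exact d2 _ _ k e (mem_erase.mpr ⟨k2, he⟩) _ hu
        · exact absurd rfl k
    simp only [e2, sum_const_zero] at e1
    rw [bd_cone, d1 _ (insert_ne_empty _ _)] at e1
    simp only [Pi.add_apply, mul_add, sum_add_distrib] at e1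
    rw [← ih, eq_neg_of_add_eq_zero_left e1, CharTwo.neg_eq, sum_cone]
    simp only [Finset.sum_apply, mul_sum]
    rw [sum_comm, sum_insert hi, erase_insert hi, sum_eq_zero (s := S) fun j hj => ?_, add_zero]
    · refine sum_congr rfl fun τ _ => ?_
      by_cases k : d S τ = 0
      · simp [k]
      · rw [if_pos fun k1 => hi (d2 _ _ k _ k1 _ (by simp)),
          fs_loop h0 (mem_insert_self _ _) fun e he k1 => hi (d2 _ _ k e he _ k1), erase_insert hi]
    · refine sum_eq_zero fun τ _ => ?_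
      by_cases k : d ((insert i S).erase j) τ = 0
      · simp [k]
      · rw [fs_miss h0 (mem_insert_of_mem hj) fun e he k1 => ?_]
        · simp
        rcases mem_insert.mp he with rfl | he
        · rw [Sym2.mem_iff, or_self] at k1
          exact hi (k1 ▸ hj)
        · simpa using d2 _ _ k e he _ k1

lemma exists_gen (δ : ℝ) (hδ : 0 < δ) : ∃ b : V → ℝ, Gen b ∧ ∀ k, 1 < b k ∧ b k < 1 + δ := by
  have hd : Dense (⋂ σ : {σ : Finset (Sym2 V) // σ.card < Fintype.card V},
      ((Submodule.span ℝ (col '' (σ.1 : Set (Sym2 V))) : Submodule ℝ (V → ℝ)) : Set (V → ℝ))ᶜ) := by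
    refine dense_iInter_of_isOpen (fun σ => (Submodule.closed_of_finiteDimensional _).isOpen_compl)
      fun σ => ?_
    rw [← interior_eq_empty_iff_dense_compl]
    by_contra hne
    have h1 := Submodule.eq_top_of_nonempty_interior' _ (Set.nonempty_iff_ne_empty.mpr hne)
    classical
    have h2 := finrank_span_finset_le_card (R := ℝ) (σ.1.image col)
    have h3 := card_image_le (s := σ.1) (f := col)
    have h4 := σ.2
    rw [Set.finrank, coe_image, h1, finrank_top, Module.finrank_fintype_fun_eq_card] at h2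
    omega
  obtain ⟨b, h1, h2⟩ := hd.inter_open_nonempty (Set.pi Set.univ fun _ => Set.Ioo 1 (1 + δ))
    (isOpen_set_pi Set.finite_univ fun _ _ => isOpen_Ioo)
    ⟨fun _ => 1 + δ / 2, fun _ _ => ⟨by linarith, by linarith⟩⟩
  exact ⟨b, fun σ hσ => Set.mem_iInter.mp h2 ⟨σ, hσ⟩, fun k => h1 k trivial⟩

theorem perm {R : Sym2 V → Sym2 V → Prop} (hs : ∀ e f, R e f → R f e)
    (h1 : ∀ v w w', R s(v, w) s(v, w'))
    (h2 : ∀ (S : Finset V), ∀ v ∈ S, ∀ σ, K R (fun e => ∀ k ∈ e, k ∈ S) σ →
      ∃ w ∈ S, ∀ e ∈ σ, R s(v, w) e) :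
    ∃ π : Equiv.Perm V, ∀ v w, R s(v, π v) s(w, π w) := by
  classical
  have ex : ∀ n, ∃ d : Finset V → Finset (Sym2 V) → ZMod 2, d ∅ = Pi.single ∅ 1 ∧
      ∀ S, S.card ≤ n → (S ≠ ∅ → bd (d S) = ∑ i ∈ S, d (S.erase i)) ∧
        ∀ σ, d S σ ≠ 0 → K R (fun e => ∀ k ∈ e, k ∈ S) σ := by
    intro n
    induction n with
    | zero =>
      refine ⟨fun _ => Pi.single ∅ 1, rfl, fun S hS => ⟨fun h => absurd (by simpa using hS) h,
        fun σ hσ => ?_⟩⟩
      have : σ = ∅ := by
        by_contra k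
        simp [k] at hσ
      simp [this, K]
    | succ n ih =>
      obtain ⟨d, d0, d1⟩ := ih
      have st : ∀ S : Finset V, S.card = n + 1 → ∃ c, bd c = ∑ i ∈ S, d (S.erase i) ∧
          ∀ σ, c σ ≠ 0 → K R (fun e => ∀ k ∈ e, k ∈ S) σ := by
        intro S hS
        obtain ⟨v, hv⟩ := card_pos.mp (by omega : 0 < S.card)
        have ce : ∀ i ∈ S, (S.erase i).card ≤ n := fun i hi => by
          have := card_erase_add_one hi
          omega
        refine acyc hs (S.image fun w => s(v, w)) ?_ ?_ _ ?_ fun σ hσ => ?_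
        · simp only [mem_image]
          rintro _ ⟨w, -, rfl⟩ _ ⟨w', -, rfl⟩
          exact h1 v w w'
        · simp only [mem_image]
          rintro _ ⟨w, hw, rfl⟩ k hk
          rcases Sym2.mem_iff.mp hk with rfl | rfl <;> assumption
        · rw [bd_sum, ← sym_sum c2 (fun i j => d ((S.erase i).erase j))
            (fun i j => by rw [erase_right_comm]) S]
          refine sum_congr rfl fun i hi => ?_
          by_cases e : S.erase i = ∅
          · rw [e, d0, sum_empty]
            exact funext fun τ => sum_eq_zero fun x _ => by simp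
          · exact (d1 _ (ce i hi)).1 e
        · rw [Finset.sum_apply] at hσ
          obtain ⟨i, hi, k⟩ := exists_ne_zero_of_sum_ne_zero hσ
          obtain ⟨k1, k2⟩ := (d1 _ (ce i hi)).2 σ k
          have k3 : K R (fun e => ∀ k ∈ e, k ∈ S) σ :=
            ⟨fun e he u hu => mem_of_mem_erase (k1 e he u hu), k2⟩
          obtain ⟨w, hw, k4⟩ := h2 S v hv σ k3
          exact ⟨k3, _, mem_image_of_mem _ hw, k4⟩
      choose c c1 c3 using st
      refine ⟨fun S => if h : S.card = n + 1 then c S h else d S, by simp [d0], fun S hS => ?_⟩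
      have e : ∑ i ∈ S, (if h : (S.erase i).card = n + 1 then c _ h else d (S.erase i)) =
          ∑ i ∈ S, d (S.erase i) := sum_congr rfl fun i hi => dif_neg (by
        have := card_erase_add_one hi
        omega)
      simp only [e]
      split_ifs with h
      · exact ⟨fun _ => c1 S h, c3 S h⟩
      · exact d1 S (by omega)
  obtain ⟨d, d0, d1⟩ := ex (Fintype.card V)
  obtain ⟨b, hb, b1⟩ := exists_gen (V := V) (1 / (Fintype.card V + 1)) (by positivity)
  have := degree hb (fun k => by linarith [(b1 k).1]) d d0 (fun S => (d1 S (card_le_univ S)).1)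
    (fun S σ h => ((d1 S (card_le_univ S)).2 σ h).1) univ
  obtain ⟨σ, -, hσ⟩ := exists_ne_zero_of_sum_ne_zero (this ▸ one_ne_zero)
  have k1 := ((d1 _ (card_le_univ _)).2 σ (right_ne_zero_of_mul hσ)).2
  obtain ⟨-, l, l1, l2⟩ : σ.card = (univ : Finset V).card ∧ Cn col (res b univ) σ := by
    by_contra k
    exact left_ne_zero_of_mul hσ (if_neg k)
  obtain ⟨f, f1, f2⟩ := (all_card_le_biUnion_card_iff_exists_injective
      (fun v => univ.filter fun w => s(v, w) ∈ σ)).mp fun A => by
    set N := A.biUnion fun v => univ.filter fun w => s(v, w) ∈ σ with hN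
    have sb : ∀ B : Finset V, ∑ k ∈ B, b k = ∑ e ∈ σ, l e * ∑ k ∈ B, col e k := fun B => by
      simp only [mul_sum]
      rw [sum_comm]
      exact sum_congr rfl fun k _ => by simpa [res] using (congrFun l2 k).symm
    have le : ∑ k ∈ A, b k ≤ ∑ k ∈ N, b k := by
      rw [sb, sb]
      refine sum_le_sum fun e he => mul_le_mul_of_nonneg_left ?_ (l1 e)
      simp only [col, sum_boole, Nat.cast_le]
      refine card_le_card_of_injOn (fun k => if h : k ∈ e then Sym2.Mem.other h else k)
        (fun k hk => ?_) fun k hk k' hk' e1 => ?_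
      · obtain ⟨m1, m2⟩ := mem_filter.mp hk
        simp only [dif_pos m2, coe_filter, Set.mem_ofPred_eq]
        exact ⟨mem_biUnion.mpr ⟨k, m1, by simp [he]⟩, Sym2.other_mem m2⟩
      · obtain ⟨-, m2⟩ := mem_filter.mp hk
        obtain ⟨-, m3⟩ := mem_filter.mp hk'
        simp only [dif_pos m2, dif_pos m3] at e1
        have := (Sym2.other_spec m2).trans (Sym2.other_spec m3).symm
        rw [e1] at this
        exact Sym2.congr_left.mp this
    have a1 : (A.card : ℝ) ≤ ∑ k ∈ A, b k := by
      simpa using sum_le_sum (s := A) fun k _ => (b1 k).1.le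
    have a2 : ∑ k ∈ N, b k ≤ N.card * (1 + 1 / (Fintype.card V + 1)) := by
      simpa [mul_add] using sum_le_sum (s := N) fun k _ => (b1 k).2.le
    have a3 : (N.card : ℝ) * (1 / (Fintype.card V + 1)) < 1 := by
      rw [mul_one_div, div_lt_one (by positivity)]
      exact_mod_cast Nat.lt_succ_of_le (card_le_univ N)
    have : (A.card : ℝ) < N.card + 1 := by linarith
    exact Nat.lt_succ_iff.mp (by exact_mod_cast this)
  exact ⟨Equiv.ofBijective f (Finite.injective_iff_bijective.mp f1), fun v w =>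
    k1 _ (by simpa using f2 v) _ (by simpa using f2 w)⟩

end Pool.Agent.Lib.MP_3764f3_co.DC
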