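import Pool.Agent.Lib.MP_3764f3_co.DMain

/-! Corollary: linearly many pairwise disjoint edges. -/

set_option autoImplicit false

namespace Pool.Agent.Lib.MP_3764f3_co.LT

open Finset

lemma third {V : Type} [Fintype V] [DecidableEq V] (π : Equiv.Perm V) :
    ∃ M : Finset V, Fintype.card V ≤ 3 * M.card ∧
      ∀ v ∈ M, ∀ w ∈ M, v ≠ w → π v ≠ w := by
  obtain ⟨M, hM, hmax⟩ := exists_max_image
    (univ.filter fun M : Finset V => ∀ v ∈ M, ∀ w ∈ M, v ≠ w → π v ≠ w) card ⟨∅, by simp⟩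
  have hM := (mem_filter.mp hM).2
  refine ⟨M, ?_, hM⟩
  have sub : univ ⊆ M ∪ M.image π ∪ M.image π.symm := fun x _ => by
    by_contra hx
    simp only [mem_union, mem_image, not_or, not_exists, not_and] at hx
    have := hmax (insert x M) (mem_filter.mpr ⟨mem_univ _, fun v hv w hw h e => by
      rcases mem_insert.mp hv with rfl | h1 <;> rcases mem_insert.mp hw with rfl | h2
      · exact h rfl
      · exact hx.2 w h2 (by rw [← e]; simp)
      · exact hx.1.2 v h1 e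
      · exact hM v h1 w h2 h e⟩)
    rw [card_insert_of_notMem hx.1.1] at this
    omega
  have h1 := card_le_card sub
  have h2 := card_union_le (M ∪ M.image π) (M.image π.symm)
  have h3 := card_union_le M (M.image π)
  have h4 := card_image_le (s := M) (f := π)
  have h5 := card_image_le (s := M) (f := π.symm)
  rw [card_univ] at h1
  omega

theorem disjoint_edges (n : ℕ) (hn : 2 ≤ n) (pos : Fin n → ℝ × ℝ) (c : Fin n → Fin n → ℝ → ℝ × ℝ)
    (h0 : Function.Injective pos)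
    (h1 : ∀ i j : Fin n, i < j →
      ContinuousOn (c i j) (Set.Icc 0 1) ∧ Set.InjOn (c i j) (Set.Icc 0 1) ∧
      c i j 0 = pos i ∧ c i j 1 = pos j ∧
      ∀ k : Fin n, ∀ s ∈ Set.Ioo (0:ℝ) 1, c i j s ≠ pos k)
    (h2 : ∀ i j k l : Fin n, i < j → k < l → (i, j) ≠ (k, l) →
      ∀ s ∈ Set.Ioo (0:ℝ) 1, ∀ t ∈ Set.Ioo (0:ℝ) 1, c i j s = c k l t →
        (i ≠ k ∧ i ≠ l ∧ j ≠ k ∧ j ≠ l) ∧
        (∀ s' ∈ Set.Ioo (0:ℝ) 1, ∀ t' ∈ Set.Ioo (0:ℝ) 1,
          c i j s' = c k l t' → s' = s ∧ t' = t) ∧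
        ∃ ε : ℝ, 0 < ε ∧ ∃ h : (ℝ × ℝ) ≃ₜ (ℝ × ℝ),
          h (c i j s) = 0 ∧
          (∀ u ∈ Set.Ioo (s - ε) (s + ε), (h (c i j u)).2 = 0) ∧
          (∀ u ∈ Set.Ioo (t - ε) (t + ε), (h (c k l u)).1 = 0)) :
    ∃ M : Finset (Fin n × Fin n), n ≤ 3 * M.card ∧ (∀ e ∈ M, e.1 < e.2) ∧
      ∀ e ∈ M, ∀ f ∈ M, e ≠ f → ∀ s ∈ Set.Icc (0:ℝ) 1, ∀ t ∈ Set.Icc (0:ℝ) 1,
        c e.1 e.2 s ≠ c f.1 f.2 t := by
  obtain ⟨p, G, hG, e⟩ := exists_dr pos c h0 h1 h2
  have : Nontrivial (Fin n) := Fin.nontrivial_iff_two_le.mpr hn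
  obtain ⟨π, k1, k2⟩ := hG.factor
  obtain ⟨M, m1, m2⟩ := third π
  have lt : ∀ v, min v (π v) < max v (π v) := fun v => min_lt_max.mpr (k1 v).symm
  have ds : ∀ v ∈ M, ∀ w ∈ M, v ≠ w → ∀ x, (x = min v (π v) ∨ x = max v (π v)) →
      (x = min w (π w) ∨ x = max w (π w)) → False := by
    intro v hv w hw h x a b
    have a1 := m2 v hv w hw h
    have a2 := m2 w hw v hv h.symm
    have a3 := π.injective.ne h
    grind
  refine ⟨M.image fun v => (min v (π v), max v (π v)), ?_, ?_, ?_⟩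
  · rw [card_image_of_injOn fun v hv w hw h => by
      by_contra k
      exact ds v hv w hw k _ (Or.inl rfl) (Or.inl (congrArg Prod.fst h))]
    simpa using m1
  · simp only [mem_image]
    rintro _ ⟨v, -, rfl⟩
    exact lt v
  · simp only [mem_image]
    rintro _ ⟨v, hv, rfl⟩ _ ⟨w, hw, rfl⟩ h s hs t ht e1
    have vw : v ≠ w := fun k => h (by rw [k])
    obtain ⟨-, -, a1, a2, a3⟩ := h1 _ _ (lt v)
    obtain ⟨-, -, b1, b2, b3⟩ := h1 _ _ (lt w)
    simp only at e1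
    rcases tri hs with rfl | rfl | hs <;> rcases tri ht with rfl | rfl | ht
    · exact ds v hv w hw vw _ (Or.inl rfl) (Or.inl (h0 (a1.symm.trans (e1.trans b1))))
    · exact ds v hv w hw vw _ (Or.inl rfl) (Or.inr (h0 (a1.symm.trans (e1.trans b2))))
    · exact b3 _ t ht (e1.symm.trans a1)
    · exact ds v hv w hw vw _ (Or.inr rfl) (Or.inl (h0 (a2.symm.trans (e1.trans b1))))
    · exact ds v hv w hw vw _ (Or.inr rfl) (Or.inr (h0 (a2.symm.trans (e1.trans b2))))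
    · exact b3 _ t ht (e1.symm.trans a2)
    · exact a3 _ s hs (e1.trans b1)
    · exact a3 _ s hs (e1.trans b2)
    · refine e _ _ _ _ (k1 v).symm (k1 w).symm (k2 v w fun k => ?_) s hs t ht e1
      rcases Sym2.eq_iff.mp k with l | l
      · exact vw l.1
      · exact m2 v hv w hw vw l.2

end Pool.Agent.Lib.MP_3764f3_co.LT
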