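import Pool.Agent.Lib.MP_3764f3_co.LDraw
import Pool.Agent.Lib.MP_3764f3_co.DChain

-- part Pool.Agent.Lib.MP_3764f3_co.DLoc
section

/-! The rotation at a vertex of a simple drawing and parities of winding numbers. -/

set_option autoImplicit false

namespace Pool.Agent.Lib.MP_3764f3_co.LT

open Set Complex Pool.Agent.Lib.MP_d8c195_lc

/-- `x` is an integer multiple of `2 π i`, odd exactly when `P` holds. -/
def Rl (x : ℂ) (P : Prop) : Prop := ∃ n : ℤ, x = n * (2 * Real.pi * I) ∧ (Odd n ↔ P)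

lemma Rl.add {x y : ℂ} {P Q : Prop} (h : Rl x P) (k : Rl y Q) : Rl (x + y) (¬ (P ↔ Q)) := by
  obtain ⟨n, rfl, h⟩ := h
  obtain ⟨m, rfl, k⟩ := k
  refine ⟨n + m, by push_cast; ring, ?_⟩
  rw [Int.odd_add, ← h, ← k, ← Int.not_odd_iff_even]
  tauto

lemma Rl.neg {x : ℂ} {P : Prop} (h : Rl x P) : Rl (-x) P := by
  obtain ⟨n, rfl, h⟩ := h
  exact ⟨-n, by push_cast; ring, by rw [odd_neg, h]⟩

lemma Rl.uniq {x y : ℂ} {P Q : Prop} (h : Rl x P) (k : Rl y Q) (e : x = y) : P ↔ Q := by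
  obtain ⟨n, rfl, h⟩ := h
  obtain ⟨m, e', k⟩ := k
  rw [← h, ← k, int_cancel (e.trans e')]

lemma Rl.of {x y : ℂ} {P Q : Prop} (h : Rl x P) (e : y = x) (k : P ↔ Q) : Rl y Q := by
  obtain ⟨n, rfl, h⟩ := h
  exact ⟨n, e, h.trans k⟩

lemma Rl.zero : Rl 0 False := ⟨0, by simp, by simp⟩

variable {V : Type} {pos : V → ℂ} {G : V → V → ℝ → ℂ}

lemma Dr.piece (h : Dr pos G) {k l i j : V} (hkl : k ≠ l) (hij : i ≠ j) {a b c d : ℝ} (a0 : 0 ≤ a)
    (ab : a ≤ b) (b1 : b ≤ 1) (c0 : 0 ≤ c) (cd : c ≤ d) (d1 : d ≤ 1)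
    (he : ∀ u ∈ Icc a b, ∀ w ∈ Icc c d, G k l u = G i j w →
      u ∈ Ioo a b ∧ w ∈ Ioo c d ∧ ¬ (k = i ∧ l = j) ∧ ¬ (k = j ∧ l = i)) :
    Rl (II (G k l) (G i j) a b c d) (∃ u ∈ Ioo a b, ∃ w ∈ Ioo c d, G k l u = G i j w) := by
  by_cases hx : ∃ u ∈ Icc a b, ∃ w ∈ Icc c d, G k l u = G i j w
  · obtain ⟨u, hu, w, hw, e⟩ := hx
    obtain ⟨u1, w1, n1, n2⟩ := he u hu w hw e
    have s1 := Ioo_subset_Ioo a0 b1
    have s2 := Ioo_subset_Ioo c0 d1
    obtain ⟨-, k2, k3⟩ := h.meet k l i j hkl hij n1 n2 u (s1 u1) w (s2 w1) e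
    have t : ∃ u ∈ Ioo a b, ∃ w ∈ Ioo c d, G k l u = G i j w := ⟨u, u1, w, w1, e⟩
    rcases local_deg (h.cont k l) (h.cont i j) k3 u1.1 u1.2 w1.1 w1.2 (fun u' hu' w' hw' e' =>
      k2 u' (s1 (he u' hu' w' hw' e').1) w' (s2 (he u' hu' w' hw' e').2.1) e') with e | e
    · exact ⟨1, by simp [e], iff_of_true odd_one t⟩
    · exact ⟨-1, by simp [e], iff_of_true odd_neg_one t⟩
  · exact Rl.zero.of (II_zero (h.cont k l) (h.cont i j) ab cd fun u hu w hw e => hx ⟨u, hu, w, hw, e⟩)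
      ⟨False.elim, fun ⟨u, hu, w, hw, e⟩ =>
        hx ⟨u, Ioo_subset_Icc_self hu, w, Ioo_subset_Icc_self hw, e⟩⟩

/-- Local data at the vertex `v`: exit times from a small disc and the order of exit points. -/
structure Loc (G : V → V → ℝ → ℂ) (v : V) (σ : V → ℝ) (θ : V → ℂ) (rk : V → ℕ) : Prop where
  s0 : ∀ c, c ≠ v → 0 < σ c
  s1 : ∀ c, c ≠ v → σ c < 1
  far : ∀ c i j, c ≠ v → i ≠ v → j ≠ v → i ≠ j → ∀ u ∈ Icc (0 : ℝ) 1, ∀ w ∈ Icc (0 : ℝ) 1,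
    G v c u = G i j w → σ c < u
  inj : ∀ a b, a ≠ v → b ≠ v → a ≠ b → rk a ≠ rk b
  ang : ∀ a b, a ≠ v → b ≠ v → a ≠ b →
    D (G v b) 0 (σ b) (G v a (σ a)) - D (G v a) 0 (σ a) (G v b (σ b)) =
      θ b - θ a + if rk a < rk b then -(Real.pi * I) else Real.pi * I

lemma re_pos {A Z : ℂ} (hA : A ≠ 0) (h : ‖Z‖ ≤ ‖A‖) (hne : Z ≠ A) : 0 < (1 - Z / A).re := by
  have h1 : ‖Z / A‖ ≤ 1 := by
    rw [norm_div]
    exact div_le_one_of_le₀ h (norm_nonneg _)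
  have h2 : Z / A ≠ 1 := fun e => hne ((div_eq_one_iff_eq hA).mp e)
  generalize Z / A = y at h1 h2
  rw [sub_re, one_re, sub_pos]
  refine lt_of_le_of_ne ((re_le_norm y).trans h1) fun e => h2 ?_
  have h3 := Complex.sq_norm_sub_sq_re y
  refine Complex.ext e ?_
  rw [one_im]
  nlinarith [norm_nonneg y, sq_nonneg y.im]

lemma Dr.adj (h : Dr pos G) {v a b : V} (ha : a ≠ v) (hb : b ≠ v) (hab : a ≠ b) {u w : ℝ}
    (hu : u ∈ Icc (0 : ℝ) 1) (hw : w ∈ Icc (0 : ℝ) 1) (e : G v a u = G v b w) : u = 0 ∧ w = 0 := by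
  rcases h.cases ha.symm hb.symm hu hw e with k | k | k | k | k
  · exact absurd rfl (h.meet v a v b ha.symm hb.symm (by tauto) (by tauto) u k.1 w k.2 e).1.1
  all_goals tauto

lemma Dr.loc [Fintype V] (h : Dr pos G) (v : V) : ∃ σ θ rk, Loc G v σ θ rk := by
  classical
  obtain ⟨ρ, ρ0, ρ1, ρ2⟩ : ∃ ρ > 0, (∀ c, c ≠ v → ρ < ‖pos c - pos v‖) ∧
      ∀ i j, i ≠ v → j ≠ v → i ≠ j → ∀ w ∈ Icc (0 : ℝ) 1, ρ < ‖G i j w - pos v‖ := by
    have c1 : IsClosed (pos '' {c | c ≠ v} ∪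
        ⋃ p : {p : V × V // p.1 ≠ v ∧ p.2 ≠ v ∧ p.1 ≠ p.2}, G p.1.1 p.1.2 '' Icc 0 1) :=
      (toFinite _).isClosed.union (isClosed_iUnion_of_finite fun p =>
        (isCompact_Icc.image (h.cont _ _)).isClosed)
    obtain ⟨ε, e0, e1⟩ := Metric.isOpen_iff.mp c1.isOpen_compl (pos v) (by
      rintro (⟨c, hc, e⟩ | hc)
      · exact hc (h.pinj e)
      · obtain ⟨p, w, hw, e⟩ := mem_iUnion.mp hc
        exact h.ne p.2.2.2 p.2.1 p.2.2.1 w hw e)
    refine ⟨ε / 2, half_pos e0, fun c hc => ?_, fun i j hi hj hij w hw => ?_⟩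
    · by_contra hn
      exact e1 (a := pos c) (by rw [Metric.mem_ball, dist_eq_norm]; linarith) (Or.inl ⟨c, hc, rfl⟩)
    · by_contra hn
      exact e1 (a := G i j w) (by rw [Metric.mem_ball, dist_eq_norm]; linarith)
        (Or.inr (mem_iUnion.mpr ⟨⟨(i, j), hi, hj, hij⟩, w, hw, rfl⟩))
  have ex : ∀ c, ∃ m : ℝ, c ≠ v → 0 < m ∧ m < 1 ∧ ‖G v c m - pos v‖ = ρ ∧
      ∀ u ∈ Icc 0 m, ‖G v c u - pos v‖ ≤ ρ := by
    intro c
    by_cases hc : c = v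
    · exact ⟨0, fun k => absurd hc k⟩
    have cf : Continuous fun u => ‖G v c u - pos v‖ := by
      have := h.cont v c
      fun_prop
    have f1 : ρ < ‖G v c 1 - pos v‖ := by
      rw [h.g1 (Ne.symm hc)]
      exact ρ1 c hc
    have f0 : ‖G v c 0 - pos v‖ = 0 := by simp [h.g0 v c (Ne.symm hc)]
    obtain ⟨m, ⟨m1, m2⟩, m3⟩ := (isCompact_Icc.inter_right (isClosed_le continuous_const cf) :
      IsCompact (Icc (0 : ℝ) 1 ∩ {u | ρ ≤ ‖G v c u - pos v‖})).exists_isLeast ⟨1, by simp, f1.le⟩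
    obtain ⟨u, hu, e⟩ := intermediate_value_Icc m1.1 cf.continuousOn
      (show ρ ∈ Icc _ _ from ⟨by simpa [f0] using ρ0.le, m2⟩)
    have : u = m := le_antisymm hu.2 (m3 ⟨⟨hu.1, hu.2.trans m1.2⟩, e.ge⟩)
    subst this
    simp only at e
    refine ⟨u, fun _ => ⟨lt_of_le_of_ne hu.1 ?_, lt_of_le_of_ne m1.2 ?_, e, fun w hw => ?_⟩⟩
    · rintro rfl
      linarith
    · rintro rfl
      linarith
    · by_contra hn
      have := le_antisymm hw.2 (m3 ⟨⟨hw.1, hw.2.trans m1.2⟩, (not_le.mp hn).le⟩)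
      subst this
      exact hn e.le
  choose σ hσ using ex
  set φ : V → ℝ := fun c => arg (G v c (σ c) - pos v) with hφ
  have rk : ∀ a b, (Finset.univ.filter fun d => φ d < φ a).card <
      (Finset.univ.filter fun d => φ d < φ b).card ↔ φ a < φ b := fun a b => by
    refine ⟨fun k => not_le.mp fun k1 => k.not_ge (Finset.card_le_card fun d hd => ?_),
      fun k => Finset.card_lt_card ⟨fun d hd => ?_, fun k1 => ?_⟩⟩
    · simp only [Finset.mem_filter, Finset.mem_univ, true_and] at hd ⊢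
      linarith
    · simp only [Finset.mem_filter, Finset.mem_univ, true_and] at hd ⊢
      linarith
    · simpa using k1 (x := a) (by simpa using k)
  have ne : ∀ a b, a ≠ v → b ≠ v → a ≠ b → ∀ u ∈ Icc 0 (σ b), G v b u ≠ G v a (σ a) :=
    fun a b ha hb hab u hu e => (hσ a ha).1.ne' (h.adj hb ha hab.symm
      ⟨hu.1, hu.2.trans (hσ b hb).2.1.le⟩ ⟨(hσ a ha).1.le, (hσ a ha).2.1.le⟩ e).2
  have nφ : ∀ a b, a ≠ v → b ≠ v → a ≠ b → φ a ≠ φ b := fun a b ha hb hab e =>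
    ne a b ha hb hab _ (right_mem_Icc.mpr (hσ b hb).1.le) (sub_left_inj.mp
      (ext_norm_arg ((hσ b hb).2.2.1.trans (hσ a ha).2.2.1.symm) e.symm))
  have n0 : ∀ a, a ≠ v → G v a (σ a) - pos v ≠ 0 := fun a ha e => by
    have := (hσ a ha).2.2.1
    rw [e, norm_zero] at this
    exact ρ0.ne this
  have dl : ∀ a b, a ≠ v → b ≠ v → a ≠ b → D (G v b) 0 (σ b) (G v a (σ a)) =
      log (1 - (G v b (σ b) - pos v) / (G v a (σ a) - pos v)) ∧
      0 < (1 - (G v b (σ b) - pos v) / (G v a (σ a) - pos v)).re := by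
    intro a b ha hb hab
    have k1 : ∀ u ∈ Icc 0 (σ b), 0 < (1 - (G v b u - pos v) / (G v a (σ a) - pos v)).re :=
      fun u hu => re_pos (n0 a ha) (((hσ b hb).2.2.2 u hu).trans (hσ a ha).2.2.1.ge)
        fun e => ne a b ha hb hab u hu (sub_left_inj.mp e)
    have k2 : ∀ z, -(G v a (σ a) - pos v)⁻¹ * (z - G v a (σ a)) =
        1 - (z - pos v) / (G v a (σ a) - pos v) := fun z => by
      have := n0 a ha
      field_simp
      ring
    refine ⟨?_, k1 _ (right_mem_Icc.mpr (hσ b hb).1.le)⟩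
    have := h.cont v b
    unfold D
    rw [dlog_slit (by fun_prop) (hσ b hb).1.le (-(G v a (σ a) - pos v)⁻¹) (by simpa using n0 a ha)
      fun u hu => Or.inl (by rw [k2]; exact k1 u hu), k2, k2, h.g0 v b hb.symm]
    simp
  refine ⟨σ, fun c => log (G v c (σ c) - pos v), fun c => (Finset.univ.filter fun d => φ d < φ c).card,
    fun c hc => (hσ c hc).1, fun c hc => (hσ c hc).2.1, fun c i j hc hi hj hij u hu w hw e => ?_,
    fun a b ha hb hab e => ?_, fun a b ha hb hab => ?_⟩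
  · by_contra hn
    have := (hσ c hc).2.2.2 u ⟨hu.1, not_lt.mp hn⟩
    rw [e] at this
    linarith [ρ2 i j hi hj hij w hw]
  · rcases (nφ a b ha hb hab).lt_or_gt with k | k
    · exact ((rk a b).mpr k).ne e
    · exact ((rk b a).mpr k).ne' e
  · obtain ⟨d1, d2⟩ := dl a b ha hb hab
    obtain ⟨d3, d4⟩ := dl b a hb ha hab.symm
    have k := nφ a b ha hb hab
    simp only [rk]
    rw [d1, d3]
    simp only [hφ] at k ⊢
    have na := n0 a ha
    have nb := n0 b hb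
    generalize G v a (σ a) - pos v = A at *
    generalize G v b (σ b) - pos v = B at *
    have z1 : 1 - B / A ≠ 0 := fun e => by simp [e] at d2
    have z2 : 1 - A / B ≠ 0 := fun e => by simp [e] at d4
    have z3 : B - A ≠ 0 := fun e => z2 (by rw [sub_eq_zero.mp e, div_self na, sub_self])
    have b1 := abs_lt.mp (abs_arg_lt_pi_div_two_iff.mpr (Or.inl d2))
    have b2 := abs_lt.mp (abs_arg_lt_pi_div_two_iff.mpr (Or.inl d4))
    obtain ⟨n, hn⟩ := exp_eq_exp_iff_exists_int.mp (show exp (log (1 - B / A) - log (1 - A / B)) =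
        exp (log B - log A + if arg A < arg B then -(Real.pi * I) else Real.pi * I) by
      have : exp (if arg A < arg B then -(Real.pi * I) else Real.pi * I) = -1 := by
        split_ifs
        · rw [exp_neg, exp_pi_mul_I]
          simp
        · exact exp_pi_mul_I
      rw [exp_add, this, exp_sub, exp_sub, exp_log z1, exp_log z2, exp_log na, exp_log nb,
        div_eq_iff z2]
      field_simp
      ring)
    have im := congrArg Complex.im hn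
    have p0 := Real.pi_pos
    have n1 : (-1 : ℝ) < n ∧ (n : ℝ) < 1 := by
      have a1 := neg_pi_lt_arg A
      have a2 := arg_le_pi A
      have a3 := neg_pi_lt_arg B
      have a4 := arg_le_pi B
      split_ifs at im with k1
      · simp [log_im] at im
        constructor <;> nlinarith
      · simp [log_im] at im
        have := lt_of_le_of_ne (not_lt.mp k1) k.symm
        constructor <;> nlinarith
    have : n = 0 := by
      have e1 : (-1 : ℤ) < n := by exact_mod_cast n1.1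
      have e2 : n < (1 : ℤ) := by exact_mod_cast n1.2
      omega
    simpa [this] using hn

end Pool.Agent.Lib.MP_3764f3_co.LT
end

-- part Pool.Agent.Lib.MP_3764f3_co.DWind
section

/-! Sides of the closed curve formed by two edges at a vertex and a part of a third edge. -/

set_option autoImplicit false

namespace Pool.Agent.Lib.MP_3764f3_co.LT

open Set Complex Pool.Agent.Lib.MP_d8c195_lc

variable {V : Type} {pos : V → ℂ} {G : V → V → ℝ → ℂ}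

/-- Winding of the closed curve from `v` along `v r` to the crossing, along `q p` to `p`, and back
to `v`. -/
noncomputable def Wg (G : V → V → ℝ → ℂ) (v r : V) (s : ℝ) (q p : V) (t : ℝ) (z : ℂ) : ℂ :=
  D (G v r) 0 s z + D (G q p) t 1 z - D (G v p) 0 1 z

/-- The edge `v r` crosses the edge `q p`. -/
structure Cr (G : V → V → ℝ → ℂ) (v r : V) (s : ℝ) (q p : V) (t : ℝ) : Prop where
  rv : r ≠ v
  qv : q ≠ v
  pv : p ≠ v
  qp : q ≠ p
  rq : r ≠ q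
  rp : r ≠ p
  hs : s ∈ Ioo (0 : ℝ) 1
  ht : t ∈ Ioo (0 : ℝ) 1
  eq : G v r s = G q p t

/-- `c` and `q` are separated by `r` and `p` in the rotation. -/
def St (rk : V → ℕ) (r q p c : V) : Prop :=
  ¬ (¬ (rk c < rk r ↔ rk c < rk p) ↔ ¬ (rk q < rk r ↔ rk q < rk p))

lemma Dr.mt (h : Dr pos G) {i j k l : V} (hij : i ≠ j) (hkl : k ≠ l) (n1 : ¬ (i = k ∧ j = l))
    (n2 : ¬ (i = l ∧ j = k)) {s t : ℝ} (hs : s ∈ Icc (0 : ℝ) 1) (ht : t ∈ Icc (0 : ℝ) 1)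
    (e : G i j s = G k l t) :
    s ∈ Ioo (0 : ℝ) 1 ∧ t ∈ Ioo (0 : ℝ) 1 ∧ i ≠ k ∧ i ≠ l ∧ j ≠ k ∧ j ≠ l ∨ s = 0 ∧ t = 0 ∧ i = k ∨
      s = 1 ∧ t = 0 ∧ j = k ∨ s = 0 ∧ t = 1 ∧ i = l ∨ s = 1 ∧ t = 1 ∧ j = l := by
  rcases h.cases hij hkl hs ht e with k1 | k1
  · exact Or.inl ⟨k1.1, k1.2, (h.meet i j k l hij hkl n1 n2 s k1.1 t k1.2 e).1⟩
  · exact Or.inr k1

lemma Dr.cr (h : Dr pos G) {v r q p : V} {s t : ℝ} (rv : r ≠ v) (qv : q ≠ v) (pv : p ≠ v) (qp : q ≠ p)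
    (hs : s ∈ Ioo (0 : ℝ) 1) (ht : t ∈ Ioo (0 : ℝ) 1) (e : G v r s = G q p t) : Cr G v r s q p t :=
  have k := (h.meet v r q p rv.symm qp (by tauto) (by tauto) s hs t ht e).1
  ⟨rv, qv, pv, qp, k.2.2.1, k.2.2.2, hs, ht, e⟩

variable {v r q p : V} {s t : ℝ}

lemma Cr.rev (h : Dr pos G) (c : Cr G v r s q p t) : Cr G v r s p q (1 - t) :=
  ⟨c.rv, c.pv, c.qv, c.qp.symm, c.rp, c.rq, c.hs, ⟨by linarith [c.ht.2], by linarith [c.ht.1]⟩,
    by rw [h.rev q p c.qp, sub_sub_cancel, c.eq]⟩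

lemma Cr.uq (h : Dr pos G) (c : Cr G v r s q p t) {u w : ℝ} (hu : u ∈ Icc (0 : ℝ) 1)
    (hw : w ∈ Icc (0 : ℝ) 1) (e : G v r u = G q p w) : u = s ∧ w = t := by
  have := c.rv
  have := c.qv
  have := c.pv
  have := c.rq
  have := c.rp
  rcases h.cases c.rv.symm c.qp hu hw e with k | k | k | k | k
  · exact (h.meet v r q p c.rv.symm c.qp (by tauto) (by tauto) s c.hs t c.ht c.eq).2.1 u k.1 w k.2 e
  all_goals tauto

lemma Cr.travel (h : Dr pos G) (c : Cr G v r s q p t) (e : ℝ → ℂ) (a b : ℝ) :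
    Wg G v r s q p t (e a) - Wg G v r s q p t (e b) =
      II (G v r) e 0 s a b + II (G q p) e t 1 a b + -II (G v p) e 0 1 a b := by
  simp only [II_eq, Wg, h.g0 _ _ c.rv.symm, h.g0 _ _ c.pv.symm, h.g1 c.pv.symm, h.g1 c.qp, c.eq]
  ring

lemma Cr.same (h : Dr pos G) (c : Cr G v r s q p t) {e : ℝ → ℂ} (he : Continuous e) {a b : ℝ}
    (ab : a ≤ b) (h1 : ∀ u ∈ Icc 0 s, ∀ w ∈ Icc a b, G v r u ≠ e w)
    (h2 : ∀ u ∈ Icc t 1, ∀ w ∈ Icc a b, G q p u ≠ e w)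
    (h3 : ∀ u ∈ Icc (0 : ℝ) 1, ∀ w ∈ Icc a b, G v p u ≠ e w) :
    Wg G v r s q p t (e a) = Wg G v r s q p t (e b) := by
  rw [← sub_eq_zero, c.travel h, II_zero (h.cont _ _) he c.hs.1.le ab h1,
    II_zero (h.cont _ _) he c.ht.2.le ab h2, II_zero (h.cont _ _) he zero_le_one ab h3]
  simp

lemma E_eq {e : ℝ → ℂ} (he : Continuous e) {a b : ℝ} (ab : a ≤ b) {z : ℂ}
    (h0 : ∀ u ∈ Icc a b, e u ≠ z) : E e a b z = D e a b z := by
  unfold E D
  rw [← dlog_neg (by fun_prop) ab fun u hu => sub_ne_zero.mpr (h0 u hu)]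
  simp only [neg_sub]

variable {σ : V → ℝ} {θ : V → ℂ} {rk : V → ℕ}

lemma Cr.start (h : Dr pos G) (L : Loc G v σ θ rk) (c : Cr G v r s q p t) {a : V} (av : a ≠ v)
    (ar : a ≠ r) (ap : a ≠ p) :
    Rl (Wg G v r s q p t (G v a (σ a)) - (D (G v r) (σ r) s (pos v) + D (G q p) t 1 (pos v) -
      D (G v p) (σ p) 1 (pos v) + θ r - θ p)) (¬ (rk a < rk r ↔ rk a < rk p)) := by
  have i0 := Ioo_subset_Icc_self c.hs
  have i1 := Ioo_subset_Icc_self c.ht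
  have r1 := L.far r q p c.rv c.qv c.pv c.qp s i0 t i1 c.eq
  have m : ∀ b, b ≠ v → ∀ u ∈ Icc 0 (σ b), u ∈ Icc (0 : ℝ) 1 := fun b hb u hu =>
    ⟨hu.1, hu.2.trans (L.s1 b hb).le⟩
  have ma : σ a ∈ Icc (0 : ℝ) 1 := ⟨(L.s0 a av).le, (L.s1 a av).le⟩
  have e1 := D_add (h.cont v r) (L.s0 r c.rv).le r1.le (z := G v a (σ a)) fun u hu e =>
    (L.s0 a av).ne' (h.adj c.rv av ar.symm ⟨hu.1, hu.2.trans i0.2⟩ ma e).2
  have e2 := D_add (h.cont v p) (L.s0 p c.pv).le (L.s1 p c.pv).le (z := G v a (σ a)) fun u hu e =>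
    (L.s0 a av).ne' (h.adj c.pv av ap.symm hu ma e).2
  have e3 := move (h.cont v r) (h.cont v a) r1.le ma.1 fun u hu w hw e => by
    linarith [(h.adj c.rv av ar.symm ⟨by linarith [hu.1, L.s0 r c.rv], hu.2.trans i0.2⟩
      (m a av w hw) e).1, hu.1, L.s0 r c.rv]
  have e4 := move (h.cont q p) (h.cont v a) i1.2 ma.1 fun u hu w hw e => by
    linarith [L.far a q p av c.qv c.pv c.qp w (m a av w hw) u ⟨i1.1.trans hu.1, hu.2⟩ e.symm, hw.2]
  have e5 := move (h.cont v p) (h.cont v a) (L.s1 p c.pv).le ma.1 fun u hu w hw e => by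
    linarith [(h.adj c.pv av ap.symm ⟨by linarith [hu.1, L.s0 p c.pv], hu.2⟩
      (m a av w hw) e).1, hu.1, L.s0 p c.pv]
  have e6 : ∀ b, b ≠ v → a ≠ b → E (G v a) 0 (σ a) (G v b (σ b)) = D (G v a) 0 (σ a) (G v b (σ b)) :=
    fun b hb ab => E_eq (h.cont v a) ma.1 fun u hu e => (L.s0 b hb).ne'
      (h.adj av hb ab (m a av u hu) ⟨(L.s0 b hb).le, (L.s1 b hb).le⟩ e).2
  rw [h.g0 _ _ av.symm] at e3 e4 e5
  rw [e6 r c.rv ar, c.eq] at e3
  rw [e6 p c.pv ap, h.g1 c.pv.symm] at e5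
  rw [h.g1 c.qp] at e4
  have e7 := L.ang a r av c.rv ar
  have e8 := L.ang a p av c.pv ap
  unfold Wg
  rw [e1, e2]
  split_ifs at e7 e8 with k1 k2 k2
  · exact ⟨0, by linear_combination e7 - e8 - e3 - e4 + e5, by simp [k1, k2]⟩
  · exact ⟨-1, by push_cast; linear_combination e7 - e8 - e3 - e4 + e5, by simp [k1, k2]⟩
  · exact ⟨1, by push_cast; linear_combination e7 - e8 - e3 - e4 + e5, by simp [k1, k2]⟩
  · exact ⟨0, by linear_combination e7 - e8 - e3 - e4 + e5, by simp [k1, k2]⟩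

lemma Cr.ray0 (h : Dr pos G) (L : Loc G v σ θ rk) (c : Cr G v r s q p t) {a : V} (av : a ≠ v)
    (ar : a ≠ r) (ap : a ≠ p) {u : ℝ} (u0 : σ a < u) (u1 : u ≤ 1)
    (hu : ∀ w ∈ Icc t 1, G v a u ≠ G q p w) :
    Rl (Wg G v r s q p t (G v a (σ a)) - Wg G v r s q p t (G v a u))
      (∃ w ∈ Ioo t 1, ∃ x ∈ Ioo 0 u, G q p w = G v a x) := by
  have a0 := L.s0 a av
  have m : ∀ x ∈ Icc (σ a) u, x ∈ Icc (0 : ℝ) 1 := fun x hx => ⟨a0.le.trans hx.1, hx.2.trans u1⟩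
  have m2 : ∀ x ∈ Icc t 1, x ∈ Icc (0 : ℝ) 1 := fun x hx => ⟨c.ht.1.le.trans hx.1, hx.2⟩
  have n1 : ∀ y ∈ Icc 0 s, ∀ x ∈ Icc (σ a) u, G v r y ≠ G v a x := fun y hy x hx e => by
    linarith [(h.adj c.rv av ar.symm ⟨hy.1, hy.2.trans c.hs.2.le⟩ (m x hx) e).2, hx.1]
  have n2 : ∀ y ∈ Icc (0 : ℝ) 1, ∀ x ∈ Icc (σ a) u, G v p y ≠ G v a x := fun y hy x hx e => by
    linarith [(h.adj c.pv av ap.symm hy (m x hx) e).2, hx.1]
  rw [c.travel h, II_zero (h.cont _ _) (h.cont _ _) c.hs.1.le u0.le n1,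
    II_zero (h.cont _ _) (h.cont _ _) zero_le_one u0.le n2]
  refine (h.piece c.qp av.symm c.ht.1.le c.ht.2.le le_rfl a0.le u0.le u1 fun w hw x hx e => ?_).of
    (by simp) ⟨fun ⟨w, hw, x, hx, e⟩ => ⟨w, hw, x, ⟨a0.trans hx.1, hx.2⟩, e⟩,
      fun ⟨w, hw, x, hx, e⟩ => ⟨w, hw, x, ⟨L.far a q p av c.qv c.pv c.qp x
        ⟨hx.1.le, hx.2.le.trans u1⟩ w (m2 w (Ioo_subset_Icc_self hw)) e.symm, hx.2⟩, e⟩⟩
  refine ⟨⟨lt_of_le_of_ne hw.1 ?_, lt_of_le_of_ne hw.2 ?_⟩,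
    ⟨L.far a q p av c.qv c.pv c.qp x (m x hx) w (m2 w hw) e.symm, lt_of_le_of_ne hx.2 ?_⟩,
    fun k => c.qv k.1, fun k => c.pv k.2⟩
  · rintro rfl
    exact n1 s (right_mem_Icc.mpr c.hs.1.le) x hx (c.eq.trans e)
  · rintro rfl
    exact n2 1 (by simp) x hx (by rw [h.g1 c.pv.symm, ← e, h.g1 c.qp])
  · rintro rfl
    exact hu w hw e.symm

lemma Cr.ray (h : Dr pos G) (L : Loc G v σ θ rk) (c : Cr G v r s q p t) {a : V} (av : a ≠ v)
    (ar : a ≠ r) (ap : a ≠ p) {u : ℝ} (u0 : σ a < u) (u1 : u ≤ 1)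
    (hu : ∀ w ∈ Icc t 1, G v a u ≠ G q p w) :
    Rl (Wg G v r s q p t (G v a u) - Wg G v r s q p t (pos q))
      (¬ (St rk r q p a ↔ ∃ w ∈ Ioo t 1, ∃ x ∈ Ioo 0 u, G q p w = G v a x)) := by
  have n : ∀ w ∈ Icc t 1, ∀ x ∈ Icc (0 : ℝ) 1, G v q x ≠ G q p w := fun w hw x hx e => by
    have := c.qv
    have := c.pv
    have := c.qp
    rcases h.mt c.qv.symm c.qp (by tauto) (by tauto) hx ⟨c.ht.1.le.trans hw.1, hw.2⟩ e with
      k | k | k | k | k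
    · tauto
    · tauto
    · linarith [k.2.1, hw.1, c.ht.1]
    all_goals tauto
  have e1 := c.ray0 h L c.qv c.rq.symm c.qp (L.s1 q c.qv) le_rfl fun w hw => n w hw 1 (by simp)
  rw [h.g1 c.qv.symm] at e1
  refine ((((c.start h L av ar ap).add (c.start h L c.qv c.rq.symm c.qp).neg).add
    (c.ray0 h L av ar ap u0 u1 hu).neg).add e1).of (by ring) ?_
  have : ¬ ∃ w ∈ Ioo t 1, ∃ x ∈ Ioo (0 : ℝ) 1, G q p w = G v q x := fun ⟨w, hw, x, hx, e⟩ =>
    n w (Ioo_subset_Icc_self hw) x (Ioo_subset_Icc_self hx) e.symm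
  unfold St
  generalize (rk a < rk r ↔ rk a < rk p) = A
  generalize (rk q < rk r ↔ rk q < rk p) = B
  generalize (∃ w ∈ Ioo t 1, ∃ x ∈ Ioo 0 u, G q p w = G v a x) = C
  simp only [this, iff_false, not_not]

lemma Cr.back (h : Dr pos G) (c : Cr G v r s q p t) {u : ℝ} (u0 : 0 ≤ u) (u1 : u < t) :
    Wg G v r s q p t (G q p u) = Wg G v r s q p t (pos q) := by
  have m : ∀ x ∈ Icc 0 u, x ∈ Icc (0 : ℝ) 1 := fun x hx => ⟨hx.1, by linarith [hx.2, c.ht.2]⟩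
  rw [← h.g0 _ _ c.qp]
  refine (c.same h (h.cont q p) u0 (fun y hy x hx e => ?_) (fun y hy x hx e => ?_)
    fun y hy x hx e => ?_).symm
  · linarith [(c.uq h ⟨hy.1, hy.2.trans c.hs.2.le⟩ (m x hx) e).2, hx.2]
  · linarith [h.inj q p c.qp ⟨c.ht.1.le.trans hy.1, hy.2⟩ (m x hx) e, hy.1, hx.2]
  · have := c.qv
    have := c.pv
    have := c.qp
    rcases h.mt c.pv.symm c.qp (by tauto) (by tauto) hy (m x hx) e with k | k | k | k | k
    · tauto
    · tauto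
    · tauto
    · tauto
    · linarith [k.2.1, hx.2, c.ht.2]

lemma Cr.rest (h : Dr pos G) (c : Cr G v r s q p t) {u : ℝ} (u0 : s < u) (u1 : u ≤ 1) :
    Wg G v r s q p t (G v r u) = Wg G v r s q p t (pos q) := by
  have m : ∀ x ∈ Icc u 1, x ∈ Icc (0 : ℝ) 1 := fun x hx => ⟨by linarith [hx.1, c.hs.1], hx.2⟩
  have := c.rv
  have := c.qv
  have := c.pv
  have := c.qp
  have := c.rq
  have := c.rp
  rw [c.same h (h.cont v r) u1 (fun y hy x hx e => ?_) (fun y hy x hx e => ?_) fun y hy x hx e => ?_,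
    h.g1 c.rv.symm, ← h.g0 _ _ c.rq, ← h.g1 c.rq]
  · refine c.same h (h.cont r q) zero_le_one (fun y hy x hx e => ?_) (fun y hy x hx e => ?_)
      fun y hy x hx e => ?_
    · rcases h.mt c.rv.symm c.rq (by tauto) (by tauto) ⟨hy.1, hy.2.trans c.hs.2.le⟩ hx e with
        k | k | k | k | k
      · tauto
      · tauto
      · linarith [k.1, hy.2, c.hs.2]
      all_goals tauto
    · rcases h.mt c.qp c.rq (by tauto) (by tauto) ⟨c.ht.1.le.trans hy.1, hy.2⟩ hx e with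
        k | k | k | k | k
      · tauto
      · tauto
      · tauto
      · linarith [k.1, hy.1, c.ht.1]
      · tauto
    · have c' := c.rev h
      exact h.disj c.pv.symm c.rv.symm c.qv.symm c.rp.symm c.qp.symm c.rq
        (h.nx c.pv.symm c.rq (by tauto) (by tauto) (h.l1 v r p q ((h.sII c.rv.symm c.pv.symm
          c.qv.symm c.rp c.rq c.qp.symm).2.mpr ⟨_, c'.hs, _, c'.ht, c'.eq⟩))) y hy x hx e
  · linarith [h.inj v r c.rv.symm ⟨hy.1, hy.2.trans c.hs.2.le⟩ (m x hx) e, hy.2, hx.1]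
  · linarith [(c.uq h (m x hx) ⟨c.ht.1.le.trans hy.1, hy.2⟩ e.symm).1, hx.1]
  · linarith [(h.adj c.pv c.rv c.rp.symm hy (m x hx) e).2, hx.1, c.hs.1]

lemma Cr.edge (h : Dr pos G) (c : Cr G v r s q p t) {b b' : V} {s' t' : ℝ} (c' : Cr G v p s' b b' t')
    (hX : ¬ X G q p b b') (hr : ∀ y ∈ Icc 0 s, ∀ x ∈ Icc (0 : ℝ) 1, G v r y ≠ G b b' x) {u : ℝ}
    (hu : u ∈ Icc (0 : ℝ) 1) (ut : u ≠ t') :
    Rl (Wg G v r s q p t (pos b) - Wg G v r s q p t (G b b' u)) (t' < u) := by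
  have m : ∀ x ∈ Icc 0 u, x ∈ Icc (0 : ℝ) 1 := fun x hx => ⟨hx.1, hx.2.trans hu.2⟩
  rw [← h.g0 _ _ c'.qp, c.travel h,
    II_zero (h.cont _ _) (h.cont _ _) c.hs.1.le hu.1 fun y hy x hx => hr y hy x (m x hx),
    II_zero (h.cont _ _) (h.cont _ _) c.ht.2.le hu.1 fun y hy x hx e => ?_]
  · refine (h.piece c.pv.symm c'.qp le_rfl zero_le_one le_rfl le_rfl hu.1 hu.2
      fun y hy x hx e => ?_).neg.of (by simp) ⟨fun ⟨y, hy, x, hx, e⟩ => ?_,
        fun k => ⟨s', c'.hs, t', ⟨c'.ht.1, k⟩, c'.eq⟩⟩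
    · obtain ⟨rfl, rfl⟩ := c'.uq h hy (m x hx) e
      exact ⟨c'.hs, ⟨c'.ht.1, lt_of_le_of_ne hx.2 ut.symm⟩, fun k => c'.qv k.1.symm,
        fun k => c'.pv k.1.symm⟩
    · exact (c'.uq h (Ioo_subset_Icc_self hy) (m x (Ioo_subset_Icc_self hx)) e).2 ▸ hx.2
  · have := c'.rq
    have := c'.rp
    rcases h.cases c.qp c'.qp ⟨c.ht.1.le.trans hy.1, hy.2⟩ (m x hx) e with k | k | k | k | k
    · exact hX ⟨y, k.1, x, k.2, e⟩
    · linarith [k.1, hy.1, c.ht.1]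
    · tauto
    · linarith [k.1, hy.1, c.ht.1]
    · tauto

end Pool.Agent.Lib.MP_3764f3_co.LT
end

-- part Pool.Agent.Lib.MP_3764f3_co.DRay
section

/-! A plane set of edges cannot cross all edges from a further vertex to its end points. -/

set_option autoImplicit false

namespace Pool.Agent.Lib.MP_3764f3_co.LT

open Set Complex Pool.Agent.Lib.MP_d8c195_lc

variable {V : Type} {pos : V → ℂ} {G : V → V → ℝ → ℂ}

/-- Cyclic order. -/
def cy (rk : V → ℕ) (a b c : V) : Prop :=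
  rk a < rk b ∧ rk b < rk c ∨ rk b < rk c ∧ rk c < rk a ∨ rk c < rk a ∧ rk a < rk b

/-- The vertex `a` lies inside the closed curve. -/
def In (G : V → V → ℝ → ℂ) (rk : V → ℕ) (v r q p : V) (t : ℝ) (a : V) : Prop :=
  a ≠ v ∧ a ≠ r ∧ a ≠ p ∧ ¬ (St rk r q p a ↔ ∃ w ∈ Ioo t 1, ∃ x ∈ Ioo (0 : ℝ) 1, G q p w = G v a x)

/-- The range of edges at `v` which measures the progress. -/
def Ms (G : V → V → ℝ → ℂ) (rk : V → ℕ) (v r q p : V) (t : ℝ) : Set V :=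
  {c | c ≠ v ∧ c ≠ r ∧ ∃ a, (a = p ∨ In G rk v r q p t a) ∧ (c = a ∨ (cy rk r c a ↔ cy rk r p q))}

variable {v r q p q' p' : V} {s t s' t' : ℝ} {σ : V → ℝ} {θ : V → ℂ} {rk : V → ℕ}

lemma Dr.one (h : Dr pos G) {a i j : V} (av : a ≠ v) (iv : i ≠ v) (jv : j ≠ v) (ij : i ≠ j)
    {y x y' x' : ℝ} (hy : y ∈ Icc (0 : ℝ) 1) (hx : x ∈ Icc (0 : ℝ) 1) (hy' : y' ∈ Icc (0 : ℝ) 1)
    (hx' : x' ∈ Icc (0 : ℝ) 1) (e : G v a y = G i j x) (e' : G v a y' = G i j x') :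
    y = y' ∧ x = x' := by
  rcases h.cases av.symm ij hy' hx' e' with k | k | k | k | k
  · exact (h.cr av iv jv ij k.1 k.2 e').uq h hy hx e
  · exact absurd k.2.2 iv.symm
  · rcases h.mt av.symm ij (fun k => iv k.1.symm) (fun k => jv k.1.symm) hy hx e with
      l | l | l | l | l
    · exact absurd k.2.2 l.2.2.2.2.1
    · exact absurd l.2.2 iv.symm
    · exact ⟨l.1.trans k.1.symm, l.2.1.trans k.2.1.symm⟩
    · exact absurd l.2.2 jv.symm
    · exact absurd (k.2.2.symm.trans l.2.2) ij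
  · exact absurd k.2.2 jv.symm
  · rcases h.mt av.symm ij (fun k => iv k.1.symm) (fun k => jv k.1.symm) hy hx e with
      l | l | l | l | l
    · exact absurd k.2.2 l.2.2.2.2.2
    · exact absurd l.2.2 iv.symm
    · exact absurd (l.2.2.symm.trans k.2.2) ij
    · exact absurd l.2.2 jv.symm
    · exact ⟨l.1.trans k.1.symm, l.2.1.trans k.2.1.symm⟩

lemma Cr.vtx (h : Dr pos G) (L : Loc G v σ θ rk) (c : Cr G v r s q p t) {a : V} (av : a ≠ v)
    (ap : a ≠ p) : Rl (Wg G v r s q p t (pos a) - Wg G v r s q p t (pos q)) (In G rk v r q p t a) := by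
  rw [← h.g1 av.symm]
  by_cases ar : a = r
  · subst ar
    exact Rl.zero.of (by rw [c.rest h c.hs.2 le_rfl, sub_self]) (by simp [In])
  · refine (c.ray h L av ar ap (L.s1 a av) le_rfl fun w hw e => ?_).of rfl (by simp [In, av, ar, ap])
    rcases h.vert c.qp ⟨c.ht.1.le.trans hw.1, hw.2⟩ (e.symm.trans (h.g1 av.symm)) with k | k
    · linarith [k.1, hw.1, c.ht.1]
    · exact ap k.2.symm

lemma Cr.far (h : Dr pos G) (L : Loc G v σ θ rk) (c : Cr G v r s q p t) {b : V} {s2 t2 : ℝ}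
    (c2 : Cr G v b s2 q p t2) (ht : t < t2) : r ≠ b ∧ ¬ St rk b q p r := by
  have i0 := Ioo_subset_Icc_self c.hs
  have i1 := Ioo_subset_Icc_self c.ht
  have n : r ≠ b := by
    rintro rfl
    exact ht.ne (c2.uq h i0 i1 c.eq).2
  refine ⟨n, fun k => ?_⟩
  have := (c2.ray h L c.rv n c.rp (L.far r q p c.rv c.qv c.pv c.qp s i0 t i1 c.eq) i0.2 fun w hw e => by
    linarith [(c.uq h i0 ⟨c2.ht.1.le.trans hw.1, hw.2⟩ e).2, hw.1]).uniq Rl.zero
    (by rw [c.eq, c2.back h i1.1 ht, sub_self])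
  simp only [k, true_iff, iff_false, not_not] at this
  obtain ⟨w, hw, x, hx, e⟩ := this
  linarith [(c.uq h ⟨hx.1.le, hx.2.le.trans i0.2⟩ ⟨by linarith [hw.1, c.ht.1], hw.2.le⟩ e.symm).1, hx.2]

lemma Cr.flip (h : Dr pos G) (c : Cr G v r s q p t) (c' : Cr G v p s' q' p' t')
    (hX : ¬ X G q p q' p') (hr : ∀ y ∈ Icc 0 s, ∀ x ∈ Icc (0 : ℝ) 1, G v r y ≠ G q' p' x) {y w : ℝ}
    (y0 : t' < y) (y1 : y ≤ 1) (w0 : 0 ≤ w) (w1 : w < t') :
    Rl (Wg G v r s q p t (G q' p' y) - Wg G v r s q p t (G q' p' w)) True :=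
  ((c.edge h c' hX hr ⟨c'.ht.1.le.trans y0.le, y1⟩ y0.ne').neg.add
    (c.edge h c' hX hr ⟨w0, w1.le.trans c'.ht.2.le⟩ w1.ne)).of (by ring) (by simp [y0, w1.le])

lemma Cr.off (h : Dr pos G) (c : Cr G v r s q p t) (c' : Cr G v p s' q' p' t')
    (hX : ¬ X G q p q' p') {x : ℝ} (hx : x ∈ Icc (0 : ℝ) 1) : ∀ w ∈ Icc t 1, G q' p' x ≠ G q p w := by
  intro w hw e
  rcases h.cases c.qp c'.qp ⟨c.ht.1.le.trans hw.1, hw.2⟩ hx e.symm with k | k | k | k | k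
  · exact hX ⟨w, k.1, x, k.2, e.symm⟩
  · linarith [k.1, hw.1, c.ht.1]
  · exact c'.rq k.2.2
  · linarith [k.1, hw.1, c.ht.1]
  · exact c'.rp k.2.2

lemma Cr.key (h : Dr pos G) (L : Loc G v σ θ rk) {a : V} {sa ta ua y : ℝ} (c : Cr G v a sa q p ta)
    (c' : Cr G v p s' q' p' t') (hX : ¬ X G q p q' p') (u0 : sa < ua) (u1 : ua ≤ 1) (y0 : t' < y)
    (y1 : y ≤ 1) (ey : G v a ua = G q' p' y) {b : V} {ub w : ℝ} (bv : b ≠ v)
    (hu : ub ∈ Icc (0 : ℝ) 1) (w0 : 0 ≤ w) (w1 : w < t') (ew : G v b ub = G q' p' w) :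
    b ≠ a ∧ b ≠ p ∧ St rk a q p b := by
  have my : y ∈ Icc (0 : ℝ) 1 := ⟨c'.ht.1.le.trans y0.le, y1⟩
  have mw : w ∈ Icc (0 : ℝ) 1 := ⟨w0, w1.le.trans c'.ht.2.le⟩
  have mu : ua ∈ Icc (0 : ℝ) 1 := ⟨c.hs.1.le.trans u0.le, u1⟩
  have ba : b ≠ a := by
    rintro rfl
    linarith [(h.one bv c'.qv c'.pv c'.qp hu mw mu my ew ey).2]
  have bp : b ≠ p := by
    rintro rfl
    exact w1.ne (c'.uq h hu mw ew).2
  refine ⟨ba, bp, ?_⟩
  by_contra hn
  have e1 := (c.ray h L bv ba bp (L.far b q' p' bv c'.qv c'.pv c'.qp ub hu w mw ew) hu.2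
    (ew ▸ c.off h c' hX mw)).uniq (c.flip h c' hX (fun x hx z hz e => by
      linarith [(h.one c.rv c'.qv c'.pv c'.qp ⟨hx.1, hx.2.trans c.hs.2.le⟩ hz mu my e ey).1, hx.2])
      y0 y1 w0 w1).neg (by rw [← ey, c.rest h u0 u1, ew]; ring)
  simp only [hn, false_iff, not_not, iff_true] at e1
  obtain ⟨tb, ht, sb, hs, e⟩ := e1
  have cb := h.cr bv c.qv c.pv c.qp ⟨hs.1, hs.2.trans_le hu.2⟩ ⟨c.ht.1.trans ht.1, ht.2⟩ e.symm
  have e2 := (cb.ray h L c.rv ba.symm c.rp (L.far a q' p' c.rv c'.qv c'.pv c'.qp ua mu y my ey) u1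
    (ey ▸ cb.off h c' hX my)).uniq (cb.flip h c' hX (fun x hx z hz e => by
      linarith [(h.one bv c'.qv c'.pv c'.qp ⟨hx.1, hx.2.trans cb.hs.2.le⟩ hz hu mw e ew).1, hx.2,
        hs.2]) y0 y1 w0 w1) (by rw [← ew, cb.rest h hs.2 hu.2, ey])
  simp only [(c.far h L cb ht.1).2, false_iff, not_not, iff_true] at e2
  obtain ⟨z, hz, x, hx, e⟩ := e2
  linarith [(c.uq h ⟨hx.1.le, hx.2.le.trans u1⟩ ⟨cb.ht.1.le.trans hz.1.le, hz.2.le⟩ e.symm).2, hz.1,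
    ht.1]

lemma Cr.dir (h : Dr pos G) (L : Loc G v σ θ rk) (c : Cr G v r s q p t) (c' : Cr G v p s' q' p' t')
    (hX : ¬ X G q p q' p') (h1 : In G rk v r q p t p') (h2 : ¬ In G rk v r q p t q')
    (h3 : St rk r q p p') : cy rk p p' q' ↔ ¬ cy rk r p q := by
  by_contra hn
  have d1 := L.inj _ _ c.rv c.pv c.rp
  have d2 := L.inj _ _ c.rv c.qv c.rq
  have d3 := L.inj _ _ c.qv c.pv c.qp
  have d4 := L.inj _ _ c.pv c'.qv c'.rq
  have d5 := L.inj _ _ c.pv c'.pv c'.rp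
  have d6 := L.inj _ _ c'.qv c'.pv c'.qp
  have d7 := L.inj _ _ c'.pv c.rv h1.2.1
  have k1 : rk q' ≠ rk r ∧ St rk r q p q' := by
    unfold St cy at *
    grind (splits := 60)
  have k2 : q' ≠ r := fun e => k1.1 (by rw [e])
  simp only [In, k1.2, true_iff, ne_eq, c'.qv, k2, c'.rq.symm, not_false_eq_true, true_and,
    not_not] at h2
  obtain ⟨tb, ht, sb, hs, e⟩ := h2
  have cb := h.cr c'.qv c.qv c.pv c.qp hs ⟨c.ht.1.trans ht.1, ht.2⟩ e.symm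
  have e1 := (cb.vtx h L c'.pv c'.rp.symm).uniq (cb.flip h c' hX (fun x hx z hz e => by
      linarith [(h.one c'.qv c'.qv c'.pv c'.qp ⟨hx.1, hx.2.trans hs.2.le⟩ hz (by simp) (by simp) e
        ((h.g1 c'.qv.symm).trans (h.g0 _ _ c'.qp).symm)).1, hx.2, hs.2]) c'.ht.2 le_rfl le_rfl
      c'.ht.1) (by rw [h.g1 c'.qp, h.g0 _ _ c'.qp, ← cb.rest h hs.2 le_rfl, h.g1 c'.qv.symm])
  have e2 := h1.2.2.2
  simp only [h3, true_iff] at e2
  have e3 : St rk q' q p p' := by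
    by_contra k
    obtain ⟨w, hw, k⟩ : ∃ w ∈ Ioo tb 1, ∃ x ∈ Ioo (0 : ℝ) 1, G q p w = G v p' x := by
      simpa only [k, false_iff, not_not] using (e1.mpr trivial).2.2.2
    exact e2 ⟨w, ⟨ht.1.trans hw.1, hw.2⟩, k⟩
  have e4 := (c.far h L cb ht.1).2
  have d8 := L.inj _ _ cb.rv c.qv cb.rq
  clear e1 e2 h1
  unfold St cy at *
  grind (splits := 60)

lemma Cr.step (h : Dr pos G) (L : Loc G v σ θ rk) (c : Cr G v r s q p t) (c' : Cr G v p s' q' p' t')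
    (hX : ¬ X G q p q' p') (hr : ∀ y ∈ Icc 0 s, ∀ x ∈ Icc (0 : ℝ) 1, G v r y ≠ G q' p' x)
    (h1 : In G rk v r q p t p') (h2 : ¬ In G rk v r q p t q') :
    Ms G rk v p q' p' t' ⊆ Ms G rk v r q p t ∨ Ms G rk v p p' q' (1 - t') ⊆ Ms G rk v r q p t := by
  have d1 := L.inj _ _ c.rv c.pv c.rp
  have d2 := L.inj _ _ c.rv c.qv c.rq
  have d3 := L.inj _ _ c.qv c.pv c.qp
  have d4 := L.inj _ _ c.pv c'.qv c'.rq
  have d5 := L.inj _ _ c.pv c'.pv c'.rp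
  have d6 := L.inj _ _ c'.qv c'.pv c'.qp
  have d7 := L.inj _ _ c'.pv c.rv h1.2.1
  by_cases hN : ∀ a, a = p' ∨ In G rk v p q' p' t' a → a ≠ r ∧ St rk r q p a
  · left
    rintro x ⟨xv, xp, a, ha, hx⟩
    have e1 := c.dir h L c' hX h1 h2 (hN p' (Or.inl rfl)).2
    obtain ⟨e2, e3⟩ := hN a ha
    have av : a ≠ v ∧ a ≠ p := ha.elim (fun e => e ▸ ⟨c'.pv, c'.rp.symm⟩) fun e => ⟨e.1, e.2.1⟩
    have d8 := L.inj _ _ av.1 c.rv e2
    have d9 := L.inj _ _ av.1 c.pv av.2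
    have d10 := L.inj _ _ xv c.pv xp
    have hx' : rk x = rk a ∨ (cy rk p x a ↔ cy rk p p' q') := hx.imp_left fun e => by rw [e]
    have : rk x ≠ rk r ∧ (cy rk r x p ↔ cy rk r p q) := by
      clear hN ha hx h1 h2
      unfold St cy at *
      grind (splits := 60)
    exact ⟨xv, fun e => this.1 (by rw [e]), p, Or.inl rfl, Or.inr this.2⟩
  right
  obtain ⟨a, sa, ta, ua, y, ca, k1, k2, k3, k4, k5, k6, k7, k8⟩ : ∃ a sa ta ua y,
      Cr G v a sa q p ta ∧ t < ta ∧ sa < ua ∧ ua ≤ 1 ∧ t' < y ∧ y ≤ 1 ∧ G v a ua = G q' p' y ∧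
      ¬ St rk r q p a ∧ (a = p' ∨ St rk r q p p') := by
    by_cases h3 : St rk r q p p'
    · push Not at hN
      obtain ⟨a, ha, hN⟩ := hN
      have e1 := c.dir h L c' hX h1 h2 h3
      have ha : In G rk v p q' p' t' a := ha.resolve_left fun e => hN (e ▸ h1.2.1) (e ▸ h3)
      obtain ⟨av, ap, ap', e2⟩ := ha
      have d8 := L.inj _ _ av c.pv ap
      have d9 := L.inj _ _ av c'.pv ap'
      have e3 : ¬ St rk p q' p' a := fun k => by
        have : rk a ≠ rk r ∧ St rk r q p a := by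
          clear hN e2 h1 h2
          unfold St cy at *
          grind (splits := 60)
        exact hN (fun e => this.1 (by rw [e])) this.2
      simp only [e3, false_iff, not_not] at e2
      obtain ⟨y, hy, ua, hu, e⟩ := e2
      have e4 := ((c.flip h c' hX hr hy.1 hy.2.le le_rfl c'.ht.1).add
        (c.vtx h L c'.qv c'.rq.symm)).of (Q := True)
        (y := Wg G v r s q p t (G v a ua) - Wg G v r s q p t (pos q))
        (by rw [h.g0 _ _ c'.qp, e]; ring) (by simp [h2])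
      have my : y ∈ Icc (0 : ℝ) 1 := ⟨c'.ht.1.le.trans hy.1.le, hy.2.le⟩
      have ar : a ≠ r := by
        rintro rfl
        exact (e4.uniq Rl.zero (by
          rw [c.rest h (not_le.mp fun k => hr ua ⟨hu.1.le, k⟩ y my e.symm) hu.2.le, sub_self])).mp
          trivial
      have e5 := (c.ray h L av ar ap (L.far a q' p' av c'.qv c'.pv c'.qp ua (Ioo_subset_Icc_self hu)
        y my e.symm) hu.2.le (e ▸ c.off h c' hX my)).uniq e4 rfl
      simp only [hN ar, false_iff, not_not, iff_true] at e5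
      obtain ⟨ta, ht, sa, hs, e6⟩ := e5
      exact ⟨a, sa, ta, ua, y, h.cr av c.qv c.pv c.qp ⟨hs.1, hs.2.trans hu.2⟩
        ⟨c.ht.1.trans ht.1, ht.2⟩ e6.symm, ht.1, hs.2, hu.2.le, hy.1, hy.2.le, e.symm, hN ar, Or.inr h3⟩
    · obtain ⟨ta, ht, sa, hs, e⟩ : ∃ w ∈ Ioo t 1, ∃ x ∈ Ioo (0 : ℝ) 1, G q p w = G v p' x := by
        simpa only [h3, false_iff, not_not] using h1.2.2.2
      exact ⟨p', sa, ta, 1, 1, h.cr c'.pv c.qv c.pv c.qp hs ⟨c.ht.1.trans ht.1, ht.2⟩ e.symm, ht.1,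
        hs.2, le_rfl, c'.ht.2, le_rfl, (h.g1 c'.pv.symm).trans (h.g1 c'.qp).symm, h3, Or.inl rfl⟩
  obtain ⟨ra, e1⟩ := c.far h L ca k1
  have ia : In G rk v r q p t a := ⟨ca.rv, ra.symm, ca.rp, by
    simpa only [k7, false_iff, not_not] using ⟨ta, ⟨k1, ca.ht.2⟩, sa, ca.hs, ca.eq.symm⟩⟩
  obtain ⟨e2, -, e3⟩ := ca.key h L c' hX k2 k3 k4 k5 k6 c'.qv (ub := 1) (by simp) le_rfl c'.ht.1
    ((h.g1 c'.qv.symm).trans (h.g0 _ _ c'.qp).symm)
  have d8 := L.inj _ _ c.rv ca.rv ra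
  have d9 := L.inj _ _ ca.rv c.pv ca.rp
  have d10 := L.inj _ _ ca.rv c.qv ca.rq
  have d11 := L.inj _ _ c'.qv ca.rv e2
  have k9 : rk a = rk p' ∨ St rk r q p p' := k8.imp_left fun e => by rw [e]
  have o1 : (cy rk p q' a ↔ cy rk r p q) ∧ (cy rk p q' p' ↔ cy rk r p q) ∧
      (cy rk p a r ↔ cy rk r p q) := by
    clear hN h1 h2 ia k8
    unfold St cy at *
    grind (splits := 60)
  rintro x ⟨xv, xp, b, hb, hx⟩
  have o2 : rk b ≠ rk p ∧ rk b ≠ rk a ∧ (cy rk p b a ↔ cy rk r p q) := by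
    rcases hb with rfl | ⟨bv, bp, bq, hb⟩
    · exact ⟨d4.symm, d11, o1.1⟩
    have d12 := L.inj _ _ bv c.pv bp
    have d13 := L.inj _ _ bv c'.qv bq
    by_cases k : St rk p p' q' b
    · clear hN h1 h2 ia k8 hb hx k9 e1 e3 k7
      unfold St cy at *
      grind (splits := 60)
    · obtain ⟨w, hw, u, hu, e⟩ : ∃ w ∈ Ioo (1 - t') 1, ∃ x ∈ Ioo (0 : ℝ) 1, G p' q' w = G v b x := by
        simpa only [k, false_iff, not_not] using hb
      obtain ⟨e4, -, e5⟩ := ca.key h L c' hX k2 k3 k4 k5 k6 bv (Ioo_subset_Icc_self hu) (w := 1 - w)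
        (by linarith [hw.2]) (by linarith [hw.1]) (by rw [← e, h.rev q' p' c'.qp])
      have d14 := L.inj _ _ bv ca.rv e4
      clear hN h1 h2 ia k8 hb hx k9 e3 k k7
      unfold St cy at *
      grind (splits := 60)
  have d12 := L.inj _ _ xv c.pv xp
  have hx' : rk x = rk b ∨ (cy rk p x b ↔ cy rk p q' p') := hx.imp_left fun e => by rw [e]
  have : rk x ≠ rk r ∧ (cy rk r x a ↔ cy rk r p q) := by
    clear hN h1 h2 ia k8 hb hx k9 e3 k7 e1
    unfold cy at *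
    grind (splits := 60)
  exact ⟨xv, fun e => this.1 (by rw [e]), a, Or.inr ia, Or.inr this.2⟩

theorem Dr.free [Fintype V] (h : Dr pos G) (v : V) (H : V → V → Prop) (hs : ∀ a b, H a b → H b a)
    (h1 : ∀ a b, H a b → a ≠ b ∧ a ≠ v)
    (h2 : ∀ a b c d, H a b → H c d → ¬ (a = c ∧ b = d) → ¬ (a = d ∧ b = c) → ¬ X G a b c d)
    (h3 : ∀ a b, H a b → ∃ c d, H c d ∧ X G v a c d) : ∀ a b, ¬ H a b := by
  obtain ⟨σ, θ, rk, L⟩ := h.loc v
  have first : ∀ a b, H a b → ∃ s q p t, H q p ∧ Cr G v a s q p t ∧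
      ∀ c d, H c d → ∀ y ∈ Icc (0 : ℝ) 1, ∀ x ∈ Icc (0 : ℝ) 1, G v a y = G c d x → s ≤ y := by
    intro a b hab
    have av := (h1 a b hab).2
    have fin : {y | y ∈ Icc (0 : ℝ) 1 ∧ ∃ c d, H c d ∧ ∃ x ∈ Icc (0 : ℝ) 1, G v a y = G c d x}.Finite :=
      (finite_iUnion fun e : V × V => Subsingleton.finite (s := {y | y ∈ Icc (0 : ℝ) 1 ∧ H e.1 e.2 ∧
        ∃ x ∈ Icc (0 : ℝ) 1, G v a y = G e.1 e.2 x}) fun y ⟨m1, k, x, m2, e1⟩ y' ⟨m3, _, x', m4, e2⟩ =>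
          (h.one av (h1 _ _ k).2 (h1 _ _ (hs _ _ k)).2 (h1 _ _ k).1 m1 m2 m3 m4 e1 e2).1).subset
        fun y ⟨m1, c, d, k⟩ => mem_iUnion.mpr ⟨(c, d), m1, k⟩
    obtain ⟨c, d, k1, y, hy, x, hx, e⟩ := h3 a b hab
    have m := And.intro (Ioo_subset_Icc_self hy) (show ∃ c d, H c d ∧ ∃ x ∈ Icc (0 : ℝ) 1,
      G v a y = G c d x from ⟨c, d, k1, x, Ioo_subset_Icc_self hx, e⟩)
    obtain ⟨s, ⟨m1, q, p, k2, t, m2, e1⟩, k3⟩ := exists_min_image _ id fin ⟨y, m⟩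
    have k4 : s ≤ y := k3 y m
    refine ⟨s, q, p, t, k2, ?_, fun c d k y hy x hx e => k3 y ⟨hy, c, d, k, x, hx, e⟩⟩
    have qv := (h1 _ _ k2).2
    have pv := (h1 _ _ (hs _ _ k2)).2
    rcases h.cases av.symm (h1 _ _ k2).1 m1 m2 e1 with k | k | k | k | k
    · exact h.cr av qv pv (h1 _ _ k2).1 k.1 k.2 e1
    · exact absurd k.2.2 qv.symm
    · linarith [k.1, hy.2]
    · exact absurd k.2.2 pv.symm
    · linarith [k.1, hy.2]
  have main : ∀ n r s q p t, (Ms G rk v r q p t).ncard = n → H q p → Cr G v r s q p t →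
      ¬ ∀ c d, H c d → ∀ y ∈ Icc (0 : ℝ) 1, ∀ x ∈ Icc (0 : ℝ) 1, G v r y = G c d x → s ≤ y := by
    intro n
    induction n using Nat.strong_induction_on with
    | _ n ih =>
      intro r s q p t hn k1 c k2
      have st : ∀ s' q' p' t', H q' p' → Cr G v p s' q' p' t' → (∀ c d, H c d → ∀ y ∈ Icc (0 : ℝ) 1,
          ∀ x ∈ Icc (0 : ℝ) 1, G v p y = G c d x → s' ≤ y) → ¬ X G q p q' p' →
          (∀ y ∈ Icc 0 s, ∀ x ∈ Icc (0 : ℝ) 1, G v r y ≠ G q' p' x) → In G rk v r q p t p' →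
          In G rk v r q p t q' := by
        intro s' q' p' t' k3 c' k4 hX hr i1
        by_contra i2
        have lt : ∀ a b u, Ms G rk v p a b u ⊆ Ms G rk v r q p t → (Ms G rk v p a b u).ncard < n :=
          fun a b u k => hn ▸ ncard_lt_ncard ⟨k, fun k' => (k' (show p ∈ Ms G rk v r q p t from
            ⟨c.pv, c.rp.symm, p, Or.inl rfl, Or.inl rfl⟩)).2.1 rfl⟩ (toFinite _)
        rcases c.step h L c' hX hr i1 i2 with k | k
        · exact ih _ (lt _ _ _ k) p s' q' p' t' rfl k3 c' k4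
        · exact ih _ (lt _ _ _ k) p s' p' q' _ rfl (hs _ _ k3) (c'.rev h) k4
      obtain ⟨s', q', p', t', k3, c', k4⟩ := first p q (hs _ _ k1)
      have hX : ∀ {q' p' s' t'}, H q' p' → Cr G v p s' q' p' t' → ¬ X G q p q' p' :=
        fun k3 c' => h2 _ _ _ _ k1 k3 (fun k => c'.rp k.2) fun k => c'.rq k.2
      have hr : ∀ {q' p' s' t'}, H q' p' → Cr G v p s' q' p' t' →
          ∀ y ∈ Icc 0 s, ∀ x ∈ Icc (0 : ℝ) 1, G v r y ≠ G q' p' x := fun k3 c' y hy x hx e => by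
        have := le_antisymm hy.2 (k2 _ _ k3 y ⟨hy.1, hy.2.trans c.hs.2.le⟩ x hx e)
        subst this
        exact c.off h c' (hX k3 c') hx t (left_mem_Icc.mpr c.ht.2.le) (e.symm.trans c.eq)
      have e1 := ((c.vtx h L c'.pv c'.rp.symm).add (c.vtx h L c'.qv c'.rq.symm).neg).uniq
        (c.flip h c' (hX k3 c') (hr k3 c') c'.ht.2 le_rfl le_rfl c'.ht.1)
        (by rw [h.g1 c'.qp, h.g0 _ _ c'.qp]; ring)
      exact e1.mpr trivial ⟨st _ _ _ _ k3 c' k4 (hX k3 c') (hr k3 c'),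
        st _ _ _ _ (hs _ _ k3) (c'.rev h) k4 (hX (hs _ _ k3) (c'.rev h)) (hr (hs _ _ k3) (c'.rev h))⟩
  intro a b hab
  obtain ⟨s, q, p, t, k1, c, k2⟩ := first a b hab
  exact main _ a s q p t rfl k1 c k2

end Pool.Agent.Lib.MP_3764f3_co.LT
end

-- part Pool.Agent.Lib.MP_3764f3_co.DMain
section

/-! Plane spanning subgraphs consisting of single edges and cycles. -/

set_option autoImplicit false

namespace Pool.Agent.Lib.MP_3764f3_co.LT

open Set Pool.Agent.Lib.MP_d8c195_lc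

variable {V : Type} {pos : V → ℂ} {G : V → V → ℝ → ℂ}

/-- Compatibility of edges and loops. -/
def Cp (G : V → V → ℝ → ℂ) (e f : Sym2 V) : Prop :=
  (∀ i, e = s(i, i) → i ∈ f) ∧ (∀ i, f = s(i, i) → i ∈ e) ∧
    ∀ a b c d, e = s(a, b) → f = s(c, d) → a ≠ b → c ≠ d → e ≠ f → ¬ X G a b c d

lemma Dr.cp_star (h : Dr pos G) (v w w' : V) : Cp G s(v, w) s(v, w') := by
  refine ⟨fun i e => ?_, fun i e => ?_, fun a b c d e1 e2 h1 h2 h3 => ?_⟩
  · rw [show i = v by simpa using (show v = i from by simp at e; exact e.1).symm]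
    simp
  · rw [show i = v by simpa using (show v = i from by simp at e; exact e.1).symm]
    simp
  · rw [e1, e2] at h3
    refine h.nx h1 h2 (fun k => h3 (by rw [k.1, k.2])) (fun k => h3 (by rw [k.1, k.2, Sym2.eq_swap]))
      (sc_z ?_)
    rcases Sym2.eq_iff.mp e1 with k | k <;> rcases Sym2.eq_iff.mp e2 with l | l <;>
      simp [← k.1, ← l.1]

theorem Dr.factor [Fintype V] [DecidableEq V] [Nontrivial V] (h : Dr pos G) :
    ∃ π : Equiv.Perm V, (∀ v, π v ≠ v) ∧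
      ∀ v w, s(v, π v) ≠ s(w, π w) → ¬ X G v (π v) w (π w) := by
  obtain ⟨π, hπ⟩ := DC.perm (R := Cp G) (fun e f k => ⟨k.2.1, k.1, fun a b c d e1 e2 h1 h2 h3 x =>
      k.2.2 c d a b e2 e1 h2 h1 h3.symm x.symm⟩) h.cp_star fun S v hv σ ⟨k1, k2⟩ => by
    by_cases hv2 : ∃ w, s(v, w) ∈ σ
    · obtain ⟨w, hw⟩ := hv2
      exact ⟨w, k1 _ hw _ (by simp), k2 _ hw⟩
    by_cases hl : ∃ i, s(i, i) ∈ σ
    · obtain ⟨i, hi⟩ := hl
      refine ⟨i, k1 _ hi _ (by simp), fun e he => ?_⟩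
      obtain ⟨u, rfl⟩ := Sym2.mem_iff_exists.mp ((k2 _ hi e he).1 i rfl)
      exact Sym2.eq_swap ▸ h.cp_star i v u
    by_contra hn
    push Not at hn hv2 hl
    obtain ⟨e, he, -⟩ := hn v hv
    induction e using Sym2.ind with
    | _ a b =>
    have h1 : ∀ a b, s(a, b) ∈ σ → a ≠ b ∧ a ≠ v := fun a b k =>
      ⟨fun e => hl a (e ▸ k), fun e => hv2 b (e ▸ k)⟩
    refine h.free v (fun a b => s(a, b) ∈ σ) (fun a b k => Sym2.eq_swap ▸ k) h1
      (fun a b c d m1 m2 n1 n2 => (k2 _ m1 _ m2).2.2 a b c d rfl rfl (h1 a b m1).1 (h1 c d m2).1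
        fun e => (Sym2.eq_iff.mp e).elim n1 n2) (fun a b m1 => ?_) a b he
    obtain ⟨e, m2, k⟩ := hn a (k1 _ m1 _ (by simp))
    by_contra hx
    refine k ⟨fun i e => ?_, fun i e => absurd (e ▸ m2) (hl i), fun a' b' c d e1 e2 n1 n2 n3 x => ?_⟩
    · simp at e
      exact absurd (e.2.trans e.1.symm) (h1 a b m1).2
    · refine hx ⟨c, d, e2 ▸ m2, ?_⟩
      rcases Sym2.eq_iff.mp e1 with k | k
      · rwa [k.1, k.2]
      · obtain ⟨s, hs, t, ht, e⟩ := x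
        exact ⟨1 - s, ⟨by linarith [hs.2], by linarith [hs.1]⟩, t, ht, by
          rw [k.1, k.2, h.rev a' b' n1, sub_sub_cancel, e]⟩
  have nf : ∀ v, π v ≠ v := fun v e => by
    obtain ⟨w, hw⟩ := exists_ne v
    rcases Sym2.mem_iff.mp ((hπ v w).1 v (by rw [e])) with k | k
    · exact hw k.symm
    · exact hw (π.injective (k.symm.trans e.symm))
  exact ⟨π, nf, fun v w k => (hπ v w).2.2 _ _ _ _ rfl rfl (nf v).symm (nf w).symm k⟩

/-- The abstract drawing attached to a drawing given by curves in the plane. -/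
theorem exists_dr {n : ℕ} (pos : Fin n → ℝ × ℝ) (c : Fin n → Fin n → ℝ → ℝ × ℝ)
    (h0 : Function.Injective pos)
    (h1 : ∀ i j : Fin n, i < j →
      ContinuousOn (c i j) (Set.Icc 0 1) ∧ Set.InjOn (c i j) (Set.Icc 0 1) ∧
      c i j 0 = pos i ∧ c i j 1 = pos j ∧
      ∀ k : Fin n, ∀ s ∈ Set.Ioo (0:ℝ) 1, c i j s ≠ pos k)
    (h2 : ∀ i j k l : Fin n, i < j → k < l → (i, j) ≠ (k, l) →
      ∀ s ∈ Set.Ioo (0:ℝ) 1, ∀ t ∈ Set.Ioo (0:ℝ) 1, c i j s = c k l t →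
        (i ≠ k ∧ i ≠ l ∧ j ≠ k ∧ j ≠ l) ∧
        (∀ s' ∈ Set.Ioo (0:ℝ) 1, ∀ t' ∈ Set.Ioo (0:ℝ) 1,
          c i j s' = c k l t' → s' = s ∧ t' = t) ∧
        ∃ ε : ℝ, 0 < ε ∧ ∃ h : (ℝ × ℝ) ≃ₜ (ℝ × ℝ),
          h (c i j s) = 0 ∧
          (∀ u ∈ Set.Ioo (s - ε) (s + ε), (h (c i j u)).2 = 0) ∧
          (∀ u ∈ Set.Ioo (t - ε) (t + ε), (h (c k l u)).1 = 0)) :
    ∃ (p : Fin n → ℂ) (G : Fin n → Fin n → ℝ → ℂ), Dr p G ∧ ∀ i j k l, i ≠ j → k ≠ l → ¬ X G i j k l →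
      ∀ s ∈ Set.Ioo (0:ℝ) 1, ∀ t ∈ Set.Ioo (0:ℝ) 1,
        c (min i j) (max i j) s ≠ c (min k l) (max k l) t := by
  let φ : (ℝ × ℝ) ≃ₜ ℂ := Complex.equivRealProdCLM.symm.toHomeomorph
  have cl : ∀ s ∈ Set.Ioo (0 : ℝ) 1, max 0 (min s 1) = s := fun s hs =>
    clamp_eq (Set.Ioo_subset_Icc_self hs)
  obtain ⟨G, hG, e⟩ := LT.Dr.of_lt (pos := fun i => φ (pos i))
    (F := fun i j t => φ (c i j (max 0 (min t 1)))) (φ.injective.comp h0) (fun i j hij => by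
      obtain ⟨a1, a2, a3, a4, a5⟩ := h1 i j hij
      refine ⟨φ.continuous.comp (a1.comp_continuous (by fun_prop) (clamp_mem zero_le_one)),
        fun u hu w hw e => ?_, by simp [a3], by simp [a4], fun k s hs e => ?_⟩
      · simp only [clamp_eq hu, clamp_eq hw] at e
        exact a2 hu hw (φ.injective e)
      · simp only [cl s hs] at e
        exact a5 k s hs (φ.injective e)) (fun i j k l hij hkl hne s hs t ht e => by
      simp only [cl s hs, cl t ht] at e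
      obtain ⟨a1, a2, ε, hε, h, a3, a4, a5⟩ := h2 i j k l hij hkl (by simpa using hne) s hs t ht
        (φ.injective e)
      refine ⟨a1, fun u hu w hw e => ?_, ?_⟩
      · simp only [cl u hu, cl w hw] at e
        exact a2 u hu w hw (φ.injective e)
      obtain ⟨δ, d0, d1, d2, d3, d4, d5⟩ : ∃ δ > 0, δ < ε ∧ δ ≤ s ∧ δ ≤ 1 - s ∧ δ ≤ t ∧ δ ≤ 1 - t :=
        ⟨min (ε / 2) (min (min s (1 - s)) (min t (1 - t))), lt_min (half_pos hε)
          (lt_min (lt_min hs.1 (sub_pos.mpr hs.2)) (lt_min ht.1 (sub_pos.mpr ht.2))),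
          (min_le_left _ _).trans_lt (half_lt_self hε),
          (min_le_right _ _).trans ((min_le_left _ _).trans (min_le_left _ _)),
          (min_le_right _ _).trans ((min_le_left _ _).trans (min_le_right _ _)),
          (min_le_right _ _).trans ((min_le_right _ _).trans (min_le_left _ _)),
          (min_le_right _ _).trans ((min_le_right _ _).trans (min_le_right _ _))⟩
      have m1 : ∀ u ∈ Set.Icc (s - δ) (s + δ), u ∈ Set.Icc (0 : ℝ) 1 := fun u hu =>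
        ⟨by linarith [hu.1], by linarith [hu.2]⟩
      have m2 : ∀ u ∈ Set.Icc (t - δ) (t + δ), u ∈ Set.Icc (0 : ℝ) 1 := fun u hu =>
        ⟨by linarith [hu.1], by linarith [hu.2]⟩
      refine ⟨δ, d0, (φ.symm.trans h).trans φ, ?_, by simp only [cl s hs, cl t ht, e],
        fun u hu w hw e => ?_, fun u hu w hw e => ?_, fun u hu => ?_, fun u hu => ?_⟩
      · simp only [cl s hs, Homeomorph.trans_apply, Homeomorph.symm_apply_apply, a3]
        exact map_zero Complex.equivRealProdCLM.symm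
      · simp only [clamp_eq (m1 u hu), clamp_eq (m1 w hw)] at e
        exact (h1 i j hij).2.1 (m1 u hu) (m1 w hw) (φ.injective e)
      · simp only [clamp_eq (m2 u hu), clamp_eq (m2 w hw)] at e
        exact (h1 k l hkl).2.1 (m2 u hu) (m2 w hw) (φ.injective e)
      · simp only [clamp_eq (m1 u hu), Homeomorph.trans_apply, Homeomorph.symm_apply_apply]
        exact a4 u ⟨by linarith [hu.1], by linarith [hu.2]⟩
      · simp only [clamp_eq (m2 u hu), Homeomorph.trans_apply, Homeomorph.symm_apply_apply]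
        exact a5 u ⟨by linarith [hu.1], by linarith [hu.2]⟩)
  refine ⟨_, G, hG, fun i j k l hij hkl hx s hs t ht e1 => hx ?_⟩
  obtain ⟨s', hs', e2⟩ := e _ _ hij s hs
  obtain ⟨t', ht', e3⟩ := e _ _ hkl t ht
  refine ⟨s', hs', t', ht', ?_⟩
  rw [← e2, ← e3]
  simp only [cl s hs, cl t ht, e1]

end Pool.Agent.Lib.MP_3764f3_co.LT
end
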