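import Mathlib

/-! Signed crossings in simple drawings: long plane cycles (combinatorial part). -/

set_option autoImplicit false
set_option linter.unusedSectionVars false

namespace Pool.Agent.Lib.MP_3764f3_co.LC

open Finset

variable {V : Type} [DecidableEq V]

/-- Total signed crossing of the edge `x y` with the triangle `a b c`. -/
def sg (s : V → V → V → V → ℤ) (a b c x y : V) : ℤ := s x y a b + s x y b c + s x y c a

/-- Properties of the signed crossing function of a simple drawing. -/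
structure Ax (s : V → V → V → V → ℤ) : Prop where
  bd : ∀ a b c d, s a b c d = 0 ∨ s a b c d = 1 ∨ s a b c d = -1
  dis : ∀ a b c d, s a b c d ≠ 0 → a ≠ b ∧ a ≠ c ∧ a ≠ d ∧ b ≠ c ∧ b ≠ d ∧ c ≠ d
  anti : ∀ a b c d, s b a c d = -s a b c d
  swap : ∀ a b c d, s c d a b = -s a b c d
  l1 : ∀ a b c d, s a b c d ≠ 0 → s a c b d = 0
  coc : ∀ a b c x y z, a ≠ b → b ≠ c → c ≠ a → x ≠ a → x ≠ b → x ≠ c → y ≠ a → y ≠ b → y ≠ c →
    z ≠ a → z ≠ b → z ≠ c → sg s a b c x y + sg s a b c y z = sg s a b c x z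
  j3 : ∀ a b c x y, a ≠ b → b ≠ c → c ≠ a → x ≠ a → x ≠ b → x ≠ c → y ≠ a → y ≠ b → y ≠ c →
    sg s a b c x y ≤ 1
  j4 : ∀ a b c d x y, a ≠ b → a ≠ c → a ≠ d → b ≠ c → b ≠ d → c ≠ d → x ≠ a → x ≠ b → x ≠ c →
    x ≠ d → y ≠ a → y ≠ b → y ≠ c → y ≠ d → s a b c d = 0 → s b c d a = 0 →
    s x y a b + s x y b c + s x y c d + s x y d a ≤ 1
  rr : ∀ a b c x u y v, a ≠ b → b ≠ c → c ≠ a → x ≠ a → x ≠ b → x ≠ c → y ≠ a → y ≠ b → y ≠ c →
    u ≠ a → u ≠ b → u ≠ c → v ≠ a → v ≠ b → v ≠ c → s x u a b = 0 → s x u b c = 0 →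
    s x u c a = 0 → s y v a b = 0 → s y v b c = 0 → s y v c a = 0 → s x u y v ≠ 0 →
    sg s a b c x y = 0

/-- A plane cycle with `m` vertices. -/
def Cyc (s : V → V → V → V → ℤ) (m : ℕ) : Prop :=
  ∃ g : ℕ → V, (∀ i < m, ∀ j < m, g i = g j → i = j) ∧ g m = g 0 ∧
    ∀ i < m, ∀ j < m, s (g i) (g (i + 1)) (g j) (g (j + 1)) = 0

/-- A plane path with `m` edges. -/
def HP (s : V → V → V → V → ℤ) (E : V → V → Prop) (S : Finset V) (p q : V) (m : ℕ) : Prop :=
  ∃ g : ℕ → V, g 0 = p ∧ g m = q ∧ (∀ i ≤ m, ∀ j ≤ m, g i = g j → i = j) ∧ (∀ i ≤ m, g i ∈ S) ∧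
    (∀ i < m, E (g i) (g (i + 1))) ∧ ∀ i < m, ∀ j < m, s (g i) (g (i + 1)) (g j) (g (j + 1)) = 0

variable {s : V → V → V → V → ℤ}

lemma Ax.anti2 (h : Ax s) (a b c d : V) : s a b d c = -s a b c d := by
  rw [h.swap d c a b, h.anti c d a b, h.swap a b c d]; ring

lemma Ax.z (h : Ax s) {a b c d : V} (e : a = b ∨ a = c ∨ a = d ∨ b = c ∨ b = d ∨ c = d) :
    s a b c d = 0 := by
  by_contra hne
  have := h.dis a b c d hne
  tauto

lemma Ax.l2 (h : Ax s) {a b c d : V} (e : s a b c d ≠ 0) :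
    s a c b d = 0 ∧ s a d b c = 0 := by
  refine ⟨h.l1 _ _ _ _ e, h.l1 a b d c ?_⟩
  rw [h.anti2]; omega

lemma Ax.sg_anti (h : Ax s) (a b c x y : V) : sg s a b c y x = -sg s a b c x y := by
  unfold sg
  rw [h.anti x y a b, h.anti x y b c, h.anti x y c a]; ring

lemma HP.mono {E E' : V → V → Prop} {S S' : Finset V} {p q : V} {m : ℕ} (h : HP s E S p q m)
    (hE : ∀ a b, E a b → E' a b) (hS : S ⊆ S') : HP s E' S' p q m := by
  obtain ⟨g, h1, h2, h3, h4, h5, h6⟩ := h
  exact ⟨g, h1, h2, h3, fun i hi => hS (h4 i hi), fun i hi => hE _ _ (h5 i hi), h6⟩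

lemma Ax.edge (h : Ax s) {E : V → V → Prop} {S : Finset V} {p q : V} (hpq : p ≠ q) (hp : p ∈ S)
    (hq : q ∈ S) (hE : E p q) : HP s E S p q 1 := by
  refine ⟨fun i => if i = 0 then p else q, by simp, by simp, ?_, ?_, ?_, ?_⟩
  · intro i hi j hj e
    interval_cases i <;> interval_cases j <;> simp_all [eq_comm]
  · intro i hi
    interval_cases i <;> simp_all
  · intro i hi
    interval_cases i; simpa
  · intro i hi j hj
    interval_cases i; interval_cases j
    exact h.z (by simp)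

lemma Ax.cat (h : Ax s) {E1 E2 : V → V → Prop} {S1 S2 : Finset V} {p b q : V} {m1 m2 : ℕ}
    (h1 : HP s E1 S1 p b m1) (h2 : HP s E2 S2 b q m2) (hd : ∀ x ∈ S1, x ∈ S2 → x = b)
    (hx : ∀ a a' y y', E1 a a' → E2 y y' → s a a' y y' = 0) :
    HP s (fun a a' => E1 a a' ∨ E2 a a') (S1 ∪ S2) p q (m1 + m2) := by
  obtain ⟨g1, a1, a2, a3, a4, a5, a6⟩ := h1
  obtain ⟨g2, b1, b2, b3, b4, b5, b6⟩ := h2
  set g : ℕ → V := fun i => if i ≤ m1 then g1 i else g2 (i - m1) with hg
  have e1 : ∀ i ≤ m1, g i = g1 i := fun i hi => if_pos hi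
  have e2 : ∀ i, g (m1 + i) = g2 i := by
    intro i
    rcases Nat.eq_zero_or_pos i with rfl | hi
    · rw [Nat.add_zero, e1 m1 le_rfl, a2, b1]
    · simp only [hg]
      rw [if_neg (by omega), Nat.add_sub_cancel_left]
  have cs : ∀ i, i < m1 ∨ ∃ k, i = m1 + k := fun i => by
    by_cases hi : i < m1
    · exact Or.inl hi
    · exact Or.inr ⟨i - m1, by omega⟩
  have cr : ∀ i < m1, ∀ k ≤ m2, g1 i ≠ g2 k := fun i hi k hk e => by
    have := hd _ (a4 i hi.le) (e ▸ b4 k hk)
    rw [← a2] at this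
    exact hi.ne (a3 i hi.le m1 le_rfl this)
  refine ⟨g, by rw [e1 0 (Nat.zero_le _), a1], by rw [e2, b2], ?_, ?_, ?_, ?_⟩
  · intro i hi j hj e
    rcases cs i with h1 | ⟨k, rfl⟩ <;> rcases cs j with h2 | ⟨l, rfl⟩
    · rw [e1 i h1.le, e1 j h2.le] at e
      exact a3 i h1.le j h2.le e
    · rw [e1 i h1.le, e2] at e
      exact absurd e (cr i h1 l (by omega))
    · rw [e1 j h2.le, e2] at e
      exact absurd e.symm (cr j h2 k (by omega))
    · rw [e2, e2] at e
      rw [b3 k (by omega) l (by omega) e]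
  · intro i hi
    rcases cs i with h1 | ⟨k, rfl⟩
    · rw [e1 i h1.le]
      exact mem_union_left _ (a4 i h1.le)
    · rw [e2]
      exact mem_union_right _ (b4 k (by omega))
  · intro i hi
    rcases cs i with h1 | ⟨k, rfl⟩
    · rw [e1 i h1.le, e1 (i + 1) h1]
      exact Or.inl (a5 i h1)
    · rw [e2, Nat.add_assoc, e2]
      exact Or.inr (b5 k (by omega))
  · intro i hi j hj
    rcases cs i with h1 | ⟨k, rfl⟩ <;> rcases cs j with h2 | ⟨l, rfl⟩
    · rw [e1 i h1.le, e1 j h2.le, e1 (i + 1) h1, e1 (j + 1) h2]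
      exact a6 i h1 j h2
    · rw [e1 i h1.le, e1 (i + 1) h1, e2, Nat.add_assoc, e2]
      exact hx _ _ _ _ (a5 i h1) (b5 l (by omega))
    · rw [e1 j h2.le, e1 (j + 1) h2, e2, Nat.add_assoc, e2, h.swap,
        hx _ _ _ _ (a5 j h2) (b5 k (by omega)), neg_zero]
    · rw [e2, e2, Nat.add_assoc, Nat.add_assoc, e2, e2]
      exact b6 k (by omega) l (by omega)

lemma Ax.close (h : Ax s) {E : V → V → Prop} {S : Finset V} {p q : V} {m : ℕ}
    (h1 : HP s E S p q m) (hx : ∀ a a', E a a' → s a a' q p = 0) : Cyc s (m + 1) := by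
  obtain ⟨g1, a1, a2, a3, a4, a5, a6⟩ := h1
  set g : ℕ → V := fun i => if i ≤ m then g1 i else p with hg
  have e1 : ∀ i ≤ m, g i = g1 i := fun i hi => if_pos hi
  have e2 : g (m + 1) = p := if_neg (by omega)
  refine ⟨g, fun i hi j hj e => ?_, by rw [e2, e1 0 (Nat.zero_le _), a1], fun i hi j hj => ?_⟩
  · rw [e1 i (by omega), e1 j (by omega)] at e
    exact a3 i (by omega) j (by omega) e
  · rcases (show i < m ∨ i = m by omega) with h1 | h1 <;>
      rcases (show j < m ∨ j = m by omega) with h2 | h2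
    · rw [e1 i h1.le, e1 j h2.le, e1 (i + 1) h1, e1 (j + 1) h2]
      exact a6 i h1 j h2
    · rw [h2, e1 i h1.le, e1 (i + 1) h1, e2, e1 m le_rfl, a2]
      exact hx _ _ (a5 i h1)
    · rw [h1, e1 j h2.le, e1 (j + 1) h2, e2, e1 m le_rfl, a2, h.swap, hx _ _ (a5 j h2), neg_zero]
    · exact h.z (by simp [h1, h2])

omit [DecidableEq V] in
lemma mirsky (r : V → V → Prop) (htr : ∀ a b c, r a b → r b c → r a c) (k : ℕ) :
    ∀ S : Finset V, (∃ x : ℕ → V, (∀ i ≤ k, x i ∈ S) ∧ ∀ i j, i < j → j ≤ k → r (x i) (x j)) ∨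
      ∃ S' ⊆ S, S.card ≤ k * S'.card ∧ ∀ a ∈ S', ∀ b ∈ S', ¬ r a b := by
  classical
  induction k with
  | zero =>
    intro S
    rcases S.eq_empty_or_nonempty with rfl | ⟨a, ha⟩
    · exact Or.inr ⟨∅, by simp, by simp, by simp⟩
    · exact Or.inl ⟨fun _ => a, fun _ _ => ha, fun i j h1 h2 => by omega⟩
  | succ k ih =>
    intro S
    rcases ih (S.filter fun a => ∃ b ∈ S, r a b) with ⟨x, h1, h2⟩ | ⟨S', h1, h2, h3⟩
    · obtain ⟨b, hb, hr⟩ := (mem_filter.mp (h1 k le_rfl)).2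
      refine Or.inl ⟨fun i => if i ≤ k then x i else b, fun i hi => ?_, fun i j hij hj => ?_⟩
      · by_cases e : i ≤ k
        · simpa [e] using (mem_filter.mp (h1 i e)).1
        · simpa [e] using hb
      · by_cases e : j ≤ k
        · simpa [e, (show i ≤ k by omega)] using h2 i j hij e
        · simp only [e, (show i ≤ k by omega), if_true, if_false]
          rcases (show i < k ∨ i = k by omega) with h3 | rfl
          · exact htr _ _ _ (h2 i k h3 le_rfl) hr
          · exact hr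
    · have hc := card_filter_add_card_filter_not (s := S) (fun a => ∃ b ∈ S, r a b)
      right
      by_cases e : (S.filter fun a => ¬ ∃ b ∈ S, r a b).card ≤ S'.card
      · exact ⟨S', h1.trans (filter_subset _ _), by nlinarith, h3⟩
      · refine ⟨S.filter fun a => ¬ ∃ b ∈ S, r a b, filter_subset _ _, by nlinarith, ?_⟩
        intro a ha b hb hr
        exact (mem_filter.mp ha).2 ⟨b, (mem_filter.mp hb).1, hr⟩

/-- Cleaning: without long plane cycles, a large subset spans no edge crossing `p q`. -/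
lemma Ax.clean (h : Ax s) {L : ℕ} (hL : ∀ m, L ≤ m → ¬ Cyc s m) (S : Finset V) (p q : V) :
    ∃ S' ⊆ S, S.card ≤ 2 * L * S'.card ∧ ∀ a ∈ S', ∀ b ∈ S', s a b p q = 0 := by
  have htr : ∀ a b c, s a b p q = 1 → s b c p q = 1 → s a c p q = 1 := by
    intro a b c h1 h2
    have d1 := h.dis a b p q (by omega)
    have d2 := h.dis b c p q (by omega)
    have hca : c ≠ a := by
      rintro rfl
      have := h.anti b c p q
      omega
    have h3 := h.j3 a b c q p d1.1 d2.1 hca (by tauto) (by tauto) (by tauto) (by tauto) (by tauto)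
      (by tauto)
    unfold sg at h3
    have := h.swap a b q p
    have := h.swap b c q p
    have := h.swap c a q p
    have := h.anti2 a b p q
    have := h.anti2 b c p q
    have := h.anti2 c a p q
    have := h.anti a c p q
    have := h.bd a c p q
    omega
  rcases mirsky (fun a b => s a b p q = 1) htr (2 * L) S with ⟨x, -, h2⟩ | ⟨S', h1, h2, h3⟩
  · exfalso
    have key : ∀ a c b d, a < c → c < b → b < d → d ≤ 2 * L → s (x a) (x b) (x c) (x d) = 0 := by
      intro a c b d h3 h4 h5 h6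
      by_contra hne
      have d1 := h.dis _ _ _ _ hne
      have l := h.l2 hne
      have e1 := h2 a c h3 (by omega)
      have e2 := h2 c b h4 (by omega)
      have e3 := h2 b d h5 h6
      have e4 := h2 a d (by omega) h6
      have d2 := h.dis _ _ _ _ (e1 ▸ one_ne_zero)
      have d3 := h.dis _ _ _ _ (e3 ▸ one_ne_zero)
      have h7 := h.j4 (x a) (x c) (x b) (x d) q p (by tauto) (by tauto) (by tauto) (by tauto)
        (by tauto) (by tauto) (by tauto) (by tauto) (by tauto) (by tauto) (by tauto) (by tauto)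
        (by tauto) (by tauto) l.1 (by
          rw [h.swap, h.anti, h.anti2, l.2]; simp)
      have := h.swap (x a) (x c) q p
      have := h.swap (x c) (x b) q p
      have := h.swap (x b) (x d) q p
      have := h.swap (x d) (x a) q p
      have := h.anti2 (x a) (x c) p q
      have := h.anti2 (x c) (x b) p q
      have := h.anti2 (x b) (x d) p q
      have := h.anti2 (x d) (x a) p q
      have := h.anti (x a) (x d) p q
      omega
    have key2 : ∀ a b c d, a + L ≤ b → b ≤ a + L + 1 → c + L ≤ d → d ≤ c + L + 1 → b ≤ 2 * L →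
        d ≤ 2 * L → s (x a) (x b) (x c) (x d) = 0 := by
      intro a b c d h3 h4 h5 h6 h7 h8
      by_cases e : a = b ∨ a = c ∨ a = d ∨ b = c ∨ b = d ∨ c = d
      · exact h.z (by rcases e with e | e | e | e | e | e <;> simp [e])
      · rcases lt_or_gt_of_ne (show a ≠ c by tauto) with h9 | h9
        · exact key a c b d h9 (by omega) (by omega) h8
        · rw [h.swap, key c a d b h9 (by omega) (by omega) h7, neg_zero]
    set φ : ℕ → ℕ := fun i => if i = 2 * L + 1 then 0 else if i % 2 = 0 then i / 2 else i / 2 + L + 1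
      with hφ
    have hφ1 : ∀ i ≤ 2 * L, ∃ a b, a + L ≤ b ∧ b ≤ a + L + 1 ∧ b ≤ 2 * L ∧
        (φ i = a ∧ φ (i + 1) = b ∨ φ i = b ∧ φ (i + 1) = a) := by
      intro i hi
      refine ⟨min (φ i) (φ (i + 1)), max (φ i) (φ (i + 1)), ?_⟩
      simp only [hφ]
      split_ifs <;> omega
    refine hL (2 * L + 1) (by omega) ⟨fun i => x (φ i), fun i hi j hj e => ?_, by simp [hφ],
      fun i hi j hj => ?_⟩
    · have e1 : φ i ≤ 2 * L := by simp only [hφ]; split_ifs <;> omega
      have e2 : φ j ≤ 2 * L := by simp only [hφ]; split_ifs <;> omega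
      have e3 : φ i = φ j := by
        by_contra hne
        rcases lt_or_gt_of_ne hne with h3 | h3
        · exact (h.dis _ _ _ _ (h2 _ _ h3 e2 ▸ one_ne_zero)).1 e
        · exact (h.dis _ _ _ _ (h2 _ _ h3 e1 ▸ one_ne_zero)).1 e.symm
      simp only [hφ] at e3
      split_ifs at e3 <;> omega
    · obtain ⟨a, b, a1, a2, a3, a4⟩ := hφ1 i (by omega)
      obtain ⟨c, d, b1, b2, b3, b4⟩ := hφ1 j (by omega)
      have k := key2 a b c d a1 a2 b1 b2 a3 b3
      have := h.anti (x a) (x b) (x c) (x d)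
      have := h.anti2 (x a) (x b) (x c) (x d)
      have := h.anti2 (x b) (x a) (x c) (x d)
      rcases a4 with ⟨e1, e2⟩ | ⟨e1, e2⟩ <;> rcases b4 with ⟨e3, e4⟩ | ⟨e3, e4⟩ <;>
        simp only [e1, e2, e3, e4] <;> omega
  · refine ⟨S', h1, h2, fun a ha b hb => ?_⟩
    have e1 := h3 a ha b hb
    have e2 := h3 b hb a ha
    have := h.anti a b p q
    have := h.bd a b p q
    omega

/-- All triangles of `Q` have all other points of `Q` on one side. -/
def Emp (s : V → V → V → V → ℤ) (Q : Finset V) : Prop :=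
  ∀ a ∈ Q, ∀ b ∈ Q, ∀ c ∈ Q, ∀ x ∈ Q, ∀ y ∈ Q, a ≠ b → b ≠ c → c ≠ a → x ≠ a → x ≠ b → x ≠ c →
    y ≠ a → y ≠ b → y ≠ c → sg s a b c x y = 0

lemma Ax.emp_sub (h : Ax s) {Q : Finset V} (hQ : Emp s Q) {x y z w u : V} (hx : x ∈ Q) (hy : y ∈ Q)
    (hz : z ∈ Q) (hw : w ∈ Q) (hu : u ∈ Q) (h1 : s x y z w ≠ 0) (h2 : s x z u y ≠ 0) :
    s x y u w ≠ 0 := by
  intro h3
  have d1 := h.dis _ _ _ _ h1
  have d2 := h.dis _ _ _ _ h2
  have l1 := h.l2 h1
  have l2 := h.l2 h2
  have huw : u ≠ w := by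
    rintro rfl
    have := h.anti2 x z y u
    omega
  have e1 := hQ u hu w hw y hy x hx z hz huw (by tauto) (by tauto) (by tauto) (by tauto) (by tauto)
    (by tauto) (by tauto) (by tauto)
  have e2 := hQ x hx y hy z hz u hu w hw (by tauto) (by tauto) (by tauto) (by tauto) (by tauto)
    (by tauto) (by tauto) (by tauto) (by tauto)
  have e3 := hQ u hu w hw x hx z hz y hy huw (by tauto) (by tauto) (by tauto) (by tauto) (by tauto)
    (by tauto) (by tauto) (by tauto)
  unfold sg at e1 e2 e3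
  have := h.anti2 x z y w
  have := h.anti2 x z y u
  have := h.swap x y u w
  have := h.swap u w y z
  have := h.swap u w z x
  have := h.anti x z u w
  have := h.anti y z u w
  have := h.swap x w y z
  have := h.anti y z x w
  have := h.anti2 z y x w
  have := h.swap x u z y
  omega

lemma Ax.emp_path (h : Ax s) {Q : Finset V} (hQ : Emp s Q) (k : ℕ) : ∀ x ∈ Q, ∀ y ∈ Q, ∀ w ∈ Q,
    x ≠ y → w ≠ x → w ≠ y → (Q.filter fun u => s x y u w ≠ 0).card ≤ k →
    ∃ m, (Q.filter fun u => s x y u w ≠ 0).card < m ∧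
      HP s (fun a b => a ∈ Q ∧ b ∈ Q ∧ ∀ c ∈ Q, ∀ d ∈ Q, s a b c d = 0)
        (insert x (insert y (Q.filter fun u => s x y u w ≠ 0))) x y m := by
  have base : ∀ x ∈ Q, ∀ y ∈ Q, ∀ w ∈ Q, x ≠ y → w ≠ x → w ≠ y →
      (Q.filter fun u => s x y u w ≠ 0) = ∅ → ∃ m, (Q.filter fun u => s x y u w ≠ 0).card < m ∧
      HP s (fun a b => a ∈ Q ∧ b ∈ Q ∧ ∀ c ∈ Q, ∀ d ∈ Q, s a b c d = 0)
        (insert x (insert y (Q.filter fun u => s x y u w ≠ 0))) x y m := by
    intro x hx y hy w hw hxy hwx hwy he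
    refine ⟨1, by simp [he], h.edge hxy (by simp) (by simp) ⟨hx, hy, fun c hc d hd => ?_⟩⟩
    have z : ∀ u ∈ Q, s x y u w = 0 := fun u hu => by
      by_contra hne
      have : u ∈ Q.filter fun u => s x y u w ≠ 0 := mem_filter.mpr ⟨hu, hne⟩
      simp [he] at this
    by_contra hne
    have d1 := h.dis _ _ _ _ hne
    have e1 := z c hc
    have e2 := z d hd
    have e3 := h.anti2 x y c w
    have e4 := h.anti2 x y d w
    have hcw : w ≠ c := by rintro rfl; omega
    have hdw : d ≠ w := by rintro rfl; omega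
    have e5 := hQ c hc d hd w hw x hx y hy (by tauto) hdw hcw (by tauto) (by tauto) (by tauto)
      (by tauto) (by tauto) (by tauto)
    unfold sg at e5
    omega
  induction k with
  | zero =>
    intro x hx y hy w hw hxy hwx hwy hk
    exact base x hx y hy w hw hxy hwx hwy (card_eq_zero.mp (by omega))
  | succ k ih =>
    intro x hx y hy w hw hxy hwx hwy hk
    rcases (Q.filter fun u => s x y u w ≠ 0).eq_empty_or_nonempty with he | ⟨z, hz⟩
    · exact base x hx y hy w hw hxy hwx hwy he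
    obtain ⟨hzQ, hz1⟩ := mem_filter.mp hz
    have d1 := h.dis _ _ _ _ hz1
    have hz2 : s y x z w ≠ 0 := by rw [h.anti]; omega
    have s1 : (Q.filter fun u => s x z u y ≠ 0) ⊆ (Q.filter fun u => s x y u w ≠ 0).erase z := by
      intro u hu
      obtain ⟨u1, u2⟩ := mem_filter.mp hu
      exact mem_erase.mpr ⟨(h.dis _ _ _ _ u2).2.2.2.1.symm,
        mem_filter.mpr ⟨u1, h.emp_sub hQ hx hy hzQ hw u1 hz1 u2⟩⟩
    have s2 : (Q.filter fun u => s z y u x ≠ 0) ⊆ (Q.filter fun u => s x y u w ≠ 0).erase z := by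
      intro u hu
      obtain ⟨u1, u2⟩ := mem_filter.mp hu
      have := h.emp_sub hQ hy hx hzQ hw u1 hz2 (by rw [h.anti]; omega)
      exact mem_erase.mpr ⟨(h.dis _ _ _ _ u2).2.1.symm,
        mem_filter.mpr ⟨u1, by rw [h.anti]; omega⟩⟩
    have s3 : (Q.filter fun u => s x y u w ≠ 0).erase z ⊆
        (Q.filter fun u => s x z u y ≠ 0) ∪ (Q.filter fun u => s z y u x ≠ 0) := by
      intro u hu
      obtain ⟨u0, u1⟩ := mem_erase.mp hu
      obtain ⟨u1, u2⟩ := mem_filter.mp u1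
      have d2 := h.dis _ _ _ _ u2
      have e2 := hQ x hx y hy z hzQ u u1 w hw (by tauto) (by tauto) (by tauto) (by tauto)
        (by tauto) (by tauto) (by tauto) (by tauto) (by tauto)
      have e1 := hQ u u1 w hw y hy x hx z hzQ (by tauto) (by tauto) (by tauto) (by tauto)
        (by tauto) (by tauto) (by tauto) (by tauto) (by tauto)
      have e3 := hQ u u1 w hw x hx z hzQ y hy (by tauto) (by tauto) (by tauto) (by tauto)
        (by tauto) (by tauto) (by tauto) (by tauto) (by tauto)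
      unfold sg at e1 e2 e3
      have l1 := h.l2 hz1
      simp only [mem_union, mem_filter, u1, true_and]
      have := h.anti2 x z y w
      have := h.anti2 x z y u
      have := h.swap x y u w
      have := h.swap u w y z
      have := h.swap u w z x
      have := h.anti x z u w
      have := h.anti y z u w
      have := h.swap x w y z
      have := h.anti y z x w
      have := h.anti2 z y x w
      have := h.anti2 z y x u
      omega
    have c0 := card_erase_add_one hz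
    have c1 := card_le_card s1
    have c2 := card_le_card s2
    have c3 := (card_le_card s3).trans (card_union_le _ _)
    obtain ⟨m1, a1, a2⟩ := ih x hx z hzQ y hy (by tauto) (by tauto) (by tauto) (by omega)
    obtain ⟨m2, b1, b2⟩ := ih z hzQ y hy x hx (by tauto) (by tauto) (by tauto) (by omega)
    refine ⟨m1 + m2, by omega, (h.cat a2 b2 ?_ ?_).mono (by tauto) ?_⟩
    · intro u u1 u2
      simp only [mem_insert, mem_filter] at u1 u2
      rcases u1 with rfl | rfl | u1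
      · rcases u2 with u2 | u2 | u2
        · exact u2
        · tauto
        · exact absurd (h.z (by simp)) u2.2
      · rfl
      · rcases u2 with u2 | rfl | u2
        · exact u2
        · exact absurd (h.z (by simp)) u1.2
        · have := (h.l2 u1.2).1
          have := h.swap x u z y
          have := h.anti2 z y x u
          omega
    · intro a a' c c' e1 e2
      exact e1.2.2 c e2.1 c' e2.2.1
    · intro u hu
      simp only [mem_union, mem_insert] at hu ⊢
      rcases hu with (rfl | rfl | hu) | (rfl | rfl | hu)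
      · tauto
      · tauto
      · exact Or.inr (Or.inr (mem_of_mem_erase (s1 hu)))
      · tauto
      · tauto
      · exact Or.inr (Or.inr (mem_of_mem_erase (s2 hu)))

lemma Ax.emp_cyc (h : Ax s) {Q : Finset V} (hQ : Emp s Q) {L : ℕ} (hL : 0 < L)
    (hc : 2 * L ≤ Q.card) : ∃ m, L ≤ m ∧ Cyc s m := by
  by_cases hx : ∀ x ∈ Q, ∀ y ∈ Q, ∀ z ∈ Q, ∀ w ∈ Q, s x y z w = 0
  · have hp : 0 < Q.card := by omega
    refine ⟨Q.card, by omega, fun i => (Q.equivFin.symm ⟨i % Q.card, Nat.mod_lt _ hp⟩ : V),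
      fun i hi j hj e => ?_, by simp, fun i _ j _ => hx _ (coe_mem _) _ (coe_mem _) _ (coe_mem _) _
        (coe_mem _)⟩
    have := Q.equivFin.symm.injective (Subtype.ext e)
    simpa [Nat.mod_eq_of_lt hi, Nat.mod_eq_of_lt hj] using this
  · push Not at hx
    obtain ⟨x, hx, y, hy, z, hz, w, hw, hne⟩ := hx
    have d1 := h.dis _ _ _ _ hne
    have key : ∀ v ∈ Q, v ≠ x → v ≠ y → L ≤ (Q.filter fun u => s x y u v ≠ 0).card + 2 →
        ∃ m, L ≤ m ∧ Cyc s m := by
      intro v hv h1 h2 h3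
      obtain ⟨m, a1, a2⟩ := h.emp_path hQ _ x hx y hy v hv d1.1 h1 h2 le_rfl
      exact ⟨m + 1, by omega, h.close a2 fun a a' e => e.2.2 y hy x hx⟩
    have s3 : Q ⊆ insert x (insert y ((Q.filter fun u => s x y u w ≠ 0) ∪
        (Q.filter fun u => s x y u z ≠ 0))) := by
      intro u hu
      simp only [mem_insert, mem_union, mem_filter, hu, true_and]
      by_contra hc
      push Not at hc
      have := h.anti2 x y z w
      have := h.anti2 x y u w
      have hz' : u ≠ z := by rintro rfl; tauto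
      have hw' : w ≠ u := by rintro rfl; omega
      have e := hQ u hu z hz w hw x hx y hy hz' (by tauto) hw' (by tauto) (by tauto) (by tauto)
        (by tauto) (by tauto) (by tauto)
      unfold sg at e
      omega
    have c1 := card_le_card s3
    have c2 := card_insert_le x (insert y ((Q.filter fun u => s x y u w ≠ 0) ∪
        (Q.filter fun u => s x y u z ≠ 0)))
    have c3 := card_insert_le y ((Q.filter fun u => s x y u w ≠ 0) ∪
        (Q.filter fun u => s x y u z ≠ 0))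
    have c4 := card_union_le (Q.filter fun u => s x y u w ≠ 0) (Q.filter fun u => s x y u z ≠ 0)
    by_cases e : L ≤ (Q.filter fun u => s x y u w ≠ 0).card + 2
    · exact key w hw (by tauto) (by tauto) e
    · exact key z hz (by tauto) (by tauto) (by omega)

lemma sample (S : Finset V) (B : V → V → V → Finset V) (r M : ℕ)
    (hB : ∀ a ∈ S, ∀ b ∈ S, ∀ c ∈ S, (B a b c).card ≤ r) (hM : M ^ 4 * r < S.card) :
    ∃ f : Fin M → V, (∀ i, f i ∈ S) ∧
      ∀ i j k l, l ≠ i → l ≠ j → l ≠ k → f l ∉ B (f i) (f j) (f k) := by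
  classical
  obtain ⟨x0, hx0⟩ : S.Nonempty := card_pos.mp (by omega)
  by_contra hc
  push Not at hc
  set P := Fintype.piFinset fun _ : Fin M => S with hP
  have hb : ∀ q : Fin M × Fin M × Fin M × Fin M, (P.filter fun f => q.2.2.2 ≠ q.1 ∧ q.2.2.2 ≠ q.2.1 ∧
      q.2.2.2 ≠ q.2.2.1 ∧ f q.2.2.2 ∈ B (f q.1) (f q.2.1) (f q.2.2.1)).card * S.card ≤
      r * S.card ^ M := by
    rintro ⟨i, j, k, l⟩
    have h1 := card_le_mul_card_image_of_maps_to (f := fun f : Fin M → V => Function.update f l x0)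
      (s := P.filter fun f => l ≠ i ∧ l ≠ j ∧ l ≠ k ∧ f l ∈ B (f i) (f j) (f k))
      (t := Fintype.piFinset (Function.update (fun _ : Fin M => S) l {x0})) (fun f hf => by
        rw [Fintype.mem_piFinset]
        intro a
        by_cases e : a = l
        · subst e; simp
        · simpa [e] using Fintype.mem_piFinset.mp (mem_filter.mp hf).1 a) r (fun g hg => by
        by_cases e : l ≠ i ∧ l ≠ j ∧ l ≠ k
        · have m : ∀ a, a ≠ l → g a ∈ S := fun a ha => by
            simpa [ha] using Fintype.mem_piFinset.mp hg a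
          refine le_trans (card_le_card_of_injOn (fun f => f l) ?_ ?_)
            (hB _ (m i e.1.symm) _ (m j e.2.1.symm) _ (m k e.2.2.symm))
          · intro f hf
            simp only [coe_filter, mem_filter, Set.mem_ofPred_eq] at hf
            obtain ⟨⟨-, -, -, -, h5⟩, h6⟩ := hf
            rw [← h6]
            simpa [e.1.symm, e.2.1.symm, e.2.2.symm] using h5
          · intro f hf f' hf' e'
            simp only [coe_filter, mem_filter, Set.mem_ofPred_eq] at hf hf'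
            funext a
            by_cases e2 : a = l
            · subst e2; exact e'
            · have := congrFun (hf.2.trans hf'.2.symm) a
              simpa [e2] using this
        · refine le_trans (le_of_eq (card_eq_zero.mpr (filter_eq_empty_iff.mpr ?_))) (Nat.zero_le _)
          intro f hf
          exact absurd ⟨(mem_filter.mp hf).2.1, (mem_filter.mp hf).2.2.1,
            (mem_filter.mp hf).2.2.2.1⟩ e)
    have h2 : (Fintype.piFinset (Function.update (fun _ : Fin M => S) l {x0})).card * S.card =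
        S.card ^ M := by
      rw [Fintype.card_piFinset, ← mul_prod_erase _ _ (mem_univ l),
        prod_congr rfl (g := fun _ => S.card) (fun a ha => by simp [(mem_erase.mp ha).1])]
      have : 0 < M := l.pos
      simp only [Function.update_self, card_singleton, one_mul, prod_const,
        card_erase_of_mem (mem_univ l), card_univ, Fintype.card_fin]
      rw [← pow_succ, Nat.sub_add_cancel this]
    rw [← h2, ← mul_assoc]
    exact Nat.mul_le_mul_right _ h1
  have h3 : P ⊆ univ.biUnion fun q : Fin M × Fin M × Fin M × Fin M => P.filter fun f =>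
      q.2.2.2 ≠ q.1 ∧ q.2.2.2 ≠ q.2.1 ∧ q.2.2.2 ≠ q.2.2.1 ∧
        f q.2.2.2 ∈ B (f q.1) (f q.2.1) (f q.2.2.1) := by
    intro f hf
    obtain ⟨i, j, k, l, h⟩ := hc f (Fintype.mem_piFinset.mp hf)
    exact mem_biUnion.mpr ⟨(i, j, k, l), mem_univ _, mem_filter.mpr ⟨hf, h⟩⟩
  have h4 := Nat.mul_le_mul_right S.card ((card_le_card h3).trans card_biUnion_le)
  rw [sum_mul] at h4
  have h5 := h4.trans (sum_le_sum fun q _ => hb q)
  simp only [hP, Fintype.card_piFinset, prod_const, card_univ, Fintype.card_fin, sum_const,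
    Fintype.card_prod, smul_eq_mul] at h5
  have h6 : 0 < S.card ^ M := pow_pos (by omega) _
  have h7 : S.card ^ M * S.card ≤ S.card ^ M * (M ^ 4 * r) := h5.trans (le_of_eq (by ring))
  exact absurd (Nat.le_of_mul_le_mul_left h7 h6) (by omega)

/-- A triangle with many points on both sides. -/
lemma Ax.heavy (h : Ax s) {L : ℕ} (hL0 : 0 < L) (hL : ∀ m, L ≤ m → ¬ Cyc s m) (S : Finset V) (N : ℕ)
    (hN : (2 * L) ^ 4 * (N + 3) < S.card) :
    ∃ a b c, ∃ A ⊆ S, ∃ B ⊆ S, a ≠ b ∧ b ≠ c ∧ c ≠ a ∧ N ≤ A.card ∧ N ≤ B.card ∧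
      (∀ x ∈ A, x ≠ a ∧ x ≠ b ∧ x ≠ c) ∧ (∀ x ∈ B, x ≠ a ∧ x ≠ b ∧ x ≠ c) ∧
      ∀ x ∈ A, ∀ y ∈ B, sg s a b c x y ≠ 0 := by
  by_contra hc
  have key : ∀ a b c : V, ∃ B : Finset V, B.card ≤ N + 3 ∧ a ∈ B ∧ (a ≠ b → b ≠ c → c ≠ a →
      ∀ x ∈ S, ∀ y ∈ S, x ∉ B → y ∉ B → sg s a b c x y = 0) := by
    intro a b c
    have c3 : ({a, b, c} : Finset V).card ≤ 3 := card_le_three
    by_cases hd : a ≠ b ∧ b ≠ c ∧ c ≠ a
    swap
    · exact ⟨{a, b, c}, by omega, by simp, fun h1 h2 h3 => absurd ⟨h1, h2, h3⟩ hd⟩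
    rcases (S \ {a, b, c}).eq_empty_or_nonempty with he | ⟨x0, hx0⟩
    · refine ⟨{a, b, c}, by omega, by simp, fun _ _ _ x hx y _ hx' _ => ?_⟩
      have : x ∈ S \ {a, b, c} := mem_sdiff.mpr ⟨hx, hx'⟩
      simp [he] at this
    have co : ∀ x ∈ S \ {a, b, c}, ∀ y ∈ S \ {a, b, c}, sg s a b c x y =
        sg s a b c x0 y - sg s a b c x0 x ∧ sg s a b c x y ≤ 1 := by
      intro x hx y hy
      simp only [mem_sdiff, mem_insert, mem_singleton, not_or] at hx hy hx0
      have := h.coc a b c x0 x y hd.1 hd.2.1 hd.2.2 hx0.2.1 hx0.2.2.1 hx0.2.2.2 hx.2.1 hx.2.2.1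
        hx.2.2.2 hy.2.1 hy.2.2.1 hy.2.2.2
      exact ⟨by omega, h.j3 a b c x y hd.1 hd.2.1 hd.2.2 hx.2.1 hx.2.2.1 hx.2.2.2 hy.2.1 hy.2.2.1
        hy.2.2.2⟩
    by_cases h1 : ((S \ {a, b, c}).filter fun x => sg s a b c x0 x = 0).card ≤ N
    · refine ⟨{a, b, c} ∪ (S \ {a, b, c}).filter fun x => sg s a b c x0 x = 0,
        (card_union_le _ _).trans (by omega), by simp, fun _ _ _ x hx y hy hx' hy' => ?_⟩
      rw [mem_union, not_or] at hx' hy'
      have mx := mem_sdiff.mpr ⟨hx, hx'.1⟩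
      have my := mem_sdiff.mpr ⟨hy, hy'.1⟩
      have e1 : sg s a b c x0 x ≠ 0 := fun e => hx'.2 (mem_filter.mpr ⟨mx, e⟩)
      have e2 : sg s a b c x0 y ≠ 0 := fun e => hy'.2 (mem_filter.mpr ⟨my, e⟩)
      have := co x mx y my
      have := co y my x mx
      have := co x mx x0 hx0
      have := co y my x0 hx0
      have := co x0 hx0 x mx
      have := co x0 hx0 y my
      have := co x0 hx0 x0 hx0
      omega
    by_cases h2 : ((S \ {a, b, c}).filter fun x => ¬ sg s a b c x0 x = 0).card ≤ N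
    · refine ⟨{a, b, c} ∪ (S \ {a, b, c}).filter fun x => ¬ sg s a b c x0 x = 0,
        (card_union_le _ _).trans (by omega), by simp, fun _ _ _ x hx y hy hx' hy' => ?_⟩
      rw [mem_union, not_or] at hx' hy'
      have mx := mem_sdiff.mpr ⟨hx, hx'.1⟩
      have my := mem_sdiff.mpr ⟨hy, hy'.1⟩
      have e1 : sg s a b c x0 x = 0 := by
        by_contra e
        exact hx'.2 (mem_filter.mpr ⟨mx, e⟩)
      have e2 : sg s a b c x0 y = 0 := by
        by_contra e
        exact hy'.2 (mem_filter.mpr ⟨my, e⟩)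
      have := co x mx y my
      omega
    refine absurd ⟨a, b, c, _, (filter_subset _ _).trans sdiff_subset, _,
      (filter_subset _ _).trans sdiff_subset, hd.1, hd.2.1, hd.2.2, (not_le.mp h1).le,
      (not_le.mp h2).le, fun x hx => ?_, fun x hx => ?_, fun x hx y hy => ?_⟩ hc
    · simpa [not_or] using (mem_sdiff.mp (mem_filter.mp hx).1).2
    · simpa [not_or] using (mem_sdiff.mp (mem_filter.mp hx).1).2
    · have := co x (mem_filter.mp hx).1 y (mem_filter.mp hy).1
      have := (mem_filter.mp hx).2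
      have := (mem_filter.mp hy).2
      omega
  choose B b1 b2 b3 using key
  obtain ⟨f, f1, f2⟩ := sample S B (N + 3) (2 * L) (fun a _ b _ c _ => b1 a b c) hN
  have inj : Function.Injective f := fun i j e => by
    by_contra hne
    exact f2 j j j i hne hne hne (e ▸ b2 _ _ _)
  obtain ⟨m, h1, h2⟩ := h.emp_cyc (Q := univ.image f) (L := L) (by
    intro a ha b hb c hc x hx y hy
    obtain ⟨i, -, rfl⟩ := mem_image.mp ha
    obtain ⟨j, -, rfl⟩ := mem_image.mp hb
    obtain ⟨k, -, rfl⟩ := mem_image.mp hc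
    obtain ⟨l, -, rfl⟩ := mem_image.mp hx
    obtain ⟨n, -, rfl⟩ := mem_image.mp hy
    intro e1 e2 e3 e4 e5 e6 e7 e8 e9
    exact b3 _ _ _ e1 e2 e3 _ (f1 l) _ (f1 n)
      (f2 i j k l (fun e => e4 (e ▸ rfl)) (fun e => e5 (e ▸ rfl)) (fun e => e6 (e ▸ rfl)))
      (f2 i j k n (fun e => e7 (e ▸ rfl)) (fun e => e8 (e ▸ rfl)) (fun e => e9 (e ▸ rfl))))
    hL0 (by rw [card_image_of_injective _ inj]; simp)
  exact hL m h1 h2

/-- No edge spanned by `A` crosses an edge spanned by `B`. -/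
def NC (s : V → V → V → V → ℤ) (A B : Finset V) : Prop :=
  ∀ a ∈ A, ∀ a' ∈ A, ∀ y ∈ B, ∀ y' ∈ B, s a a' y y' = 0

lemma le_of_mul {c N a b : ℕ} (hc : 0 < c) (h1 : c * N ≤ a) (h2 : a ≤ c * b) : N ≤ b :=
  Nat.le_of_mul_le_mul_left (h1.trans h2) hc

lemma Ax.clean' (h : Ax s) {L : ℕ} (hL0 : 0 < L) (hL : ∀ m, L ≤ m → ¬ Cyc s m) (S : Finset V)
    (p q : V) (N : ℕ) (hN : 2 * L * N ≤ S.card) :
    ∃ S' ⊆ S, N ≤ S'.card ∧ ∀ a ∈ S', ∀ b ∈ S', s a b p q = 0 := by
  obtain ⟨S', h1, h2, h3⟩ := h.clean hL S p q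
  exact ⟨S', h1, le_of_mul (by omega) hN h2, h3⟩

lemma Ax.two (h : Ax s) {L : ℕ} (hL0 : 0 < L) (hL : ∀ m, L ≤ m → ¬ Cyc s m) (S : Finset V) (N : ℕ)
    (hN : (2 * L) ^ 4 * ((2 * L) ^ 3 * N + 3) < S.card) :
    ∃ A ⊆ S, ∃ B ⊆ S, N ≤ A.card ∧ N ≤ B.card ∧ (∀ x ∈ A, x ∉ B) ∧ NC s A B := by
  obtain ⟨a, b, c, A, a1, B, b1, e1, e2, e3, a2, b2, a3, b3, hs⟩ := h.heavy hL0 hL S _ hN
  have cl : ∀ A : Finset V, (2 * L) ^ 3 * N ≤ A.card → ∃ A' ⊆ A, N ≤ A'.card ∧ ∀ x ∈ A', ∀ u ∈ A',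
      s x u a b = 0 ∧ s x u b c = 0 ∧ s x u c a = 0 := by
    intro A hA
    obtain ⟨A1, c1, c2, c3⟩ := h.clean' hL0 hL A a b (2 * L * (2 * L * N)) (by nlinarith)
    obtain ⟨A2, d1, d2, d3⟩ := h.clean' hL0 hL A1 b c _ c2
    obtain ⟨A3, f1, f2, f3⟩ := h.clean' hL0 hL A2 c a _ d2
    exact ⟨A3, (f1.trans d1).trans c1, f2, fun x hx u hu =>
      ⟨c3 x (d1 (f1 hx)) u (d1 (f1 hu)), d3 x (f1 hx) u (f1 hu), f3 x hx u hu⟩⟩
  obtain ⟨A', c1, c2, c3⟩ := cl A a2
  obtain ⟨B', d1, d2, d3⟩ := cl B b2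
  refine ⟨A', c1.trans a1, B', d1.trans b1, c2, d2, fun x hx hx' => ?_, fun x hx u hu y hy v hv => ?_⟩
  · have := h.sg_anti a b c x x
    have := hs x (c1 hx) x (d1 hx')
    omega
  · by_contra hne
    have k1 := a3 x (c1 hx)
    have k2 := a3 u (c1 hu)
    have k3 := b3 y (d1 hy)
    have k4 := b3 v (d1 hv)
    have k5 := c3 x hx u hu
    have k6 := d3 y hy v hv
    exact hs x (c1 hx) y (d1 hy) (h.rr a b c x u y v e1 e2 e3 k1.1 k1.2.1 k1.2.2 k3.1 k3.2.1 k3.2.2
      k2.1 k2.2.1 k2.2.2 k4.1 k4.2.1 k4.2.2 k5.1 k5.2.1 k5.2.2 k6.1 k6.2.1 k6.2.2 hne)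

lemma NC.mono {A B A' B' : Finset V} (h : NC s A B) (hA : A' ⊆ A) (hB : B' ⊆ B) : NC s A' B' :=
  fun a ha a' ha' y hy y' hy' => h a (hA ha) a' (hA ha') y (hB hy) y' (hB hy')

lemma Ax.nc_symm (h : Ax s) {A B : Finset V} (h1 : NC s A B) : NC s B A :=
  fun a ha a' ha' y hy y' hy' => by rw [h.swap, h1 y hy y' hy' a ha a' ha', neg_zero]

/-- Cleaning a star. -/
lemma Ax.star (h : Ax s) {L : ℕ} (hL0 : 0 < L) (hL : ∀ m, L ≤ m → ¬ Cyc s m) {A B : Finset V} {p : V}
    (hpA : p ∉ A) (hpB : p ∉ B) (hd : ∀ x ∈ A, x ∉ B) (hn : NC s A B) {N N' : ℕ} (hN0 : 0 < N)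
    (hN : 2 * N ≤ A.card) (hN' : 2 * L * (2 * N') ≤ B.card) :
    ∃ A' ⊆ A, ∃ B' ⊆ B, N ≤ A'.card ∧ N' ≤ B'.card ∧ NC s (insert p A') B' := by
  classical
  obtain ⟨x0, hx0⟩ : A.Nonempty := card_pos.mp (by omega)
  obtain ⟨C, c1, c2, c3⟩ := h.clean' hL0 hL B p x0 _ hN'
  have co : ∀ x ∈ A, ∀ y ∈ C, ∀ y' ∈ C, ∀ y'' ∈ C, s p x y y' + s p x y' y'' + s p x y'' y = 0 := by
    intro x hx y hy y' hy' y'' hy''
    by_cases e : y ≠ y' ∧ y' ≠ y'' ∧ y'' ≠ y
    · have np : ∀ z ∈ C, p ≠ z := fun z hz e => hpB (e ▸ c1 hz)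
      have nx : ∀ x ∈ A, ∀ z ∈ C, x ≠ z := fun x hx z hz e => hd x hx (e ▸ c1 hz)
      have := h.coc y y' y'' p x0 x e.1 e.2.1 e.2.2 (np _ hy) (np _ hy') (np _ hy'') (nx _ hx0 _ hy)
        (nx _ hx0 _ hy') (nx _ hx0 _ hy'') (nx _ hx _ hy) (nx _ hx _ hy') (nx _ hx _ hy'')
      unfold sg at this
      rw [hn x0 hx0 x hx y (c1 hy) y' (c1 hy'), hn x0 hx0 x hx y' (c1 hy') y'' (c1 hy''),
        hn x0 hx0 x hx y'' (c1 hy'') y (c1 hy), h.swap y y' p x0, h.swap y' y'' p x0,
        h.swap y'' y p x0, c3 y hy y' hy', c3 y' hy' y'' hy'', c3 y'' hy'' y hy] at this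
      omega
    · have := h.anti2 p x y y'
      have := h.anti2 p x y' y''
      have := h.anti2 p x y y
      have := h.anti2 p x y' y'
      rcases (show y = y' ∨ y' = y'' ∨ y'' = y by tauto) with e | e | e <;> subst e <;> omega
  set U : V → Finset V := fun x => C.filter fun y' => ∃ y ∈ C, s p x y y' = 1 with hU
  have u1 : ∀ x ∈ A, ∀ y ∈ U x, ∀ y' ∈ U x, s p x y y' ≠ 1 := by
    intro x hx y hy y' hy' e
    obtain ⟨hy1, z, hz, hz1⟩ := mem_filter.mp hy
    have := co x hx z hz y hy1 y' (mem_filter.mp hy').1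
    have := h.bd p x y' z
    omega
  have u2 : ∀ x ∈ A, ∀ y ∈ C, ∀ y' ∈ C, y' ∉ U x → s p x y y' ≠ 1 := fun x hx y hy y' hy' hn e =>
    hn (mem_filter.mpr ⟨hy', y, hy, e⟩)
  have u3 : ∀ x ∈ A, ∀ y ∈ U x, ∀ y' ∈ C, y' ∉ U x → s p x y' y = 1 := by
    intro x hx y hy y' hy' hn
    obtain ⟨hy1, z, hz, hz1⟩ := mem_filter.mp hy
    have := co x hx z hz y hy1 y' hy'
    have := u2 x hx z hz y' hy' hn
    have := h.anti2 p x z y'
    have := h.anti2 p x y y'
    have := h.bd p x z y'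
    have := h.bd p x y y'
    omega
  have u4 : ∀ x ∈ A, ∀ x' ∈ A, (U x).card ≤ (U x').card → U x ⊆ U x' := by
    intro x hx x' hx' hc
    by_contra hne
    obtain ⟨y, hy, hy2⟩ := not_subset.mp hne
    have : ¬ U x' ⊆ U x := fun e => hy2 (eq_of_subset_of_card_le e hc ▸ hy)
    obtain ⟨y', hy', hy3⟩ := not_subset.mp this
    have m1 := (mem_filter.mp hy).1
    have m2 := (mem_filter.mp hy').1
    have e1 := u3 x hx y hy y' m2 hy3
    have e2 := u3 x' hx' y' hy' y m1 hy2
    have d1 := h.dis _ _ _ _ (e1 ▸ one_ne_zero)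
    have d2 := h.dis _ _ _ _ (e2 ▸ one_ne_zero)
    have hxx : x ≠ x' := by rintro rfl; exact hy2 hy
    have e4 := h.j3 p x x' y y' d1.1 hxx d2.1.symm d2.2.1.symm d1.2.2.2.2.1.symm d2.2.2.2.1.symm
      d1.2.1.symm d1.2.2.2.1.symm d2.2.2.2.2.1.symm
    unfold sg at e4
    have := h.swap p x y y'
    have := h.anti2 p x y y'
    have := h.swap x x' y y'
    have := hn x hx x' hx' y (c1 m1) y' (c1 m2)
    have := h.swap x' p y y'
    have := h.anti p x' y y'
    omega
  have fin : ∀ A' ⊆ A, ∀ B' ⊆ C, (∀ x ∈ A', ∀ y ∈ B', ∀ y' ∈ B', s p x y y' ≠ 1) →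
      NC s (insert p A') B' := by
    intro A' hA B' hB hh
    have k : ∀ x ∈ A', ∀ y ∈ B', ∀ y' ∈ B', s p x y y' = 0 := fun x hx y hy y' hy' => by
      have := hh x hx y hy y' hy'
      have := hh x hx y' hy' y hy
      have := h.anti2 p x y y'
      have := h.bd p x y y'
      omega
    intro a ha a' ha' y hy y' hy'
    rcases mem_insert.mp ha with rfl | hb <;> rcases mem_insert.mp ha' with rfl | hb'
    · exact h.z (by simp)
    · exact k _ hb' _ hy _ hy'
    · rw [h.anti, k _ hb _ hy _ hy', neg_zero]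
    · exact hn _ (hA hb) _ (hA hb') _ (c1 (hB hy)) _ (c1 (hB hy'))
  have hc := card_filter_add_card_filter_not (s := A) (fun x => N' ≤ (U x).card)
  by_cases e : N ≤ (A.filter fun x => N' ≤ (U x).card).card
  · obtain ⟨x, hx, hm⟩ := exists_min_image (A.filter fun x => N' ≤ (U x).card) (fun x => (U x).card)
      (card_pos.mp (by omega))
    refine ⟨_, filter_subset _ _, U x, (filter_subset _ _).trans c1, e, (mem_filter.mp hx).2,
      fin _ (filter_subset _ _) _ (filter_subset _ _) fun x' hx' y hy y' hy' => ?_⟩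
    have := u4 x (mem_filter.mp hx).1 x' (mem_filter.mp hx').1 (hm x' hx')
    exact u1 x' (mem_filter.mp hx').1 y (this hy) y' (this hy')
  · obtain ⟨x, hx, hm⟩ := exists_max_image (A.filter fun x => ¬ N' ≤ (U x).card) (fun x => (U x).card)
      (card_pos.mp (by omega))
    have c4 := le_card_sdiff (U x) C
    have c5 := (mem_filter.mp hx).2
    refine ⟨_, filter_subset (fun x => ¬ N' ≤ (U x).card) A, C \ U x, sdiff_subset.trans c1,
      by omega, by omega, fin _ (filter_subset _ _) _ sdiff_subset fun x' hx' y hy y' hy' => ?_⟩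
    have := u4 x' (mem_filter.mp hx').1 x (mem_filter.mp hx).1 (hm x' hx')
    exact u2 x' (mem_filter.mp hx').1 y (mem_sdiff.mp hy).1 y' (mem_sdiff.mp hy').1
      fun e => (mem_sdiff.mp hy').2 (this e)

lemma three (S : Finset V) (f : V → ℤ) (hf : ∀ x, f x = 0 ∨ f x = 1 ∨ f x = -1) {N : ℕ}
    (hN : 3 * N ≤ S.card) : ∃ S' ⊆ S, N ≤ S'.card ∧ ∀ x ∈ S', ∀ y ∈ S', f x = f y := by
  obtain ⟨v, -, hv⟩ := exists_le_card_fiber_of_mul_le_card_of_maps_to (s := S)
    (t := ({0, 1, -1} : Finset ℤ)) (f := f) (n := N) (fun x _ => by simpa using hf x) (by simp)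
    (by simpa using hN)
  exact ⟨_, filter_subset _ _, hv, fun x hx y hy =>
    (mem_filter.mp hx).2.trans (mem_filter.mp hy).2.symm⟩

/-- Two clusters, each joined to its own terminal, that do not cross each other. -/
lemma Ax.sep (h : Ax s) {L : ℕ} (hL0 : 0 < L) (hL : ∀ m, L ≤ m → ¬ Cyc s m) {S : Finset V} {p q : V}
    (hp : p ∉ S) (hq : q ∉ S) (hpq : p ≠ q) {N : ℕ} (hN0 : 0 < N)
    (hN : (2 * L) ^ 4 * ((2 * L) ^ 3 * (192 * L ^ 2 * N) + 3) < S.card) :
    ∃ A ⊆ S, ∃ B ⊆ S, N ≤ A.card ∧ N ≤ B.card ∧ (∀ x ∈ A, x ∉ B) ∧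
      NC s (insert p A) (insert q B) := by
  obtain ⟨A0, a0, B0, b0, a0', b0', d0, n0⟩ := h.two hL0 hL S _ hN
  obtain ⟨A1, a1, B1, b1, a1', b1', n1⟩ := h.star hL0 hL (fun e => hp (a0 e)) (fun e => hp (b0 e)) d0
    n0 (N := 96 * L ^ 2 * N) (N' := 48 * L * N) (by positivity) (by linarith) (by nlinarith)
  obtain ⟨A2, a2, B2, b2, a2', b2', n2⟩ := h.star hL0 hL (p := q) (fun e => hq (a0 (a1 e)))
    (fun e => hq (b0 (b1 e))) (fun x hx e => d0 x (a1 hx) (b1 e)) (n0.mono a1 b1)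
    (N := 48 * L ^ 2 * N) (N' := 12 * N) (by positivity) (by linarith) (by linarith)
  obtain ⟨B3, b3, A3, a3, b3', a3', n3⟩ := h.star hL0 hL (p := p) (fun e => hp (b0 (b1 (b2 e))))
    (fun e => hp (a0 (a1 (a2 e)))) (fun x hx e => d0 x (a1 (a2 e)) (b1 (b2 hx)))
    (h.nc_symm (n0.mono (a2.trans a1) (b2.trans b1)))
    (N := 6 * N) (N' := 12 * L * N) (by positivity) (by linarith) (by nlinarith)
  obtain ⟨B4, b4, A4, a4, b4', a4', n4⟩ := h.star hL0 hL (p := q) (fun e => hq (b0 (b1 (b2 (b3 e)))))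
    (fun e => hq (a0 (a1 (a2 (a3 e))))) (fun x hx e => d0 x (a1 (a2 (a3 e))) (b1 (b2 (b3 hx))))
    (h.nc_symm (n0.mono (a3.trans (a2.trans a1)) (b3.trans (b2.trans b1))))
    (N := 3 * N) (N' := 3 * N) (by positivity) (by linarith) (by linarith)
  have sA : A4 ⊆ A0 := a4.trans (a3.trans (a2.trans a1))
  have sB : B4 ⊆ B0 := b4.trans (b3.trans (b2.trans b1))
  have m1 : NC s (insert p A4) B4 :=
    n1.mono (insert_subset_insert _ (a4.trans (a3.trans a2))) (b4.trans (b3.trans b2))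
  have m2 : NC s (insert q A4) B4 := n2.mono (insert_subset_insert _ (a4.trans a3)) (b4.trans b3)
  have m3 : NC s (insert p B4) A4 := n3.mono (insert_subset_insert _ b4) a4
  obtain ⟨y0, hy0⟩ : B4.Nonempty := card_pos.mp (by omega)
  obtain ⟨A, a5, a5', a6⟩ := three A4 (fun x => s p x q y0) (fun _ => h.bd _ _ _ _) a4'
  obtain ⟨x0, hx0⟩ : A.Nonempty := card_pos.mp (by omega)
  obtain ⟨B, b5, b5', b6⟩ := three B4 (fun y => s p x0 q y) (fun _ => h.bd _ _ _ _) b4'
  obtain ⟨y1, hy1⟩ : B.Nonempty := card_pos.mp (by omega)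
  have hom : ∀ x ∈ A, ∀ y ∈ B, s p x q y = s p x0 q y1 := by
    intro x hx y hy
    rw [← b6 y hy y1 hy1]
    by_cases e : x = x0
    · rw [e]
    have n5 : ∀ z ∈ A, p ≠ z ∧ q ≠ z ∧ ∀ w ∈ B4, w ≠ z := fun z hz =>
      ⟨fun e => hp (e ▸ a0 (sA (a5 hz))), fun e => hq (e ▸ a0 (sA (a5 hz))),
        fun w hw e => d0 z (sA (a5 hz)) (e ▸ sB hw)⟩
    have n6 : ∀ w ∈ B4, w ≠ p := fun w hw e => hp (e ▸ b0 (sB hw))
    have := h.coc p x x0 q y0 y (n5 x hx).1 e (n5 x0 hx0).1.symm hpq.symm (n5 x hx).2.1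
      (n5 x0 hx0).2.1 (n6 _ hy0) ((n5 x hx).2.2 _ hy0) ((n5 x0 hx0).2.2 _ hy0) (n6 _ (b5 hy))
      ((n5 x hx).2.2 _ (b5 hy)) ((n5 x0 hx0).2.2 _ (b5 hy))
    unfold sg at this
    have i1 := mem_insert_self p A4
    have i2 : ∀ z ∈ A, z ∈ insert p A4 := fun z hz => mem_insert_of_mem (a5 hz)
    have m4 := h.nc_symm m1
    rw [m4 y0 hy0 y (b5 hy) p i1 x (i2 x hx), m4 y0 hy0 y (b5 hy) x (i2 x hx) x0 (i2 x0 hx0),
      m4 y0 hy0 y (b5 hy) x0 (i2 x0 hx0) p i1,
      n4 q (mem_insert_self _ _) y0 (mem_insert_of_mem hy0) x (a5 hx) x0 (a5 hx0),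
      n4 q (mem_insert_self _ _) y (mem_insert_of_mem (b5 hy)) x (a5 hx) x0 (a5 hx0),
      h.swap p x q y0, h.swap p x q y, h.swap x0 p q y0, h.swap x0 p q y, h.anti p x0 q y0,
      h.anti p x0 q y] at this
    have := a6 x hx x0 hx0
    omega
  have fin : ∀ A B : Finset V, NC s (insert p A) B → NC s (insert q B) A →
      (∀ x ∈ A, ∀ y ∈ B, s p x q y = 0) → NC s (insert p A) (insert q B) := by
    intro A B k1 k2 k3 a ha a' ha' y hy y' hy'
    have k4 : ∀ a ∈ insert p A, ∀ a' ∈ insert p A, ∀ y ∈ B, s a a' q y = 0 := by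
      intro a ha a' ha' y hy
      rcases mem_insert.mp ha with rfl | hb <;> rcases mem_insert.mp ha' with rfl | hb'
      · exact h.z (by simp)
      · exact k3 _ hb' _ hy
      · rw [h.anti, k3 _ hb _ hy, neg_zero]
      · exact h.nc_symm k2 _ hb _ hb' _ (mem_insert_self _ _) _ (mem_insert_of_mem hy)
    rcases mem_insert.mp hy with rfl | hz <;> rcases mem_insert.mp hy' with rfl | hz'
    · exact h.z (by simp)
    · exact k4 _ ha _ ha' _ hz'
    · rw [h.anti2, k4 _ ha _ ha' _ hz, neg_zero]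
    · exact k1 _ ha _ ha' _ hz _ hz'
  by_cases e : s p x0 q y1 = 0
  · exact ⟨A, a5.trans (sA.trans a0), B, b5.trans (sB.trans b0), a5', b5',
      fun x hx e => d0 x (sA (a5 hx)) (sB (b5 e)), fin A B (m1.mono (insert_subset_insert _ a5) b5)
        (n4.mono (insert_subset_insert _ b5) a5) fun x hx y hy => (hom x hx y hy).trans e⟩
  · refine ⟨B, b5.trans (sB.trans b0), A, a5.trans (sA.trans a0), b5', a5',
      fun x hx e => d0 x (sA (a5 e)) (sB (b5 hx)), fin B A (m3.mono (insert_subset_insert _ b5) a5)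
        (m2.mono (insert_subset_insert _ a5) b5) fun y hy x hx => ?_⟩
    have := (h.l2 (show s p x q y ≠ 0 by rw [hom x hx y hy]; exact e)).2
    rw [h.anti2, this, neg_zero]

lemma tour (A : Finset V) (r : V → V → Prop) [∀ a b, Decidable (r a b)]
    (hr : ∀ a ∈ A, ∀ b ∈ A, r a b ∨ r b a) (t : ℕ) :
    (A.filter fun b => (A.filter fun x => r b x).card < t).card ≤ 2 * t := by
  set D := A.filter fun b => (A.filter fun x => r b x).card < t with hD
  have h1 : ∀ b ∈ D, (D.filter fun x => r b x).card ≤ t := fun b hb =>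
    (card_le_card (filter_subset_filter _ (filter_subset _ _))).trans (mem_filter.mp hb).2.le
  have h2 : ∑ b ∈ D, D.card ≤ ∑ b ∈ D, ((D.filter fun x => r b x).card +
      (D.filter fun x => r x b).card) := sum_le_sum fun b hb => by
    refine le_trans (card_le_card fun x hx => ?_) (card_union_le _ _)
    simpa [hx] using hr b (mem_filter.mp hb).1 x (mem_filter.mp hx).1
  have h4 : ∑ b ∈ D, (D.filter fun x => r x b).card = ∑ b ∈ D, (D.filter fun x => r b x).card :=
    sum_card_bipartiteAbove_eq_sum_card_bipartiteBelow (r := fun b x => r x b)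
  rw [sum_add_distrib, h4] at h2
  have h3 : ∑ b ∈ D, (D.filter fun x => r b x).card ≤ ∑ b ∈ D, t := sum_le_sum h1
  simp only [sum_const, smul_eq_mul] at h2 h3
  rcases Nat.eq_zero_or_pos D.card with e | e
  · omega
  · exact Nat.le_of_mul_le_mul_left (by linarith) e

lemma pairs (A B : Finset V) (P Q : V → V → Prop) [∀ a b, Decidable (P a b)]
    [∀ a b, Decidable (Q a b)] {t : ℕ} (ht : 0 < t) (hA : A.card = 5 * t) (hB : B.card = 5 * t)
    (h1 : ∀ c ∈ B, (A.filter fun b => P b c).card ≤ 2 * t)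
    (h2 : ∀ b ∈ A, (B.filter fun c => Q b c).card ≤ 2 * t) : ∃ b ∈ A, ∃ c ∈ B, ¬ P b c ∧ ¬ Q b c := by
  by_contra hc
  push Not at hc
  have h3 : ∑ b ∈ A, B.card ≤ ∑ b ∈ A, ((B.filter fun c => P b c).card +
      (B.filter fun c => Q b c).card) := sum_le_sum fun b hb => by
    refine le_trans (card_le_card fun x hx => ?_) (card_union_le _ _)
    have := hc b hb x hx
    simp only [mem_union, mem_filter, hx, true_and]
    tauto
  have h6 : ∑ b ∈ A, (B.filter fun c => P b c).card = ∑ c ∈ B, (A.filter fun b => P b c).card :=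
    sum_card_bipartiteAbove_eq_sum_card_bipartiteBelow (r := P)
  rw [sum_add_distrib, h6] at h3
  have h4 := sum_le_sum h1
  have h5 := sum_le_sum h2
  simp only [sum_const, smul_eq_mul, hA, hB] at h3 h4 h5
  nlinarith

lemma Ax.path (h : Ax s) {L : ℕ} (hL0 : 0 < L) (hL : ∀ m, L ≤ m → ¬ Cyc s m) (j : ℕ) :
    ∀ (S : Finset V) (p q : V), p ∉ S → q ∉ S → p ≠ q → (2 ^ 20 * L ^ 10) ^ j ≤ S.card →
      ∃ m, 2 ^ j ≤ m ∧ HP s (fun a b => a ∈ insert p (insert q S) ∧ b ∈ insert p (insert q S))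
        (insert p (insert q S)) p q m := by
  induction j with
  | zero =>
    intro S p q _ _ hpq _
    exact ⟨1, by simp, h.edge hpq (by simp) (by simp) (by simp)⟩
  | succ j ih =>
    intro S p q hp hq hpq hS
    set N := (2 ^ 20 * L ^ 10) ^ j with hN
    have hN0 : 0 < N := by positivity
    have ht : 0 < 4 * L * N := by positivity
    obtain ⟨A0, a0, B0, b0, a0', b0', d0, n0⟩ := h.sep hL0 hL hp hq hpq (N := 5 * (4 * L * N))
      (by positivity) (by
        have e1 : L ^ 4 ≤ L ^ 10 * N := (Nat.pow_le_pow_right hL0 (by omega)).trans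
          (Nat.le_mul_of_pos_right _ hN0)
        have e2 : 0 < L ^ 4 := by positivity
        rw [pow_succ, ← hN] at hS
        nlinarith)
    obtain ⟨A1, a1, a1'⟩ := exists_subset_card_eq a0'
    obtain ⟨B1, b1, b1'⟩ := exists_subset_card_eq b0'
    obtain ⟨b, hb, c, hc, k1, k2⟩ := pairs A1 B1
      (fun b c => (A1.filter fun x => s b c p x = 0).card < 4 * L * N)
      (fun b c => (B1.filter fun y => s c b q y = 0).card < 4 * L * N) ht a1' b1'
      (fun c _ => tour A1 (fun b x => s b c p x = 0) (fun a _ b _ => by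
        by_contra e
        push Not at e
        have := (h.l2 e.1).1
        have := h.swap a p c b
        have := h.anti b c a p
        have := h.anti2 b c p a
        omega) _)
      (fun c _ => tour B1 (fun b x => s b c q x = 0) (fun a _ b _ => by
        by_contra e
        push Not at e
        have := (h.l2 e.1).1
        have := h.swap a q c b
        have := h.anti b c a q
        have := h.anti2 b c q a
        omega) _)
    have c1 := pred_card_le_card_erase (s := A1.filter fun x => s b c p x = 0) (a := b)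
    have c2 := pred_card_le_card_erase (s := B1.filter fun y => s c b q y = 0) (a := c)
    have ht2 : 0 < 2 * L * N := by positivity
    have ht3 : 4 * L * N = 2 * (2 * L * N) := by ring
    obtain ⟨A, a2, a2', a3⟩ := h.clean' hL0 hL ((A1.filter fun x => s b c p x = 0).erase b) b c N
      (by omega)
    obtain ⟨B, b2, b2', b3⟩ := h.clean' hL0 hL ((B1.filter fun y => s c b q y = 0).erase c) b c N
      (by omega)
    have mA : ∀ x ∈ A, x ≠ b ∧ x ∈ A0 ∧ s b c p x = 0 := fun x hx =>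
      ⟨(mem_erase.mp (a2 hx)).1, a1 (mem_filter.mp (mem_erase.mp (a2 hx)).2).1,
        (mem_filter.mp (mem_erase.mp (a2 hx)).2).2⟩
    have mB : ∀ x ∈ B, x ≠ c ∧ x ∈ B0 ∧ s c b q x = 0 := fun x hx =>
      ⟨(mem_erase.mp (b2 hx)).1, b1 (mem_filter.mp (mem_erase.mp (b2 hx)).2).1,
        (mem_filter.mp (mem_erase.mp (b2 hx)).2).2⟩
    have hbc : b ≠ c := fun e => d0 b (a1 hb) (e ▸ b1 hc)
    obtain ⟨m1, e1, p1⟩ := ih A p b (fun e => hp (a0 (mA p e).2.1)) (fun e => (mA b e).1 rfl)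
      (fun e => hp (e ▸ a0 (a1 hb))) a2'
    obtain ⟨m2, e2, p2⟩ := ih B c q (fun e => (mB c e).1 rfl) (fun e => hq (b0 (mB q e).2.1))
      (fun e => hq (e ▸ b0 (b1 hc))) b2'
    have sA : insert p (insert b A) ⊆ insert p A0 :=
      insert_subset_insert _ (insert_subset (a1 hb) fun x hx => (mA x hx).2.1)
    have sB : insert c (insert q B) ⊆ insert q B0 := by
      rw [insert_comm]
      exact insert_subset_insert _ (insert_subset (b1 hc) fun x hx => (mB x hx).2.1)
    have dd : ∀ x ∈ insert p A0, x ∉ insert q B0 := by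
      intro x h1 h2
      rcases mem_insert.mp h1 with e1 | e1 <;> rcases mem_insert.mp h2 with e2 | e2
      · exact hpq (e1.symm.trans e2)
      · exact hp (e1 ▸ b0 e2)
      · exact hq (e2 ▸ a0 e1)
      · exact d0 x e1 e2
    have p3 := h.cat (h.edge (E := fun x y => x = b ∧ y = c) (S := {b, c}) hbc (by simp) (by simp)
      ⟨rfl, rfl⟩) p2 (fun x h1 h2 => by
        rcases mem_insert.mp h1 with e | e
        · exact absurd (sB h2) (dd x (e ▸ mem_insert_of_mem (a1 hb)))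
        · exact mem_singleton.mp e) (by
        rintro _ _ y y' ⟨rfl, rfl⟩ ⟨h1, h2⟩
        simp only [mem_insert] at h1 h2
        rcases h1 with rfl | rfl | h1
        · exact h.z (by simp)
        · rcases h2 with rfl | rfl | h2
          · exact h.z (by simp)
          · exact h.z (by simp)
          · rw [h.anti, (mB _ h2).2.2, neg_zero]
        · rcases h2 with rfl | rfl | h2
          · exact h.z (by simp)
          · rw [h.anti, h.anti2, (mB _ h1).2.2, neg_zero, neg_zero]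
          · rw [h.swap, b3 _ h1 _ h2, neg_zero])
    have p4 := h.cat p1 p3 (fun x h1 h2 => by
        rcases mem_union.mp h2 with e | e
        · rcases mem_insert.mp e with e | e
          · exact e
          · exact absurd (mem_singleton.mp e ▸ mem_insert_of_mem (b1 hc)) (dd x (sA h1))
        · exact absurd (sB e) (dd x (sA h1))) (by
        rintro y y' z z' ⟨h1, h2⟩ (⟨rfl, rfl⟩ | ⟨h3, h4⟩)
        · simp only [mem_insert] at h1 h2
          rcases h1 with rfl | rfl | h1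
          · rcases h2 with rfl | rfl | h2
            · exact h.z (by simp)
            · exact h.z (by simp)
            · rw [h.swap, (mA _ h2).2.2, neg_zero]
          · exact h.z (by simp)
          · rcases h2 with rfl | rfl | h2
            · rw [h.swap, h.anti2, (mA _ h1).2.2, neg_zero, neg_zero]
            · exact h.z (by simp)
            · exact a3 _ h1 _ h2
        · exact n0 _ (sA h1) _ (sA h2) _ (sB h3) _ (sB h4))
    have tA : insert p A0 ⊆ insert p (insert q S) :=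
      insert_subset_insert _ (a0.trans (subset_insert _ _))
    have tB : insert q B0 ⊆ insert p (insert q S) :=
      (insert_subset_insert _ b0).trans (subset_insert _ _)
    have hb' := tA (mem_insert_of_mem (a1 hb))
    have hc' := tB (mem_insert_of_mem (b1 hc))
    refine ⟨_, by rw [pow_succ]; omega, p4.mono ?_ (union_subset (sA.trans tA) (union_subset
      (insert_subset hb' (singleton_subset_iff.mpr hc')) (sB.trans tB)))⟩
    rintro x y (⟨h1, h2⟩ | ⟨rfl, rfl⟩ | ⟨h1, h2⟩)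
    · exact ⟨tA (sA h1), tA (sA h2)⟩
    · exact ⟨hb', hc'⟩
    · exact ⟨tB (sB h1), tB (sB h2)⟩

theorem Ax.main (h : Ax s) (k : ℕ) (hk : 2 ≤ k) (S : Finset V) (hS : 2 ^ (25 * k ^ 2) ≤ S.card) :
    ∃ m, 2 ^ k ≤ m ∧ Cyc s m := by
  by_contra hc
  push Not at hc
  have e1 : 2 * 2 ^ k * (2 ^ 20 * (2 ^ k) ^ 10) ^ k = 2 ^ (1 + k + (20 + k * 10) * k) := by
    rw [← pow_mul, ← pow_add, ← pow_mul, pow_add, pow_add, pow_one]
  have e2 : 2 ^ (1 + k + (20 + k * 10) * k + 2) ≤ 2 ^ (25 * k ^ 2) :=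
    Nat.pow_le_pow_right two_pos (by nlinarith)
  have e3 : 0 < 2 ^ (1 + k + (20 + k * 10) * k) := by positivity
  rw [pow_add] at e2
  obtain ⟨p, hp, q, hq, hpq⟩ := one_lt_card.mp (show 1 < S.card by omega)
  have c1 := pred_card_le_card_erase (s := S) (a := p)
  have c2 := pred_card_le_card_erase (s := S.erase p) (a := q)
  obtain ⟨T, t1, t2, t3⟩ := h.clean' (by positivity) hc ((S.erase p).erase q) q p
    ((2 ^ 20 * (2 ^ k) ^ 10) ^ k) (by omega)
  obtain ⟨m, h1, h2⟩ := h.path (by positivity) hc k T p q (fun e => by simpa using t1 e)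
    (fun e => by simpa using t1 e) hpq t2
  refine hc (m + 1) (by omega) (h.close h2 fun a a' e => ?_)
  simp only [mem_insert] at e
  by_cases e1 : a ∈ T ∧ a' ∈ T
  · exact t3 _ e1.1 _ e1.2
  · exact h.z (by tauto)

end Pool.Agent.Lib.MP_3764f3_co.LC
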