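import Pool.Agent.Lib.MP_d8c195_lc.Deg
import Pool.Agent.Lib.MP_3764f3_co.LComb

-- part Pool.Agent.Lib.MP_3764f3_co.LTop
section

/-! Winding numbers, local degree of a proper crossing and a Jordan type bound. -/

set_option autoImplicit false

namespace Pool.Agent.Lib.MP_3764f3_co.LT

open Set Complex Pool.Agent.Lib.MP_d8c195_lc

/-- Variation of the logarithm of `g - z`. -/
noncomputable def D (g : ℝ → ℂ) (a b : ℝ) (z : ℂ) : ℂ := dlog (fun t => g t - z) a b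

/-- Variation of the logarithm of `w - e`. -/
noncomputable def E (e : ℝ → ℂ) (c d : ℝ) (w : ℂ) : ℂ := dlog (fun t => w - e t) c d

/-- Intersection number of two arcs. -/
noncomputable def II (g e : ℝ → ℂ) (a b c d : ℝ) : ℂ := rd (fun p => g p.1 - e p.2) a b c d

variable {g e : ℝ → ℂ} {a b c d : ℝ}

lemma II_eq (g e : ℝ → ℂ) (a b c d : ℝ) :
    II g e a b c d = D g a b (e c) + E e c d (g b) - D g a b (e d) - E e c d (g a) := rfl

lemma II_zero (hg : Continuous g) (he : Continuous e) (hab : a ≤ b) (hcd : c ≤ d)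
    (h0 : ∀ s ∈ Icc a b, ∀ t ∈ Icc c d, g s ≠ e t) : II g e a b c d = 0 :=
  rd_zero (by fun_prop) hab hcd fun s hs t ht => sub_ne_zero.mpr (h0 s hs t ht)

lemma move (hg : Continuous g) (he : Continuous e) (hab : a ≤ b) (hcd : c ≤ d)
    (h0 : ∀ s ∈ Icc a b, ∀ t ∈ Icc c d, g s ≠ e t) :
    D g a b (e c) - D g a b (e d) = E e c d (g a) - E e c d (g b) := by
  have := II_zero hg he hab hcd h0
  rw [II_eq] at this
  linear_combination this

lemma D_add (hg : Continuous g) {m : ℝ} (h1 : a ≤ m) (h2 : m ≤ b) {z : ℂ}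
    (h0 : ∀ s ∈ Icc a b, g s ≠ z) : D g a b z = D g a m z + D g m b z :=
  dlog_add (by fun_prop) h1 h2 fun s hs => sub_ne_zero.mpr (h0 s hs)

lemma E_add (he : Continuous e) {m : ℝ} (h1 : c ≤ m) (h2 : m ≤ d) {z : ℂ}
    (h0 : ∀ s ∈ Icc c d, z ≠ e s) : E e c d z = E e c m z + E e m d z :=
  dlog_add (by fun_prop) h1 h2 fun s hs => sub_ne_zero.mpr (h0 s hs)

lemma dlog_rev (hg : Continuous g) (h0 : ∀ t ∈ Icc (0 : ℝ) 1, g t ≠ 0) :
    dlog (fun t => g (1 - t)) 0 1 = -dlog g 0 1 := by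
  obtain ⟨L, hL⟩ := exists_lift hg zero_le_one h0
  have m : ∀ t ∈ Icc (0 : ℝ) 1, 1 - t ∈ Icc (0 : ℝ) 1 := fun t ht =>
    ⟨by linarith [ht.2], by linarith [ht.1]⟩
  rw [dlog_eq zero_le_one hL, dlog_eq (L := fun t => L (1 - t)) zero_le_one
    ⟨hL.1.comp (by fun_prop) m, fun t ht => hL.2 _ (m t ht)⟩]
  simp

lemma dlog_shift {f : ℝ → ℂ} (hg : Continuous g) (h0 : ∀ t ∈ Icc (0 : ℝ) 1, g t ≠ 0) (k : ℝ)
    (hf : ∀ t ∈ Icc k (k + 1), f t = g (t - k)) : dlog f k (k + 1) = dlog g 0 1 := by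
  obtain ⟨L, hL⟩ := exists_lift hg zero_le_one h0
  have m : ∀ t ∈ Icc k (k + 1), t - k ∈ Icc (0 : ℝ) 1 := fun t ht =>
    ⟨by linarith [ht.1], by linarith [ht.2]⟩
  rw [dlog_eq zero_le_one hL, dlog_eq (L := fun t => L (t - k)) (by linarith)
    ⟨hL.1.comp (by fun_prop) m, fun t ht => by rw [hf t ht]; exact hL.2 _ (m t ht)⟩]
  simp

lemma deg_mul (H : ℂ → ℂ) (hH : Continuous H) (hi : Function.Injective H) (hg : Continuous g)
    (he : Continuous e) (hab : a ≤ b) (hcd : c ≤ d)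
    (h1 : ∀ s ∈ Icc a b, g s ≠ e c ∧ g s ≠ e d) (h2 : ∀ t ∈ Icc c d, g a ≠ e t ∧ g b ≠ e t) :
    ∃ k n : ℤ, II g e a b c d = n * (2 * Real.pi * I) ∧
      II (fun s => H (g s)) (fun t => H (e t)) a b c d = k * n * (2 * Real.pi * I) := by
  obtain ⟨L, hL, hE⟩ := exists_log (fun p : ℂ × ℂ => H (p.1 + exp p.2) - H p.1) (by fun_prop)
    (fun p => sub_ne_zero.mpr fun e => exp_ne_zero p.2 (by simpa using hi e))
  obtain ⟨k, hk⟩ := exp_eq_exp_iff_exists_int.mp
    (show exp (L (0, 0 + 2 * Real.pi * I)) = exp (L (0, 0)) by rw [hE, hE, exp_periodic])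
  have per : ∀ w u, L (w, u + 2 * Real.pi * I) = L (w, u) + k * (2 * Real.pi * I) := by
    intro w u
    have := isCoveringMap_exp.const_of_comp
      (g := fun p : ℂ × ℂ => L (p.1, p.2 + 2 * Real.pi * I) - L p) (by fun_prop) (fun x y => by
        apply Subtype.ext
        have : ∀ p : ℂ × ℂ, exp (L (p.1, p.2 + 2 * Real.pi * I) - L p) = 1 := fun p => by
          rw [exp_sub, div_eq_one_iff_eq (exp_ne_zero _), hE, hE, exp_periodic]
        simp only [this]) (w, u) (0, 0)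
    simp only at this
    linear_combination this + hk
  have pern : ∀ (n : ℤ) w u, L (w, u + n * (2 * Real.pi * I)) =
      L (w, u) + k * n * (2 * Real.pi * I) := by
    intro n w
    induction n using Int.induction_on with
    | zero => simp
    | succ n ih =>
      intro u
      have := per w (u + (n : ℤ) * (2 * Real.pi * I))
      rw [ih] at this
      push_cast at this ⊢
      rw [add_mul, one_mul, ← add_assoc, this]
      ring
    | pred n ih =>
      intro u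
      have h3 := ih (u - 2 * Real.pi * I)
      have h4 := per w (u - 2 * Real.pi * I)
      rw [sub_add_cancel] at h4
      push_cast at h3 ⊢
      rw [show u + (-(n : ℂ) - 1) * (2 * Real.pi * I) = u - 2 * Real.pi * I + -(n : ℂ) *
        (2 * Real.pi * I) by ring, h3, h4]
      ring
  have step : ∀ (α β : ℝ → ℂ) (a b : ℝ), Continuous α → Continuous β → a ≤ b →
      (∀ t ∈ Icc a b, α t ≠ β t) → ∀ u, exp u = α a - β a →
      dlog (fun t => H (α t) - H (β t)) a b =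
        L (β b, u + dlog (fun t => α t - β t) a b) - L (β a, u) ∧
      exp (u + dlog (fun t => α t - β t) a b) = α b - β b := by
    intro α β a b hα hβ hab h0 u hu
    obtain ⟨l, hl⟩ := exists_lift (g := fun t => α t - β t) (by fun_prop) hab
      fun t ht => sub_ne_zero.mpr (h0 t ht)
    have e1 : ∀ t ∈ Icc a b, exp (u + (l t - l a)) = α t - β t := fun t ht => by
      rw [exp_add, exp_sub, hl.2 t ht, hl.2 a (left_mem_Icc.mpr hab), hu]
      exact mul_div_cancel₀ _ (sub_ne_zero.mpr (h0 a (left_mem_Icc.mpr hab)))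
    rw [dlog_eq hab hl, dlog_eq (L := fun t => L (β t, u + (l t - l a))) hab
      ⟨hL.comp_continuousOn (hβ.continuousOn.prodMk
        (continuousOn_const.add (hl.1.sub continuousOn_const))), fun t ht => by
        rw [hE]; simp [e1 t ht]⟩]
    exact ⟨by simp, e1 b (right_mem_Icc.mpr hab)⟩
  have u0 := exp_log (sub_ne_zero.mpr (h1 a (left_mem_Icc.mpr hab)).1)
  obtain ⟨s1, t1⟩ := step g (fun _ => e c) a b hg continuous_const hab (fun s hs => (h1 s hs).1) _ u0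
  obtain ⟨s2, t2⟩ := step (fun _ => g b) e c d continuous_const he hcd (fun s hs => (h2 s hs).2) _ t1
  obtain ⟨s4, t4⟩ := step (fun _ => g a) e c d continuous_const he hcd (fun s hs => (h2 s hs).1) _ u0
  obtain ⟨s3, t3⟩ := step g (fun _ => e d) a b hg continuous_const hab (fun s hs => (h1 s hs).2) _ t4
  obtain ⟨n, hn⟩ := exp_eq_exp_iff_exists_int.mp (t2.trans t3.symm)
  refine ⟨k, n, ?_, ?_⟩
  · unfold II rd
    linear_combination hn
  · unfold II rd
    simp only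
    rw [s1, s2, s3, s4, hn, pern]
    ring

/-- A proper crossing of `g` at time `s` with `e` at time `t`. -/
def Ch (g e : ℝ → ℂ) (s t : ℝ) : Prop :=
  ∃ ε > 0, ∃ h : ℂ ≃ₜ ℂ, h (g s) = 0 ∧ g s = e t ∧ InjOn g (Icc (s - ε) (s + ε)) ∧
    InjOn e (Icc (t - ε) (t + ε)) ∧ (∀ u ∈ Icc (s - ε) (s + ε), (h (g u)).im = 0) ∧
    ∀ u ∈ Icc (t - ε) (t + ε), (h (e u)).re = 0

lemma sgn {x : ℝ → ℝ} (hx : Continuous x) {s δ : ℝ} (hδ : 0 < δ) (hi : InjOn x (Icc (s - δ) (s + δ)))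
    (h0 : x s = 0) : ∃ σ : ℝ, σ ≠ 0 ∧ σ * x (s + δ) < 0 ∧ 0 < σ * x (s - δ) := by
  have m1 : s - δ ∈ Icc (s - δ) (s + δ) := ⟨le_rfl, by linarith⟩
  have m2 : s ∈ Icc (s - δ) (s + δ) := ⟨by linarith, by linarith⟩
  have m3 : s + δ ∈ Icc (s - δ) (s + δ) := ⟨by linarith, le_rfl⟩
  rcases hx.continuousOn.strictMonoOn_of_injOn_Icc' (by linarith) hi with h | h
  · exact ⟨-1, by simp, by linarith [h m2 m3 (by linarith)], by linarith [h m1 m2 (by linarith)]⟩
  · exact ⟨1, by simp, by linarith [h m2 m3 (by linarith)], by linarith [h m1 m2 (by linarith)]⟩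

lemma local_deg (hg : Continuous g) (he : Continuous e) {s t : ℝ} (h : Ch g e s t) (h1 : a < s)
    (h2 : s < b) (h3 : c < t) (h4 : t < d)
    (hu : ∀ u ∈ Icc a b, ∀ v ∈ Icc c d, g u = e v → u = s ∧ v = t) :
    II g e a b c d = 2 * Real.pi * I ∨ II g e a b c d = -(2 * Real.pi * I) := by
  obtain ⟨ε, hε, h, k1, k2, k3, k4, k5, k6⟩ := h
  obtain ⟨δ, d0, d1, d2, d3, d4, d5⟩ : ∃ δ > 0, δ ≤ ε ∧ a ≤ s - δ ∧ s + δ ≤ b ∧ c ≤ t - δ ∧
      t + δ ≤ d := ⟨min ε (min (min (s - a) (b - s)) (min (t - c) (d - t))), by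
    simp only [gt_iff_lt, lt_min_iff]; refine ⟨hε, ⟨?_, ?_⟩, ?_, ?_⟩ <;> linarith, by
    refine ⟨min_le_left _ _, ?_, ?_, ?_, ?_⟩
    · linarith [(min_le_right ε _).trans ((min_le_left _ (min (t - c) (d - t))).trans
        (min_le_left (s - a) (b - s)))]
    · linarith [(min_le_right ε _).trans ((min_le_left _ (min (t - c) (d - t))).trans
        (min_le_right (s - a) (b - s)))]
    · linarith [(min_le_right ε _).trans ((min_le_right (min (s - a) (b - s)) _).trans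
        (min_le_left (t - c) (d - t)))]
    · linarith [(min_le_right ε _).trans ((min_le_right (min (s - a) (b - s)) _).trans
        (min_le_right (t - c) (d - t)))]⟩
  have i1 : Icc (s - δ) (s + δ) ⊆ Icc (s - ε) (s + ε) := Icc_subset_Icc (by linarith) (by linarith)
  have i2 : Icc (t - δ) (t + δ) ⊆ Icc (t - ε) (t + ε) := Icc_subset_Icc (by linarith) (by linarith)
  have n1 : ∀ u, a ≤ u → u ≤ b → ∀ v, c ≤ v → v ≤ d → u ≠ s ∨ v ≠ t → g u ≠ e v :=
    fun u a1 a2 v a3 a4 a5 a6 => by have := hu u ⟨a1, a2⟩ v ⟨a3, a4⟩ a6; tauto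
  have shrink : II g e a b c d = II g e (s - δ) (s + δ) (t - δ) (t + δ) := by
    have z1 := II_zero hg he d2 (h3.trans h4).le fun u hu v hv =>
      n1 u hu.1 (by linarith [hu.2]) v hv.1 hv.2 (Or.inl (by linarith [hu.2] : u < s).ne)
    have z2 := II_zero hg he d3 (h3.trans h4).le fun u hu v hv =>
      n1 u (by linarith [hu.1]) hu.2 v hv.1 hv.2 (Or.inl (by linarith [hu.1] : s < u).ne')
    have z3 := II_zero hg he (by linarith : s - δ ≤ s + δ) d4 fun u hu v hv =>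
      n1 u (by linarith [hu.1]) (by linarith [hu.2]) v hv.1 (by linarith [hv.2])
        (Or.inr (by linarith [hv.2] : v < t).ne)
    have z4 := II_zero hg he (by linarith : s - δ ≤ s + δ) d5 fun u hu v hv =>
      n1 u (by linarith [hu.1]) (by linarith [hu.2]) v (by linarith [hv.1]) hv.2
        (Or.inr (by linarith [hv.1] : t < v).ne')
    have a1 : ∀ v, c ≤ v → v ≤ d → v ≠ t → D g a b (e v) =
        D g a (s - δ) (e v) + D g (s - δ) (s + δ) (e v) + D g (s + δ) b (e v) := by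
      intro v v1 v2 v3
      rw [D_add hg d2 (by linarith) fun u hu => n1 u hu.1 hu.2 v v1 v2 (Or.inr v3),
        D_add hg (by linarith : s - δ ≤ s + δ) d3
          fun u hu => n1 u (by linarith [hu.1]) hu.2 v v1 v2 (Or.inr v3), add_assoc]
    have a2 : ∀ u, a ≤ u → u ≤ b → u ≠ s → E e c d (g u) =
        E e c (t - δ) (g u) + E e (t - δ) (t + δ) (g u) + E e (t + δ) d (g u) := by
      intro u u1 u2 u3
      rw [E_add he d4 (by linarith) fun v hv => n1 u u1 u2 v hv.1 hv.2 (Or.inl u3),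
        E_add he (by linarith : t - δ ≤ t + δ) d5
          fun v hv => n1 u u1 u2 v (by linarith [hv.1]) hv.2 (Or.inl u3), add_assoc]
    have b1 := a1 c le_rfl (h3.trans h4).le h3.ne
    have b2 := a1 d (h3.trans h4).le le_rfl h4.ne'
    have b3 := a2 (s - δ) d2 (by linarith) (by linarith : s - δ < s).ne
    have b4 := a2 (s + δ) (by linarith) d3 (by linarith : s < s + δ).ne'
    simp only [II_eq] at z1 z2 z3 z4 ⊢
    linear_combination z1 + z2 + z3 + z4 + b1 - b2 - b3 + b4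
  obtain ⟨σ, s0, s1, s2⟩ := sgn (x := fun u => (h (g u)).re) (by fun_prop) d0
    (fun u hu v hv e => k3 (i1 hu) (i1 hv) (h.injective (Complex.ext e
      ((k5 u (i1 hu)).trans (k5 v (i1 hv)).symm)))) (by simp [k1])
  obtain ⟨τ, t0, t1, t2⟩ := sgn (x := fun u => (h (e u)).im) (by fun_prop) d0
    (fun u hu v hv e => k4 (i2 hu) (i2 hv) (h.injective (Complex.ext
      ((k6 u (i2 hu)).trans (k6 v (i2 hv)).symm) e))) (by simp [← k2, k1])
  obtain ⟨k, n, e1, e2⟩ := deg_mul (fun z => (σ * (h z).re : ℝ) + (τ * (h z).im : ℝ) * I)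
    (by fun_prop) (fun z w e => by
      have e1 := congrArg Complex.re e
      have e2 := congrArg Complex.im e
      simp [s0, t0] at e1 e2
      exact h.injective (Complex.ext e1 e2)) hg he (by linarith : s - δ ≤ s + δ)
    (by linarith : t - δ ≤ t + δ)
    (fun u hu => ⟨n1 u (by linarith [hu.1]) (by linarith [hu.2]) _ d4 (by linarith)
      (Or.inr (by linarith : t - δ < t).ne), n1 u (by linarith [hu.1]) (by linarith [hu.2]) _
      (by linarith) d5 (Or.inr (by linarith : t < t + δ).ne')⟩)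
    (fun v hv => ⟨n1 _ d2 (by linarith) v (by linarith [hv.1]) (by linarith [hv.2])
      (Or.inl (by linarith : s - δ < s).ne), n1 _ (by linarith) d3 v (by linarith [hv.1])
      (by linarith [hv.2]) (Or.inl (by linarith : s < s + δ).ne')⟩)
  unfold II at e2
  rw [rd_model (by fun_prop) (by linarith) (by linarith)
    (fun u hu => by simpa [k5 u (i1 hu)] using t2) (fun u hu => by simpa [k5 u (i1 hu)] using t1)
    (fun u hu => by simpa [k6 u (i2 hu)] using s1) (fun u hu => by simpa [k6 u (i2 hu)] using s2)]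
    at e2
  have e3 : k * n = -1 := by
    have : ((k * n : ℤ) : ℂ) = ((-1 : ℤ) : ℂ) := mul_right_cancel₀ two_pi_I_ne_zero (by
      push_cast
      linear_combination -e2)
    exact_mod_cast this
  rw [shrink, e1]
  rcases Int.eq_one_or_neg_one_of_mul_eq_neg_one' e3 with e | e <;> simp [e.2]

lemma short (hg : Continuous g) (he : Continuous e) {s t : ℝ} (h : Ch g e s t) {A B : Set ℝ}
    (hA : IsCompact A) (hB : IsCompact B) {K : Set ℂ} (hK : IsClosed K) (hs : g s ∉ K)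
    (a1 : ∀ u ∈ A, g u = g s → u = s) (b1 : ∀ u ∈ B, e u = e t → u = t) {σ τ η : ℝ}
    (hσ : σ = 1 ∨ σ = -1) (hτ : τ = 1 ∨ τ = -1) (hη : 0 < η)
    (a2 : ∀ δ, 0 < δ → δ < η → s + σ * δ ∉ A) (b2 : ∀ δ, 0 < δ → δ < η → t + τ * δ ∉ B) :
    ∃ δ, 0 < δ ∧ δ < η ∧ ∃ ζ : ℝ → ℂ, Continuous ζ ∧ ζ 0 = g (s + σ * δ) ∧ ζ 1 = e (t + τ * δ) ∧
      ∀ v ∈ Icc (0 : ℝ) 1, ζ v ∉ K ∧ (∀ u ∈ A, g u ≠ ζ v) ∧ ∀ u ∈ B, e u ≠ ζ v := by
  obtain ⟨ε, hε, h, k1, k2, k3, k4, k5, k6⟩ := h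
  have c1 : IsClosed (K ∪ g '' (A \ Ioo (s - ε) (s + ε)) ∪ e '' (B \ Ioo (t - ε) (t + ε))) :=
    (hK.union ((hA.diff isOpen_Ioo).image hg).isClosed).union
      ((hB.diff isOpen_Ioo).image he).isClosed
  have c2 : (0 : ℂ) ∈ (h.symm ⁻¹' (K ∪ g '' (A \ Ioo (s - ε) (s + ε)) ∪
      e '' (B \ Ioo (t - ε) (t + ε))))ᶜ := by
    rw [← k1, mem_compl_iff, mem_preimage, h.symm_apply_apply]
    rintro ((h1 | ⟨u, hu, h1⟩) | ⟨u, hu, h1⟩)
    · exact hs h1
    · exact hu.2 (a1 u hu.1 h1 ▸ ⟨by linarith, by linarith⟩)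
    · exact hu.2 (b1 u hu.1 (h1.trans k2) ▸ ⟨by linarith, by linarith⟩)
  obtain ⟨r, hr, c3⟩ := Metric.isOpen_iff.mp (c1.preimage h.symm.continuous).isOpen_compl 0 c2
  have ev1 : ∀ᶠ δ in nhds (0 : ℝ), h (g (s + σ * δ)) ∈ Metric.ball (0 : ℂ) r :=
    (show Continuous fun δ : ℝ => h (g (s + σ * δ)) by fun_prop).continuousAt.eventually_mem
      (by simpa [k1] using Metric.ball_mem_nhds _ hr)
  have ev2 : ∀ᶠ δ in nhds (0 : ℝ), h (e (t + τ * δ)) ∈ Metric.ball (0 : ℂ) r :=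
    (show Continuous fun δ : ℝ => h (e (t + τ * δ)) by fun_prop).continuousAt.eventually_mem
      (by simpa [← k2, k1] using Metric.ball_mem_nhds _ hr)
  obtain ⟨δ, ⟨⟨d1, d2⟩, d3, d4⟩, d0⟩ := ((((ev1.and ev2).and ((eventually_lt_nhds hη).and
    (eventually_lt_nhds hε))).filter_mono nhdsWithin_le_nhds).and
    (self_mem_nhdsWithin (s := Ioi (0 : ℝ)))).exists
  have d0 : 0 < δ := d0
  have m1 : s + σ * δ ∈ Icc (s - ε) (s + ε) := by
    rcases hσ with rfl | rfl <;> constructor <;> linarith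
  have m2 : t + τ * δ ∈ Icc (t - ε) (t + ε) := by
    rcases hτ with rfl | rfl <;> constructor <;> linarith
  have n1 : (h (g (s + σ * δ))).re ≠ 0 := fun e1 => by
    have := k3 m1 ⟨by linarith, by linarith⟩ (h.injective ((Complex.ext e1 (k5 _ m1)).trans k1.symm))
    rcases hσ with rfl | rfl <;> linarith
  have n2 : (h (e (t + τ * δ))).im ≠ 0 := fun e1 => by
    have := k4 m2 ⟨by linarith, by linarith⟩ (h.injective ((Complex.ext (k6 _ m2) e1).trans
      (k2 ▸ k1.symm)))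
    rcases hτ with rfl | rfl <;> linarith
  refine ⟨δ, d0, d3, fun v => h.symm ((1 - v) • h (g (s + σ * δ)) + v • h (e (t + τ * δ))),
    by fun_prop, by simp, by simp, fun v hv => ?_⟩
  have c4 := c3 (convex_ball (0 : ℂ) r d1 d2 (by linarith [hv.2] : 0 ≤ 1 - v) hv.1 (by ring))
  simp only [mem_compl_iff, mem_preimage, mem_union, not_or] at c4
  refine ⟨c4.1.1, fun u hu e1 => ?_, fun u hu e1 => ?_⟩
  · by_cases e2 : u ∈ Ioo (s - ε) (s + ε)
    · have e3 := k5 u (Ioo_subset_Icc_self e2)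
      rw [e1] at e3
      simp [k5 _ m1, n2] at e3
      subst e3
      simp only [sub_zero, one_smul, zero_smul, add_zero, Homeomorph.symm_apply_apply] at e1
      exact a2 δ d0 d3 (k3 (Ioo_subset_Icc_self e2) m1 e1 ▸ hu)
    · exact c4.1.2 ⟨u, ⟨hu, e2⟩, e1⟩
  · by_cases e2 : u ∈ Ioo (t - ε) (t + ε)
    · have e3 := k6 u (Ioo_subset_Icc_self e2)
      rw [e1] at e3
      simp [k6 _ m2, n1, sub_eq_zero] at e3
      subst e3
      simp only [sub_self, one_smul, zero_smul, zero_add, Homeomorph.symm_apply_apply] at e1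
      exact b2 δ d0 d3 (k4 (Ioo_subset_Icc_self e2) m2 e1 ▸ hu)
    · exact c4.2 ⟨u, ⟨hu, e2⟩, e1⟩

lemma Ch.neg {s t : ℝ} (h : Ch g e s t) : Ch g (fun v => e (-v)) s (-t) := by
  obtain ⟨ε, hε, h, k1, k2, k3, k4, k5, k6⟩ := h
  have m : ∀ u ∈ Icc (-t - ε) (-t + ε), -u ∈ Icc (t - ε) (t + ε) := fun u hu =>
    ⟨by linarith [hu.2], by linarith [hu.1]⟩
  exact ⟨ε, hε, h, k1, by simpa using k2, k3,
    fun u hu v hv e => neg_injective (k4 (m u hu) (m v hv) e), k5, fun u hu => k6 _ (m u hu)⟩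

lemma Ch.eq {s t : ℝ} (h : Ch g e s t) : g s = e t := by
  obtain ⟨ε, hε, h, k1, k2, -⟩ := h
  exact k2

lemma jordan0 {C : ℝ → ℂ} (hC : Continuous C) (he : Continuous e) {n u v t1 t2 : ℝ} (hn : C 0 = C n)
    (hs : ∀ x ∈ Ioo 0 n, ∀ y ∈ Icc 0 n, C y = C x → y = x) (hi : InjOn e (Icc a b)) (h1 : a < t1)
    (h2 : t1 < t2) (h3 : t2 < b) (h4 : 0 < u) (h5 : u < v) (h6 : v < n) (c1 : Ch C e u t1)
    (c2 : Ch C e v t2) (hm : ∀ y ∈ Icc 0 n, ∀ t ∈ Icc a b, C y = e t → t = t1 ∨ t = t2) :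
    D C 0 n (e a) = D C 0 n (e b) := by
  have q1 := c1.eq
  have q2 := c2.eq
  have su : ∀ y, 0 ≤ y → y ≤ n → C y = C u → y = u := fun y y1 y2 =>
    hs u ⟨h4, h5.trans h6⟩ y ⟨y1, y2⟩
  have sv : ∀ y, 0 ≤ y → y ≤ n → C y = C v → y = v := fun y y1 y2 =>
    hs v ⟨h4.trans h5, h6⟩ y ⟨y1, y2⟩
  have ie : ∀ x, a ≤ x → x ≤ b → ∀ y, a ≤ y → y ≤ b → e x = e y → x = y :=
    fun x x1 x2 y y1 y2 => hi ⟨x1, x2⟩ ⟨y1, y2⟩
  have ce : ∀ y, 0 ≤ y → y ≤ n → ∀ t, a ≤ t → t ≤ b → t ≠ t1 → t ≠ t2 → C y ≠ e t :=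
    fun y y1 y2 t t3 t4 t5 t6 e => by have := hm y ⟨y1, y2⟩ t ⟨t3, t4⟩ e; tauto
  have ec : ∀ y, 0 ≤ y → y ≤ n → y ≠ u → y ≠ v → ∀ t ∈ Icc t1 t2, e t ≠ C y := by
    intro y y1 y2 y3 y4 t ht e1
    rcases hm y ⟨y1, y2⟩ t ⟨by linarith [ht.1], by linarith [ht.2]⟩ e1.symm with rfl | rfl
    · exact y3 (su y y1 y2 (e1.symm.trans q1.symm))
    · exact y4 (sv y y1 y2 (e1.symm.trans q2.symm))
  have b1 : ∀ x ∈ Icc t1 t2, e x = e t1 → x = t1 := fun x hx =>
    ie x (by linarith [hx.1]) (by linarith [hx.2]) t1 h1.le (by linarith)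
  have b2 : ∀ x ∈ Icc t1 t2, e x = e t2 → x = t2 := fun x hx =>
    ie x (by linarith [hx.1]) (by linarith [hx.2]) t2 (by linarith) h3.le
  have hη : 0 < min (min (min u (n - v)) ((v - u) / 2)) (min (t1 - a) (b - t2)) := by
    simp only [lt_min_iff]; refine ⟨⟨⟨?_, ?_⟩, ?_⟩, ?_, ?_⟩ <;> linarith
  have w1 : D C u v (e a) - D e t1 t2 (e a) = D C u v (e b) - D e t1 t2 (e b) := by
    have inv : ∀ (ζ : ℝ → ℂ) (c d : ℝ), Continuous ζ → c ≤ d →
        (∀ y ∈ Icc u v, ∀ t ∈ Icc c d, C y ≠ ζ t) → (∀ y ∈ Icc t1 t2, ∀ t ∈ Icc c d, e y ≠ ζ t) →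
        D C u v (ζ c) - D e t1 t2 (ζ c) = D C u v (ζ d) - D e t1 t2 (ζ d) := by
      intro ζ c d hζ hcd k1 k2
      have e1 := move hC hζ h5.le hcd k1
      have e2 := move he hζ h2.le hcd k2
      rw [q1, q2] at e1
      linear_combination e1 - e2
    obtain ⟨δ, d0, d1, ζ, z0, z1, z2, z3⟩ := short hC he c1 (isCompact_Icc (a := u) (b := v))
      (isCompact_Icc (a := t1) (b := t2)) isClosed_empty (by simp)
      (fun y hy => su y (by linarith [hy.1]) (by linarith [hy.2])) b1 (Or.inr rfl) (Or.inr rfl) hη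
      (fun δ d0 _ h => by linarith [h.1]) (fun δ d0 _ h => by linarith [h.1])
    obtain ⟨δ', d0', d1', ζ', z0', z1', z2', z3'⟩ := short hC he c2 (isCompact_Icc (a := u) (b := v))
      (isCompact_Icc (a := t1) (b := t2)) isClosed_empty (by simp)
      (fun y hy => sv y (by linarith [hy.1]) (by linarith [hy.2])) b2 (Or.inl rfl) (Or.inl rfl) hη
      (fun δ d0 _ h => by linarith [h.2]) (fun δ d0 _ h => by linarith [h.2])
    simp only [lt_min_iff] at d1 d1'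
    have i1 := inv e a (t1 + -1 * δ) he (by linarith [d1.2.1])
      (fun y hy t ht => ce y (by linarith [hy.1]) (by linarith [hy.2]) t ht.1 (by linarith [ht.2])
        (by linarith [ht.2] : t < t1).ne (by linarith [ht.2] : t < t2).ne)
      (fun y hy t ht e => by
        linarith [ie y (by linarith [hy.1]) (by linarith [hy.2]) t ht.1 (by linarith [ht.2]) e,
          hy.1, ht.2])
    have i2 := inv ζ 0 1 z0 zero_le_one (fun y hy t ht => (z3 t ht).2.1 y hy)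
      (fun y hy t ht => (z3 t ht).2.2 y hy)
    have i3 := inv C 0 (u + -1 * δ) hC (by linarith [d1.1.1.1])
      (fun y hy t ht e => by
        linarith [hs y ⟨by linarith [hy.1], by linarith [hy.2]⟩ t ⟨ht.1, by linarith [ht.2]⟩ e.symm,
          hy.1, ht.2])
      (fun y hy t ht => ec t ht.1 (by linarith [ht.2]) (by linarith [ht.2] : t < u).ne
        (by linarith [ht.2] : t < v).ne y hy)
    have i4 := inv C (v + 1 * δ') n hC (by linarith [d1'.1.1.2])
      (fun y hy t ht e => by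
        linarith [hs y ⟨by linarith [hy.1], by linarith [hy.2]⟩ t ⟨by linarith [ht.1], ht.2⟩ e.symm,
          hy.2, ht.1])
      (fun y hy t ht => ec t (by linarith [ht.1]) ht.2 (by linarith [ht.1] : u < t).ne'
        (by linarith [ht.1] : v < t).ne' y hy)
    have i5 := inv ζ' 0 1 z0' zero_le_one (fun y hy t ht => (z3' t ht).2.1 y hy)
      (fun y hy t ht => (z3' t ht).2.2 y hy)
    have i6 := inv e (t2 + 1 * δ') b he (by linarith [d1'.2.2])
      (fun y hy t ht => ce y (by linarith [hy.1]) (by linarith [hy.2]) t (by linarith [ht.1]) ht.2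
        (by linarith [ht.1] : t1 < t).ne' (by linarith [ht.1] : t2 < t).ne')
      (fun y hy t ht e => by
        linarith [ie y (by linarith [hy.1]) (by linarith [hy.2]) t (by linarith [ht.1]) ht.2 e,
          hy.2, ht.1])
    rw [z1, z2] at i2
    rw [z1', z2'] at i5
    rw [hn] at i3
    linear_combination i1 - i2 - i3 - i4 + i5 + i6
  have w2 : D C 0 u (e a) + D C v n (e a) + D e t1 t2 (e a) =
      D C 0 u (e b) + D C v n (e b) + D e t1 t2 (e b) := by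
    have inv : ∀ (ζ : ℝ → ℂ) (c d : ℝ), Continuous ζ → c ≤ d →
        (∀ y ∈ Icc 0 u ∪ Icc v n, ∀ t ∈ Icc c d, C y ≠ ζ t) →
        (∀ y ∈ Icc t1 t2, ∀ t ∈ Icc c d, e y ≠ ζ t) →
        D C 0 u (ζ c) + D C v n (ζ c) + D e t1 t2 (ζ c) =
          D C 0 u (ζ d) + D C v n (ζ d) + D e t1 t2 (ζ d) := by
      intro ζ c d hζ hcd k1 k2
      have e1 := move hC hζ h4.le hcd fun y hy => k1 y (Or.inl hy)
      have e3 := move hC hζ h6.le hcd fun y hy => k1 y (Or.inr hy)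
      have e2 := move he hζ h2.le hcd k2
      rw [q1, hn] at e1
      rw [q2] at e3
      linear_combination e1 + e2 + e3
    have rg : ∀ y ∈ Icc 0 u ∪ Icc v n, 0 ≤ y ∧ y ≤ n ∧ (y ≤ u ∨ v ≤ y) := by
      rintro y (hy | hy)
      · exact ⟨hy.1, by linarith [hy.2], Or.inl hy.2⟩
      · exact ⟨by linarith [hy.1], hy.2, Or.inr hy.1⟩
    obtain ⟨δ, d0, d1, ζ, z0, z1, z2, z3⟩ := short hC he c1
      ((isCompact_Icc (a := 0) (b := u)).union (isCompact_Icc (a := v) (b := n)))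
      (isCompact_Icc (a := t1) (b := t2)) isClosed_empty (by simp)
      (fun y hy => su y (rg y hy).1 (rg y hy).2.1) b1 (Or.inl rfl) (Or.inr rfl) hη
      (fun δ d0 d1 h => by
        simp only [lt_min_iff] at d1
        rcases (rg _ h).2.2 with h | h <;> linarith [d1.1.2]) (fun δ d0 _ h => by linarith [h.1])
    obtain ⟨δ', d0', d1', ζ', z0', z1', z2', z3'⟩ := short hC he c2
      ((isCompact_Icc (a := 0) (b := u)).union (isCompact_Icc (a := v) (b := n)))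
      (isCompact_Icc (a := t1) (b := t2)) isClosed_empty (by simp)
      (fun y hy => sv y (rg y hy).1 (rg y hy).2.1) b2 (Or.inr rfl) (Or.inl rfl) hη
      (fun δ d0 d1 h => by
        simp only [lt_min_iff] at d1
        rcases (rg _ h).2.2 with h | h <;> linarith [d1.1.2]) (fun δ d0 _ h => by linarith [h.2])
    simp only [lt_min_iff] at d1 d1'
    have i1 := inv e a (t1 + -1 * δ) he (by linarith [d1.2.1])
      (fun y hy t ht => ce y (rg y hy).1 (rg y hy).2.1 t ht.1 (by linarith [ht.2])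
        (by linarith [ht.2] : t < t1).ne (by linarith [ht.2] : t < t2).ne)
      (fun y hy t ht e => by
        linarith [ie y (by linarith [hy.1]) (by linarith [hy.2]) t ht.1 (by linarith [ht.2]) e,
          hy.1, ht.2])
    have i2 := inv ζ 0 1 z0 zero_le_one (fun y hy t ht => (z3 t ht).2.1 y hy)
      (fun y hy t ht => (z3 t ht).2.2 y hy)
    have i3 := inv C (u + 1 * δ) (v + -1 * δ') hC (by linarith [d1.1.2, d1'.1.2])
      (fun y hy t ht e => by
        have := hs t ⟨by linarith [ht.1], by linarith [ht.2]⟩ y ⟨(rg y hy).1, (rg y hy).2.1⟩ e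
        rcases (rg y hy).2.2 with h | h <;> linarith [ht.1, ht.2])
      (fun y hy t ht => ec t (by linarith [ht.1]) (by linarith [ht.2])
        (by linarith [ht.1] : u < t).ne' (by linarith [ht.2] : t < v).ne y hy)
    have i5 := inv ζ' 0 1 z0' zero_le_one (fun y hy t ht => (z3' t ht).2.1 y hy)
      (fun y hy t ht => (z3' t ht).2.2 y hy)
    have i6 := inv e (t2 + 1 * δ') b he (by linarith [d1'.2.2])
      (fun y hy t ht => ce y (rg y hy).1 (rg y hy).2.1 t (by linarith [ht.1]) ht.2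
        (by linarith [ht.1] : t1 < t).ne' (by linarith [ht.1] : t2 < t).ne')
      (fun y hy t ht e => by
        linarith [ie y (by linarith [hy.1]) (by linarith [hy.2]) t (by linarith [ht.1]) ht.2 e,
          hy.2, ht.1])
    rw [z1, z2] at i2
    rw [z1', z2'] at i5
    linear_combination i1 - i2 + i3 + i5 + i6
  have sp : ∀ t, a ≤ t → t ≤ b → t ≠ t1 → t ≠ t2 →
      D C 0 n (e t) = D C 0 u (e t) + (D C u v (e t) + D C v n (e t)) := by
    intro t t3 t4 t5 t6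
    rw [D_add hC h4.le (h5.trans h6).le fun y hy => ce y hy.1 hy.2 t t3 t4 t5 t6,
      D_add hC h5.le h6.le fun y hy => ce y (by linarith [hy.1]) hy.2 t t3 t4 t5 t6]
  rw [sp a le_rfl (by linarith) h1.ne (h1.trans h2).ne,
    sp b (by linarith) le_rfl (h2.trans h3).ne' h3.ne']
  linear_combination w1 + w2

theorem jordan {C : ℝ → ℂ} (hC : Continuous C) (he : Continuous e) {n : ℝ} (hn0 : 0 ≤ n)
    (hn : C 0 = C n) (hs : ∀ x ∈ Ioo 0 n, ∀ y ∈ Icc 0 n, C y = C x → y = x) (T : Finset ℝ) :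
    ∀ a, a ≤ b → InjOn e (Icc a b) → (∀ y ∈ Icc 0 n, ∀ t ∈ Icc a b, C y = e t →
      t ∈ T ∧ a < t ∧ t < b ∧ 0 < y ∧ y < n ∧ Ch C e y t) →
    D C 0 n (e a) - D C 0 n (e b) = 0 ∨ D C 0 n (e a) - D C 0 n (e b) = 2 * Real.pi * I ∨
      D C 0 n (e a) - D C 0 n (e b) = -(2 * Real.pi * I) := by
  classical
  induction T using Finset.strongInduction with
  | H T ih =>
    intro a hab hi hm
    set T' := T.filter fun t => t ∈ Icc a b ∧ ∃ y ∈ Icc 0 n, C y = e t with hT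
    have mem : ∀ y ∈ Icc 0 n, ∀ t ∈ Icc a b, C y = e t → t ∈ T' := fun y hy t ht e =>
      Finset.mem_filter.mpr ⟨(hm y hy t ht e).1, ht, y, hy, e⟩
    rcases T'.eq_empty_or_nonempty with h0 | h0
    · left
      rw [move hC he hn0 hab fun y hy t ht e => by simpa [h0] using mem y hy t ht e, hn, sub_self]
    obtain ⟨t1, m1, l1⟩ := T'.exists_min_image id h0
    obtain ⟨mT, p1, u, hu, q1⟩ := Finset.mem_filter.mp m1
    obtain ⟨-, a1, a2, a3, a4, a5⟩ := hm u hu t1 p1 q1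
    rcases (T'.erase t1).eq_empty_or_nonempty with h1 | h1
    · right
      have := local_deg hC he a5 a3 a4 a1 a2 fun y hy t ht e => by
        have e1 : t = t1 := by
          by_contra hne
          have := Finset.mem_erase.mpr ⟨hne, mem y hy t ht e⟩
          simp [h1] at this
        exact ⟨hs u ⟨a3, a4⟩ y hy (by rw [e, e1, q1]), e1⟩
      rw [II_eq, hn] at this
      rcases this with h | h
      · left; linear_combination h
      · right; linear_combination h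
    obtain ⟨t2, m2, l2⟩ := (T'.erase t1).exists_min_image id h1
    obtain ⟨n2, m2'⟩ := Finset.mem_erase.mp m2
    obtain ⟨-, p2, v, hv, q2⟩ := Finset.mem_filter.mp m2'
    obtain ⟨-, b1, b2, b3, b4, b5⟩ := hm v hv t2 p2 q2
    have h12 : t1 < t2 := lt_of_le_of_ne (l1 t2 m2') n2.symm
    obtain ⟨t3, m3, l3⟩ := (insert b (T.filter fun t => t2 < t)).exists_min_image id (by simp)
    have h23 : t2 < t3 := by
      rcases Finset.mem_insert.mp m3 with e | e
      · exact e ▸ b2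
      · exact (Finset.mem_filter.mp e).2
    have h3b : t3 ≤ b := l3 b (by simp)
    have big : ∀ t ∈ T, t2 < t → t3 ≤ t := fun t ht h =>
      l3 t (Finset.mem_insert_of_mem (Finset.mem_filter.mpr ⟨ht, h⟩))
    have sub : Icc a ((t2 + t3) / 2) ⊆ Icc a b := Icc_subset_Icc le_rfl (by linarith)
    have sub2 : Icc ((t2 + t3) / 2) b ⊆ Icc a b := Icc_subset_Icc (by linarith) le_rfl
    have two : ∀ y ∈ Icc 0 n, ∀ t ∈ Icc a ((t2 + t3) / 2), C y = e t → t = t1 ∨ t = t2 := by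
      intro y hy t ht e
      by_contra hne
      push Not at hne
      have e1 : t2 ≤ t := l2 t (Finset.mem_erase.mpr ⟨hne.1, mem y hy t (sub ht) e⟩)
      linarith [big t (hm y hy t (sub ht) e).1 (lt_of_le_of_ne e1 hne.2.symm), ht.2]
    have key : D C 0 n (e a) = D C 0 n (e ((t2 + t3) / 2)) := by
      rcases lt_trichotomy u v with h | h | h
      · exact jordan0 hC he hn hs (hi.mono sub) a1 h12 (by linarith) a3 h b4 a5 b5 two
      · exact absurd (hi p1 p2 (by rw [← q1, ← q2, h])) h12.ne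
      · have m : ∀ t ∈ Icc (-((t2 + t3) / 2)) (-a), -t ∈ Icc a ((t2 + t3) / 2) := fun t ht =>
          ⟨by linarith [ht.2], by linarith [ht.1]⟩
        have := jordan0 (e := fun t => e (-t)) (a := -((t2 + t3) / 2)) (b := -a) hC (by fun_prop) hn
          hs (fun x hx y hy e => neg_injective (hi (sub (m x hx)) (sub (m y hy)) e)) (by linarith)
          (by linarith) (by linarith) b3 h a4 b5.neg a5.neg fun y hy t ht e => by
            rcases two y hy _ (m t ht) e with h | h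
            · right; linarith
            · left; linarith
        simpa using this.symm
    rw [key]
    refine ih (T.erase t1) (Finset.erase_ssubset mT) _ (by linarith) (hi.mono sub2)
      fun y hy t ht e => ?_
    obtain ⟨c0, c1, c2, c3, c4, c5⟩ := hm y hy t (sub2 ht) e
    exact ⟨Finset.mem_erase.mpr ⟨(by linarith [ht.1] : t1 < t).ne', c0⟩,
      by linarith [big t c0 (by linarith [ht.1])], c2, c3, c4, c5⟩

end Pool.Agent.Lib.MP_3764f3_co.LT
end

-- part Pool.Agent.Lib.MP_3764f3_co.LDraw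
section

/-! The signed crossing function of a simple drawing. -/

set_option autoImplicit false

namespace Pool.Agent.Lib.MP_3764f3_co.LT

open Set Complex Pool.Agent.Lib.MP_d8c195_lc

variable {V : Type}

/-- A simple drawing of the complete graph on `V`, with both orientations of each edge. -/
structure Dr (pos : V → ℂ) (G : V → V → ℝ → ℂ) : Prop where
  pinj : Function.Injective pos
  cont : ∀ i j, Continuous (G i j)
  g0 : ∀ i j, i ≠ j → G i j 0 = pos i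
  rev : ∀ i j, i ≠ j → ∀ t, G j i t = G i j (1 - t)
  inj : ∀ i j, i ≠ j → InjOn (G i j) (Icc 0 1)
  avoid : ∀ i j, i ≠ j → ∀ k, ∀ s ∈ Ioo (0 : ℝ) 1, G i j s ≠ pos k
  meet : ∀ i j k l, i ≠ j → k ≠ l → ¬ (i = k ∧ j = l) → ¬ (i = l ∧ j = k) → ∀ s ∈ Ioo (0 : ℝ) 1,
    ∀ t ∈ Ioo (0 : ℝ) 1, G i j s = G k l t → (i ≠ k ∧ i ≠ l ∧ j ≠ k ∧ j ≠ l) ∧
      (∀ s' ∈ Ioo (0 : ℝ) 1, ∀ t' ∈ Ioo (0 : ℝ) 1, G i j s' = G k l t' → s' = s ∧ t' = t) ∧
      Ch (G i j) (G k l) s t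

/-- The open edges `a b` and `c d` meet. -/
def X (G : V → V → ℝ → ℂ) (a b c d : V) : Prop :=
  ∃ s ∈ Ioo (0 : ℝ) 1, ∃ t ∈ Ioo (0 : ℝ) 1, G a b s = G c d t

open Classical in
/-- Signed crossing. -/
noncomputable def sc (G : V → V → ℝ → ℂ) (a b c d : V) : ℤ :=
  if a ≠ b ∧ a ≠ c ∧ a ≠ d ∧ b ≠ c ∧ b ≠ d ∧ c ≠ d then
    (if II (G c d) (G a b) 0 1 0 1 = 2 * Real.pi * I then 1
      else if II (G c d) (G a b) 0 1 0 1 = -(2 * Real.pi * I) then -1 else 0) else 0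

variable {pos : V → ℂ} {G : V → V → ℝ → ℂ}

lemma int_cancel {m n : ℤ} (h : (m : ℂ) * (2 * Real.pi * I) = n * (2 * Real.pi * I)) : m = n := by
  exact_mod_cast mul_right_cancel₀ two_pi_I_ne_zero h

lemma X.symm {a b c d : V} (h : X G a b c d) : X G c d a b := by
  obtain ⟨s, hs, t, ht, e⟩ := h
  exact ⟨t, ht, s, hs, e.symm⟩

lemma Dr.g1 (h : Dr pos G) {i j : V} (hij : i ≠ j) : G i j 1 = pos j := by
  rw [← h.g0 j i hij.symm, h.rev i j hij, sub_zero]

lemma tri {s : ℝ} (hs : s ∈ Icc (0 : ℝ) 1) : s = 0 ∨ s = 1 ∨ s ∈ Ioo (0 : ℝ) 1 := by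
  rcases hs.1.eq_or_lt with h | h
  · exact Or.inl h.symm
  · rcases hs.2.eq_or_lt with h' | h'
    · exact Or.inr (Or.inl h')
    · exact Or.inr (Or.inr ⟨h, h'⟩)

lemma Dr.vert (h : Dr pos G) {i j k : V} (hij : i ≠ j) {s : ℝ} (hs : s ∈ Icc (0 : ℝ) 1)
    (e : G i j s = pos k) : s = 0 ∧ i = k ∨ s = 1 ∧ j = k := by
  rcases tri hs with rfl | rfl | h1
  · exact Or.inl ⟨rfl, h.pinj ((h.g0 i j hij).symm.trans e)⟩
  · exact Or.inr ⟨rfl, h.pinj ((h.g1 hij).symm.trans e)⟩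
  · exact absurd e (h.avoid i j hij k s h1)

lemma Dr.cases (h : Dr pos G) {i j k l : V} (hij : i ≠ j) (hkl : k ≠ l) {s t : ℝ}
    (hs : s ∈ Icc (0 : ℝ) 1) (ht : t ∈ Icc (0 : ℝ) 1) (e : G i j s = G k l t) :
    s ∈ Ioo (0 : ℝ) 1 ∧ t ∈ Ioo (0 : ℝ) 1 ∨ s = 0 ∧ t = 0 ∧ i = k ∨ s = 1 ∧ t = 0 ∧ j = k ∨
      s = 0 ∧ t = 1 ∧ i = l ∨ s = 1 ∧ t = 1 ∧ j = l := by
  rcases tri ht with rfl | rfl | h1
  · have := h.vert hij hs (e.trans (h.g0 k l hkl))
    tauto
  · have := h.vert hij hs (e.trans (h.g1 hkl))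
    tauto
  · rcases tri hs with rfl | rfl | h2
    · exact absurd (e.symm.trans (h.g0 i j hij)) (h.avoid k l hkl _ t h1)
    · exact absurd (e.symm.trans (h.g1 hij)) (h.avoid k l hkl _ t h1)
    · exact Or.inl ⟨h2, h1⟩

lemma Dr.disj (h : Dr pos G) {a b c d : V} (h1 : a ≠ b) (h2 : a ≠ c) (h3 : a ≠ d) (h4 : b ≠ c)
    (h5 : b ≠ d) (h6 : c ≠ d) (hx : ¬ X G a b c d) :
    ∀ s ∈ Icc (0 : ℝ) 1, ∀ t ∈ Icc (0 : ℝ) 1, G a b s ≠ G c d t := fun s hs t ht e => by
  rcases h.cases h1 h6 hs ht e with k | k | k | k | k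
  · exact hx ⟨s, k.1, t, k.2, e⟩
  all_goals tauto

lemma Dr.sII (h : Dr pos G) {a b c d : V} (h1 : a ≠ b) (h2 : a ≠ c) (h3 : a ≠ d) (h4 : b ≠ c)
    (h5 : b ≠ d) (h6 : c ≠ d) :
    II (G c d) (G a b) 0 1 0 1 = sc G a b c d * (2 * Real.pi * I) ∧
      (sc G a b c d ≠ 0 ↔ X G a b c d) := by
  have n := two_pi_I_ne_zero
  have n2 : -(2 * Real.pi * I) ≠ 2 * Real.pi * I := fun e => n (by linear_combination -e / 2)
  unfold sc
  rw [if_pos ⟨h1, h2, h3, h4, h5, h6⟩]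
  by_cases hx : X G a b c d
  · obtain ⟨s, hs, t, ht, e⟩ := hx.symm
    obtain ⟨-, k2, k3⟩ := h.meet c d a b h6 h1 (by tauto) (by tauto) s hs t ht e
    rcases local_deg (h.cont c d) (h.cont a b) k3 hs.1 hs.2 ht.1 ht.2 (fun u hu v hv e => by
      rcases h.cases h6 h1 hu hv e with k | k | k | k | k
      · exact k2 u k.1 v k.2 e
      all_goals tauto) with k | k
    · simp [k, hx]
    · rw [k, if_neg n2, if_pos rfl]
      simp [hx]
  · rw [II_zero (h.cont c d) (h.cont a b) zero_le_one zero_le_one fun s hs t ht e =>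
      h.disj h1 h2 h3 h4 h5 h6 hx t ht s hs e.symm, if_neg n.symm,
      if_neg (neg_ne_zero.mpr n).symm]
    simp [hx]

lemma sc_dis {a b c d : V} (h : sc G a b c d ≠ 0) :
    a ≠ b ∧ a ≠ c ∧ a ≠ d ∧ b ≠ c ∧ b ≠ d ∧ c ≠ d := by
  by_contra hn
  exact h (if_neg hn)

lemma sc_z {a b c d : V} (e : a = b ∨ a = c ∨ a = d ∨ b = c ∨ b = d ∨ c = d) : sc G a b c d = 0 :=
  if_neg (by tauto)

lemma Dr.nx (h : Dr pos G) {a b c d : V} (h1 : a ≠ b) (h6 : c ≠ d) (h2 : ¬ (a = c ∧ b = d))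
    (h3 : ¬ (a = d ∧ b = c)) (h0 : sc G a b c d = 0) : ¬ X G a b c d := fun hx => by
  obtain ⟨s, hs, t, ht, e⟩ := hx
  obtain ⟨k, -⟩ := h.meet a b c d h1 h6 h2 h3 s hs t ht e
  exact (h.sII h1 k.1 k.2.1 k.2.2.1 k.2.2.2 h6).2.mpr ⟨s, hs, t, ht, e⟩ h0

lemma Dr.ne (h : Dr pos G) {a b c : V} (h1 : a ≠ b) (h2 : a ≠ c) (h3 : b ≠ c) :
    ∀ s ∈ Icc (0 : ℝ) 1, G a b s ≠ pos c := fun s hs e => by
  have := h.vert h1 hs e
  tauto

lemma Dr.anti (h : Dr pos G) (a b c d : V) : sc G b a c d = -sc G a b c d := by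
  by_cases e : a ≠ b ∧ a ≠ c ∧ a ≠ d ∧ b ≠ c ∧ b ≠ d ∧ c ≠ d
  · obtain ⟨h1, h2, h3, h4, h5, h6⟩ := e
    have e1 := (h.sII h1 h2 h3 h4 h5 h6).1
    have e2 := (h.sII h1.symm h4 h5 h2 h3 h6).1
    have e3 : ∀ z, a ≠ z → b ≠ z → E (G b a) 0 1 (pos z) = -E (G a b) 0 1 (pos z) := by
      intro z z1 z2
      have := h.cont a b
      unfold E
      rw [← dlog_rev (by fun_prop) fun t ht => sub_ne_zero.mpr (h.ne h1 z1 z2 t ht).symm]
      simp only [h.rev a b h1]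
    rw [II_eq, h.g0 _ _ h1, h.g1 h1, h.g0 _ _ h6, h.g1 h6] at e1
    rw [II_eq, h.g0 _ _ h1.symm, h.g1 h1.symm, h.g0 _ _ h6, h.g1 h6, e3 c h2 h4, e3 d h3 h5] at e2
    apply int_cancel
    push_cast
    linear_combination -e1 - e2
  · rw [sc_z (by tauto), sc_z (by tauto), neg_zero]

lemma Dr.swap (h : Dr pos G) (a b c d : V) : sc G c d a b = -sc G a b c d := by
  by_cases e : a ≠ b ∧ a ≠ c ∧ a ≠ d ∧ b ≠ c ∧ b ≠ d ∧ c ≠ d
  · obtain ⟨h1, h2, h3, h4, h5, h6⟩ := e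
    have e1 := (h.sII h1 h2 h3 h4 h5 h6).1
    have e2 := (h.sII h6 h2.symm h4.symm h3.symm h5.symm h1).1
    have := h.cont a b
    have := h.cont c d
    have e3 := rd_swap (F := fun p => G c d p.1 - G a b p.2) (by fun_prop) zero_le_one zero_le_one
      (fun s hs t ht k => sub_ne_zero.mpr fun e => by
        rcases h.cases h6 h1 hs ht e with k1 | k1 | k1 | k1 | k1
        · rcases k with rfl | rfl | rfl | rfl <;> simp at k1
        all_goals tauto)
    simp only [neg_sub] at e3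
    unfold II at e1 e2
    apply int_cancel
    push_cast
    linear_combination e3 - e1 - e2
  · rw [sc_z (by tauto), sc_z (by tauto), neg_zero]

lemma Dr.l1 (h : Dr pos G) (a b c d : V) (h0 : sc G a b c d ≠ 0) : sc G a c b d = 0 := by
  obtain ⟨h1, h2, h3, h4, h5, h6⟩ := sc_dis h0
  obtain ⟨s, hs, t, ht, e⟩ := (h.sII h1 h2 h3 h4 h5 h6).2.mp h0
  obtain ⟨-, k2, k3⟩ := h.meet a b c d h1 h6 (by tauto) (by tauto) s hs t ht e
  have adj : ∀ {i j k l : V}, i ≠ j → k ≠ l → ¬ (i = k ∧ j = l) → ¬ (i = l ∧ j = k) →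
      (i = k ∨ i = l ∨ j = k ∨ j = l) → ¬ X G i j k l := fun e1 e2 e3 e4 e5 =>
    h.nx e1 e2 e3 e4 (sc_z (by tauto))
  have inv : ∀ (ζ : ℝ → ℂ) (p q : ℝ), Continuous ζ → p ≤ q →
      (∀ y ∈ Icc 0 s, ∀ v ∈ Icc p q, G a b y ≠ ζ v) → (∀ y ∈ Icc 0 t, ∀ v ∈ Icc p q, G c d y ≠ ζ v) →
      D (G a b) 0 s (ζ p) - D (G c d) 0 t (ζ p) - (D (G a b) 0 s (ζ q) - D (G c d) 0 t (ζ q)) =
        E ζ p q (pos a) - E ζ p q (pos c) := by
    intro ζ p q hζ hpq m1 m2
    have e1 := move (h.cont a b) hζ hs.1.le hpq m1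
    have e2 := move (h.cont c d) hζ ht.1.le hpq m2
    rw [h.g0 _ _ h1, e] at e1
    rw [h.g0 _ _ h6] at e2
    linear_combination e1 - e2
  have inv2 : ∀ (ζ : ℝ → ℂ) (p q : ℝ), Continuous ζ → p ≤ q →
      (∀ y ∈ Icc (0 : ℝ) 1, ∀ v ∈ Icc p q, G a c y ≠ ζ v) →
      D (G a c) 0 1 (ζ p) - D (G a c) 0 1 (ζ q) = E ζ p q (pos a) - E ζ p q (pos c) := by
    intro ζ p q hζ hpq m1
    rw [move (h.cont a c) hζ zero_le_one hpq m1, h.g0 _ _ h2, h.g1 h2]
  have s1 : ∀ y ∈ Icc 0 s, y ∈ Icc (0 : ℝ) 1 := fun y hy => ⟨hy.1, by linarith [hy.2, hs.2]⟩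
  have t1 : ∀ y ∈ Icc 0 t, y ∈ Icc (0 : ℝ) 1 := fun y hy => ⟨hy.1, by linarith [hy.2, ht.2]⟩
  have x1 : ∀ y ∈ Icc (0 : ℝ) 1, ∀ v ∈ Icc (0 : ℝ) 1, 0 < v → G a c y ≠ G a b v := by
    intro y hy v hv v0 e
    rcases h.cases h2 h1 hy hv e with k | k | k | k | k
    · exact adj h2 h1 (by tauto) (by tauto) (by tauto) ⟨y, k.1, v, k.2, e⟩
    · linarith [k.2.1]
    all_goals tauto
  have x2 : ∀ y ∈ Icc (0 : ℝ) 1, ∀ v ∈ Icc (0 : ℝ) 1, 0 < v → G a c y ≠ G c d v := by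
    intro y hy v hv v0 e
    rcases h.cases h2 h6 hy hv e with k | k | k | k | k
    · exact adj h2 h6 (by tauto) (by tauto) (by tauto) ⟨y, k.1, v, k.2, e⟩
    · tauto
    · linarith [k.2.1]
    all_goals tauto
  have x3 : ∀ y ∈ Icc (0 : ℝ) 1, ∀ v ∈ Icc (0 : ℝ) 1, G a b y = G c d v → y = s ∧ v = t := by
    intro y hy v hv e
    rcases h.cases h1 h6 hy hv e with k | k | k | k | k
    · exact k2 y k.1 v k.2 e
    all_goals tauto
  obtain ⟨δ, d0, d1, ζ, z0, z1, z2, z3⟩ := short (h.cont a b) (h.cont c d) k3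
    (isCompact_Icc (a := 0) (b := s)) (isCompact_Icc (a := 0) (b := t))
    (isCompact_Icc.image (h.cont a c)).isClosed
    (fun ⟨y, hy, e⟩ => x1 y hy s (Ioo_subset_Icc_self hs) hs.1 e)
    (fun u hu => h.inj a b h1 (s1 u hu) (Ioo_subset_Icc_self hs))
    (fun u hu => h.inj c d h6 (t1 u hu) (Ioo_subset_Icc_self ht)) (Or.inl rfl) (Or.inl rfl)
    (lt_min (sub_pos.mpr hs.2) (sub_pos.mpr ht.2))
    (fun δ d0 _ k => by linarith [k.2]) (fun δ d0 _ k => by linarith [k.2])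
  rw [lt_min_iff] at d1
  have s2 : ∀ y ∈ Icc (s + 1 * δ) 1, y ∈ Icc (0 : ℝ) 1 := fun y hy =>
    ⟨by linarith [hy.1, hs.1], hy.2⟩
  have t2 : ∀ y ∈ Icc (t + 1 * δ) 1, y ∈ Icc (0 : ℝ) 1 := fun y hy =>
    ⟨by linarith [hy.1, ht.1], hy.2⟩
  have i1 := inv (G a b) (s + 1 * δ) 1 (h.cont a b) (by linarith [d1.1])
    (fun y hy v hv e => by linarith [h.inj a b h1 (s1 y hy) (s2 v hv) e, hy.2, hv.1])
    (fun y hy v hv e => by linarith [(x3 v (s2 v hv) y (t1 y hy) e.symm).1, hv.1])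
  have j1 := inv2 (G a b) (s + 1 * δ) 1 (h.cont a b) (by linarith [d1.1])
    (fun y hy v hv => x1 y hy v (s2 v hv) (by linarith [hv.1, hs.1]))
  have i2 := inv ζ 0 1 z0 zero_le_one (fun y hy v hv => (z3 v hv).2.1 y hy)
    (fun y hy v hv => (z3 v hv).2.2 y hy)
  have j2 := inv2 ζ 0 1 z0 zero_le_one (fun y hy v hv e => (z3 v hv).1 ⟨y, hy, e⟩)
  have i3 := inv (G c d) (t + 1 * δ) 1 (h.cont c d) (by linarith [d1.2])
    (fun y hy v hv e => by linarith [(x3 y (s1 y hy) v (t2 v hv) e).2, hv.1])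
    (fun y hy v hv e => by linarith [h.inj c d h6 (t1 y hy) (t2 v hv) e, hy.2, hv.1])
  have j3 := inv2 (G c d) (t + 1 * δ) 1 (h.cont c d) (by linarith [d1.2])
    (fun y hy v hv => x2 y hy v (t2 v hv) (by linarith [hv.1, ht.1]))
  have i4 := inv (G b d) 0 1 (h.cont b d) zero_le_one
    (fun y hy v hv e => by
      rcases h.cases h1 h5 (s1 y hy) hv e with k | k | k | k | k
      · exact adj h1 h5 (by tauto) (by tauto) (by tauto) ⟨y, k.1, v, k.2, e⟩
      · tauto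
      · linarith [k.1, hy.2, hs.2]
      all_goals tauto)
    (fun y hy v hv e => by
      rcases h.cases h6 h5 (t1 y hy) hv e with k | k | k | k | k
      · exact adj h6 h5 (by tauto) (by tauto) (by tauto) ⟨y, k.1, v, k.2, e⟩
      · tauto
      · tauto
      · tauto
      · linarith [k.1, hy.2, ht.2])
  have e4 := (h.sII h5 h1.symm h4 h3.symm h6.symm h2).1
  rw [II_eq, h.g0 _ _ h2, h.g1 h2] at e4
  rw [h.g0 _ _ h5, h.g1 h5] at e4 i4
  rw [z1, z2] at i2 j2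
  rw [h.g1 h1] at i1 j1
  rw [h.g1 h6] at i3 j3
  rw [h.swap b d a c, neg_eq_zero]
  apply int_cancel
  push_cast
  linear_combination -e4 + i4 + i1 - j1 - i2 + j2 - i3 + j3

lemma Dr.step (h : Dr pos G) {a b x y : V} (h1 : a ≠ b) (h2 : x ≠ a) (h3 : x ≠ b) (h4 : y ≠ a)
    (h5 : y ≠ b) (h6 : x ≠ y) : sc G x y a b * (2 * Real.pi * I) = D (G a b) 0 1 (pos x) -
      D (G a b) 0 1 (pos y) + (E (G x y) 0 1 (pos b) - E (G x y) 0 1 (pos a)) := by
  rw [← (h.sII h6 h2 h3 h4 h5 h1).1, II_eq, h.g0 _ _ h1, h.g1 h1, h.g0 _ _ h6, h.g1 h6]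
  ring

/-- Winding number of a triangle. -/
noncomputable def W (G : V → V → ℝ → ℂ) (a b c : V) (z : ℂ) : ℂ :=
  D (G a b) 0 1 z + D (G b c) 0 1 z + D (G c a) 0 1 z

lemma Dr.sg_eq (h : Dr pos G) {a b c x y : V} (h1 : a ≠ b) (h2 : b ≠ c) (h3 : c ≠ a) (x1 : x ≠ a)
    (x2 : x ≠ b) (x3 : x ≠ c) (y1 : y ≠ a) (y2 : y ≠ b) (y3 : y ≠ c) :
    LC.sg (sc G) a b c x y * (2 * Real.pi * I) = W G a b c (pos x) - W G a b c (pos y) := by
  unfold LC.sg W
  by_cases e : x = y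
  · rw [sc_z (Or.inl e), sc_z (Or.inl e), sc_z (Or.inl e), e]
    simp
  · push_cast
    linear_combination h.step h1 x1 x2 y1 y2 e + h.step h2 x2 x3 y2 y3 e + h.step h3 x3 x1 y3 y1 e

lemma Dr.W_inv (h : Dr pos G) {a b c x u : V} (h1 : a ≠ b) (h2 : b ≠ c) (h3 : c ≠ a) (x1 : x ≠ a)
    (x2 : x ≠ b) (x3 : x ≠ c) (u1 : u ≠ a) (u2 : u ≠ b) (u3 : u ≠ c) (hx : x ≠ u)
    (e1 : sc G x u a b = 0) (e2 : sc G x u b c = 0) (e3 : sc G x u c a = 0) {s : ℝ}
    (hs : s ∈ Ioo (0 : ℝ) 1) : W G a b c (pos x) = W G a b c (G x u s) := by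
  have k : ∀ {a b : V}, a ≠ b → x ≠ a → x ≠ b → u ≠ a → u ≠ b → sc G x u a b = 0 →
      D (G a b) 0 1 (pos x) - D (G a b) 0 1 (G x u s) =
        E (G x u) 0 s (pos a) - E (G x u) 0 s (pos b) := by
    intro a b h1 x1 x2 u1 u2 e1
    have := move (h.cont a b) (h.cont x u) zero_le_one hs.1.le fun y hy t ht e =>
      h.disj hx x1 x2 u1 u2 h1 (h.nx hx h1 (by tauto) (by tauto) e1) t
        ⟨ht.1, by linarith [ht.2, hs.2]⟩ y hy e.symm
    rwa [h.g0 _ _ hx, h.g0 _ _ h1, h.g1 h1] at this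
  unfold W
  linear_combination k h1 x1 x2 u1 u2 e1 + k h2 x2 x3 u2 u3 e2 + k h3 x3 x1 u3 u1 e3

/-- Parametrization of the walk through `v 0, v 1, ..., v m`. -/
noncomputable def P (pos : V → ℂ) (G : V → V → ℝ → ℂ) (v : ℕ → V) : ℕ → ℝ → ℂ
  | 0 => fun _ => pos (v 0)
  | m + 1 => fun t => P pos G v m t + G (v m) (v (m + 1)) (max 0 (min (t - m) 1)) - pos (v m)

lemma Dr.P_cont (h : Dr pos G) (v : ℕ → V) (m : ℕ) : Continuous (P pos G v m) := by
  induction m with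
  | zero => exact continuous_const
  | succ m ih =>
    have := h.cont (v m) (v (m + 1))
    unfold P
    fun_prop

lemma Dr.P_ge (h : Dr pos G) (v : ℕ → V) (m : ℕ) (hv : ∀ i < m, v i ≠ v (i + 1)) (t : ℝ)
    (ht : (m : ℝ) ≤ t) : P pos G v m t = pos (v m) := by
  induction m with
  | zero => rfl
  | succ m ih =>
    push_cast at ht
    simp only [P]
    rw [ih (fun i hi => hv i (by omega)) (by linarith), min_eq_right (by linarith),
      max_eq_right zero_le_one, h.g1 (hv m (by omega))]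
    ring

lemma Dr.P_in (h : Dr pos G) (v : ℕ → V) (m : ℕ) (hv : ∀ i < m, v i ≠ v (i + 1)) (i : ℕ) (hi : i < m)
    (t : ℝ) (ht : t ∈ Icc (i : ℝ) (i + 1)) : P pos G v m t = G (v i) (v (i + 1)) (t - i) := by
  induction m with
  | zero => omega
  | succ m ih =>
    simp only [P]
    rcases (show i < m ∨ i = m by omega) with h1 | rfl
    · have : (i : ℝ) + 1 ≤ m := by exact_mod_cast h1
      rw [ih (fun i hi => hv i (by omega)) h1, max_eq_left ((min_le_left _ _).trans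
        (by linarith [ht.2])), h.g0 _ _ (hv m (by omega))]
      ring
    · rw [h.P_ge v i (fun j hj => hv j (by omega)) t ht.1, min_eq_left (by linarith [ht.2]),
        max_eq_right (by linarith [ht.1])]
      ring

lemma Ch.shift {C g e : ℝ → ℂ} {k y t : ℝ} (hC : ∀ u ∈ Icc k (k + 1), C u = g (u - k))
    (hy : y ∈ Ioo k (k + 1)) (h : Ch g e (y - k) t) : Ch C e y t := by
  obtain ⟨ε, hε, h, k1, k2, k3, k4, k5, k6⟩ := h
  have a1 := min_le_left ε (min (y - k) (k + 1 - y))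
  have a2 := (min_le_right ε _).trans (min_le_left (y - k) (k + 1 - y))
  have a3 := (min_le_right ε _).trans (min_le_right (y - k) (k + 1 - y))
  have a0 : 0 < min ε (min (y - k) (k + 1 - y)) :=
    lt_min hε (lt_min (sub_pos.mpr hy.1) (sub_pos.mpr hy.2))
  generalize min ε (min (y - k) (k + 1 - y)) = δ at *
  have m1 : ∀ u ∈ Icc (y - δ) (y + δ), C u = g (u - k) ∧ u - k ∈ Icc (y - k - ε) (y - k + ε) :=
    fun u hu => ⟨hC u ⟨by linarith [hu.1], by linarith [hu.2]⟩, by linarith [hu.1],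
      by linarith [hu.2]⟩
  have m2 : Icc (t - δ) (t + δ) ⊆ Icc (t - ε) (t + ε) := Icc_subset_Icc (by linarith) (by linarith)
  have m3 := hC y (Ioo_subset_Icc_self hy)
  refine ⟨δ, a0, h, m3 ▸ k1, m3 ▸ k2, fun u hu w hw e => ?_, k4.mono m2, fun u hu => ?_,
    fun u hu => k6 u (m2 hu)⟩
  · rw [(m1 u hu).1, (m1 w hw).1] at e
    linarith [k3 (m1 u hu).2 (m1 w hw).2 e]
  · rw [(m1 u hu).1]
    exact k5 _ (m1 u hu).2

lemma cyc_ne {v : ℕ → V} {m : ℕ} (hm : 3 ≤ m) (h1 : ∀ i < m, ∀ j < m, v i = v j → i = j)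
    (h2 : v m = v 0) {i j : ℕ} (hi : i ≤ m) (hj : j ≤ m) (e : v i = v j) :
    i = j ∨ i = 0 ∧ j = m ∨ i = m ∧ j = 0 := by
  rcases hi.eq_or_lt with rfl | hi <;> rcases hj.eq_or_lt with rfl | hj
  · simp
  · have := h1 0 (by omega) j hj (h2.symm.trans e)
    omega
  · have := h1 i hi 0 (by omega) (e.trans h2)
    omega
  · exact Or.inl (h1 i hi j hj e)

lemma Dr.cyc_nx (h : Dr pos G) {v : ℕ → V} {m : ℕ} (hm : 3 ≤ m)
    (h1 : ∀ i < m, ∀ j < m, v i = v j → i = j) (h2 : v m = v 0)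
    (h3 : ∀ i < m, ∀ j < m, sc G (v i) (v (i + 1)) (v j) (v (j + 1)) = 0) {i j : ℕ} (hi : i < m)
    (hj : j < m) (hij : i ≠ j) : ¬ X G (v i) (v (i + 1)) (v j) (v (j + 1)) := by
  refine h.nx (fun e => ?_) (fun e => ?_) (fun e => hij (h1 i hi j hj e.1)) (fun e => ?_)
    (h3 i hi j hj)
  · have := cyc_ne hm h1 h2 hi.le hi e
    omega
  · have := cyc_ne hm h1 h2 hj.le hj e
    omega
  · have := cyc_ne hm h1 h2 hi.le hj e.1
    have := cyc_ne hm h1 h2 hi hj.le e.2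
    omega

lemma Dr.cyc_le (h : Dr pos G) {v : ℕ → V} {m : ℕ} (hm : 3 ≤ m)
    (h1 : ∀ i < m, ∀ j < m, v i = v j → i = j) (h2 : v m = v 0)
    (h3 : ∀ i < m, ∀ j < m, sc G (v i) (v (i + 1)) (v j) (v (j + 1)) = 0) {x y : V}
    (hx : ∀ i < m, x ≠ v i) (hy : ∀ i < m, y ≠ v i) :
    ∑ i ∈ Finset.range m, sc G x y (v i) (v (i + 1)) ≤ 1 := by
  by_cases hxy : x = y
  · simp [sc_z (Or.inl hxy)]
  have hv : ∀ i < m, v i ≠ v (i + 1) := fun i hi e => by
    have := cyc_ne hm h1 h2 hi.le hi e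
    omega
  have ext : ∀ z, (∀ i < m, z ≠ v i) → ∀ i ≤ m, z ≠ v i := fun z hz i hi => by
    rcases hi.eq_or_lt with rfl | hi
    · exact h2 ▸ hz 0 (by omega)
    · exact hz i hi
  have hx' := ext x hx
  have hy' := ext y hy
  have pv : ∀ i ≤ m, P pos G v m i = pos (v i) := fun i hi => by
    rcases hi.eq_or_lt with rfl | hi
    · exact h.P_ge v _ hv _ le_rfl
    · rw [h.P_in v m hv i hi i ⟨le_rfl, by linarith⟩, sub_self, h.g0 _ _ (hv i hi)]
  have cs : ∀ t ∈ Icc (0 : ℝ) m, (∃ i ≤ m, t = i ∧ P pos G v m t = pos (v i)) ∨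
      ∃ i < m, t ∈ Ioo (i : ℝ) (i + 1) ∧ t - i ∈ Ioo (0 : ℝ) 1 ∧
        P pos G v m t = G (v i) (v (i + 1)) (t - i) := by
    intro t ht
    have a1 := Nat.floor_le ht.1
    have a2 := Nat.lt_floor_add_one t
    rcases a1.eq_or_lt with e | e
    · have : ⌊t⌋₊ ≤ m := by exact_mod_cast a1.trans ht.2
      exact Or.inl ⟨_, this, e.symm, by rw [← pv _ this, e]⟩
    · have : ⌊t⌋₊ < m := by exact_mod_cast e.trans_le ht.2
      exact Or.inr ⟨_, this, ⟨e, a2⟩, ⟨by linarith, by linarith⟩, h.P_in v m hv _ this t ⟨a1, a2.le⟩⟩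
  have dp : ∀ z, (∀ i ≤ m, z ≠ v i) → ∀ k ≤ m, D (P pos G v m) 0 k (pos z) =
      ∑ i ∈ Finset.range k, D (G (v i) (v (i + 1))) 0 1 (pos z) := by
    intro z hz k hk
    have nz : ∀ t ∈ Icc (0 : ℝ) m, P pos G v m t ≠ pos z := fun t ht => by
      rcases cs t ht with ⟨i, hi, -, e⟩ | ⟨i, hi, -, e1, e⟩
      · exact e ▸ fun e => hz i hi (h.pinj e).symm
      · exact e ▸ h.avoid _ _ (hv i hi) z _ e1
    induction k with
    | zero =>
      have := D_add (h.P_cont v m) (le_refl (0 : ℝ)) le_rfl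
        fun t ht => nz t ⟨ht.1, ht.2.trans m.cast_nonneg⟩
      simpa using this
    | succ k ih =>
      have hk' : (k : ℝ) + 1 ≤ m := by exact_mod_cast hk
      have := h.cont (v k) (v (k + 1))
      rw [Finset.sum_range_succ, ← ih (by omega), Nat.cast_succ, D_add (h.P_cont v m) k.cast_nonneg
        (by linarith : (k : ℝ) ≤ k + 1) fun t ht => nz t ⟨ht.1, ht.2.trans hk'⟩]
      congr 1
      exact dlog_shift (g := fun t => G (v k) (v (k + 1)) t - pos z) (by fun_prop)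
        (fun t ht => sub_ne_zero.mpr (h.ne (hv k hk) (hz k (by omega)).symm (hz _ hk).symm t ht)) k
        fun t ht => by rw [h.P_in v m hv k hk t ht]
  have fin : (⋃ i ∈ {i | i < m}, {t ∈ Ioo (0 : ℝ) 1 | ∃ s ∈ Ioo (0 : ℝ) 1,
      G (v i) (v (i + 1)) s = G x y t}).Finite := (finite_lt_nat m).biUnion fun i hi =>
    Subsingleton.finite fun t ⟨ht, s, hs, e⟩ t' ⟨ht', s', hs', e'⟩ =>
      ((h.meet _ _ _ _ (hv i hi) hxy (fun k => hx i hi k.1.symm) (fun k => hy i hi k.1.symm)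
        s' hs' t' ht' e').2.1 s hs t ht e).2
  have J := jordan (h.P_cont v m) (h.cont x y) m.cast_nonneg
    (by rw [pv m le_rfl, h2, ← pv 0 (by omega), Nat.cast_zero]) (fun a ha b hb e => by
      rcases cs a (Ioo_subset_Icc_self ha) with ⟨i, hi, e1, e2⟩ | ⟨i, hi, e0, e1, e2⟩ <;>
        rcases cs b hb with ⟨j, hj, e3, e4⟩ | ⟨j, hj, e5, e3, e4⟩ <;> rw [e2, e4] at e
      · subst e1 e3
        rcases cyc_ne hm h1 h2 hj hi (h.pinj e) with k | k | k
        · rw [k]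
        · simp [k.2] at ha
        · simp [k.2] at ha
      · exact absurd e (h.avoid _ _ (hv j hj) _ _ e3)
      · exact absurd e.symm (h.avoid _ _ (hv i hi) _ _ e1)
      · by_cases k : j = i
        · subst k
          linarith [h.inj _ _ (hv j hj) (Ioo_subset_Icc_self e3) (Ioo_subset_Icc_self e1) e]
        · exact absurd ⟨_, e3, _, e1, e⟩ (h.cyc_nx hm h1 h2 h3 hj hi k)) fin.toFinset 0 zero_le_one
    (h.inj x y hxy) (fun a ha t ht e => by
      rcases cs a ha with ⟨i, hi, e1, e2⟩ | ⟨i, hi, e0, e1, e2⟩ <;> rw [e2] at e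
      · rcases h.vert hxy ht e.symm with k | k
        · exact absurd k.2 (hx' i hi)
        · exact absurd k.2 (hy' i hi)
      · have k : t ∈ Ioo (0 : ℝ) 1 := by
          rcases tri ht with rfl | rfl | k
          · exact absurd (e.trans (h.g0 _ _ hxy)) (h.avoid _ _ (hv i hi) _ _ e1)
          · exact absurd (e.trans (h.g1 hxy)) (h.avoid _ _ (hv i hi) _ _ e1)
          · exact k
        have hi' : (i : ℝ) + 1 ≤ m := by exact_mod_cast hi
        refine ⟨by simpa using ⟨k, i, hi, _, e1, e⟩, k.1, k.2, by linarith [e0.1, i.cast_nonneg (α := ℝ)],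
          by linarith [e0.2], Ch.shift (h.P_in v m hv i hi) e0 ?_⟩
        exact (h.meet _ _ _ _ (hv i hi) hxy (fun k => hx i hi k.1.symm) (fun k => hy i hi k.1.symm)
          _ e1 t k e).2.2)
  rw [h.g0 _ _ hxy, h.g1 hxy, dp x hx' m le_rfl, dp y hy' m le_rfl] at J
  have S : ((∑ i ∈ Finset.range m, sc G x y (v i) (v (i + 1)) : ℤ) : ℂ) * (2 * Real.pi * I) =
      ∑ i ∈ Finset.range m, D (G (v i) (v (i + 1))) 0 1 (pos x) -
        ∑ i ∈ Finset.range m, D (G (v i) (v (i + 1))) 0 1 (pos y) := by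
    push_cast
    rw [Finset.sum_mul, Finset.sum_congr rfl fun i hi => h.step (hv i (Finset.mem_range.mp hi))
      (hx i (Finset.mem_range.mp hi)) (hx' _ (Finset.mem_range.mp hi))
      (hy i (Finset.mem_range.mp hi)) (hy' _ (Finset.mem_range.mp hi)) hxy, Finset.sum_add_distrib,
      Finset.sum_range_sub (fun i => E (G x y) 0 1 (pos (v i))), Finset.sum_sub_distrib, h2]
    ring
  rw [← S] at J
  generalize ∑ i ∈ Finset.range m, sc G x y (v i) (v (i + 1)) = N at J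
  rcases J with J | J | J
  · linarith [int_cancel (m := N) (n := 0) (by simpa using J)]
  · linarith [int_cancel (m := N) (n := 1) (by simpa using J)]
  · linarith [int_cancel (m := N) (n := -1) (by simpa using J)]

theorem Dr.ax (h : Dr pos G) : LC.Ax (sc G) where
  bd a b c d := by
    unfold sc
    split_ifs <;> simp
  dis _ _ _ _ := sc_dis
  anti := h.anti
  swap := h.swap
  l1 := h.l1
  coc a b c x y z h1 h2 h3 x1 x2 x3 y1 y2 y3 z1 z2 z3 := by
    apply int_cancel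
    push_cast
    linear_combination h.sg_eq h1 h2 h3 x1 x2 x3 y1 y2 y3 + h.sg_eq h1 h2 h3 y1 y2 y3 z1 z2 z3 -
      h.sg_eq h1 h2 h3 x1 x2 x3 z1 z2 z3
  j3 a b c x y h1 h2 h3 x1 x2 x3 y1 y2 y3 := by
    have := h.cyc_le (v := fun i => if i = 1 then b else if i = 2 then c else a) (m := 3) le_rfl
      (fun i hi j hj => by interval_cases i <;> interval_cases j <;> simp [*, Ne.symm]) (by simp)
      (fun i hi j hj => by interval_cases i <;> interval_cases j <;> exact sc_z (by simp))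
      (x := x) (y := y) (fun i hi => by interval_cases i <;> simpa)
      (fun i hi => by interval_cases i <;> simpa)
    simpa [Finset.sum_range_succ, LC.sg] using this
  j4 a b c d x y h1 h2 h3 h4 h5 h6 x1 x2 x3 x4 y1 y2 y3 y4 e1 e2 := by
    have e3 := h.swap a b c d
    have e4 := h.swap b c d a
    rw [e1, neg_zero] at e3
    rw [e2, neg_zero] at e4
    have := h.cyc_le (v := fun i => if i = 1 then b else if i = 2 then c else if i = 3 then d else a)
      (m := 4) (by omega)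
      (fun i hi j hj => by interval_cases i <;> interval_cases j <;> simp [*, Ne.symm]) (by simp)
      (fun i hi j hj => by
        interval_cases i <;> interval_cases j <;> first | (refine sc_z ?_; simp; done) | simpa)
      (x := x) (y := y) (fun i hi => by interval_cases i <;> simpa)
      (fun i hi => by interval_cases i <;> simpa)
    simpa [Finset.sum_range_succ] using this
  rr a b c x u y v h1 h2 h3 x1 x2 x3 y1 y2 y3 u1 u2 u3 v1 v2 v3 e1 e2 e3 e4 e5 e6 e7 := by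
    obtain ⟨d1, d2, d3, d4, d5, d6⟩ := sc_dis e7
    obtain ⟨s, hs, t, ht, e⟩ := (h.sII d1 d2 d3 d4 d5 d6).2.mp e7
    apply int_cancel
    rw [h.sg_eq h1 h2 h3 x1 x2 x3 y1 y2 y3, h.W_inv h1 h2 h3 x1 x2 x3 u1 u2 u3 d1 e1 e2 e3 hs,
      h.W_inv h1 h2 h3 y1 y2 y3 v1 v2 v3 d6 e4 e5 e6 ht, e]
    simp

lemma Ch.congr {g e g' e' : ℝ → ℂ} {s t s' t' σ τ : ℝ} (hσ : σ = 1 ∨ σ = -1) (hτ : τ = 1 ∨ τ = -1)
    (hg : ∀ u, g' (s' + u) = g (s + σ * u)) (he : ∀ u, e' (t' + u) = e (t + τ * u))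
    (h : Ch g e s t) : Ch g' e' s' t' := by
  obtain ⟨ε, hε, h, k1, k2, k3, k4, k5, k6⟩ := h
  have m1 : ∀ u ∈ Icc (s' - ε) (s' + ε), g' u = g (s + σ * (u - s')) ∧
      s + σ * (u - s') ∈ Icc (s - ε) (s + ε) := fun u hu => ⟨by rw [← hg]; simp, by
    rcases hσ with rfl | rfl <;> constructor <;> linarith [hu.1, hu.2]⟩
  have m2 : ∀ u ∈ Icc (t' - ε) (t' + ε), e' u = e (t + τ * (u - t')) ∧
      t + τ * (u - t') ∈ Icc (t - ε) (t + ε) := fun u hu => ⟨by rw [← he]; simp, by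
    rcases hτ with rfl | rfl <;> constructor <;> linarith [hu.1, hu.2]⟩
  have e1 : g' s' = g s := by simpa using hg 0
  have e2 : e' t' = e t := by simpa using he 0
  refine ⟨ε, hε, h, e1 ▸ k1, by rw [e1, e2, k2], fun u hu w hw e => ?_, fun u hu w hw e => ?_,
    fun u hu => (m1 u hu).1 ▸ k5 _ (m1 u hu).2, fun u hu => (m2 u hu).1 ▸ k6 _ (m2 u hu).2⟩
  · rw [(m1 u hu).1, (m1 w hw).1] at e
    have := k3 (m1 u hu).2 (m1 w hw).2 e
    rcases hσ with rfl | rfl <;> linarith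
  · rw [(m2 u hu).1, (m2 w hw).1] at e
    have := k4 (m2 u hu).2 (m2 w hw).2 e
    rcases hτ with rfl | rfl <;> linarith

/-- From edges given for increasing pairs only to both orientations. -/
lemma Dr.of_lt [LinearOrder V] {pos : V → ℂ} {F : V → V → ℝ → ℂ} (h0 : Function.Injective pos)
    (h1 : ∀ i j, i < j → Continuous (F i j) ∧ InjOn (F i j) (Icc 0 1) ∧ F i j 0 = pos i ∧
      F i j 1 = pos j ∧ ∀ k, ∀ s ∈ Ioo (0 : ℝ) 1, F i j s ≠ pos k)
    (h2 : ∀ i j k l, i < j → k < l → ¬ (i = k ∧ j = l) → ∀ s ∈ Ioo (0 : ℝ) 1, ∀ t ∈ Ioo (0 : ℝ) 1,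
      F i j s = F k l t → (i ≠ k ∧ i ≠ l ∧ j ≠ k ∧ j ≠ l) ∧
      (∀ s' ∈ Ioo (0 : ℝ) 1, ∀ t' ∈ Ioo (0 : ℝ) 1, F i j s' = F k l t' → s' = s ∧ t' = t) ∧
      Ch (F i j) (F k l) s t) :
    ∃ G, Dr pos G ∧ ∀ i j, i ≠ j → ∀ s ∈ Ioo (0 : ℝ) 1, ∃ s' ∈ Ioo (0 : ℝ) 1,
      F (min i j) (max i j) s = G i j s' := by
  set G : V → V → ℝ → ℂ := fun i j t => if i < j then F i j t else if j < i then F j i (1 - t) else 0
    with hG
  have a1 : ∀ i j, i < j → ∀ t, G i j t = F i j t := fun i j h t => if_pos h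
  have a2 : ∀ i j, j < i → ∀ t, G i j t = F j i (1 - t) := fun i j h t => by
    simp only [hG, h.not_gt, h, if_true, if_false]
  have m : ∀ s ∈ Ioo (0 : ℝ) 1, 1 - s ∈ Ioo (0 : ℝ) 1 := fun s hs =>
    ⟨by linarith [hs.2], by linarith [hs.1]⟩
  refine ⟨G, ⟨h0, fun i j => ?_, fun i j h => ?_, fun i j h t => ?_, fun i j h => ?_,
    fun i j h k s hs => ?_, fun i j k l hij hkl n1 n2 s hs t ht e => ?_⟩, fun i j h s hs => ?_⟩
  · rcases lt_trichotomy i j with h | rfl | h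
    · exact (funext (a1 i j h)) ▸ (h1 i j h).1
    · simpa [hG] using continuous_const
    · exact (funext (a2 i j h)) ▸ (h1 j i h).1.comp (by fun_prop)
  · rcases h.lt_or_gt with h | h
    · rw [a1 i j h, (h1 i j h).2.2.1]
    · rw [a2 i j h, sub_zero, (h1 j i h).2.2.2.1]
  · rcases h.lt_or_gt with h | h
    · rw [a1 i j h, a2 j i h]
    · rw [a1 j i h, a2 i j h, sub_sub_cancel]
  · rcases h.lt_or_gt with h | h
    · exact (funext (a1 i j h)) ▸ (h1 i j h).2.1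
    · intro u hu w hw e
      rw [a2 i j h, a2 i j h] at e
      linarith [(h1 j i h).2.1 ⟨by linarith [hu.2], by linarith [hu.1]⟩
        ⟨by linarith [hw.2], by linarith [hw.1]⟩ e]
  · rcases h.lt_or_gt with h | h
    · exact a1 i j h s ▸ (h1 i j h).2.2.2.2 k s hs
    · exact a2 i j h s ▸ (h1 j i h).2.2.2.2 k _ (m s hs)
  · rcases hij.lt_or_gt with p | p <;> rcases hkl.lt_or_gt with q | q
    · rw [a1 i j p, a1 k l q] at e
      obtain ⟨k1, k2, k3⟩ := h2 i j k l p q n1 s hs t ht e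
      exact ⟨k1, fun u hu w hw e => k2 u hu w hw (by rwa [a1 i j p, a1 k l q] at e),
        k3.congr (Or.inl rfl) (Or.inl rfl) (fun u => by simp [a1 i j p]) fun u => by simp [a1 k l q]⟩
    · rw [a1 i j p, a2 k l q] at e
      obtain ⟨k1, k2, k3⟩ := h2 i j l k p q n2 s hs _ (m t ht) e
      refine ⟨by tauto, fun u hu w hw e => ?_, k3.congr (Or.inl rfl) (Or.inr rfl)
        (fun u => by simp [a1 i j p]) fun u => by rw [a2 k l q]; congr 1; ring⟩
      have := k2 u hu _ (m w hw) (by rwa [a1 i j p, a2 k l q] at e)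
      exact ⟨this.1, by linarith [this.2]⟩
    · rw [a2 i j p, a1 k l q] at e
      obtain ⟨k1, k2, k3⟩ := h2 j i k l p q (by tauto) _ (m s hs) t ht e
      refine ⟨by tauto, fun u hu w hw e => ?_, k3.congr (Or.inr rfl) (Or.inl rfl)
        (fun u => by rw [a2 i j p]; congr 1; ring) fun u => by simp [a1 k l q]⟩
      have := k2 _ (m u hu) w hw (by rwa [a2 i j p, a1 k l q] at e)
      exact ⟨by linarith [this.1], this.2⟩
    · rw [a2 i j p, a2 k l q] at e
      obtain ⟨k1, k2, k3⟩ := h2 j i l k p q (by tauto) _ (m s hs) _ (m t ht) e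
      refine ⟨by tauto, fun u hu w hw e => ?_, k3.congr (Or.inr rfl) (Or.inr rfl)
        (fun u => by rw [a2 i j p]; congr 1; ring) fun u => by rw [a2 k l q]; congr 1; ring⟩
      have := k2 _ (m u hu) _ (m w hw) (by rwa [a2 i j p, a2 k l q] at e)
      exact ⟨by linarith [this.1], by linarith [this.2]⟩
  · rcases h.lt_or_gt with h | h
    · exact ⟨s, hs, by rw [min_eq_left h.le, max_eq_right h.le, a1 i j h]⟩
    · exact ⟨1 - s, m s hs, by rw [min_eq_right h.le, max_eq_left h.le, a2 i j h, sub_sub_cancel]⟩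

end Pool.Agent.Lib.MP_3764f3_co.LT
end
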