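import Pool.Agent.Lib.MP_3764f3_co.DMain

/-! Sides of the closed curves formed by two edges at a root and a part of a third edge. -/

set_option autoImplicit false

namespace Pool.Agent.Lib.MP_3764f3_co.LT

open Set Complex Pool.Agent.Lib.MP_d8c195_lc

variable {V : Type} {pos : V → ℂ} {G : V → V → ℝ → ℂ}

/-- Cyclic order. -/
def cz (rk : V → ℤ) (a b c : V) : Prop :=
  rk a < rk b ∧ rk b < rk c ∨ rk b < rk c ∧ rk c < rk a ∨ rk c < rk a ∧ rk a < rk b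

/-- Two open parts of edges meet. -/
def XI (G : V → V → ℝ → ℂ) (i j : V) (a b : ℝ) (k l : V) (c d : ℝ) : Prop :=
  ∃ u ∈ Ioo a b, ∃ w ∈ Ioo c d, G i j u = G k l w

/-- The edge `r w` meets the edge `p q`, in a crossing or in `w = p`. -/
structure Mt (G : V → V → ℝ → ℂ) (r w : V) (s : ℝ) (p q : V) (t : ℝ) : Prop where
  wr : w ≠ r
  pr : p ≠ r
  qr : q ≠ r
  pq : p ≠ q
  wq : w ≠ q
  hs : s ∈ Icc (0 : ℝ) 1
  ht : t ∈ Icc (0 : ℝ) 1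
  eq : G r w s = G p q t

/-- The point `z` lies on the closed curve. -/
def On (G : V → V → ℝ → ℂ) (r w : V) (s : ℝ) (p q : V) (t : ℝ) (z : ℂ) : Prop :=
  (∃ u ∈ Icc 0 s, G r w u = z) ∨ (∃ u ∈ Icc t 1, G p q u = z) ∨ ∃ u ∈ Icc (0 : ℝ) 1, G r q u = z

/-- `In w p q` is the side of the closed curve that contains the angle from `w` to `q`. -/
structure Api (G : V → V → ℝ → ℂ) (r : V) (rk : V → ℤ) (In : V → V → V → ℂ → Prop) : Prop where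
  inj : ∀ a b, a ≠ r → b ≠ r → a ≠ b → rk a ≠ rk b
  same : ∀ {w s p q t}, Mt G r w s p q t → ∀ {c d a b}, c ≠ d → 0 ≤ a → a ≤ b → b ≤ 1 →
    (∀ u ∈ Icc a b, ¬ On G r w s p q t (G c d u)) → (In w p q (G c d a) ↔ In w p q (G c d b))
  par : ∀ {w s p q t}, Mt G r w s p q t → ∀ {c d a b}, c ≠ d → c ≠ r → d ≠ r → ¬ (p = c ∧ q = d) →
    ¬ (p = d ∧ q = c) → 0 ≤ a → a ≤ b → b ≤ 1 → ¬ On G r w s p q t (G c d a) →
    ¬ On G r w s p q t (G c d b) → (∀ u ∈ Ioo a b, G c d u ≠ G r w s) →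
    ((In w p q (G c d a) ↔ In w p q (G c d b)) ↔
      (XI G r w 0 s c d a b ↔ (XI G p q t 1 c d a b ↔ ¬ XI G r q 0 1 c d a b)))
  ray : ∀ {w s p q t}, Mt G r w s p q t → ∀ {c u}, c ≠ r → c ≠ w → c ≠ q → 0 < u → u ≤ 1 →
    (∀ v ∈ Icc t 1, G r c u ≠ G p q v) →
    (In w p q (G r c u) ↔ ¬ (cz rk w c q ↔ XI G p q t 1 r c 0 u))
  rest : ∀ {w s p q t}, Cr G r w s p q t → ∀ {u}, s < u → u ≤ 1 → (In w p q (G r w u) ↔ cz rk w p q)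
  back : ∀ {w s p q t}, Cr G r w s p q t → ∀ {u}, 0 ≤ u → u < t → (In w p q (G p q u) ↔ cz rk w p q)

variable {r w p q : V} {s t : ℝ} {rk : V → ℤ} {In : V → V → V → ℂ → Prop}

lemma Cr.mt (c : Cr G r w s p q t) : Mt G r w s p q t :=
  ⟨c.rv, c.qv, c.pv, c.qp, c.rp, Ioo_subset_Icc_self c.hs, Ioo_subset_Icc_self c.ht, c.eq⟩

lemma Dr.tri (h : Dr pos G) (pr : p ≠ r) (qr : q ≠ r) (pq : p ≠ q) : Mt G r p 1 p q 0 :=
  ⟨pr, pr, qr, pq, pq, by simp, by simp, (h.g1 pr.symm).trans (h.g0 _ _ pq).symm⟩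

lemma Mt.cases (h : Dr pos G) (m : Mt G r w s p q t) : Cr G r w s p q t ∨ w = p ∧ s = 1 ∧ t = 0 := by
  rcases h.cases m.wr.symm m.pq m.hs m.ht m.eq with k | k | k | k | k
  · exact Or.inl (h.cr m.wr m.pr m.qr m.pq k.1 k.2 m.eq)
  · exact absurd k.2.2 m.pr.symm
  · exact Or.inr ⟨k.2.2, k.1, k.2.1⟩
  · exact absurd k.2.2 m.qr.symm
  · exact absurd k.2.2 m.wq

lemma Mt.lt (h : Dr pos G) (m : Mt G r w s p q t) : 0 < s ∧ t < 1 := by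
  rcases m.cases h with k | ⟨-, rfl, rfl⟩
  · exact ⟨k.hs.1, k.ht.2⟩
  · exact ⟨one_pos, one_pos⟩

lemma Mt.uq (h : Dr pos G) (m : Mt G r w s p q t) {y x : ℝ} (hy : y ∈ Icc (0 : ℝ) 1)
    (hx : x ∈ Icc (0 : ℝ) 1) (e : G r w y = G p q x) : y = s ∧ x = t :=
  h.one m.wr m.pr m.qr m.pq hy hx m.hs m.ht e m.eq

lemma cz_neg {a b c : V} (h1 : rk a ≠ rk b) (h2 : rk a ≠ rk c) (h3 : rk b ≠ rk c) :
    cz (fun v => -rk v) a b c ↔ ¬ cz rk a b c := by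
  simp only [cz]
  omega

/-- Reflection. -/
lemma Api.refl (A : Api G r rk In) : Api G r (fun v => -rk v) (fun w p q z => ¬ In w p q z) where
  inj a b h1 h2 h3 := by simpa using A.inj a b h1 h2 h3
  same m _ _ _ _ h1 h2 h3 h4 h5 := not_congr (A.same m h1 h2 h3 h4 h5)
  par m _ _ _ _ h1 h2 h3 h4 h5 h6 h7 h8 h9 h10 h11 :=
    not_iff_not.trans (A.par m h1 h2 h3 h4 h5 h6 h7 h8 h9 h10 h11)
  ray m _ _ h1 h2 h3 h4 h5 h6 := by
    rw [A.ray m h1 h2 h3 h4 h5 h6, cz_neg (A.inj _ _ m.wr h1 h2.symm) (A.inj _ _ m.wr m.qr m.wq)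
      (A.inj _ _ h1 m.qr h3)]
    tauto
  rest c _ h1 h2 := by
    rw [A.rest c h1 h2, cz_neg (A.inj _ _ c.rv c.qv c.rq) (A.inj _ _ c.rv c.pv c.rp)
      (A.inj _ _ c.qv c.pv c.qp)]
  back c _ h1 h2 := by
    rw [A.back c h1 h2, cz_neg (A.inj _ _ c.rv c.qv c.rq) (A.inj _ _ c.rv c.pv c.rp)
      (A.inj _ _ c.qv c.pv c.qp)]

/-- Nearest integer multiple of `2 π i`. -/
noncomputable def pr (x : ℂ) : ℤ := ⌊(x / (2 * Real.pi * I)).re + 1 / 2⌋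

lemma Rl.pr {x y : ℂ} {P : Prop} (h : Rl (x - y) P) : (Odd (pr x) ↔ Odd (pr y)) ↔ ¬ P := by
  obtain ⟨n, e, k⟩ := h
  have : LT.pr x = LT.pr y + n := by
    unfold LT.pr
    rw [sub_eq_iff_eq_add.mp e, add_div, mul_div_cancel_right₀ _ two_pi_I_ne_zero, add_re,
      intCast_re, ← Int.floor_add_intCast]
    congr 1
    ring
  rw [this, Int.odd_add, ← k, ← Int.not_odd_iff_even]
  tauto

lemma Mt.travel (h : Dr pos G) (c : Mt G r w s p q t) (e : ℝ → ℂ) (a b : ℝ) :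
    Wg G r w s p q t (e a) - Wg G r w s p q t (e b) =
      II (G r w) e 0 s a b + II (G p q) e t 1 a b + -II (G r q) e 0 1 a b := by
  simp only [II_eq, Wg, h.g0 _ _ c.wr.symm, h.g0 _ _ c.qr.symm, h.g1 c.qr.symm, h.g1 c.pq, c.eq]
  ring

lemma Mt.start {σ : V → ℝ} {θ : V → ℂ} {rk : V → ℕ} {v r q p : V} (h : Dr pos G)
    (L : Loc G v σ θ rk) (c : Mt G v r s q p t) {a : V} (av : a ≠ v) (ar : a ≠ r) (ap : a ≠ p) :
    Rl (Wg G v r s q p t (G v a (σ a)) - (D (G v r) (σ r) s (pos v) + D (G q p) t 1 (pos v) -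
      D (G v p) (σ p) 1 (pos v) + θ r - θ p)) (¬ (rk a < rk r ↔ rk a < rk p)) := by
  have i0 := c.hs
  have i1 := c.ht
  have r1 := L.far r q p c.wr c.pr c.qr c.pq s i0 t i1 c.eq
  have m : ∀ b, b ≠ v → ∀ u ∈ Icc 0 (σ b), u ∈ Icc (0 : ℝ) 1 := fun b hb u hu =>
    ⟨hu.1, hu.2.trans (L.s1 b hb).le⟩
  have ma : σ a ∈ Icc (0 : ℝ) 1 := ⟨(L.s0 a av).le, (L.s1 a av).le⟩
  have e1 := D_add (h.cont v r) (L.s0 r c.wr).le r1.le (z := G v a (σ a)) fun u hu e =>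
    (L.s0 a av).ne' (h.adj c.wr av ar.symm ⟨hu.1, hu.2.trans i0.2⟩ ma e).2
  have e2 := D_add (h.cont v p) (L.s0 p c.qr).le (L.s1 p c.qr).le (z := G v a (σ a)) fun u hu e =>
    (L.s0 a av).ne' (h.adj c.qr av ap.symm hu ma e).2
  have e3 := move (h.cont v r) (h.cont v a) r1.le ma.1 fun u hu w hw e => by
    linarith [(h.adj c.wr av ar.symm ⟨by linarith [hu.1, L.s0 r c.wr], hu.2.trans i0.2⟩
      (m a av w hw) e).1, hu.1, L.s0 r c.wr]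
  have e4 := move (h.cont q p) (h.cont v a) i1.2 ma.1 fun u hu w hw e => by
    linarith [L.far a q p av c.pr c.qr c.pq w (m a av w hw) u ⟨i1.1.trans hu.1, hu.2⟩ e.symm, hw.2]
  have e5 := move (h.cont v p) (h.cont v a) (L.s1 p c.qr).le ma.1 fun u hu w hw e => by
    linarith [(h.adj c.qr av ap.symm ⟨by linarith [hu.1, L.s0 p c.qr], hu.2⟩
      (m a av w hw) e).1, hu.1, L.s0 p c.qr]
  have e6 : ∀ b, b ≠ v → a ≠ b → E (G v a) 0 (σ a) (G v b (σ b)) = D (G v a) 0 (σ a) (G v b (σ b)) :=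
    fun b hb ab => E_eq (h.cont v a) ma.1 fun u hu e => (L.s0 b hb).ne'
      (h.adj av hb ab (m a av u hu) ⟨(L.s0 b hb).le, (L.s1 b hb).le⟩ e).2
  rw [h.g0 _ _ av.symm] at e3 e4 e5
  rw [e6 r c.wr ar, c.eq] at e3
  rw [e6 p c.qr ap, h.g1 c.qr.symm] at e5
  rw [h.g1 c.pq] at e4
  have e7 := L.ang a r av c.wr ar
  have e8 := L.ang a p av c.qr ap
  unfold Wg
  rw [e1, e2]
  split_ifs at e7 e8 with k1 k2 k2
  · exact ⟨0, by linear_combination e7 - e8 - e3 - e4 + e5, by simp [k1, k2]⟩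
  · exact ⟨-1, by push_cast; linear_combination e7 - e8 - e3 - e4 + e5, by simp [k1, k2]⟩
  · exact ⟨1, by push_cast; linear_combination e7 - e8 - e3 - e4 + e5, by simp [k1, k2]⟩
  · exact ⟨0, by linear_combination e7 - e8 - e3 - e4 + e5, by simp [k1, k2]⟩

lemma Mt.ray0 {σ : V → ℝ} {θ : V → ℂ} {rk : V → ℕ} (h : Dr pos G) (L : Loc G r σ θ rk)
    (c : Mt G r w s p q t) {a : V} (ar : a ≠ r) (aw : a ≠ w) (aq : a ≠ q) {u : ℝ} (u0 : σ a ≤ u)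
    (u1 : u ≤ 1) (hu : ∀ v ∈ Icc t 1, G r a u ≠ G p q v) :
    Rl (Wg G r w s p q t (G r a (σ a)) - Wg G r w s p q t (G r a u)) (XI G p q t 1 r a 0 u) := by
  have a0 := L.s0 a ar
  have m : ∀ x ∈ Icc (σ a) u, x ∈ Icc (0 : ℝ) 1 := fun x hx => ⟨a0.le.trans hx.1, hx.2.trans u1⟩
  have m2 : ∀ x ∈ Icc t 1, x ∈ Icc (0 : ℝ) 1 := fun x hx => ⟨c.ht.1.trans hx.1, hx.2⟩
  have n1 : ∀ y ∈ Icc 0 s, ∀ x ∈ Icc (σ a) u, G r w y ≠ G r a x := fun y hy x hx e => by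
    linarith [(h.adj c.wr ar aw.symm ⟨hy.1, hy.2.trans c.hs.2⟩ (m x hx) e).2, hx.1]
  have n2 : ∀ y ∈ Icc (0 : ℝ) 1, ∀ x ∈ Icc (σ a) u, G r q y ≠ G r a x := fun y hy x hx e => by
    linarith [(h.adj c.qr ar aq.symm hy (m x hx) e).2, hx.1]
  rw [c.travel h, II_zero (h.cont _ _) (h.cont _ _) c.hs.1 u0 n1,
    II_zero (h.cont _ _) (h.cont _ _) zero_le_one u0 n2]
  refine (h.piece c.pq ar.symm c.ht.1 c.ht.2 le_rfl a0.le u0 u1 fun v hv x hx e => ?_).of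
    (by simp) ⟨fun ⟨v, hv, x, hx, e⟩ => ⟨v, hv, x, ⟨a0.trans hx.1, hx.2⟩, e⟩,
      fun ⟨v, hv, x, hx, e⟩ => ⟨v, hv, x, ⟨L.far a p q ar c.pr c.qr c.pq x
        ⟨hx.1.le, hx.2.le.trans u1⟩ v (m2 v (Ioo_subset_Icc_self hv)) e.symm, hx.2⟩, e⟩⟩
  refine ⟨⟨lt_of_le_of_ne hv.1 ?_, lt_of_le_of_ne hv.2 ?_⟩,
    ⟨L.far a p q ar c.pr c.qr c.pq x (m x hx) v (m2 v hv) e.symm, lt_of_le_of_ne hx.2 ?_⟩,
    fun k => c.pr k.1, fun k => c.qr k.2⟩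
  · rintro rfl
    exact n1 s (right_mem_Icc.mpr c.hs.1) x hx (c.eq.trans e)
  · rintro rfl
    exact n2 1 (by simp) x hx (by rw [h.g1 c.qr.symm, ← e, h.g1 c.pq])
  · rintro rfl
    exact hu v hv e.symm

theorem Dr.api [Fintype V] (h : Dr pos G) (r : V) : ∃ rk In, Api G r rk In := by
  obtain ⟨σ, θ, rk, L⟩ := h.loc r
  set K : V → ℝ → V → V → ℝ → ℂ := fun w s p q t => D (G r w) (σ w) s (pos r) +
    D (G p q) t 1 (pos r) - D (G r q) (σ q) 1 (pos r) + θ w - θ q with hK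
  obtain ⟨In, hI⟩ : ∃ In : V → V → V → ℂ → Prop, ∀ {w s p q t}, Mt G r w s p q t → ∀ z,
      In w p q z ↔ (Odd (pr (Wg G r w s p q t z - K w s p q t)) ↔ rk w < rk q) :=
    ⟨fun w p q z => ∃ s t, Mt G r w s p q t ∧
      (Odd (pr (Wg G r w s p q t z - K w s p q t)) ↔ rk w < rk q), fun m z =>
      ⟨fun ⟨s', t', m', k⟩ => by
        obtain ⟨rfl, rfl⟩ := m.uq h m'.hs m'.ht m'.eq
        exact k, fun k => ⟨_, _, m, k⟩⟩⟩
  have tr : ∀ {w s p q t}, Mt G r w s p q t → ∀ {z z' P},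
      Rl (Wg G r w s p q t z - Wg G r w s p q t z') P → ((In w p q z ↔ In w p q z') ↔ ¬ P) := by
    intro w s p q t m z z' P k
    rw [hI m, hI m, ← (k.of (y := Wg G r w s p q t z - K w s p q t -
      (Wg G r w s p q t z' - K w s p q t)) (by ring) Iff.rfl).pr]
    exact (by tauto : ∀ a b c : Prop, ((a ↔ c) ↔ (b ↔ c)) ↔ (a ↔ b)) _ _ _
  have sm : ∀ {w s p q t}, Mt G r w s p q t → ∀ {c d a b}, a ≤ b →
      (∀ u ∈ Icc a b, ¬ On G r w s p q t (G c d u)) → (In w p q (G c d a) ↔ In w p q (G c d b)) := by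
    intro w s p q t m c d a b ab k
    refine (tr m (Rl.zero.of ?_ Iff.rfl)).mpr not_false
    rw [m.travel h, II_zero (h.cont _ _) (h.cont _ _) m.hs.1 ab fun x hx u hu e =>
        k u hu (Or.inl ⟨x, hx, e⟩),
      II_zero (h.cont _ _) (h.cont _ _) m.ht.2 ab fun x hx u hu e =>
        k u hu (Or.inr (Or.inl ⟨x, hx, e⟩)),
      II_zero (h.cont _ _) (h.cont _ _) zero_le_one ab fun x hx u hu e =>
        k u hu (Or.inr (Or.inr ⟨x, hx, e⟩))]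
    simp
  have ry : ∀ {w s p q t}, Mt G r w s p q t → ∀ {c u}, c ≠ r → c ≠ w → c ≠ q → 0 < u → u ≤ 1 →
      (∀ v ∈ Icc t 1, G r c u ≠ G p q v) →
      (In w p q (G r c u) ↔ ¬ (cz (fun v => (rk v : ℤ)) w c q ↔ XI G p q t 1 r c 0 u)) := by
    intro w s p q t m c u cr cw cq u0 u1 hu
    have e1 : In w p q (G r c (σ c)) ↔ cz (fun v => (rk v : ℤ)) w c q := by
      have := ((m.start h L cr cw cq).of (y := Wg G r w s p q t (G r c (σ c)) - K w s p q t - 0)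
        (by simp [hK]) Iff.rfl).pr
      have d1 := L.inj _ _ cr m.wr cw
      have d2 := L.inj _ _ cr m.qr cq
      have d3 := L.inj _ _ m.wr m.qr m.wq
      simp only [show pr 0 = 0 by simp [pr, Int.floor_eq_zero_iff]; norm_num, Int.not_odd_zero,
        iff_false, not_not] at this
      rw [hI m, ← not_not (a := Odd _), this]
      simp only [cz]
      omega
    rcases le_total (σ c) u with k | k
    · exact (by tauto : ∀ a b c x : Prop, ((a ↔ b) ↔ ¬ x) → (a ↔ c) → (b ↔ ¬ (c ↔ x))) _ _ _ _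
        (tr m (m.ray0 h L cr cw cq k u1 hu)) e1
    · have m1 : ∀ x ∈ Icc u (σ c), x ∈ Icc (0 : ℝ) 1 := fun x hx =>
        ⟨u0.le.trans hx.1, hx.2.trans (L.s1 c cr).le⟩
      rw [sm m k, e1]
      · have : ¬ XI G p q t 1 r c 0 u := fun ⟨v, hv, x, hx, e⟩ => by
          linarith [L.far c p q cr m.pr m.qr m.pq x ⟨hx.1.le, hx.2.le.trans u1⟩ v
            ⟨m.ht.1.trans hv.1.le, hv.2.le⟩ e.symm, hx.2]
        simp only [this, iff_false, not_not]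
      · rintro x hx (⟨y, hy, e⟩ | ⟨y, hy, e⟩ | ⟨y, hy, e⟩)
        · linarith [(h.adj m.wr cr cw.symm ⟨hy.1, hy.2.trans m.hs.2⟩ (m1 x hx) e).2, hx.1]
        · linarith [L.far c p q cr m.pr m.qr m.pq x (m1 x hx) y ⟨m.ht.1.trans hy.1, hy.2⟩ e.symm,
            hx.2]
        · linarith [(h.adj m.qr cr cq.symm hy (m1 x hx) e).2, hx.1]
  have pp : ∀ {w s p q t}, Cr G r w s p q t → ∀ {z}, Wg G r w s p q t z = Wg G r w s p q t (pos p) →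
      (In w p q z ↔ cz (fun v => (rk v : ℤ)) w p q) := by
    intro w s p q t c z e
    have n : ∀ v ∈ Icc t 1, ∀ x ∈ Icc (0 : ℝ) 1, G r p x ≠ G p q v := fun v hv x hx e => by
      linarith [(h.one c.qv c.qv c.pv c.qp hx ⟨c.ht.1.le.trans hv.1, hv.2⟩ (by simp) (by simp) e
        (h.tri c.qv c.pv c.qp).eq).2, hv.1, c.ht.1]
    rw [(tr c.mt (Rl.zero.of (sub_eq_zero.mpr e) Iff.rfl)).mpr not_false, ← h.g1 c.qv.symm,
      ry c.mt c.qv c.rq.symm c.qp one_pos le_rfl fun v hv => n v hv 1 (by simp)]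
    have : ¬ XI G p q t 1 r p 0 1 := fun ⟨v, hv, x, hx, e⟩ =>
      n v (Ioo_subset_Icc_self hv) x (Ioo_subset_Icc_self hx) e.symm
    simp only [this, iff_false, not_not]
  refine ⟨fun v => rk v, In, fun a b h1 h2 h3 => by simpa using L.inj a b h1 h2 h3,
    fun m _ _ _ _ _ _ ab _ k => sm m ab k, ?_, ry, fun c _ h1 h2 => pp c (c.rest h h1 h2),
    fun c _ h1 h2 => pp c (c.back h h1 h2)⟩
  intro w s p q t m c d a b cd cr dr n1 n2 a0 ab b1 oa ob hc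
  have m1 : ∀ u ∈ Icc a b, u ∈ Icc (0 : ℝ) 1 := fun u hu => ⟨a0.trans hu.1, hu.2.trans b1⟩
  have io : ∀ u ∈ Icc a b, On G r w s p q t (G c d u) → u ∈ Ioo a b := fun u hu k =>
    ⟨lt_of_le_of_ne hu.1 (by rintro rfl; exact oa k), lt_of_le_of_ne hu.2 (by rintro rfl; exact ob k)⟩
  have nv : ∀ u ∈ Ioo a b, ∀ v, G c d u ≠ pos v := fun u hu v =>
    h.avoid c d cd v u ⟨a0.trans_lt hu.1, hu.2.trans_le b1⟩
  have e1 := h.piece m.wr.symm cd le_rfl m.hs.1 m.hs.2 a0 ab b1 fun x hx u hu e => by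
    have k := io u hu (Or.inl ⟨x, hx, e⟩)
    refine ⟨⟨lt_of_le_of_ne hx.1 ?_, lt_of_le_of_ne hx.2 ?_⟩, k, fun l => cr l.1.symm,
      fun l => dr l.1.symm⟩
    · rintro rfl
      exact nv u k r (e.symm.trans (h.g0 _ _ m.wr.symm))
    · rintro rfl
      exact hc u k e.symm
  have e2 := h.piece m.pq cd m.ht.1 m.ht.2 le_rfl a0 ab b1 fun x hx u hu e => by
    have k := io u hu (Or.inr (Or.inl ⟨x, hx, e⟩))
    refine ⟨⟨lt_of_le_of_ne hx.1 ?_, lt_of_le_of_ne hx.2 ?_⟩, k, n1, n2⟩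
    · rintro rfl
      exact hc u k (e.symm.trans m.eq.symm)
    · rintro rfl
      exact nv u k q (e.symm.trans (h.g1 m.pq))
  have e3 := h.piece m.qr.symm cd le_rfl zero_le_one le_rfl a0 ab b1 fun x hx u hu e => by
    have k := io u hu (Or.inr (Or.inr ⟨x, hx, e⟩))
    refine ⟨⟨lt_of_le_of_ne hx.1 ?_, lt_of_le_of_ne hx.2 ?_⟩, k, fun l => cr l.1.symm,
      fun l => dr l.1.symm⟩
    · rintro rfl
      exact nv u k r (e.symm.trans (h.g0 _ _ m.qr.symm))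
    · rintro rfl
      exact nv u k q (e.symm.trans (h.g1 m.qr.symm))
  rw [tr m (((e1.add e2).add e3.neg).of (m.travel h _ _ _) Iff.rfl)]
  exact (by tauto : ∀ a b c : Prop, ¬ ¬ (¬ (a ↔ b) ↔ c) ↔ (a ↔ (b ↔ ¬ c))) _ _ _

/-- Order of the crossings along an edge. -/
lemma Api.ord (A : Api G r rk In) (h : Dr pos G) {w' : V} {s' t' : ℝ} (c : Mt G r w s p q t)
    (c' : Cr G r w' s' p q t') (ht : t < t') : w ≠ w' ∧ (cz rk w' w q ↔ cz rk w' p q) := by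
  have n : w ≠ w' := by
    rintro rfl
    exact ht.ne' (c.uq h c'.mt.hs c'.mt.ht c'.eq).2
  have n2 : ∀ v ∈ Icc t' 1, ∀ x ∈ Icc (0 : ℝ) 1, G r w x ≠ G p q v := fun v hv x hx e => by
    linarith [(c.uq h hx ⟨c'.ht.1.le.trans hv.1, hv.2⟩ e).2, hv.1]
  have e := A.ray c'.mt c.wr n c.wq (c.lt h).1 c.hs.2 fun v hv => n2 v hv s c.hs
  have : ¬ XI G p q t' 1 r w 0 s := fun ⟨v, hv, x, hx, e⟩ =>
    n2 v (Ioo_subset_Icc_self hv) x ⟨hx.1.le, hx.2.le.trans c.hs.2⟩ e.symm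
  simp only [this, iff_false, not_not, c.eq] at e
  exact ⟨n, e.symm.trans (A.back c' c.ht.1 ht)⟩

lemma XI.symm {i j k l : V} {a b c d : ℝ} (h : XI G i j a b k l c d) : XI G k l c d i j a b := by
  obtain ⟨u, hu, v, hv, e⟩ := h
  exact ⟨v, hv, u, hu, e.symm⟩

/-- A vertex on the closed curve. -/
lemma Mt.vtx (h : Dr pos G) (m : Mt G r w s p q t) {d : V} (k : On G r w s p q t (pos d)) :
    d = r ∨ d = w ∧ s = 1 ∨ d = q := by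
  obtain ⟨y, hy, e⟩ | ⟨y, hy, e⟩ | ⟨y, hy, e⟩ := k
  · rcases h.vert m.wr.symm ⟨hy.1, hy.2.trans m.hs.2⟩ e with k | k
    · exact Or.inl k.2.symm
    · exact Or.inr (Or.inl ⟨k.2.symm, le_antisymm m.hs.2 (k.1 ▸ hy.2)⟩)
  · rcases h.vert m.pq ⟨m.ht.1.trans hy.1, hy.2⟩ e with k | k
    · rcases m.cases h with l | l
      · linarith [l.ht.1, hy.1, k.1]
      · exact Or.inr (Or.inl ⟨k.2.symm.trans l.1.symm, l.2.1⟩)
    · exact Or.inr (Or.inr k.2.symm)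
  · rcases h.vert m.qr.symm hy e with k | k
    · exact Or.inl k.2.symm
    · exact Or.inr (Or.inr k.2.symm)

lemma Api.side0 (A : Api G r rk In) (h : Dr pos G) (m : Mt G r w s p q t) {c d w1 w2 : V}
    {s0 s1 s2 a b : ℝ} (o : w1 = w ∧ s1 = s ∧ w2 = q ∧ s2 = 1 ∨ w1 = q ∧ s1 = 1 ∧ w2 = w ∧ s2 = s)
    (k : Cr G r w1 s0 c d a) (hs : s0 < s1) (hb : b ∈ Icc (0 : ℝ) 1) (ba : b ≠ a)
    (ho : ∀ u ∈ uIcc a b, u ≠ a → ¬ On G r w s p q t (G c d u))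
    (fr : ∀ u ∈ Ioc a 1, ∀ x ∈ Icc (0 : ℝ) 1, G r w2 x ≠ G c d u) :
    In w p q (G c d b) ↔ ((cz rk c w1 d ↔ a < b) ↔ w1 = w) := by
  have s0' := (m.lt h).1
  have ka := k.mt.ht
  have ks := k.mt.hs
  have w2r : w2 ≠ r := by rcases o with o | o <;> simp [o, m.wr, m.qr]
  have w12 : w1 ≠ w2 := by rcases o with o | o <;> simp [o, m.wq, m.wq.symm]
  have s2m : 0 < s2 ∧ s2 ≤ 1 := by rcases o with o | o <;> simp [o, s0', m.hs.2]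
  have s1m : s1 ≤ 1 := by rcases o with o | o <;> simp [o, m.hs.2]
  have dw : d ≠ w2 := fun e => fr 1 ⟨k.ht.2, le_rfl⟩ 1 (by simp) (by rw [h.g1 k.qp, h.g1 w2r.symm, e])
  have fr' : ∀ u ∈ Icc a 1, ∀ x ∈ Icc (0 : ℝ) 1, G r w2 x ≠ G c d u := fun u hu x hx e => by
    rcases hu.1.eq_or_lt with rfl | l
    · exact k.hs.1.ne' (h.adj w2r k.rv w12.symm hx ks (e.trans k.eq.symm)).2
    · exact fr u ⟨l, hu.2⟩ x hx e
  have f1 : ∀ x ∈ Icc (0 : ℝ) 1, ∀ v ∈ Icc (0 : ℝ) 1, G r w1 x = G p q v → x = s1 := by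
    intro x hx v hv e
    rcases o with ⟨rfl, rfl, -⟩ | ⟨rfl, rfl, -⟩
    · exact (m.uq h hx hv e).1
    · exact (h.one m.qr m.pr m.qr m.pq hx hv (by simp) (by simp) e
        ((h.g1 m.qr.symm).trans (h.g1 m.pq).symm)).1
  have n1 : ¬ (p = c ∧ q = d) := by
    rintro ⟨rfl, rfl⟩
    exact hs.ne (f1 _ ks _ ka k.eq)
  have n2 : ¬ (p = d ∧ q = c) := by
    rintro ⟨rfl, rfl⟩
    exact hs.ne (f1 _ ks _ (k.rev h).mt.ht (k.rev h).eq)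
  have dq : d ≠ w ∧ d ≠ q := by
    rcases o with ⟨rfl, -, rfl, -⟩ | ⟨rfl, -, rfl, -⟩
    exacts [⟨k.rp.symm, dw⟩, ⟨dw, k.rp.symm⟩]
  have od : ¬ On G r w s p q t (G c d 1) := fun e => by
    rw [h.g1 k.qp] at e
    rcases m.vtx h e with l | l | l
    exacts [k.pv l, dq.1 l.1, dq.2 l]
  have tri : ∀ u ∈ Ioo b 1, On G r w s p q t (G c d u) → a ≤ u ∧ (a < u → max a b < u) :=
    fun u hu e => ⟨not_lt.mp fun l => ho u (mem_uIcc.mpr (Or.inr ⟨hu.1.le, l.le⟩)) l.ne e,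
      fun l => max_lt l hu.1⟩
  have e1 := A.ray m k.pv dq.1 dq.2 one_pos le_rfl fun v hv e =>
    od (Or.inr (Or.inl ⟨v, hv, by rw [← e, h.g1 k.qp, h.g1 k.pv.symm]⟩))
  have x1 : ∀ s', s0 < s' → s' ≤ 1 → (XI G r w1 0 s' c d b 1 ↔ b < a) := fun s' l1 l2 =>
    ⟨fun ⟨x, hx, u, hu, e⟩ => (k.uq h ⟨hx.1.le, hx.2.le.trans l2⟩ ⟨hb.1.trans hu.1.le, hu.2.le⟩ e).2 ▸
      hu.1, fun l => ⟨s0, ⟨k.hs.1, l1⟩, a, ⟨l, k.ht.2⟩, k.eq⟩⟩
  have on2 : ∀ x ∈ Icc 0 s2, On G r w s p q t (G r w2 x) := fun x hx => by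
    rcases o with ⟨-, -, rfl, rfl⟩ | ⟨-, -, rfl, rfl⟩
    exacts [Or.inr (Or.inr ⟨x, hx, rfl⟩), Or.inl ⟨x, hx, rfl⟩]
  have x2 : ∀ x ∈ Icc 0 s2, ∀ u ∈ Ioo b 1, G r w2 x ≠ G c d u := fun x hx u hu e =>
    fr' u ⟨(tri u hu (e ▸ on2 x hx)).1, hu.2.le⟩ x ⟨hx.1, hx.2.trans s2m.2⟩ e
  have x2' : ¬ XI G r w2 0 s2 c d b 1 := fun ⟨x, hx, u, hu, e⟩ => x2 x (Ioo_subset_Icc_self hx) u hu e
  have x3 : XI G p q t 1 c d b 1 ↔ XI G c d a 1 p q t 1 := by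
    refine ⟨fun ⟨v, hv, u, hu, e⟩ => ⟨u, ⟨lt_of_le_of_ne (tri u hu (Or.inr (Or.inl
      ⟨v, Ioo_subset_Icc_self hv, e⟩))).1 ?_, hu.2⟩, v, hv, e.symm⟩, fun ⟨u, hu, v, hv, e⟩ =>
      ⟨v, hv, u, ⟨not_le.mp fun l => ho u (mem_uIcc.mpr (Or.inl ⟨hu.1.le, l⟩)) hu.1.ne'
        (Or.inr (Or.inl ⟨v, Ioo_subset_Icc_self hv, e.symm⟩)), hu.2⟩, e.symm⟩⟩
    rintro rfl
    exact hs.ne (f1 _ ks _ ⟨m.ht.1.trans hv.1.le, hv.2.le⟩ (k.eq.trans e.symm))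
  have e2 := A.par m k.qp k.qv k.pv n1 n2 hb.1 hb.2 le_rfl (ho b right_mem_uIcc ba) od
    fun u hu e => by
      rcases o with ⟨rfl, rfl, -⟩ | ⟨-, -, rfl, rfl⟩
      · exact hs.ne' (k.uq h m.hs ⟨hb.1.trans hu.1.le, hu.2.le⟩ e.symm).1
      · exact x2 _ (right_mem_Icc.mpr s0'.le) u hu e.symm
  have e3 := A.rest k hs s1m
  have e4 := A.ray k.mt w2r w12.symm dw.symm s2m.1 s2m.2 fun v hv => fr' v hv s2 ⟨s2m.1.le, s2m.2⟩
  have x4 : ¬ XI G c d a 1 r w2 0 s2 := fun ⟨u, hu, x, hx, e⟩ =>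
    fr' u (Ioo_subset_Icc_self hu) x ⟨hx.1.le, hx.2.le.trans s2m.2⟩ e.symm
  have y1 : ¬ On G r w1 s0 c d a (G r w1 s1) := by
    have ms : s1 ∈ Icc (0 : ℝ) 1 := ⟨ks.1.trans hs.le, s1m⟩
    rintro (⟨y, hy, e⟩ | ⟨y, hy, e⟩ | ⟨y, hy, e⟩)
    · linarith [h.inj _ _ k.rv.symm ⟨hy.1, hy.2.trans ks.2⟩ ms e, hy.2]
    · exact hs.ne' (k.uq h ms ⟨ka.1.trans hy.1, hy.2⟩ e.symm).1
    · linarith [(h.adj k.pv k.rv k.rp.symm hy ms e).2, ks.1]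
  have y2 : ¬ On G r w1 s0 c d a (G r w2 s2) := by
    have ms : s2 ∈ Icc (0 : ℝ) 1 := ⟨s2m.1.le, s2m.2⟩
    rintro (⟨y, hy, e⟩ | ⟨y, hy, e⟩ | ⟨y, hy, e⟩)
    · exact s2m.1.ne' (h.adj k.rv w2r w12 ⟨hy.1, hy.2.trans ks.2⟩ ms e).2
    · exact fr' y hy _ ms e.symm
    · exact s2m.1.ne' (h.adj k.pv w2r dw hy ms e).2
  have eq : G p q 1 = G r q 1 := (h.g1 m.pq).trans (h.g1 m.qr.symm).symm
  have e5 := A.par k.mt m.pq m.pr m.qr (fun l => n1 ⟨l.1.symm, l.2.symm⟩)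
    (fun l => n2 ⟨l.2.symm, l.1.symm⟩) m.ht.1 m.ht.2 le_rfl
    (by rcases o with ⟨rfl, rfl, -⟩ | ⟨-, -, rfl, rfl⟩ <;> rwa [← m.eq])
    (by rcases o with ⟨-, -, rfl, rfl⟩ | ⟨rfl, rfl, -⟩ <;> rwa [eq])
    fun u hu e => hs.ne (f1 _ ks _ ⟨m.ht.1.trans hu.1.le, hu.2.le⟩ e.symm)
  have x5 : ¬ XI G r w1 0 s0 p q t 1 := fun ⟨x, hx, v, hv, e⟩ => by
    linarith [f1 x ⟨hx.1.le, hx.2.le.trans ks.2⟩ v ⟨m.ht.1.trans hv.1.le, hv.2.le⟩ e, hx.2]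
  have x6 : XI G r d 0 1 p q t 1 ↔ XI G p q t 1 r d 0 1 := ⟨XI.symm, XI.symm⟩
  have d1 := A.inj _ _ k.rv k.qv k.rq
  have d2 := A.inj _ _ k.rv k.pv k.rp
  have d3 := A.inj _ _ k.qv k.pv k.qp
  have d4 := A.inj _ _ k.rv w2r w12
  have d5 := A.inj _ _ k.pv w2r dw
  have l1 : b < a ↔ ¬ a < b := ⟨fun l => l.le.not_gt, fun l => lt_of_le_of_ne (not_lt.mp l) ba⟩
  have l2 : cz rk w1 c d ↔ ¬ cz rk c w1 d := by
    unfold cz
    omega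
  rw [h.g1 k.pv.symm] at e1
  rw [h.g1 k.qp, e1, x3] at e2
  rw [x6, ← m.eq, eq] at e5
  rcases o with ⟨rfl, rfl, rfl, rfl⟩ | ⟨rfl, rfl, rfl, rfl⟩
  · have l3 : cz rk w1 d w2 ↔ ¬ cz rk w1 w2 d := by
      unfold cz
      omega
    rw [x1 _ hs s1m, l1, l3] at e2
    rw [e3, e4, l2] at e5
    clear * - e2 e5 x2' x4 x5
    grind
  · have l3 : cz rk w2 d w1 ↔ cz rk w1 w2 d := by
      unfold cz
      omega
    rw [x1 _ hs s1m, l1, l3] at e2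
    rw [e3, e4, l2] at e5
    clear * - e2 e5 x2' x4 x5 w12
    grind

lemma Api.side (A : Api G r rk In) (h : Dr pos G) (m : Mt G r w s p q t) {c d w1 w2 : V}
    {s0 s1 s2 a b : ℝ} (o : w1 = w ∧ s1 = s ∧ w2 = q ∧ s2 = 1 ∨ w1 = q ∧ s1 = 1 ∧ w2 = w ∧ s2 = s)
    (k : Cr G r w1 s0 c d a) (hs : s0 < s1) (hb : b ∈ Icc (0 : ℝ) 1) (ba : b ≠ a)
    (ho : ∀ u ∈ uIcc a b, u ≠ a → ¬ On G r w s p q t (G c d u)) :
    In w p q (G c d b) ↔ ((cz rk c w1 d ↔ a < b) ↔ w1 = w) := by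
  by_cases fr : ∀ u ∈ Ioc a 1, ∀ x ∈ Icc (0 : ℝ) 1, G r w2 x ≠ G c d u
  · exact A.side0 h m o k hs hb ba ho fr
  push Not at fr
  obtain ⟨u, hu, x, hx, e⟩ := fr
  have w2r : w2 ≠ r := by rcases o with o | o <;> simp [o, m.wr, m.qr]
  have := A.side0 h m o (k.rev h) hs (b := 1 - b) ⟨by linarith [hb.2], by linarith [hb.1]⟩
    (fun l => ba (by linarith)) (fun v hv l => by
      rw [h.rev c d k.qp]
      refine ho _ ?_ fun l' => l (by linarith)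
      rcases mem_uIcc.mp hv with l | l
      · exact mem_uIcc.mpr (Or.inr ⟨by linarith [l.2], by linarith [l.1]⟩)
      · exact mem_uIcc.mpr (Or.inl ⟨by linarith [l.2], by linarith [l.1]⟩)) fun v hv y hy l => by
      rw [h.rev c d k.qp] at l
      linarith [(h.one w2r k.qv k.pv k.qp hy ⟨by linarith [hv.2], by linarith [hv.1, k.ht.2]⟩ hx
        ⟨k.ht.1.le.trans hu.1.le, hu.2⟩ l e).2, hv.1, hu.1]
  have d1 := A.inj _ _ k.rv k.qv k.rq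
  have d2 := A.inj _ _ k.rv k.pv k.rp
  have d3 := A.inj _ _ k.qv k.pv k.qp
  have l1 : 1 - a < 1 - b ↔ ¬ a < b :=
    ⟨fun l => by linarith, fun l => by linarith [lt_of_le_of_ne (not_lt.mp l) ba]⟩
  have l2 : cz rk d w1 c ↔ ¬ cz rk c w1 d := by
    unfold cz
    omega
  rwa [h.rev c d k.qp, sub_sub_cancel, l1, l2, not_iff_not] at this

/-- The side of an edge `c d` next to its crossing with the first ray. -/
lemma Api.sidew (A : Api G r rk In) (h : Dr pos G) (m : Mt G r w s p q t) {c d : V} {s0 a b : ℝ}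
    (k : Cr G r w s0 c d a) (hs : s0 < s) (hb : b ∈ Icc (0 : ℝ) 1) (ba : b ≠ a)
    (ho : ∀ u ∈ uIcc a b, u ≠ a → ¬ On G r w s p q t (G c d u)) :
    In w p q (G c d b) ↔ (cz rk c w d ↔ a < b) := by
  simpa using A.side h m (Or.inl ⟨rfl, rfl, rfl, rfl⟩) k hs hb ba ho

/-- The side of an edge `c d` next to its crossing with the second ray. -/
lemma Api.sideq (A : Api G r rk In) (h : Dr pos G) (m : Mt G r w s p q t) {c d : V} {s0 a b : ℝ}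
    (k : Cr G r q s0 c d a) (hb : b ∈ Icc (0 : ℝ) 1) (ba : b ≠ a)
    (ho : ∀ u ∈ uIcc a b, u ≠ a → ¬ On G r w s p q t (G c d u)) :
    In w p q (G c d b) ↔ (cz rk c q d ↔ b < a) := by
  rw [A.side h m (Or.inr ⟨rfl, rfl, rfl, rfl⟩) k k.hs.2 hb ba ho,
    show b < a ↔ ¬ a < b from ⟨fun l => l.le.not_gt, fun l => lt_of_le_of_ne (not_lt.mp l) ba⟩]
  have := m.wq.symm
  clear * - this
  grind

end Pool.Agent.Lib.MP_3764f3_co.LT
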