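import Pool.Agent.Lib.MP_3764f3_co.MChB

/-! A chain of wedges closes after one turn. -/

set_option autoImplicit false

namespace Pool.Agent.Lib.MP_3764f3_co.LT

open Set

variable {V : Type} {pos : V → ℂ} {G : V → V → ℝ → ℂ} {r : V} {W : Finset V} {H : V → V → Prop}
  {τ : V → ℝ} {rk : V → ℤ} {In : V → V → V → ℂ → Prop}

/-- A chain of wedges that starts at a free vertex. -/
structure Cn (G : V → V → ℝ → ℂ) (r : V) (rk : V → ℤ) (W : Finset V) (H : V → V → Prop) (τ : V → ℝ)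
    (y w p q : ℕ → V) (t : ℕ → ℝ) (M : ℕ) : Prop where
  f0 : τ (y 0) = 0
  wa : ∀ i < M, Wa G r rk W H τ (y i) (y (i + 1)) (w i) (p i) (q i) (t i)
  ty : ∀ i, 1 ≤ i → w i = y i
  mn : ∀ v ∈ W, ∀ x, Cr G r v (τ v) (p 0) (q 0) x → cz rk v (p 0) (q 0) → x ≤ t 0
  inj : ∀ i j, i < j → j < M → y i ≠ y j

variable {y w p q : ℕ → V} {t : ℕ → ℝ} {M : ℕ}

lemma Cn.one (C : Cn G r rk W H τ y w p q t M) {i : ℕ} (h1 : 1 ≤ i) (h2 : i < M) :
    q i = y (i + 1) ∧ cz rk (y i) (q i) (p i) ∧ Cr G r (y i) (τ (y i)) (p i) (q i) (t i) := by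
  have k := C.wa i h2
  have e := C.ty i h1
  rcases k.ty with e' | e'
  · exact ⟨e'.2.1, e ▸ e'.2.2, e ▸ k.cr⟩
  · exact absurd (e.symm.trans e'.1) k.ab.2.2

/-- A piece meets no earlier ray. -/
lemma Cn.j1 [Fintype V] (h : Dr pos G) (A : Api G r rk In) (l : Wl G r W H τ)
    (C : Cn G r rk W H τ y w p q t M) {n : ℕ} (h1 : 1 ≤ n) (h2 : n < M)
    (K : ∀ i < n, y n ≠ y (i + 1) → ¬ Ins rk In (w i) (p i) (q i) (pos (y n))) :
    ∀ j ≤ n, ¬ XI G (p n) (q n) (t n) 1 r (y j) 0 1 := by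
  obtain ⟨-, o, k⟩ := C.one h1 h2
  have hh := (C.wa n h2).hh
  have mem : ∀ j ≤ n, y j ∈ W := fun j hj => ((C.wa j (by omega)).mem l).1
  have cr : ∀ j ≤ n, ∀ u ∈ Ioo (t n) 1, ∀ s ∈ Ioo (0 : ℝ) 1, G (p n) (q n) u = G r (y j) s →
      Cr G r (y j) s (p n) (q n) u := fun j hj u hu s hs e =>
    h.cr (l.ne (mem j hj)) k.qv k.pv k.qp hs ⟨k.ht.1.trans hu.1, hu.2⟩ e.symm
  rintro j0 hj0 ⟨u0, hu0, s0, hs0, e0⟩
  obtain ⟨u, ⟨xu, j, hj, s, c⟩, m⟩ := exists_min_image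
    {u | t n < u ∧ ∃ j ≤ n, ∃ s, Cr G r (y j) s (p n) (q n) u} id
    ((h.fin r (p n) (q n)).subset fun u ⟨_, j, _, s, c⟩ => ⟨_, s, c⟩)
    ⟨u0, hu0.1, j0, hj0, s0, cr j0 hj0 u0 hu0 s0 hs0 e0⟩
  have ho : ∀ i ≤ n, ¬ XI G (p n) (q n) (t n) u r (y i) 0 1 := fun i hi ⟨u', hu', s', hs', e⟩ =>
    (m u' ⟨hu'.1, i, hi, s', cr i hi u' ⟨hu'.1, hu'.2.trans c.ht.2⟩ s' hs' e⟩).not_gt hu'.2
  have j1 : j ≠ 0 := by
    rintro rfl
    exact l.aft _ (mem 0 hj) _ _ hh ⟨s, C.f0 ▸ c.hs, u, c.ht, c.eq⟩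
  have jn : j ≠ n := by
    rintro rfl
    exact xu.ne' (k.uq h (Ioo_subset_Icc_self c.hs) (Ioo_subset_Icc_self c.ht) c.eq).2
  have fin : ∀ i < n, (y j = y (i + 1) ∧ cz rk (p n) (y j) (q n) ∨
      y j = y i ∧ w i = y i ∧ ¬ cz rk (p n) (y j) (q n)) → False := fun i hi hz =>
    (C.wa i (by omega)).hit h A l hh (mem n le_rfl) k o (C.inj i n hi h2).symm (K i hi) c xu
      (by rintro z (rfl | rfl); exacts [ho i hi.le, ho (i + 1) hi]) hz fun e => by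
        obtain rfl : i = 0 := by
          by_contra n0
          exact (C.wa i (by omega)).ab.2.2 ((C.ty i (by omega)).symm.trans e)
        exact C.mn
  by_cases β : cz rk (p n) (y j) (q n)
  · exact fin (j - 1) (by omega) (Or.inl ⟨by rw [Nat.sub_add_cancel (by omega)], β⟩)
  · exact fin j (by omega) (Or.inr ⟨rfl, C.ty j (by omega), β⟩)

/-- A vertex of the chain lies in no earlier wedge. -/
lemma Cn.k [Fintype V] (h : Dr pos G) (A : Api G r rk In) (l : Wl G r W H τ)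
    (C : Cn G r rk W H τ y w p q t M) (n : ℕ) (h2 : n ≤ M) :
    ∀ i < n, y n ≠ y i → y n ≠ y (i + 1) → ¬ Ins rk In (w i) (p i) (q i) (pos (y n)) := by
  induction n with
  | zero => intro i hi; omega
  | succ n ih =>
    intro i hi n1 n2
    have hi' : i < n := by
      by_contra e
      exact n2 (by rw [show i = n by omega])
    have K := fun i hi => ih (by omega) i hi (C.inj i n hi h2).symm
    obtain ⟨e, o, k⟩ := C.one (show 1 ≤ n by omega) h2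
    have J := C.j1 h A l (by omega) h2 K
    rw [← e] at n1 n2 ⊢
    exact (C.wa i (by omega)).nxt h A l (C.wa n h2).hh ((C.wa n h2).mem l).1 k o
      (C.inj i n hi' h2).symm (K i hi') n1 n2
      (by rintro z (rfl | rfl); exacts [J i hi'.le, J (i + 1) hi'])

lemma Cn.sys [Fintype V] (h : Dr pos G) (A : Api G r rk In) (l : Wl G r W H τ)
    (C : Cn G r rk W H τ y w p q t M) {j : ℕ} (jM : j < M)
    (E : j = 0 ∧ τ (y M) = 0 ∨ 1 ≤ j ∧ y j = y M) :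
    Sys G r rk W H τ {u | ∃ n, j ≤ n ∧ n ≤ M ∧ y n = u}
      fun w' p' q' t' => ∃ i, j ≤ i ∧ i < M ∧ w' = w i ∧ p' = p i ∧ q' = q i ∧ t' = t i := by
  have K := C.k h A l
  have J : ∀ n, 1 ≤ n → n < M → ∀ j ≤ n, ¬ XI G (p n) (q n) (t n) 1 r (y j) 0 1 := fun n h1 h2 =>
    C.j1 h A l h1 h2 fun i hi => K n h2.le i hi (C.inj i n hi h2).symm
  have mem : ∀ n ≤ M, y n ∈ W := fun n hn => by
    rcases hn.eq_or_lt with rfl | e
    · have := ((C.wa (n - 1) (by omega)).mem l).2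
      rwa [Nat.sub_add_cancel (by omega)] at this
    · exact ((C.wa n e).mem l).1
  have nr : ∀ n ≤ M, y n ≠ r := fun n hn => l.ne (mem n hn)
  have dis : ∀ n ≤ M, ∀ m ≤ M, y n ≠ y m → rk (y n) ≠ rk (y m) := fun n hn m hm =>
    A.inj _ _ (nr n hn) (nr m hm)
  have nc : ∀ n, j < n → n < M → y n ≠ y M := fun n h1 h2 e => by
    rcases E with ⟨-, e'⟩ | ⟨-, e'⟩
    · exact (C.one (show 1 ≤ n by omega) h2).2.2.hs.1.ne' (e ▸ e')
    · exact C.inj j n h1 h2 (e'.trans e.symm)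
  have an : ∀ i, j ≤ i → i < M → y M ≠ y i → y M ≠ y (i + 1) → ¬ cz rk (y i) (y M) (y (i + 1)) :=
    fun i h1 h2 n1 n2 e => by
      apply K M le_rfl i h2 n1 n2
      have k := C.wa i h2
      rw [k.vtx h A (nr M le_rfl) n1 n2]
      simp only [e, true_iff]
      rcases E with ⟨-, e'⟩ | ⟨e', e''⟩
      · rintro ⟨u, hu, s, hs, e⟩
        exact l.aft _ (mem M le_rfl) _ _ k.hh
          ⟨s, e' ▸ hs, u, ⟨k.cr.ht.1.trans hu.1, hu.2⟩, e.symm⟩
      · exact e'' ▸ J i (by omega) h2 j h1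
  have mo : ∀ i, j ≤ i → y i ≠ y M → ∀ n, i + 1 ≤ n → n < M → cz rk (y M) (y i) (y n) := by
    intro i h1 n1 n hn
    have st : ∀ i, j ≤ i → i + 1 < M → y i ≠ y M → cz rk (y M) (y i) (y (i + 1)) := by
      intro i h1 h2 n1
      have n2 := nc (i + 1) (by omega) h2
      have := an i h1 (by omega) n1.symm n2.symm
      have := dis i (by omega) M le_rfl n1
      have := dis (i + 1) (by omega) M le_rfl n2
      have := dis i (by omega) (i + 1) (by omega) (C.inj i (i + 1) (by omega) h2)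
      unfold cz at *
      omega
    induction n, hn using Nat.le_induction with
    | base => exact fun h2 => st i h1 h2 n1
    | succ n hn ih =>
      intro h2
      have := ih (by omega)
      have := st n (by omega) h2 (nc n (by omega) (by omega))
      unfold cz at *
      omega
  have ang : ∀ i, j ≤ i → i < M → ∀ n, j ≤ n → n ≤ M → y n ≠ y i → y n ≠ y (i + 1) →
      ¬ cz rk (y i) (y n) (y (i + 1)) := by
    intro i h1 h2 n h3 h4 n1 n2
    by_cases e : y n = y M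
    · rw [e] at n1 n2 ⊢
      exact an i h1 h2 n1 n2
    have h5 : n < M := lt_of_le_of_ne h4 fun e' => e (e' ▸ rfl)
    have ni : n ≠ i := fun e' => n1 (e' ▸ rfl)
    have ni' : n ≠ i + 1 := fun e' => n2 (e' ▸ rfl)
    have ab := (C.wa i h2).ab.2.2
    by_cases e2 : i + 1 = M
    · have := mo n h3 e i (by omega) h2
      rw [e2]
      unfold cz at *
      omega
    have e3 := nc (i + 1) (by omega) (by omega)
    rcases lt_or_gt_of_ne ni with e4 | e4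
    · have := mo n h3 e i e4 h2
      have := mo i h1 (nc i (by omega) h2) (i + 1) le_rfl (by omega)
      unfold cz at *
      omega
    have := mo (i + 1) (by omega) e3 n (by omega) h5
    by_cases e5 : y i = y M
    · rw [e5]
      unfold cz at *
      omega
    · have := mo i h1 e5 (i + 1) le_rfl (by omega)
      unfold cz at *
      omega
  refine ⟨?_, ?_, ?_, ?_⟩
  · rintro u ⟨n, -, hn, rfl⟩
    exact mem n hn
  · rintro _ _ _ _ ⟨i, h1, h2, rfl, rfl, rfl, rfl⟩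
    have k := C.wa i h2
    refine ⟨k.cr, k.hh, ?_⟩
    rcases k.ty with ⟨e1, e2, -⟩ | ⟨e1, e2, -⟩
    · exact ⟨⟨i, h1, h2.le, e1.symm⟩, i + 1, by omega, h2, e2.symm⟩
    · exact ⟨⟨i + 1, by omega, h2, e1.symm⟩, i, h1, h2.le, e2.symm⟩
  · rintro u ⟨n, h1, h2, rfl⟩ f β
    obtain ⟨i, h3, h4, e⟩ : ∃ i, j ≤ i ∧ i < M ∧ (y n = y i ∧ β ∨ y n = y (i + 1) ∧ ¬ β) := by
      by_cases hβ : β
      · rcases h2.eq_or_lt with rfl | e
        · exact ⟨j, le_rfl, jM, Or.inl ⟨(E.resolve_left fun e => f e.2).2.symm, hβ⟩⟩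
        · exact ⟨n, h1, e, Or.inl ⟨rfl, hβ⟩⟩
      · rcases h1.eq_or_lt with rfl | e
        · have := (E.resolve_left fun e => f (by rw [e.1, C.f0])).2
          exact ⟨M - 1, by omega, by omega, Or.inr ⟨by rwa [Nat.sub_add_cancel (by omega)], hβ⟩⟩
        · exact ⟨n - 1, by omega, by omega, Or.inr ⟨by rw [Nat.sub_add_cancel (by omega)], hβ⟩⟩
    exact ⟨_, _, _, _, ⟨i, h3, h4, rfl, rfl, rfl, rfl⟩, (C.wa i h4).two A e⟩
  · rintro _ _ _ _ ⟨i, h1, h2, rfl, rfl, rfl, rfl⟩ u ⟨n, h3, h4, rfl⟩ n1 n2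
    have k := C.wa i h2
    have ty := k.ty
    have n3 : y n ≠ y i ∧ y n ≠ y (i + 1) := by grind
    have e := ang i h1 h2 n h3 h4 n3.1 n3.2
    refine ⟨?_, (k.ang A (nr n h4) n3.1 n3.2).mpr e⟩
    by_cases e' : i < n
    · have := K n h4 i e' n3.1 n3.2
      rw [k.vtx h A (nr n h4) n3.1 n3.2] at this
      tauto
    · have ni : n ≠ i := fun e' => n3.1 (e' ▸ rfl)
      exact J i (by omega) h2 n (by omega)

lemma Wl.sys0 [Fintype V] (h : Dr pos G) (A : Api G r rk In) (l : Wl G r W H τ) (red : V → Prop)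
    (hc : ∀ a ∈ W, ∀ b ∈ W, red a → ¬ red b → rk a < rk b) (hH : ∀ p q, H p q → (red p ↔ ¬ red q))
    {b z : V} (f : τ z = 0) (k : H b z) (ne : ∃ x, ∃ v ∈ W, Cr G r v (τ v) b z x ∧ cz rk v b z) :
    ∃ Z P, Sys G r rk W H τ Z P ∧ (∃ w p q t, P w p q t) ∧ (∃ a ∈ Z, red a) ∧ ∃ a ∈ Z, ¬ red a := by
  classical
  obtain ⟨t0, ⟨v0, vW, c0, o0⟩, m⟩ := exists_max_image
    {x | ∃ v ∈ W, Cr G r v (τ v) b z x ∧ cz rk v b z} id
    ((h.fin r b z).subset fun u ⟨v, _, c, _⟩ => ⟨v, _, c⟩) ne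
  have : ∀ v, ∃ p q t, (v ∈ W → τ v ≠ 0 → Cr G r v (τ v) p q t ∧ H p q ∧ cz rk v q p) ∧
      (v = v0 → q = b) := fun v => by
    by_cases e : v = v0
    · subst e
      exact ⟨z, b, _, fun _ _ => ⟨c0.rev h, l.sy _ _ k, o0⟩, fun _ => rfl⟩
    by_cases e' : v ∈ W ∧ τ v ≠ 0
    · obtain ⟨p, q, t, k, c⟩ := (l.hang v e'.1).resolve_left e'.2
      by_cases o : cz rk v q p
      · exact ⟨p, q, t, fun _ _ => ⟨c, k, o⟩, fun e' => absurd e' e⟩
      · refine ⟨q, p, _, fun _ _ => ⟨c.rev h, l.sy _ _ k, ?_⟩, fun e' => absurd e' e⟩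
        have := c.dis A
        unfold cz at *
        omega
    · exact ⟨v, v, 0, fun a b => absurd ⟨a, b⟩ e', fun e' => absurd e' e⟩
  choose pv nx tt h1 h2 using this
  obtain ⟨y, y0, y1, ys⟩ : ∃ y : ℕ → V, y 0 = z ∧ y 1 = v0 ∧ ∀ n, 1 ≤ n → y (n + 1) = nx (y n) :=
    ⟨fun n => Nat.casesOn n z fun n => nx^[n] v0, rfl, rfl, fun n hn => by
      obtain ⟨n, rfl⟩ : ∃ m, n = m + 1 := ⟨n - 1, by omega⟩
      exact Function.iterate_succ_apply' _ _ _⟩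
  have y2 : y 2 = b := by rw [ys 1 le_rfl, y1, h2 v0 rfl]
  have ex : ∃ M, 2 ≤ M ∧ (τ (y M) = 0 ∨ ∃ j, 1 ≤ j ∧ j < M ∧ y j = y M) := by
    obtain ⟨i, j, n, e⟩ := Finite.exists_ne_map_eq_of_infinite fun n => y (n + 1)
    rcases lt_or_gt_of_ne n with n | n
    · exact ⟨j + 1, by omega, Or.inr ⟨i + 1, by omega, by omega, e⟩⟩
    · exact ⟨i + 1, by omega, Or.inr ⟨j + 1, by omega, by omega, e.symm⟩⟩
  obtain ⟨m2, E⟩ := Nat.find_spec ex
  have mn := fun n => Nat.find_min ex (m := n)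
  generalize Nat.find ex = M at m2 E mn
  have nf : ∀ n, 1 ≤ n → n < M → τ (y n) ≠ 0 := fun n h3 h4 e => by
    rcases h3.eq_or_lt with rfl | e'
    · exact c0.hs.1.ne' (y1 ▸ e)
    · exact mn n h4 ⟨e', Or.inl e⟩
  have mem : ∀ n, 1 ≤ n → n < M → y n ∈ W := fun n h3 => by
    induction n, h3 using Nat.le_induction with
    | base => exact fun _ => y1 ▸ vW
    | succ n hn ih =>
      intro h4
      rw [ys n hn]
      exact (l.mem _ _ (h1 _ (ih (by omega)) (nf n hn (by omega))).2.1).2.1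
  have C : Cn G r rk W H τ y (fun i => if i = 0 then v0 else y i)
      (fun i => if i = 0 then b else pv (y i)) (fun i => if i = 0 then z else nx (y i))
      (fun i => if i = 0 then t0 else tt (y i)) M := by
    refine ⟨y0 ▸ f, fun i hi => ?_, fun i hi => if_neg (by omega), fun v hv x c o => m x ⟨v, hv, c, o⟩,
      fun i j h3 h4 e => ?_⟩
    · by_cases e : i = 0
      · subst e
        exact ⟨c0, k, vW, Or.inr ⟨y1.symm, y0.symm, o0⟩⟩
      · simp only [if_neg e]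
        have hi' : 1 ≤ i := by omega
        have := h1 _ (mem i hi' hi) (nf i hi' hi)
        exact ⟨this.1, this.2.1, mem i hi' hi, Or.inl ⟨rfl, (ys i hi').symm, this.2.2⟩⟩
    · by_cases e' : i = 0
      · subst e'
        exact nf j h3 h4 (by rw [← e, y0, f])
      · exact mn j h4 ⟨by omega, Or.inr ⟨i, by omega, h3, e⟩⟩
  rcases E with E | ⟨j, h3, h4, E⟩
  · refine ⟨_, _, C.sys h A l (j := 0) (by omega) (Or.inl ⟨rfl, E⟩),
      ⟨_, _, _, _, 0, le_rfl, by omega, rfl, rfl, rfl, rfl⟩, ?_⟩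
    have e := hH b z k
    have z1 : z ∈ {u | ∃ n, 0 ≤ n ∧ n ≤ M ∧ y n = u} := ⟨0, le_rfl, by omega, y0⟩
    have z2 : b ∈ {u | ∃ n, 0 ≤ n ∧ n ≤ M ∧ y n = u} := ⟨2, by omega, m2, y2⟩
    by_cases e' : red z
    · exact ⟨⟨z, z1, e'⟩, b, z2, by tauto⟩
    · exact ⟨⟨b, z2, by tauto⟩, z, z1, e'⟩
  refine ⟨_, _, C.sys h A l h4 (Or.inr ⟨h3, E⟩),
    ⟨_, _, _, _, j, le_rfl, h4, rfl, rfl, rfl, rfl⟩, ?_⟩
  by_contra n
  have mono : ∀ i, j ≤ i → i ≤ M → (red (y i) ↔ red (y j)) := fun i h5 h6 => by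
    by_contra n'
    apply n
    by_cases e : red (y i)
    · exact ⟨⟨_, ⟨i, h5, h6, rfl⟩, e⟩, _, ⟨j, le_rfl, h4.le, rfl⟩, by tauto⟩
    · exact ⟨⟨_, ⟨j, le_rfl, h4.le, rfl⟩, by tauto⟩, _, ⟨i, h5, h6, rfl⟩, e⟩
  have st : ∀ i, j ≤ i → i < M → rk (y i) < rk (y (i + 1)) := fun i h5 h6 => by
    have hi : 1 ≤ i := by omega
    obtain ⟨-, k', o⟩ := h1 _ (mem i hi h6) (nf i hi h6)
    rw [← ys i hi] at k' o
    have e1 := mono i h5 h6.le
    have e2 := mono (i + 1) (by omega) h6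
    have e3 := hH _ _ k'
    have w := l.mem _ _ k'
    unfold cz at o
    by_cases e : red (y j)
    · have := hc _ (mem i hi h6) _ w.1 (by tauto) (by tauto)
      have := hc _ w.2.1 _ w.1 (by tauto) (by tauto)
      omega
    · have := hc _ w.1 _ (mem i hi h6) (by tauto) (by tauto)
      have := hc _ w.1 _ w.2.1 (by tauto) (by tauto)
      omega
  have : ∀ i, j + 1 ≤ i → i ≤ M → rk (y j) < rk (y i) := fun i h5 => by
    induction i, h5 using Nat.le_induction with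
    | base => exact st j le_rfl
    | succ i hi ih => exact fun h6 => (ih (by omega)).trans (st i (by omega) h6)
  exact (this M h4 le_rfl).ne (by rw [E])

theorem Wl.sys [Fintype V] (h : Dr pos G) (A : Api G r rk In) (l : Wl G r W H τ) (red : V → Prop)
    (hc : ∀ a ∈ W, ∀ b ∈ W, red a → ¬ red b → rk a < rk b) (hH : ∀ p q, H p q → (red p ↔ ¬ red q))
    (hu : ∀ p q, H p q → ∃ v ∈ W, ∃ t, Cr G r v (τ v) p q t) (ne : ∃ p q, H p q) :
    ∃ Z P, Sys G r rk W H τ Z P ∧ (∃ w p q t, P w p q t) ∧ (∃ a ∈ Z, red a) ∧ ∃ a ∈ Z, ¬ red a := by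
  obtain ⟨z, b, k, f⟩ : ∃ z b, H z b ∧ τ z = 0 := by
    by_contra n
    obtain ⟨p, q, k⟩ := ne
    refine h.free r H l.sy (fun a b k => ⟨(l.mem a b k).2.2, l.ne (l.mem a b k).1⟩) l.pl
      (fun a b k => ?_) p q k
    obtain ⟨c, d, t, k', j⟩ := (l.hang a (l.mem a b k).1).resolve_left fun e => n ⟨a, b, k, e⟩
    exact ⟨c, d, k', _, j.hs, _, j.ht, j.eq⟩
  have k' := l.sy _ _ k
  obtain ⟨v, vW, t, c⟩ := hu b z k'
  by_cases o : cz rk v b z
  · exact l.sys0 h A red hc hH f k' ⟨t, v, vW, c, o⟩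
  have d := c.dis A
  obtain ⟨Z, P, S, e1, e2, a, ha, e3⟩ := l.sys0 h A.refl (fun v => ¬ red v)
    (fun a ha b hb h1 h2 => neg_lt_neg (hc b hb a ha (not_not.mp h2) h1))
    (fun p q k => not_iff_not.mpr (hH p q k)) f k' ⟨t, v, vW, c, (cz_neg d.1 d.2.1 d.2.2).mpr o⟩
  exact ⟨Z, P, S.refl A l, e1, ⟨a, ha, not_not.mp e3⟩, e2⟩

end Pool.Agent.Lib.MP_3764f3_co.LT
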