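import Pool.Agent.Lib.MP_3764f3_co.MWl

/-! Wedges with a positive angle between two rays. -/

set_option autoImplicit false

namespace Pool.Agent.Lib.MP_3764f3_co.LT

open Set

variable {V : Type} {pos : V → ℂ} {G : V → V → ℝ → ℂ} {r : V} {W : Finset V} {H : V → V → Prop}
  {τ : V → ℝ} {rk : V → ℤ} {In : V → V → V → ℂ → Prop}

/-- A wedge whose angle goes from `a` to `b`. -/
structure Wa (G : V → V → ℝ → ℂ) (r : V) (rk : V → ℤ) (W : Finset V) (H : V → V → Prop) (τ : V → ℝ)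
    (a b w p q : V) (t : ℝ) : Prop where
  cr : Cr G r w (τ w) p q t
  hh : H p q
  wW : w ∈ W
  ty : w = a ∧ q = b ∧ cz rk w q p ∨ w = b ∧ q = a ∧ cz rk w p q

variable {a b w p q c d v : V} {t : ℝ}

lemma Dr.rays (h : Dr pos G) (ar : a ≠ r) (br : b ≠ r) {s s' : ℝ} (hs : s ∈ Ioc (0 : ℝ) 1)
    (hs' : s' ∈ Icc (0 : ℝ) 1) (e : G r a s = G r b s') : a = b := by
  by_contra n
  exact hs.1.ne' (h.adj ar br n ⟨hs.1.le, hs.2⟩ hs' e).1

lemma Wl.on (h : Dr pos G) (l : Wl G r W H τ) {s : ℝ} (k : Cr G r w s p q t) (k1 : H p q) (k2 : H c d)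
    (n1 : ¬ (p = c ∧ q = d)) (n2 : ¬ (p = d ∧ q = c)) {u : ℝ} (hu : u ∈ Ioo (0 : ℝ) 1)
    (o : On G r w s p q t (G c d u)) :
    (∃ x ∈ Ioo (0 : ℝ) 1, G r w x = G c d u) ∨ ∃ x ∈ Ioo (0 : ℝ) 1, G r q x = G c d u := by
  have cd := (l.mem c d k2).2.2
  have i : ∀ {y z : V} {x : ℝ}, y ≠ z → x ∈ Icc (0 : ℝ) 1 → G y z x = G c d u → x ∈ Ioo (0 : ℝ) 1 :=
    fun yz hx e => by
      rcases h.cases yz cd hx (Ioo_subset_Icc_self hu) e with j | j | j | j | j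
      · exact j.1
      all_goals linarith [j.2.1, hu.1, hu.2]
  rcases o with ⟨x, hx, e⟩ | ⟨x, hx, e⟩ | ⟨x, hx, e⟩
  · exact Or.inl ⟨x, i k.rv.symm ⟨hx.1, hx.2.trans k.hs.2.le⟩ e, e⟩
  · exact absurd ⟨x, i k.qp ⟨k.ht.1.le.trans hx.1, hx.2⟩ e, u, hu, e⟩ (l.pl p q c d k1 k2 n1 n2)
  · exact Or.inr ⟨x, i k.pv.symm hx e, e⟩

lemma Wl.lt (l : Wl G r W H τ) (wW : w ∈ W) (k : Cr G r w (τ w) p q t) (k1 : H p q) (k2 : H c d)
    (n1 : ¬ (p = c ∧ q = d)) (n2 : ¬ (p = d ∧ q = c)) {s u : ℝ} (x : Cr G r w s c d u) : s < τ w := by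
  rcases lt_trichotomy s (τ w) with j | j | j
  · exact j
  · exact absurd ⟨t, k.ht, u, x.ht, by rw [← k.eq, ← x.eq, j]⟩ (l.pl p q c d k1 k2 n1 n2)
  · exact absurd ⟨s, ⟨j, x.hs.2⟩, u, x.ht, x.eq⟩ (l.aft w wW c d k2)

lemma Cr.dis (A : Api G r rk In) {s : ℝ} (k : Cr G r w s p q t) :
    rk w ≠ rk p ∧ rk w ≠ rk q ∧ rk p ≠ rk q :=
  ⟨A.inj _ _ k.rv k.qv k.rq, A.inj _ _ k.rv k.pv k.rp, A.inj _ _ k.qv k.pv k.qp⟩

lemma Wa.ab (k : Wa G r rk W H τ a b w p q t) : a ≠ r ∧ b ≠ r ∧ a ≠ b := by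
  rcases k.ty with ⟨rfl, rfl, -⟩ | ⟨rfl, rfl, -⟩
  exacts [⟨k.cr.rv, k.cr.pv, k.cr.rp⟩, ⟨k.cr.pv, k.cr.rv, k.cr.rp.symm⟩]

/-- An edge of `H` next to its crossing with one of the two rays. -/
lemma Wa.side (h : Dr pos G) (A : Api G r rk In) (l : Wl G r W H τ) (k : Wa G r rk W H τ a b w p q t)
    (k2 : H c d) (n1 : ¬ (p = c ∧ q = d)) (n2 : ¬ (p = d ∧ q = c)) {s x y : ℝ} (hv : v = a ∨ v = b)
    (j : Cr G r v s c d x) (hy : y ∈ Ioo (0 : ℝ) 1) (yx : y ≠ x)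
    (ho : ∀ u ∈ uIcc x y, u ≠ x → ∀ z, z = a ∨ z = b → ∀ s' ∈ Ioo (0 : ℝ) 1, G r z s' ≠ G c d u) :
    Ins rk In w p q (G c d y) ↔ ((cz rk c v d ↔ x < y) ↔ v = a) := by
  have o : ∀ u ∈ uIcc x y, u ≠ x → ¬ On G r w (τ w) p q t (G c d u) := fun u hu ux o => by
    have hu' : u ∈ Ioo (0 : ℝ) 1 := by
      rcases mem_uIcc.mp hu with e | e
      · exact ⟨by linarith [e.1, j.ht.1], by linarith [e.2, hy.2]⟩
      · exact ⟨by linarith [e.1, hy.1], by linarith [e.2, j.ht.2]⟩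
    have := k.ty
    rcases l.on h k.cr k.hh k2 n1 n2 hu' o with ⟨s', hs, e⟩ | ⟨s', hs, e⟩
    · exact ho u hu ux w (by tauto) s' hs e
    · exact ho u hu ux q (by tauto) s' hs e
  have d1 := k.cr.dis A
  have ab := k.ab.2.2
  have e3 : y < x ↔ ¬ x < y := ⟨fun e => not_lt.mpr e.le, fun e => lt_of_le_of_ne (not_lt.mp e) yx⟩
  have e4 : cz rk w q p ↔ ¬ cz rk w p q := by
    unfold cz
    omega
  unfold Ins
  by_cases e : v = w
  · subst e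
    rw [A.sidew h k.cr.mt j (l.lt k.wW k.cr k.hh k2 n1 n2 j) (Ioo_subset_Icc_self hy) yx o]
    rcases k.ty with ⟨e1, e2, e5⟩ | ⟨e1, e2, e5⟩
    · rw [e4] at e5
      simp only [e5, iff_false, not_not, e1.symm, iff_true]
    · have : ¬ v = a := fun e => ab (e.symm.trans e1)
      simp only [e5, iff_true, this, iff_false]
  · have e' : v = q := by
      have := k.ty
      grind
    subst e'
    rw [A.sideq h k.cr.mt j (Ioo_subset_Icc_self hy) yx o, e3]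
    rcases k.ty with ⟨e1, e2, e5⟩ | ⟨e1, e2, e5⟩
    · rw [e4] at e5
      have : ¬ v = a := fun e => ab (e.symm.trans e2)
      simp only [e5, iff_false, not_not, this]
      grind
    · simp only [e5, iff_true, e2.symm]
      grind

/-- A vertex and the point where it hangs lie on the same side. -/
lemma Wa.hang (h : Dr pos G) (A : Api G r rk In) (l : Wl G r W H τ) (k : Wa G r rk W H τ a b w p q t)
    (k2 : H c d) (n1 : ¬ (p = c ∧ q = d)) (n2 : ¬ (p = d ∧ q = c)) {x : ℝ} (vW : v ∈ W) (va : v ≠ a)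
    (vb : v ≠ b) (j : Cr G r v (τ v) c d x) :
    Ins rk In w p q (G c d x) ↔ Ins rk In w p q (pos v) := by
  have vw : v ≠ w ∧ v ≠ q := by
    have := k.ty
    grind
  unfold Ins
  rw [← j.eq, ← h.g1 j.rv.symm, A.same k.cr.mt j.rv.symm j.hs.1.le j.hs.2.le le_rfl]
  intro u hu
  have hu' : u ∈ Ioc (0 : ℝ) 1 := ⟨j.hs.1.trans_le hu.1, hu.2⟩
  rintro (⟨y, hy, e⟩ | ⟨y, hy, e⟩ | ⟨y, hy, e⟩)
  · exact vw.1 (h.rays j.rv k.cr.rv hu' ⟨hy.1, hy.2.trans k.cr.hs.2.le⟩ e.symm)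
  · rcases h.cases k.cr.qp j.rv.symm ⟨k.cr.ht.1.le.trans hy.1, hy.2⟩ ⟨hu'.1.le, hu'.2⟩ e with
      i | i | i | i | i
    · rcases hu.1.eq_or_lt with e' | e'
      · exact l.pl p q c d k.hh k2 n1 n2 ⟨y, i.1, x, j.ht, by rw [e, ← e', j.eq]⟩
      · exact l.aft v vW p q k.hh ⟨u, ⟨e', i.2.2⟩, y, i.1, e.symm⟩
    · linarith [i.2.1, hu'.1]
    · linarith [i.2.1, hu'.1]
    · linarith [i.1, hy.1, k.cr.ht.1]
    · exact vw.2 i.2.2.symm
  · exact vw.2 (h.rays j.rv k.cr.pv hu' hy e.symm)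

lemma Wa.ang (A : Api G r rk In) (k : Wa G r rk W H τ a b w p q t) (vr : v ≠ r) (va : v ≠ a)
    (vb : v ≠ b) : (cz rk w v q ↔ cz rk w p q) ↔ ¬ cz rk a v b := by
  have d1 := k.cr.dis A
  have d2 := A.inj _ _ vr k.ab.1 va
  have d3 := A.inj _ _ vr k.ab.2.1 vb
  rcases k.ty with ⟨rfl, rfl, e⟩ | ⟨rfl, rfl, e⟩
  all_goals
    unfold cz at *
    omega

/-- The side of a vertex. -/
lemma Wa.vtx (h : Dr pos G) (A : Api G r rk In) (k : Wa G r rk W H τ a b w p q t) (vr : v ≠ r)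
    (va : v ≠ a) (vb : v ≠ b) :
    Ins rk In w p q (pos v) ↔ ¬ (cz rk a v b ↔ XI G p q t 1 r v 0 1) := by
  have vw : v ≠ w ∧ v ≠ q := by
    have := k.ty
    grind
  have e := k.ang A vr va vb
  unfold Ins
  rw [← h.g1 vr.symm, A.ray k.cr.mt vr vw.1 vw.2 one_pos le_rfl fun y hy e => k.cr.von h vr vw.2
    (Or.inr (Or.inl ⟨y, hy, by rw [← e, h.g1 vr.symm]⟩))]
  tauto

lemma Sys.refl {Z : Set V} {P : V → V → V → ℝ → Prop} (A : Api G r rk In) (l : Wl G r W H τ)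
    (S : Sys G r (fun v => -rk v) W H τ Z P) : Sys G r rk W H τ Z P where
  zW := S.zW
  wd := S.wd
  two := fun u hu n β => by
    obtain ⟨w, p, q, t, k, e⟩ := S.two u hu n (¬ β)
    have d := (S.wd w p q t k).1.dis A
    have e1 : cz (fun v => -rk v) w q p ↔ ¬ cz rk w q p := by
      simp only [cz]
      omega
    have e2 : cz (fun v => -rk v) w p q ↔ ¬ cz rk w p q := by
      simp only [cz]
      omega
    rw [e1, e2, not_iff_not, not_iff_not] at e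
    exact ⟨w, p, q, t, k, e⟩
  out := fun w p q t k u hu n1 n2 => by
    have c := (S.wd w p q t k).1
    have d := c.dis A
    have d1 := A.inj _ _ (l.ne (S.zW u hu)) c.rv n1
    have d2 := A.inj _ _ (l.ne (S.zW u hu)) c.pv n2
    refine ⟨(S.out w p q t k u hu n1 n2).1, ?_⟩
    have := (S.out w p q t k u hu n1 n2).2
    simp only [cz] at this ⊢
    omega

end Pool.Agent.Lib.MP_3764f3_co.LT
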