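import Pool.Agent.Lib.MP_3764f3_co.MChA

/-! A piece that starts outside a wedge stays outside. -/

set_option autoImplicit false

namespace Pool.Agent.Lib.MP_3764f3_co.LT

open Set

variable {V : Type} {pos : V → ℂ} {G : V → V → ℝ → ℂ} {r : V} {W : Finset V} {H : V → V → Prop}
  {τ : V → ℝ} {rk : V → ℤ} {In : V → V → V → ℂ → Prop} {a b w p q c d v : V} {t x : ℝ}

lemma Dr.fin [Fintype V] (h : Dr pos G) (r c d : V) :
    {u | ∃ z s, Cr G r z s c d u}.Finite := by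
  rw [ofPred_exists]
  refine finite_iUnion fun z => Subsingleton.finite ?_
  rintro u ⟨s, k⟩ u' ⟨s', k'⟩
  exact (k'.uq h (Ioo_subset_Icc_self k.hs) (Ioo_subset_Icc_self k.ht) k.eq).2

lemma Wa.mem (l : Wl G r W H τ) (k : Wa G r rk W H τ a b w p q t) : a ∈ W ∧ b ∈ W := by
  have := (l.mem p q k.hh).2.1
  rcases k.ty with ⟨rfl, rfl, -⟩ | ⟨rfl, rfl, -⟩
  exacts [⟨k.wW, this⟩, ⟨this, k.wW⟩]

lemma Wa.bl (h : Dr pos G) (A : Api G r rk In) (l : Wl G r W H τ) (k : Wa G r rk W H τ a b w p q t)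
    (k2 : H c d) (n1 : ¬ (p = c ∧ q = d)) (n2 : ¬ (p = d ∧ q = c)) (vW : v ∈ W)
    (j : Cr G r v (τ v) c d x) (o : cz rk v d c) (va : v ≠ a)
    (hv : v ≠ b → ¬ Ins rk In w p q (pos v)) {y : ℝ} (xy : x < y) (y1 : y < 1)
    (ho : ∀ u ∈ Ioc x y, ∀ z, z = a ∨ z = b → ∀ s ∈ Ioo (0 : ℝ) 1, G r z s ≠ G c d u) :
    ¬ Ins rk In w p q (G c d y) := by
  by_cases vb : v = b
  · rw [k.side h A l k2 n1 n2 (Or.inr vb) j ⟨j.ht.1.trans xy, y1⟩ xy.ne' fun u hu ux =>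
      ho u ⟨lt_of_le_of_ne (uIcc_of_le xy.le ▸ hu).1 ux.symm, (uIcc_of_le xy.le ▸ hu).2⟩]
    have : cz rk c v d := by
      unfold cz at *
      omega
    simp [this, xy, va]
  · have e := hv vb
    rw [← k.hang h A l k2 n1 n2 vW va vb j] at e
    unfold Ins at e ⊢
    rw [← A.same k.cr.mt j.qp j.ht.1.le xy.le y1.le]
    · exact e
    intro u hu o
    have i : ∀ z, z = a ∨ z = b → ∀ s ∈ Ioo (0 : ℝ) 1, G r z s ≠ G c d u := fun z hz s hs e => by
      rcases hu.1.eq_or_lt with e' | e'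
      · have zr : z ≠ r := by
          rcases hz with rfl | rfl
          exacts [k.ab.1, k.ab.2.1]
        have := h.rays zr j.rv ⟨hs.1, hs.2.le⟩ (Ioo_subset_Icc_self j.hs) (by rw [e, ← e', j.eq])
        grind
      · exact ho u ⟨e', hu.2⟩ z hz s hs e
    have := k.ty
    rcases l.on h k.cr k.hh k2 n1 n2 ⟨j.ht.1.trans_le hu.1, hu.2.trans_lt y1⟩ o with
      ⟨s, hs, e⟩ | ⟨s, hs, e⟩
    · exact i w (by tauto) s hs e
    · exact i q (by tauto) s hs e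

/-- The end of the piece lies outside the wedge. -/
lemma Wa.nxt (h : Dr pos G) (A : Api G r rk In) (l : Wl G r W H τ) (k : Wa G r rk W H τ a b w p q t)
    (k2 : H c d) (vW : v ∈ W) (j : Cr G r v (τ v) c d x) (o : cz rk v d c) (va : v ≠ a)
    (hv : v ≠ b → ¬ Ins rk In w p q (pos v)) (da : d ≠ a) (db : d ≠ b)
    (ho : ∀ z, z = a ∨ z = b → ¬ XI G c d x 1 r z 0 1) : ¬ Ins rk In w p q (pos d) := by
  have ty := k.ty
  have dq : d ≠ q := by grind
  by_cases n2 : p = d ∧ q = c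
  · unfold Ins
    rw [← n2.1, ← h.g0 p q k.cr.qp, A.back k.cr le_rfl k.cr.ht.1]
    simp
  have n1 : ¬ (p = c ∧ q = d) := fun e => dq e.2.symm
  have hx := j.ht
  have e := k.bl h A l k2 n1 n2 vW j o va hv (y := (x + 1) / 2) (by linarith [hx.2])
    (by linarith [hx.2]) fun u hu z hz s hs e =>
      ho z hz ⟨u, ⟨hu.1, by linarith [hu.2, hx.2]⟩, s, hs, e.symm⟩
  unfold Ins at e ⊢
  rw [← h.g1 j.qp, ← A.same k.cr.mt j.qp (a := (x + 1) / 2) (by linarith [hx.1]) (by linarith [hx.2])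
    le_rfl]
  · exact e
  intro u hu o
  rcases hu.2.eq_or_lt with e' | e'
  · rw [e', h.g1 j.qp] at o
    exact k.cr.von h j.pv dq o
  have hu' : u ∈ Ioo x 1 := ⟨by linarith [hu.1, hx.2], e'⟩
  rcases l.on h k.cr k.hh k2 n1 n2 ⟨hx.1.trans hu'.1, e'⟩ o with ⟨s, hs, e⟩ | ⟨s, hs, e⟩
  · exact ho w (by tauto) ⟨u, hu', s, hs, e.symm⟩
  · exact ho q (by tauto) ⟨u, hu', s, hs, e.symm⟩

/-- The piece does not leave the wedge through one of its rays. -/
lemma Wa.hit (h : Dr pos G) (A : Api G r rk In) (l : Wl G r W H τ) (k : Wa G r rk W H τ a b w p q t)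
    (k2 : H c d) (vW : v ∈ W) (j : Cr G r v (τ v) c d x) (o : cz rk v d c) (va : v ≠ a)
    (hv : v ≠ b → ¬ Ins rk In w p q (pos v)) {z : V} {s u : ℝ} (jz : Cr G r z s c d u) (xu : x < u)
    (ho : ∀ z, z = a ∨ z = b → ¬ XI G c d x u r z 0 1)
    (hz : z = b ∧ cz rk c z d ∨ z = a ∧ w = a ∧ ¬ cz rk c z d)
    (mn : w = b → ∀ v ∈ W, ∀ x, Cr G r v (τ v) p q x → cz rk v p q → x ≤ t) : False := by
  have ty := k.ty
  have ab := k.ab.2.2
  have d1 := k.cr.dis A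
  have d2 := jz.dis A
  have d3 := j.dis A
  by_cases n1 : p = c ∧ q = d
  · obtain ⟨rfl, rfl⟩ := n1
    have := jz.rp
    have : z = w := by grind
    subst this
    rcases hz with ⟨e, e1⟩ | ⟨e, -, e1⟩ <;> rcases ty with ⟨e2, e3, e4⟩ | ⟨e2, e3, e4⟩
    · exact ab (e2.symm.trans e)
    · unfold cz at *
      omega
    · unfold cz at *
      omega
    · exact ab (e.symm.trans e2)
  by_cases n2 : p = d ∧ q = c
  · obtain ⟨rfl, rfl⟩ := n2
    have := jz.rq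
    have : z = w := by grind
    subst this
    have e0 := (k.cr.uq h (Ioo_subset_Icc_self jz.hs) (Ioo_subset_Icc_self (jz.rev h).ht)
      (jz.rev h).eq).2
    rcases hz with ⟨e, e1⟩ | ⟨e, -, e1⟩
    · linarith [mn e v vW _ (j.rev h) o]
    have e3 : q = b := by grind
    have vb : v ≠ b := e3 ▸ j.rq
    have e5 := (A.ord h k.cr.mt (j.rev h) (by linarith)).2.mpr o
    apply hv vb
    have e6 : XI G p q t 1 r v 0 1 :=
      ⟨1 - x, ⟨by linarith, (j.rev h).ht.2⟩, τ v, j.hs, (j.rev h).eq.symm⟩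
    rw [k.vtx h A j.rv va vb, ← e, ← e3]
    simp only [e6, iff_true]
    unfold cz at *
    omega
  have hx := j.ht
  have hu := jz.ht
  refine k.bl h A l k2 n1 n2 vW j o va hv (y := (x + u) / 2) (by linarith) (by linarith [hu.2])
    (fun u' hu' z hz s hs e => ho z hz ⟨u', ⟨hu'.1, by linarith [hu'.2]⟩, s, hs, e.symm⟩) ?_
  have lt : (x + u) / 2 < u := by linarith
  rw [k.side h A l k2 n1 n2 (by tauto) jz ⟨by linarith [hx.1], by linarith [hu.2]⟩ lt.ne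
    fun u' hu' ux z hz s hs e => ho z hz ⟨u', ⟨by linarith [(uIcc_of_ge lt.le ▸ hu').1],
      lt_of_le_of_ne (uIcc_of_ge lt.le ▸ hu').2 ux⟩, s, hs, e.symm⟩]
  have := lt.not_gt
  grind

lemma Wa.two (A : Api G r rk In) (k : Wa G r rk W H τ a b w p q t) {u : V} {β : Prop}
    (e : u = a ∧ β ∨ u = b ∧ ¬ β) :
    u = w ∧ (cz rk w q p ↔ β) ∨ u = q ∧ (cz rk w p q ↔ β) := by
  have d1 := k.cr.dis A
  have e4 : cz rk w q p ↔ ¬ cz rk w p q := by
    unfold cz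
    omega
  have := k.ty
  grind

end Pool.Agent.Lib.MP_3764f3_co.LT
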