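import Pool.Agent.Lib.MP_3764f3_co.DChain

/-! Non-evasive flag complexes and a degree argument for bipartite matchings. -/

set_option autoImplicit false
set_option linter.unusedSectionVars false

namespace Pool.Agent.Lib.MP_3764f3_co.DC

open Finset

/-- The flag complex of `R` on `U` is non-evasive. -/
inductive NE {α : Type} (R : α → α → Prop) : Set α → Prop
  | cone {U : Set α} {c : α} : c ∈ U → (∀ x ∈ U, R c x) → NE R U
  | del {U : Set α} {f : α} : f ∈ U → NE R {x | x ∈ U ∧ x ≠ f} →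
      NE R {x | x ∈ U ∧ x ≠ f ∧ R f x} → NE R U

lemma NE.join {α : Type} {R : α → α → Prop} {U : Set α} (h : NE R U) :
    ∀ J : Set α, U ⊆ J → (∀ x ∈ U, ∀ y ∈ J, y ∉ U → R x y) → NE R J := by
  induction h with
  | @cone U c hc h =>
    exact fun J h1 h2 => .cone (h1 hc) fun x hx => by
      by_cases e : x ∈ U
      exacts [h x e, h2 c hc x hx e]
  | @del U f hf _ _ i1 i2 =>
    exact fun J h1 h2 => .del (h1 hf)
      (i1 _ (fun x hx => ⟨h1 hx.1, hx.2⟩) fun x hx y hy k => h2 x hx.1 y hy.1 fun e => k ⟨e, hy.2⟩)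
      (i2 _ (fun x hx => ⟨h1 hx.1, hx.2⟩) fun x hx y hy k => h2 x hx.1 y hy.1 fun e => k ⟨e, hy.2⟩)

lemma NE.map {α β : Type} {R : α → α → Prop} {Q : β → β → Prop} (g : α → β) {U : Set α}
    (h : NE R U) : Set.InjOn g U → (∀ x ∈ U, ∀ y ∈ U, Q (g x) (g y) ↔ R x y) → NE Q (g '' U) := by
  induction h with
  | @cone U c hc h =>
    exact fun _ h2 => .cone ⟨c, hc, rfl⟩ (by
      rintro _ ⟨x, hx, rfl⟩
      exact (h2 c hc x hx).mpr (h x hx))
  | @del U f hf _ _ i1 i2 =>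
    intro h1 h2
    refine .del (f := g f) ⟨f, hf, rfl⟩ ?_ ?_
    · convert i1 (h1.mono fun x hx => hx.1) fun x hx y hy => h2 x hx.1 y hy.1 using 1
      ext y
      constructor
      · rintro ⟨⟨x, hx, rfl⟩, k⟩
        exact ⟨x, ⟨hx, fun e => k (e ▸ rfl)⟩, rfl⟩
      · rintro ⟨x, hx, rfl⟩
        exact ⟨⟨x, hx.1, rfl⟩, fun e => hx.2 (h1 hx.1 hf e)⟩
    · convert i2 (h1.mono fun x hx => hx.1) fun x hx y hy => h2 x hx.1 y hy.1 using 1
      ext y
      constructor
      · rintro ⟨⟨x, hx, rfl⟩, k, k2⟩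
        exact ⟨x, ⟨hx, fun e => k (e ▸ rfl), (h2 f hf x hx).mp k2⟩, rfl⟩
      · rintro ⟨x, hx, rfl⟩
        exact ⟨⟨x, hx.1, rfl⟩, fun e => hx.2.1 (h1 hx.1 hf e), (h2 f hf x hx.1).mpr hx.2.2⟩

variable {α : Type} [Fintype α] [DecidableEq α]

lemma NE.ac {R : α → α → Prop} (hs : ∀ a b, R a b → R b a) {U : Set α} (h : NE R U) :
    ∀ z : Finset α → ZMod 2, bd z = 0 → (∀ σ, z σ ≠ 0 → K R (· ∈ U) σ) →
      ∃ c, bd c = z ∧ ∀ σ, c σ ≠ 0 → K R (· ∈ U) σ := by
  induction h with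
  | @cone U c hc h =>
    exact fun z z1 z3 => acyc hs {c} (by simpa using h c hc) (by simpa using hc) z z1 fun σ k =>
      ⟨z3 σ k, c, mem_singleton_self c, fun y hy => h y ((z3 σ k).1 y hy)⟩
  | @del U f hf _ _ i1 i2 =>
    intro z z1 z3
    by_cases hff : R f f
    swap
    · obtain ⟨c, c1, c3⟩ := i1 z z1 fun σ k => ⟨fun x hx => ⟨(z3 σ k).1 x hx, by
        rintro rfl
        exact hff ((z3 σ k).2 x hx x hx)⟩, (z3 σ k).2⟩
      exact ⟨c, c1, fun σ k => ⟨fun x hx => ((c3 σ k).1 x hx).1, (c3 σ k).2⟩⟩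
    set y : Finset α → ZMod 2 := fun τ => if f ∈ τ then 0 else z (insert f τ) with hy
    have y1 : ∀ σ, (z + DC.cone f y) σ = if f ∈ σ then 0 else z σ := fun σ => by
      simp only [Pi.add_apply, DC.cone, hy]
      split_ifs with k1 k2
      · simp at k2
      · rw [insert_erase k1, z2]
      · rw [add_zero]
    have y2 : bd y = 0 := funext fun τ => by
      by_cases k : f ∈ τ
      · exact sum_eq_zero fun x _ => if_pos (mem_insert_of_mem k)
      · have e := congrFun (bd_add z (DC.cone f y)) (insert f τ)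
        rw [z1, zero_add, bd_cone] at e
        simp only [Pi.add_apply, DC.cone, mem_insert_self, if_true, erase_insert k, hy, zero_add] at e
        rw [Pi.zero_apply, hy, ← e]
        exact sum_eq_zero fun x _ => by rw [y1, if_pos (by simp)]
    obtain ⟨w, w1, w3⟩ := i2 y y2 fun σ k => by
      simp only [hy] at k
      split_ifs at k with k1
      · exact absurd rfl k
      obtain ⟨k2, k3⟩ := z3 _ k
      exact ⟨fun x hx => ⟨k2 x (mem_insert_of_mem hx), by rintro rfl; exact k1 hx,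
        k3 _ (mem_insert_self _ _) _ (mem_insert_of_mem hx)⟩,
        fun a ha b hb => k3 _ (mem_insert_of_mem ha) _ (mem_insert_of_mem hb)⟩
    obtain ⟨c, c1, c3⟩ := i1 (z + bd (DC.cone f w)) (by rw [bd_add, z1, bd_bd, add_zero]) fun σ k => by
      rw [bd_cone, w1, add_left_comm, Pi.add_apply, y1] at k
      by_cases k1 : w σ = 0
      · rw [k1, zero_add] at k
        split_ifs at k with k2
        · exact absurd rfl k
        · exact ⟨fun x hx => ⟨(z3 σ k).1 x hx, by rintro rfl; exact k2 hx⟩, (z3 σ k).2⟩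
      · exact ⟨fun x hx => ⟨((w3 σ k1).1 x hx).1, ((w3 σ k1).1 x hx).2.1⟩, (w3 σ k1).2⟩
    refine ⟨c + DC.cone f w, by rw [bd_add, c1, add_assoc, c2, add_zero], fun σ k => ?_⟩
    by_cases k1 : c σ = 0
    · rw [Pi.add_apply, k1, zero_add] at k
      unfold DC.cone at k
      split_ifs at k with k2
      · obtain ⟨k3, k4⟩ := w3 _ k
        have cs : ∀ x ∈ σ, x = f ∨ x ∈ σ.erase f := fun x hx => by
          by_cases e : x = f
          exacts [Or.inl e, Or.inr (mem_erase.mpr ⟨e, hx⟩)]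
        refine ⟨fun x hx => ?_, fun a ha b hb => ?_⟩
        · rcases cs x hx with rfl | e
          exacts [hf, (k3 x e).1]
        · rcases cs a ha with rfl | e <;> rcases cs b hb with rfl | e'
          exacts [hff, (k3 _ e').2.2, hs _ _ (k3 _ e).2.2, k4 _ e _ e']
      · exact absurd rfl k
    · exact ⟨fun x hx => ((c3 σ k1).1 x hx).1, (c3 σ k1).2⟩

variable {V : Type} [Fintype V] [DecidableEq V]

lemma fill {R : Sym2 V → Sym2 V → Prop} (hs : ∀ e f, R e f → R f e) (U : Finset V → Set (Sym2 V))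
    (hU : ∀ S T, S ⊆ T → U S ⊆ U T) (h : ∀ S, S.Nonempty → NE R (U S)) :
    ∃ d : Finset V → Finset (Sym2 V) → ZMod 2, d ∅ = Pi.single ∅ 1 ∧
      ∀ S, (S ≠ ∅ → bd (d S) = ∑ i ∈ S, d (S.erase i)) ∧ ∀ σ, d S σ ≠ 0 → K R (· ∈ U S) σ := by
  classical
  have ex : ∀ n, ∃ d : Finset V → Finset (Sym2 V) → ZMod 2, d ∅ = Pi.single ∅ 1 ∧
      ∀ S, S.card ≤ n → (S ≠ ∅ → bd (d S) = ∑ i ∈ S, d (S.erase i)) ∧
        ∀ σ, d S σ ≠ 0 → K R (· ∈ U S) σ := by
    intro n
    induction n with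
    | zero =>
      refine ⟨fun _ => Pi.single ∅ 1, rfl, fun S hS => ⟨fun h => absurd (by simpa using hS) h,
        fun σ hσ => ?_⟩⟩
      have : σ = ∅ := by
        by_contra k
        simp [k] at hσ
      simp [this, K]
    | succ n ih =>
      obtain ⟨d, d0, d1⟩ := ih
      have st : ∀ S : Finset V, S.card = n + 1 → ∃ c, bd c = ∑ i ∈ S, d (S.erase i) ∧
          ∀ σ, c σ ≠ 0 → K R (· ∈ U S) σ := by
        intro S hS
        have ce : ∀ i ∈ S, (S.erase i).card ≤ n := fun i hi => by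
          have := card_erase_add_one hi
          omega
        refine (h S (card_pos.mp (by omega))).ac hs _ ?_ fun σ hσ => ?_
        · rw [bd_sum, ← sym_sum c2 (fun i j => d ((S.erase i).erase j))
            (fun i j => by rw [erase_right_comm]) S]
          refine sum_congr rfl fun i hi => ?_
          by_cases e : S.erase i = ∅
          · rw [e, d0, sum_empty]
            exact funext fun τ => sum_eq_zero fun x _ => by simp
          · exact (d1 _ (ce i hi)).1 e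
        · rw [Finset.sum_apply] at hσ
          obtain ⟨i, hi, k⟩ := exists_ne_zero_of_sum_ne_zero hσ
          obtain ⟨k1, k2⟩ := (d1 _ (ce i hi)).2 σ k
          exact ⟨fun e he => hU _ _ (erase_subset _ _) (k1 e he), k2⟩
      choose c c1 c3 using st
      refine ⟨fun S => if h : S.card = n + 1 then c S h else d S, by simp [d0], fun S hS => ?_⟩
      have e : ∑ i ∈ S, (if h : (S.erase i).card = n + 1 then c _ h else d (S.erase i)) =
          ∑ i ∈ S, d (S.erase i) := sum_congr rfl fun i hi => dif_neg (by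
        have := card_erase_add_one hi
        omega)
      simp only [e]
      split_ifs with h
      · exact ⟨fun _ => c1 S h, c3 S h⟩
      · exact d1 S (by omega)
  obtain ⟨d, d0, d1⟩ := ex (Fintype.card V)
  exact ⟨d, d0, fun S => d1 S (card_le_univ S)⟩

theorem bip (A B : Finset V) (hd : Disjoint A B) (hc : A.card = B.card)
    {R : V × V → V × V → Prop} (hs : ∀ e f, R e f → R f e)
    (h : ∀ A' ⊆ A, ∀ B' ⊆ B, A'.Nonempty → B'.Nonempty → NE R {e | e.1 ∈ A' ∧ e.2 ∈ B'}) :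
    ∃ f : V → V, Set.InjOn f A ∧ (∀ a ∈ A, f a ∈ B) ∧ ∀ a ∈ A, ∀ a' ∈ A, R (a, f a) (a', f a') := by
  classical
  have nd : ∀ a ∈ A, a ∉ B := fun a ha => disjoint_left.mp hd ha
  have ij : ∀ a ∈ A, ∀ b ∈ B, ∀ a' ∈ A, ∀ b' ∈ B, s(a, b) = s(a', b') → a = a' ∧ b = b' :=
    fun a ha b hb a' ha' b' hb' e =>
      (Sym2.eq_iff.mp e).elim id fun k => absurd (k.1 ▸ hb') (nd a ha)
  have nl : ∀ a ∈ A, ∀ b ∈ B, ∀ v, s(a, b) ≠ s(v, v) := fun a ha b hb v e => by
    simp only [Sym2.eq_iff, or_self] at e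
    exact nd a ha ((e.1.trans e.2.symm) ▸ hb)
  set Q : Sym2 V → Sym2 V → Prop := fun e f =>
    (∀ a ∈ A, ∀ b ∈ B, ∀ a' ∈ A, ∀ b' ∈ B, e = s(a, b) → f = s(a', b') → R (a, b) (a', b')) ∧
      ∀ a ∈ A, ∀ b ∈ B, ¬ (e = s(a, a) ∧ f = s(b, b)) ∧ ¬ (f = s(a, a) ∧ e = s(b, b)) with hQ
  set U : Finset V → Set (Sym2 V) := fun S =>
    {e | (∃ a ∈ A ∩ S, ∃ b ∈ B ∩ S, e = s(a, b)) ∨ ∃ v ∈ S, e = s(v, v)} with hU
  have ql : ∀ v w, ¬ (v ∈ A ∧ w ∈ B) → ¬ (w ∈ A ∧ v ∈ B) → Q s(v, v) s(w, w) := fun v w n1 n2 =>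
    ⟨fun a ha b hb _ _ _ _ e => absurd e.symm (nl a ha b hb v), fun a ha b hb =>
      ⟨fun k => n1 (by simp_all), fun k => n2 (by simp_all)⟩⟩
  obtain ⟨d, d0, d1⟩ := fill (R := Q) (fun e f k => ⟨fun a ha b hb a' ha' b' hb' e1 e2 =>
      hs _ _ (k.1 a' ha' b' hb' a ha b hb e2 e1), fun a ha b hb => (k.2 a ha b hb).symm⟩) U
    (fun S T hST e he => he.imp
      (fun ⟨a, ha, b, hb, k⟩ => ⟨a, inter_subset_inter_left hST ha, b, inter_subset_inter_left hST hb, k⟩)
      fun ⟨v, hv, k⟩ => ⟨v, hST hv, k⟩) fun S ⟨v, hv⟩ => by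
    by_cases k : (A ∩ S).Nonempty ∧ (B ∩ S).Nonempty
    · refine ((h _ inter_subset_left _ inter_subset_left k.1 k.2).map (Q := Q) (fun e => s(e.1, e.2))
        (fun x hx y hy e => ?_) fun x hx y hy => ⟨fun q => ?_, fun q => ⟨?_, fun a ha b hb => ?_⟩⟩).join _ ?_ ?_
      · exact Prod.ext_iff.mpr (ij _ (mem_inter.mp hx.1).1 _ (mem_inter.mp hx.2).1 _
          (mem_inter.mp hy.1).1 _ (mem_inter.mp hy.2).1 e)
      · exact q.1 _ (mem_inter.mp hx.1).1 _ (mem_inter.mp hx.2).1 _ (mem_inter.mp hy.1).1 _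
          (mem_inter.mp hy.2).1 rfl rfl
      · intro a ha b hb a' ha' b' hb' e1 e2
        obtain ⟨rfl, rfl⟩ := ij _ (mem_inter.mp hx.1).1 _ (mem_inter.mp hx.2).1 _ ha _ hb e1
        obtain ⟨rfl, rfl⟩ := ij _ (mem_inter.mp hy.1).1 _ (mem_inter.mp hy.2).1 _ ha' _ hb' e2
        exact q
      · have := nl _ (mem_inter.mp hx.1).1 _ (mem_inter.mp hx.2).1
        exact ⟨fun k => this _ k.1, fun k => this _ k.2⟩
      · rintro _ ⟨x, hx, rfl⟩
        exact Or.inl ⟨_, hx.1, _, hx.2, rfl⟩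
      · rintro _ ⟨x, hx, rfl⟩ y (⟨a, ha, b, hb, rfl⟩ | ⟨w, -, rfl⟩) n
        · exact absurd ⟨(a, b), ⟨ha, hb⟩, rfl⟩ n
        · have := nl _ (mem_inter.mp hx.1).1 _ (mem_inter.mp hx.2).1
          exact ⟨fun _ _ _ _ a ha b hb _ e => absurd e.symm (nl a ha b hb w),
            fun a ha b hb => ⟨fun k => this _ k.1, fun k => this _ k.2⟩⟩
    · refine .cone (c := s(v, v)) (Or.inr ⟨v, hv, rfl⟩) ?_
      rintro _ (⟨a, ha, b, hb, rfl⟩ | ⟨w, hw, rfl⟩)
      · exact absurd ⟨⟨a, ha⟩, b, hb⟩ k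
      · exact ql v w (fun l => k ⟨⟨v, mem_inter.mpr ⟨l.1, hv⟩⟩, w, mem_inter.mpr ⟨l.2, hw⟩⟩)
          fun l => k ⟨⟨w, mem_inter.mpr ⟨l.1, hw⟩⟩, v, mem_inter.mpr ⟨l.2, hv⟩⟩
  obtain ⟨b, hb, b1⟩ := exists_gen (V := V) (1 / (2 * Fintype.card V + 1)) (by positivity)
  have := degree hb (fun k => by linarith [(b1 k).1]) d d0 (fun S => (d1 S).1) (fun S σ h e he k hk => by
    rcases ((d1 S).2 σ h).1 e he with ⟨a, ha, b, hb, rfl⟩ | ⟨v, hv, rfl⟩
    · rcases Sym2.mem_iff.mp hk with rfl | rfl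
      exacts [(mem_inter.mp ha).2, (mem_inter.mp hb).2]
    · rcases Sym2.mem_iff.mp hk with rfl | rfl <;> exact hv) univ
  obtain ⟨σ, -, hσ⟩ := exists_ne_zero_of_sum_ne_zero (this ▸ one_ne_zero)
  obtain ⟨k0, k1⟩ := (d1 _).2 σ (right_ne_zero_of_mul hσ)
  obtain ⟨-, l, l1, l2⟩ : σ.card = (univ : Finset V).card ∧ Cn col (res b univ) σ := by
    by_contra k
    exact left_ne_zero_of_mul hσ (if_neg k)
  have sb : ∀ T : Finset V, ∑ k ∈ T, b k = ∑ e ∈ σ, l e * ∑ k ∈ T, col e k := fun T => by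
    simp only [mul_sum]
    rw [sum_comm]
    exact sum_congr rfl fun k _ => by simpa [res] using (congrFun l2 k).symm
  have cs : ∀ (T : Finset V) a b, a ≠ b → ∑ k ∈ T, col s(a, b) k =
      (if a ∈ T then 1 else 0) + if b ∈ T then 1 else 0 := fun T a b n => by
    rw [← sum_ite_eq' T a fun _ => (1 : ℝ), ← sum_ite_eq' T b fun _ => (1 : ℝ), ← sum_add_distrib]
    refine sum_congr rfl fun k _ => ?_
    by_cases e1 : k = a <;> by_cases e2 : k = b <;> simp_all [col]
  have cl : ∀ (T : Finset V) v, ∑ k ∈ T, col s(v, v) k = if v ∈ T then 1 else 0 := fun T v => by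
    simp [col]
  have lo : ∀ T : Finset V, (T.card : ℝ) ≤ ∑ k ∈ T, b k := fun T => by
    simpa using sum_le_sum (s := T) fun k _ => (b1 k).1.le
  have hi : ∀ T : Finset V, ∑ k ∈ T, b k ≤ T.card + Fintype.card V * (1 / (2 * Fintype.card V + 1)) :=
    fun T => by
      have a1 : ∑ k ∈ T, b k ≤ T.card * (1 + 1 / (2 * Fintype.card V + 1)) := by
        simpa [mul_add] using sum_le_sum (s := T) fun k _ => (b1 k).2.le
      have a2 : (T.card : ℝ) ≤ Fintype.card V := by exact_mod_cast card_le_univ T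
      have a3 : (0 : ℝ) ≤ 1 / (2 * Fintype.card V + 1) := by positivity
      nlinarith
  obtain ⟨f, f1, f2⟩ := (all_card_le_biUnion_card_iff_exists_injective
      (fun v : A => B.filter fun w => s(v.1, w) ∈ σ)).mp fun T => by
    set N := T.biUnion fun v : A => B.filter fun w => s(v.1, w) ∈ σ with hN
    set T' := T.map (Function.Embedding.subtype _) with hT
    have t1 : ∀ a ∈ T', a ∈ A := fun a ha => by
      obtain ⟨x, -, rfl⟩ := mem_map.mp ha
      exact x.2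
    have t2 : ∀ a ∈ A, ∀ w ∈ B, s(a, w) ∈ σ → ∑ k ∈ T', col s(a, w) k ≤ ∑ k ∈ N, col s(a, w) k := by
      intro a ha w hw he
      have n : a ≠ w := fun e => nd a ha (e ▸ hw)
      rw [cs _ _ _ n, cs _ _ _ n, if_neg fun k => nd w (t1 w k) hw]
      by_cases k : a ∈ T'
      · obtain ⟨x, hx, rfl⟩ := mem_map.mp k
        rw [if_pos (show w ∈ N from mem_biUnion.mpr ⟨x, hx, mem_filter.mpr ⟨hw, he⟩⟩)]
        split_ifs <;> norm_num
      · split_ifs <;> norm_num
    have le : ∑ k ∈ T', b k ≤ ∑ k ∈ N, b k ∨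
        ∑ k ∈ T', b k + ∑ k ∈ B, b k ≤ ∑ k ∈ N, b k + ∑ k ∈ A, b k := by
      by_cases k : ∃ a ∈ A, s(a, a) ∈ σ
      · obtain ⟨a0, h0, h1⟩ := k
        right
        simp only [sb, ← sum_add_distrib, ← mul_add]
        refine sum_le_sum fun e he => mul_le_mul_of_nonneg_left ?_ (l1 e)
        rcases k0 e he with ⟨a, ha, w, hw, rfl⟩ | ⟨v, -, rfl⟩
        · have ha := (mem_inter.mp ha).1
          have hw := (mem_inter.mp hw).1
          have := t2 a ha w hw he
          have n : a ≠ w := fun e => nd a ha (e ▸ hw)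
          rw [cs A _ _ n, cs B _ _ n, if_pos ha, if_pos hw, if_neg (nd a ha), if_neg fun k => nd w k hw]
          linarith
        · have : v ∉ B := fun hv => ((k1 _ h1 _ he).2 a0 h0 v hv).1 ⟨rfl, rfl⟩
          rw [cl, cl, cl, cl, if_neg this]
          by_cases m : v ∈ T'
          · rw [if_pos m, if_pos (t1 v m)]
            split_ifs <;> norm_num
          · rw [if_neg m]
            split_ifs <;> norm_num
      · left
        rw [sb, sb]
        refine sum_le_sum fun e he => mul_le_mul_of_nonneg_left ?_ (l1 e)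
        rcases k0 e he with ⟨a, ha, w, hw, rfl⟩ | ⟨v, -, rfl⟩
        · exact t2 a (mem_inter.mp ha).1 w (mem_inter.mp hw).1 he
        · rw [cl, cl, if_neg fun l => k ⟨v, t1 v l, he⟩]
          split_ifs <;> norm_num
    have a1 := lo T'
    have a2 := hi N
    have a3 := lo B
    have a4 := hi A
    have a5 : (2 * Fintype.card V : ℝ) * (1 / (2 * Fintype.card V + 1)) < 1 := by
      rw [mul_one_div, div_lt_one (by positivity)]
      linarith
    have a6 : (0 : ℝ) ≤ Fintype.card V * (1 / (2 * Fintype.card V + 1)) := by positivity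
    rw [hT, card_map] at a1
    rw [hc] at a4
    have : (T.card : ℝ) < N.card + 1 := by rcases le with k | k <;> linarith
    exact Nat.lt_succ_iff.mp (by exact_mod_cast this)
  refine ⟨fun v => if h : v ∈ A then f ⟨v, h⟩ else v, fun a ha a' ha' e => ?_, fun a ha => ?_,
    fun a ha a' ha' => ?_⟩
  · simp only [dif_pos (mem_coe.mp ha), dif_pos (mem_coe.mp ha')] at e
    exact congrArg Subtype.val (f1 e)
  · simpa only [dif_pos ha] using (mem_filter.mp (f2 ⟨a, ha⟩)).1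
  · simp only [dif_pos ha, dif_pos ha']
    obtain ⟨m1, m2⟩ := mem_filter.mp (f2 ⟨a, ha⟩)
    obtain ⟨m3, m4⟩ := mem_filter.mp (f2 ⟨a', ha'⟩)
    exact (k1 _ m2 _ m4).1 a ha _ m1 a' ha' _ m3 rfl rfl

end Pool.Agent.Lib.MP_3764f3_co.DC
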