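import Pool.Agent.Lib.MP_3764f3_co.MSubA

/-! An edge with a point outside all wedges stays outside. -/

set_option autoImplicit false

namespace Pool.Agent.Lib.MP_3764f3_co.LT

open Set

variable {V : Type} {pos : V → ℂ} {G : V → V → ℝ → ℂ} {r : V} {W : Finset V} {H : V → V → Prop}
  {τ : V → ℝ} {rk : V → ℤ} {In : V → V → V → ℂ → Prop} {Z : Set V} {P : V → V → V → ℝ → Prop}

lemma sb_int (h : Dr pos G) {i j c d : V} (ij : i ≠ j) (cd : c ≠ d) {x y : ℝ}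
    (hy : y ∈ Icc (0 : ℝ) 1) (hx : x ∈ Ioo (0 : ℝ) 1) (e : G i j y = G c d x) :
    y ∈ Ioo (0 : ℝ) 1 := by
  rcases h.cases ij cd hy (Ioo_subset_Icc_self hx) e with k | k | k | k | k
  exacts [k.1, absurd k.2.1 hx.1.ne', absurd k.2.1 hx.1.ne', absurd k.2.1 hx.2.ne,
    absurd k.2.1 hx.2.ne]

lemma sb_off (h : Dr pos G) {w p q c d : V} {s t x : ℝ} (k : Cr G r w s p q t) (cd : c ≠ d)
    (hx : x ∈ Ioo (0 : ℝ) 1) (hw : ∀ y ∈ Ioo (0 : ℝ) 1, G r w y ≠ G c d x)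
    (hq : ∀ y ∈ Ioo (0 : ℝ) 1, G r q y ≠ G c d x) (hp : ∀ y ∈ Ioo (0 : ℝ) 1, G p q y ≠ G c d x) :
    ¬ On G r w s p q t (G c d x) := by
  rintro (⟨y, hy, e⟩ | ⟨y, hy, e⟩ | ⟨y, hy, e⟩)
  · exact hw y (sb_int h k.rv.symm cd ⟨hy.1, hy.2.trans k.hs.2.le⟩ hx e) e
  · exact hp y (sb_int h k.qp cd ⟨k.ht.1.le.trans hy.1, hy.2⟩ hx e) e
  · exact hq y (sb_int h k.pv.symm cd hy hx e) e

lemma sb_cz (A : Api G r rk In) {w p q : V} {s t : ℝ} (k : Cr G r w s p q t) :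
    (cz rk w q p ↔ ¬ cz rk w p q) ∧ (cz rk p w q ↔ cz rk w q p) ∧ (cz rk q w p ↔ cz rk w p q) := by
  have h1 := A.inj w p k.rv k.qv k.rq
  have h2 := A.inj w q k.rv k.pv k.rp
  have h3 := A.inj p q k.qv k.pv k.qp
  unfold cz
  omega

lemma sb_p1 {a b c : Prop} (h : a ↔ (b ↔ c)) (k : b ↔ a) : c := by tauto

lemma sb_p2 {a b c d : Prop} (h : a ↔ (b ↔ c)) (k : b ↔ d) (j : a ↔ ¬ d) : ¬ c := by tauto

lemma sb_p3 {a b c : Prop} (h : (a ↔ b) ↔ (a ↔ c)) : b ↔ c := by tauto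

lemma sb_p4 {a b c d x y : Prop} (h : a ↔ ¬ (c ↔ x)) (k : b ↔ ¬ (c ↔ y)) (hx : ¬ x) (hy : y)
    (i : ¬ ¬ (a ↔ d)) (j : ¬ ¬ (b ↔ d)) : False := by tauto

lemma Sys.sb_ray (h : Dr pos G) (A : Api G r rk In) (l : Wl G r W H τ) (S : Sys G r rk W H τ Z P)
    {c d : V} (o : Ok G r W H τ c d) {b : ℝ} (hb : b ∈ Ioo (0 : ℝ) 1)
    (h1 : ∀ u ∈ Z, ∀ s ∈ Ioo (0 : ℝ) 1, G r u s ≠ G c d b)
    (h2 : ∀ w p q t, P w p q t → ¬ On G r w (τ w) p q t (G c d b) ∧ ¬ Ins rk In w p q (G c d b)) :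
    ∀ u ∈ Z, ¬ X G r u c d := by
  have cr : ∀ u ∈ Z, ∀ s ∈ Ioo (0 : ℝ) 1, ∀ x ∈ Ioo (0 : ℝ) 1, G r u s = G c d x →
      Cr G r u s c d x := fun u hu s hs x hx e =>
    h.cr (l.ne (S.zW u hu)) (l.ne o.cW) (l.ne o.dW) o.cd hs hx e
  rintro u0 hu0 ⟨s1, hs1, a1, ha1, e1⟩
  have fin : {x | ∃ u ∈ Z, ∃ s, Cr G r u s c d x}.Finite := by
    refine (W.finite_toSet.biUnion (t := fun u => {x | ∃ s, Cr G r u s c d x})
      fun u _ => Set.Subsingleton.finite ?_).subset ?_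
    · rintro x ⟨s, k⟩ y ⟨s', k'⟩
      exact (k'.uq h k.mt.hs k.mt.ht k.eq).2
    · rintro x ⟨u, hu, k⟩
      exact mem_biUnion (S.zW u hu) k
  obtain ⟨a, ⟨u, hu, s0, k⟩, hmin⟩ := Set.exists_min_image _ (fun x => |x - b|) fin
    ⟨a1, u0, hu0, s1, cr u0 hu0 s1 hs1 a1 ha1 e1⟩
  have ba : b ≠ a := fun e => h1 u hu s0 k.hs (e ▸ k.eq)
  have hs : s0 ≤ τ u := not_lt.1 fun j =>
    o.aft u (S.zW u hu) ⟨s0, ⟨j, k.hs.2⟩, a, k.ht, k.eq⟩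
  obtain ⟨w, p, q, t, kP, hβ⟩ := S.two u hu (k.hs.1.trans_le hs).ne' (cz rk c u d ↔ a < b)
  obtain ⟨k', kH, wZ, qZ⟩ := S.wd w p q t kP
  obtain ⟨n1, n2⟩ := h2 w p q t kP
  rw [Ins, not_not] at n2
  have ho : ¬ (p = c ∧ q = d) → ¬ (p = d ∧ q = c) →
      ∀ x ∈ uIcc a b, x ≠ a → ¬ On G r w (τ w) p q t (G c d x) := fun m1 m2 x hx xa => by
    have x1 : x ∈ Ioo (0 : ℝ) 1 := ordConnected_Ioo.uIcc_subset k.ht hb hx
    have x2 : ∀ v ∈ Z, ∀ y ∈ Ioo (0 : ℝ) 1, G r v y ≠ G c d x := fun v hv y hy e => by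
      have := hmin x ⟨v, hv, y, cr v hv y hy x x1 e⟩
      rcases mem_uIcc.1 hx with j | j
      · rw [abs_of_nonpos (by linarith [j.1, j.2]), abs_of_nonpos (by linarith [j.2])] at this
        exact xa (by linarith [j.1])
      · rw [abs_of_nonneg (by linarith [j.1, j.2]), abs_of_nonneg (by linarith [j.1])] at this
        exact xa (by linarith [j.2])
    exact sb_off h k' o.cd x1 (x2 w wZ) (x2 q qZ) fun y hy e =>
      o.pl p q kH m1 m2 ⟨y, hy, x, x1, e⟩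
  have hb' := Ioo_subset_Icc_self hb
  obtain ⟨z1, z2, z3⟩ := sb_cz A k'
  rcases hβ with ⟨rfl, hβ⟩ | ⟨rfl, hβ⟩
  · by_cases m1 : p = c ∧ q = d
    · obtain ⟨rfl, rfl⟩ := m1
      have e := (k.uq h k'.mt.hs k'.mt.ht k'.eq).2
      have ab : a < b := sb_p1 hβ z2
      exact n1 (.inr (.inl ⟨b, ⟨e.le.trans ab.le, hb.2.le⟩, rfl⟩))
    by_cases m2 : p = d ∧ q = c
    · obtain ⟨rfl, rfl⟩ := m2
      have k2 := k'.rev h
      have e := (k.uq h k2.mt.hs k2.mt.ht k2.eq).2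
      have ab : ¬ a < b := sb_p2 hβ z3 z1
      refine n1 (.inr (.inl ⟨1 - b, ⟨by linarith [not_lt.1 ab], by linarith [hb.1]⟩, ?_⟩))
      rw [h.rev _ _ o.cd, sub_sub_cancel]
    rcases hs.eq_or_lt with e | e
    · exact o.pl p q kH m1 m2 ⟨t, k'.ht, a, k.ht, k'.eq.symm.trans (e ▸ k.eq)⟩
    · exact iff_not_self
        ((n2.symm.trans ((A.sidew h k'.mt k e hb' ba (ho m1 m2)).trans hβ.symm)).trans z1)
  · have := sb_p3 ((A.sideq h k'.mt k hb' ba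
      (ho (fun j => k.rp j.2) fun j => k.rq j.2)).symm.trans (n2.trans hβ))
    rcases ba.lt_or_gt with j | j
    exacts [j.not_gt (this.1 j), j.not_gt (this.2 j)]

lemma Sys.s3 (h : Dr pos G) (A : Api G r rk In) (l : Wl G r W H τ) (S : Sys G r rk W H τ Z P)
    {c d : V} (o : Ok G r W H τ c d) {b : ℝ} (hb : b ∈ Ioo (0 : ℝ) 1)
    (h1 : ∀ u ∈ Z, ∀ s ∈ Ioo (0 : ℝ) 1, G r u s ≠ G c d b)
    (h2 : ∀ w p q t, P w p q t → ¬ On G r w (τ w) p q t (G c d b) ∧ ¬ Ins rk In w p q (G c d b)) :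
    Inn pos G r rk In Z P c d := by
  have ray := S.sb_ray h A l o hb h1 h2
  have off : ∀ w p q t, P w p q t → ∀ x ∈ Ioo (0 : ℝ) 1, ¬ On G r w (τ w) p q t (G c d x) :=
    fun w p q t kP x hx => by
      obtain ⟨k, kH, wZ, qZ⟩ := S.wd w p q t kP
      refine sb_off h k o.cd hx (fun y hy e => ray w wZ ⟨y, hy, x, hx, e⟩)
        (fun y hy e => ray q qZ ⟨y, hy, x, hx, e⟩) fun y hy e =>
        o.pl p q kH ?_ ?_ ⟨y, hy, x, hx, e⟩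
      · rintro ⟨rfl, rfl⟩
        exact ray w wZ ⟨_, k.hs, _, k.ht, k.eq⟩
      · rintro ⟨rfl, rfl⟩
        exact ray w wZ ⟨_, k.hs, _, (k.rev h).ht, (k.rev h).eq⟩
  refine ⟨or_iff_not_imp_left.2 fun cZ w p q t kP => ?_,
    or_iff_not_imp_left.2 fun dZ w p q t kP => ?_, ray⟩
  · obtain ⟨k, -, -, qZ⟩ := S.wd w p q t kP
    have := A.same k.mt o.cd le_rfl hb.1.le hb.2.le fun x hx => by
      rcases hx.1.eq_or_lt with rfl | j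
      · rw [h.g0 _ _ o.cd]
        exact k.von h (l.ne o.cW) fun e => cZ (e ▸ qZ)
      · exact off w p q t kP x ⟨j, hx.2.trans_lt hb.2⟩
    rw [Ins, ← h.g0 _ _ o.cd, this]
    exact (h2 w p q t kP).2
  · obtain ⟨k, -, -, qZ⟩ := S.wd w p q t kP
    have := A.same k.mt o.cd hb.1.le hb.2.le le_rfl fun x hx => by
      rcases hx.2.eq_or_lt with rfl | j
      · rw [h.g1 o.cd]
        exact k.von h (l.ne o.dW) fun e => dZ (e ▸ qZ)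
      · exact off w p q t kP x ⟨hb.1.trans_le hx.1, j⟩
    rw [Ins, ← h.g1 o.cd, ← this]
    exact (h2 w p q t kP).2

lemma Sys.nx (h : Dr pos G) (A : Api G r rk In) (l : Wl G r W H τ) (S : Sys G r rk W H τ Z P)
    {c d c' d' : V} (cW : c ∈ W) (dW : d ∈ W) (cd : c ≠ d) (i : Inn pos G r rk In Z P c d)
    (o : Ok G r W H τ c' d') (n : ¬ Inn pos G r rk In Z P c' d') : ¬ X G c d c' d' := by
  rintro ⟨a, ha, b, hb, e⟩
  exact n (S.s3 h A l o hb (fun u hu s hs e' => i.2.2 u hu ⟨s, hs, a, ha, e'.trans e.symm⟩)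
    fun w p q t k => e ▸ S.s1 h A l cW dW cd i k ha)

lemma Sys.kl (h : Dr pos G) (A : Api G r rk In) (l : Wl G r W H τ) (S : Sys G r rk W H τ Z P)
    {c d v : V} (o : Ok G r W H τ c d) (i : Inn pos G r rk In Z P c d) (vW : v ∈ W)
    (x : Wo pos rk In Z P v)
    (n : ∀ p q t, H p q → Cr G r v (τ v) p q t → ¬ Inn pos G r rk In Z P p q) : ¬ X G r v c d := by
  rintro ⟨u, hu, b, hb, e⟩
  by_cases vZ : v ∈ Z
  · exact i.2.2 v vZ ⟨u, hu, b, hb, e⟩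
  have x' := x.resolve_left vZ
  have vr := l.ne vW
  have hs : u ≤ τ v := not_lt.1 fun j => o.aft v vW ⟨u, ⟨j, hu.2⟩, b, hb, e⟩
  obtain ⟨p0, q0, t0, H0, k0⟩ := (l.hang v vW).resolve_left (hu.1.trans_le hs).ne'
  have adj : ∀ z ∈ Z, ∀ y ∈ Icc (0 : ℝ) 1, ∀ y' ∈ Ioo (0 : ℝ) 1, G r z y ≠ G r v y' :=
    fun z hz y hy y' hy' j => hy'.1.ne' (h.adj (l.ne (S.zW z hz)) vr (fun m => vZ (m ▸ hz)) hy
      (Ioo_subset_Icc_self hy') j).2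
  refine n p0 q0 t0 H0 k0 (S.s3 h A l (l.ok H0) k0.ht (fun z hz y hy => ?_) fun w p q t kP => ?_)
  · rw [← k0.eq]
    exact adj z hz y (Ioo_subset_Icc_self hy) _ k0.hs
  rw [← k0.eq]
  obtain ⟨k, kH, wZ, qZ⟩ := S.wd w p q t kP
  have vw : v ≠ w := fun m => vZ (m ▸ wZ)
  have vq : v ≠ q := fun m => vZ (m ▸ qZ)
  have n0 := x' w p q t kP
  have n1 : ¬ On G r w (τ w) p q t (G r v (τ v)) := fun on => by
    obtain ⟨m1, m2⟩ := S.s1 h A l o.cW o.dW o.cd i kP hb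
    rw [← e] at m1 m2
    have lt : u < τ v := hs.lt_of_ne fun j => m1 (j ▸ on)
    rcases on with ⟨y, hy, j⟩ | ⟨y, hy, j⟩ | ⟨y, hy, j⟩
    · exact adj w wZ y ⟨hy.1, hy.2.trans k.hs.2.le⟩ _ k0.hs j
    · have y1 := sb_int h k.qp vr.symm ⟨k.ht.1.le.trans hy.1, hy.2⟩ k0.hs j
      have y2 : t < y := hy.1.lt_of_ne fun m => adj w wZ _ k.mt.hs _ k0.hs (k.eq.trans (m ▸ j))
      have kv := h.cr vr k.qv k.pv k.qp k0.hs y1 j.symm
      have uq : ∀ a ∈ Icc (0 : ℝ) 1, ∀ z ∈ Icc t 1, G r v a = G p q z → a = τ v :=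
        fun a ha z hz m => (kv.uq h ha ⟨k.ht.1.le.trans hz.1, hz.2⟩ m).1
      have r1 := A.ray k.mt vr vw vq hu.1 hu.2.le fun z hz m =>
        lt.ne (uq u (Ioo_subset_Icc_self hu) z hz m)
      have r2 := A.ray k.mt vr vw vq one_pos le_rfl fun z hz m =>
        k0.hs.2.ne' (uq 1 ⟨zero_le_one, le_rfl⟩ z hz m)
      have x1 : ¬ XI G p q t 1 r v 0 u := fun ⟨z, hz, a, ha, m⟩ =>
        (ha.2.trans lt).ne (uq a ⟨ha.1.le, (ha.2.trans hu.2).le⟩ z (Ioo_subset_Icc_self hz) m.symm)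
      have x2 : XI G p q t 1 r v 0 1 := ⟨y, ⟨y2, y1.2⟩, _, k0.hs, j⟩
      rw [h.g1 vr.symm] at r2
      exact sb_p4 r1 r2 x1 x2 m2 n0
    · exact adj q qZ y hy _ k0.hs j
  refine ⟨n1, ?_⟩
  have := A.same k.mt vr.symm k0.hs.1.le k0.hs.2.le le_rfl fun y hy => by
    rcases hy.1.eq_or_lt with rfl | j
    · exact n1
    rcases hy.2.eq_or_lt with rfl | j'
    · rw [h.g1 vr.symm]
      exact k.von h vr vq
    have y1 : y ∈ Ioo (0 : ℝ) 1 := ⟨k0.hs.1.trans j, j'⟩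
    exact sb_off h k vr.symm y1 (fun z hz => adj w wZ z (Ioo_subset_Icc_self hz) y y1)
      (fun z hz => adj q qZ z (Ioo_subset_Icc_self hz) y y1) fun z hz m =>
      l.aft v vW p q kH ⟨y, ⟨j, j'⟩, z, hz, m.symm⟩
  rw [Ins, this, h.g1 vr.symm]
  exact n0

end Pool.Agent.Lib.MP_3764f3_co.LT
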