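import Pool.Agent.Lib.MP_3764f3_co.MSta
import Pool.Agent.Lib.MP_3764f3_co.MSubB
import Pool.Agent.Lib.MP_3764f3_co.MCh

/-! Final states of the deletion process. -/

set_option autoImplicit false

namespace Pool.Agent.Lib.MP_3764f3_co.LT

open Set Pool.Agent.Lib.MP_3764f3_co.DC

variable {V : Type} {pos : V → ℂ} {G : V → V → ℝ → ℂ} {r : V} {rk : V → ℤ}
  {In : V → V → V → ℂ → Prop}

lemma mf_xi (h : Dr pos G) {a b c d : V} {s t : ℝ} (cd : c ≠ d) (x : XI G a b s t c d 0 1) :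
    XI G a b s t d c 0 1 := by
  obtain ⟨u, hu, w, hw, e⟩ := x
  exact ⟨u, hu, 1 - w, ⟨by linarith [hw.2], by linarith [hw.1]⟩, by
    rw [h.rev c d cd, sub_sub_cancel, e]⟩

lemma mf_x (h : Dr pos G) {a b c d : V} (cd : c ≠ d) (x : X G a b c d) : X G a b d c :=
  mf_xi h cd x

lemma mf_cx {v c d : V} {s t : ℝ} (k : Cr G r v s c d t) : X G r v c d :=
  ⟨s, k.hs, t, k.ht, k.eq⟩

lemma mf_inn (h : Dr pos G) {Z : Set V} {P : V → V → V → ℝ → Prop} {c d : V} (cd : c ≠ d)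
    (i : Inn pos G r rk In Z P c d) : Inn pos G r rk In Z P d c :=
  ⟨i.2.1, i.1, fun u hu x => i.2.2 u hu (mf_x h cd.symm x)⟩

lemma mf_emp (st : Star G r rk) {A B Y : Finset V} {τ : V → ℝ} (S : Sta G r rk A B Y ∅ τ)
    (hY : ∀ v, v ∈ A ∨ v ∈ B → v ∈ Y) : NE (Rc G) (Nb G r A B Y ∅ τ) := by
  have h0 : ∀ v ∈ Y, τ v = 0 := fun v hv => (S.hang v hv).resolve_right (by simp)
  have e : Nb G r A B Y ∅ τ =
      {e | e.1 ∈ A ∧ e.2 ∈ B ∧ ∀ w, w ∈ A ∨ w ∈ B → ¬ X G r w e.1 e.2} := by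
    ext e
    constructor
    · rintro ⟨h1, h2, -, -, h3⟩
      refine ⟨h1, h2, fun w hw => ?_⟩
      have h4 := h3 w (hY w hw)
      rwa [h0 w (hY w hw)] at h4
    · rintro ⟨h1, h2, h3⟩
      refine ⟨h1, h2, Finset.notMem_empty _, fun g hg => absurd hg (Finset.notMem_empty _),
        fun v hv => ?_⟩
      rw [h0 v hv]
      exact h3 v (S.sub v hv)
  rw [e]
  exact st A B S.rA S.rB S.nA S.nB S.lt

lemma mf_ne {A B Y : Finset V} {Φ : Finset (V × V)} {τ : V → ℝ} (S : Sta G r rk A B Y Φ τ) {a b : V}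
    (ha : a ∈ A) (hb : b ∈ B) : a ≠ b := fun e => (S.lt a ha b hb).ne (by rw [e])

lemma mf_wl [DecidableEq V] (h : Dr pos G) {A B Y : Finset V} {Φ : Finset (V × V)} {τ : V → ℝ}
    (S : Sta G r rk A B Y Φ τ) (hY : ∀ v, v ∈ A ∨ v ∈ B → v ∈ Y) :
    Wl G r (A ∪ B) (fun p q => (p, q) ∈ Φ ∨ (q, p) ∈ Φ) τ := by
  have ne : ∀ {p q : V}, (p, q) ∈ Φ → p ≠ q := fun k => mf_ne S (S.mem _ k).1 (S.mem _ k).2
  refine ⟨fun k => (Finset.mem_union.1 k).elim S.rA S.rB, fun p q k => k.symm, fun p q k => ?_,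
    fun p q c d k k' n1 n2 x => ?_, fun v hv => S.t0 v (hY v (Finset.mem_union.1 hv)),
    fun v hv p q k x => ?_, fun v hv => ?_⟩
  · rcases k with k | k
    · exact ⟨Finset.mem_union_left _ (S.mem _ k).1, Finset.mem_union_right _ (S.mem _ k).2, ne k⟩
    · exact ⟨Finset.mem_union_right _ (S.mem _ k).2, Finset.mem_union_left _ (S.mem _ k).1,
        (ne k).symm⟩
  · rcases k with k | k <;> rcases k' with k' | k' <;> rcases S.pl _ k _ k' with e | e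
    · exact n1 (Prod.mk.inj e)
    · exact e x
    · exact n2 (Prod.mk.inj e)
    · exact e (mf_x h (ne k').symm x)
    · exact n2 (Prod.mk.inj e).symm
    · exact e (mf_x h (ne k).symm x.symm).symm
    · exact n1 (Prod.mk.inj e).symm
    · exact e (mf_x h (ne k').symm (mf_x h (ne k).symm x.symm).symm)
  · have hv' := hY v (Finset.mem_union.1 hv)
    rcases k with k | k
    · exact S.aft v hv' _ k x
    · exact S.aft v hv' _ k (mf_xi h (ne k).symm x)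
  · refine (S.hang v (hY v (Finset.mem_union.1 hv))).imp_right ?_
    rintro ⟨g, hg, t, k⟩
    exact ⟨g.1, g.2, t, Or.inl hg, k⟩

theorem fin_ne [Fintype V] (h : Dr pos G) (a : Api G r rk In) (st : Star G r rk) (n : ℕ) :
    ∀ (A B Y : Finset V) (Φ : Finset (V × V)) (τ : V → ℝ), Φ.card ≤ n → Sta G r rk A B Y Φ τ →
      (∀ v, v ∈ A ∨ v ∈ B → v ∈ Y) → NE (Rc G) (Nb G r A B Y Φ τ) := by
  classical
  induction n with
  | zero =>
    intro A B Y Φ τ hn S hY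
    obtain rfl : Φ = ∅ := Finset.card_eq_zero.1 (Nat.le_zero.1 hn)
    exact mf_emp st S hY
  | succ n ih =>
    intro A B Y Φ τ hn S hY
    rcases Φ.eq_empty_or_nonempty with rfl | ⟨g0, hg0⟩
    · exact mf_emp st S hY
    have l := mf_wl h S hY
    have dj : ∀ {v : V}, v ∈ A → v ∈ B → False := fun h1 h2 => mf_ne S h1 h2 rfl
    obtain ⟨Z, P, Sy, ⟨w, p, q, t, hP⟩, ⟨a0, a0Z, a0A⟩, b0, b0Z, b0A⟩ := l.sys h a (fun v => v ∈ A)
      (fun x _ y hy hx ny => S.lt x hx y ((Finset.mem_union.1 hy).resolve_left ny))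
      (fun p q k => k.elim
        (fun k => ⟨fun _ h2 => dj h2 (S.mem _ k).2, fun _ => (S.mem _ k).1⟩)
        fun k => ⟨fun h1 _ => dj h1 (S.mem _ k).2, fun h1 => absurd (S.mem _ k).1 h1⟩)
      (fun p q k => k.elim
        (fun k => by
          obtain ⟨v, hv, t, c⟩ := S.hung _ k
          exact ⟨v, Finset.mem_union.2 (S.sub v hv), t, c⟩)
        fun k => by
          obtain ⟨v, hv, t, c⟩ := S.hung _ k
          exact ⟨v, Finset.mem_union.2 (S.sub v hv), 1 - t, c.rev h⟩)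
      ⟨g0.1, g0.2, Or.inl hg0⟩
    obtain ⟨A1, mA⟩ : ∃ A1 : Finset V, ∀ v, v ∈ A1 ↔ v ∈ A ∧ Wo pos rk In Z P v :=
      ⟨A.filter _, fun _ => Finset.mem_filter⟩
    obtain ⟨B1, mB⟩ : ∃ B1 : Finset V, ∀ v, v ∈ B1 ↔ v ∈ B ∧ Wo pos rk In Z P v :=
      ⟨B.filter _, fun _ => Finset.mem_filter⟩
    obtain ⟨Φ1, mΦ⟩ : ∃ Φ1 : Finset (V × V), ∀ g, g ∈ Φ1 ↔ g ∈ Φ ∧ Inn pos G r rk In Z P g.1 g.2 :=
      ⟨Φ.filter _, fun _ => Finset.mem_filter⟩
    obtain ⟨τ1, t1, t2⟩ : ∃ τ1 : V → ℝ,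
        (∀ v, (∃ g ∈ Φ1, ∃ t, Cr G r v (τ v) g.1 g.2 t) → τ1 v = τ v) ∧
        ∀ v, (¬ ∃ g ∈ Φ1, ∃ t, Cr G r v (τ v) g.1 g.2 t) → τ1 v = 0 :=
      ⟨fun v => if ∃ g ∈ Φ1, ∃ t, Cr G r v (τ v) g.1 g.2 t then τ v else 0,
        fun _ k => if_pos k, fun _ k => if_neg k⟩
    have mY : ∀ v, v ∈ A1 ∪ B1 ↔ v ∈ A ∪ B ∧ Wo pos rk In Z P v := fun v => by
      rw [Finset.mem_union, Finset.mem_union, mA, mB, or_and_right]
    have hc : Φ1.card ≤ n := by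
      obtain ⟨k, hH, wZ, -⟩ := Sy.wd w p q t hP
      have h1 : ∃ g ∈ Φ, g ∉ Φ1 := hH.elim
        (fun j => ⟨_, j, fun i => ((mΦ _).1 i).2.2.2 w wZ (mf_cx k)⟩)
        fun j => ⟨_, j, fun i => ((mΦ _).1 i).2.2.2 w wZ (mf_cx (k.rev h))⟩
      have h2 := Finset.card_lt_card
        ((Finset.ssubset_iff_of_subset fun g i => ((mΦ g).1 i).1).2 h1)
      omega
    have K1 : ∀ {c d : V}, Ok G r (A ∪ B) (fun p q => (p, q) ∈ Φ ∨ (q, p) ∈ Φ) τ c d →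
        Inn pos G r rk In Z P c d → ∀ v ∈ A1 ∪ B1, ¬ XI G r v (τ1 v) 1 c d 0 1 := by
      intro c d o i v hv
      obtain ⟨vW, x⟩ := (mY v).1 hv
      by_cases k : ∃ g ∈ Φ1, ∃ t, Cr G r v (τ v) g.1 g.2 t
      · rw [t1 v k]
        exact o.aft v vW
      · rw [t2 v k]
        refine Sy.kl h a l o i vW x fun p q t hH c i' => k (hH.elim (fun j => ?_) fun j => ?_)
        · exact ⟨(p, q), (mΦ _).2 ⟨j, i'⟩, t, c⟩
        · exact ⟨(q, p), (mΦ _).2 ⟨j, mf_inn h c.qp i'⟩, 1 - t, c.rev h⟩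
    have S1 : Sta G r rk A1 B1 (A1 ∪ B1) Φ1 τ1 := by
      refine ⟨fun k => S.rA ((mA _).1 k).1, fun k => S.rB ((mB _).1 k).1,
        ⟨a0, (mA _).2 ⟨a0A, Or.inl a0Z⟩⟩,
        ⟨b0, (mB _).2 ⟨(Finset.mem_union.1 (Sy.zW b0 b0Z)).resolve_left b0A, Or.inl b0Z⟩⟩,
        fun x hx y hy => S.lt x ((mA _).1 hx).1 y ((mB _).1 hy).1, fun v hv => Finset.mem_union.1 hv,
        fun g hg => ?_, fun g hg f hf => S.pl g ((mΦ _).1 hg).1 f ((mΦ _).1 hf).1, fun v hv => ?_,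
        fun v hv g hg => K1 (l.ok (Or.inl ((mΦ _).1 hg).1)) ((mΦ _).1 hg).2 v hv, fun v _ => ?_,
        fun g hg => ?_⟩
      · obtain ⟨j, i⟩ := (mΦ _).1 hg
        exact ⟨(mA _).2 ⟨(S.mem g j).1, i.1⟩, (mB _).2 ⟨(S.mem g j).2, i.2.1⟩⟩
      · by_cases k : ∃ g ∈ Φ1, ∃ t, Cr G r v (τ v) g.1 g.2 t
        · rw [t1 v k]
          exact l.t0 v ((mY v).1 hv).1
        · rw [t2 v k]
          exact ⟨le_rfl, one_pos⟩
      · by_cases k : ∃ g ∈ Φ1, ∃ t, Cr G r v (τ v) g.1 g.2 t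
        · rw [t1 v k]
          exact Or.inr k
        · exact Or.inl (t2 v k)
      · obtain ⟨j, i⟩ := (mΦ _).1 hg
        obtain ⟨v, hv, t, c⟩ := S.hung g j
        have vW := Finset.mem_union.2 (S.sub v hv)
        refine ⟨v, (mY v).2 ⟨vW, Sy.hw h a l (Or.inl j) i vW c⟩, t, ?_⟩
        rw [t1 v ⟨g, hg, t, c⟩]
        exact c
    have nI : ∀ e ∈ Nb G r A1 B1 (A1 ∪ B1) Φ1 τ1, e.1 ∈ A ∪ B ∧ e.2 ∈ A ∪ B ∧ e.1 ≠ e.2 ∧
        Inn pos G r rk In Z P e.1 e.2 := by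
      rintro e ⟨h1, h2, -, -, h3⟩
      obtain ⟨h4, h5⟩ := (mA _).1 h1
      obtain ⟨h6, h7⟩ := (mB _).1 h2
      refine ⟨Finset.mem_union_left _ h4, Finset.mem_union_right _ h6, mf_ne S h4 h6, h5, h7,
        fun u hu => ?_⟩
      have h8 := h3 u ((mY u).2 ⟨Sy.zW u hu, Or.inl hu⟩)
      rw [t2 u] at h8
      · exact h8
      · rintro ⟨g, hg, t, c⟩
        exact ((mΦ _).1 hg).2.2.2 u hu (mf_cx c)
    refine (ih A1 B1 (A1 ∪ B1) Φ1 τ1 hc S1 fun v hv => Finset.mem_union.2 hv).join _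
      (fun e he => ?_) fun x hx y hy ny => ?_
    · obtain ⟨cW, dW, cd, i⟩ := nI e he
      obtain ⟨h1, h2, h3, h4, h5⟩ := he
      refine ⟨((mA _).1 h1).1, ((mB _).1 h2).1, fun j => h3 ((mΦ _).2 ⟨j, i⟩), fun g hg x => ?_,
        fun v hv x => ?_⟩
      · by_cases j : Inn pos G r rk In Z P g.1 g.2
        · exact h4 g ((mΦ _).2 ⟨hg, j⟩) x
        · exact Sy.nx h a l cW dW cd i (l.ok (Or.inl hg)) j x.symm
      · have vW := Finset.mem_union.2 (S.sub v hv)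
        by_cases j : Wo pos rk In Z P v
        · obtain ⟨u, hu, k⟩ := x
          refine h5 v ((mY v).2 ⟨vW, j⟩) ⟨u, ⟨lt_of_le_of_lt ?_ hu.1, hu.2⟩, k⟩
          by_cases k : ∃ g ∈ Φ1, ∃ t, Cr G r v (τ v) g.1 g.2 t
          · exact (t1 v k).le
          · exact (t2 v k).le.trans (S.t0 v hv).1
        · exact Sy.far h a l cW dW cd i vW j x
    · obtain ⟨cW, dW, cd, i⟩ := nI x hx
      obtain ⟨h1, h2, h3, h4, h5⟩ := hy
      have o : Ok G r (A ∪ B) (fun p q => (p, q) ∈ Φ ∨ (q, p) ∈ Φ) τ y.1 y.2 := by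
        refine ⟨Finset.mem_union_left _ h1, Finset.mem_union_right _ h2, mf_ne S h1 h2,
          fun p q hH _ _ k => ?_, fun v hv => h5 v (hY v (Finset.mem_union.1 hv))⟩
        rcases hH with j | j
        · exact h4 _ j k
        · exact h4 _ j (mf_x h (l.mem p q (Or.inr j)).2.2 k.symm).symm
      refine Or.inr (Sy.nx h a l cW dW cd i o fun j => ny ?_)
      exact ⟨(mA _).2 ⟨h1, j.1⟩, (mB _).2 ⟨h2, j.2.1⟩, fun k => h3 ((mΦ _).1 k).1,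
        fun g hg => h4 g ((mΦ _).1 hg).1, K1 o j⟩

end Pool.Agent.Lib.MP_3764f3_co.LT
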