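import Pool.Agent.Lib.MP_3764f3_co.MRed

/-! Plane perfect matchings in simple drawings of complete graphs. -/

set_option autoImplicit false

namespace Pool.Agent.Lib.MP_3764f3_co.LT

open Finset Pool.Agent.Lib.MP_3764f3_co.DC

lemma top_set {V : Type} [DecidableEq V] (rk : V → ℤ) (S : Finset V)
    (hi : ∀ a ∈ S, ∀ b ∈ S, a ≠ b → rk a ≠ rk b) (k : ℕ) (hk : k ≤ S.card) :
    ∃ B ⊆ S, B.card = k ∧ ∀ x ∈ S, x ∉ B → ∀ y ∈ B, rk x < rk y := by
  induction k with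
  | zero => exact ⟨∅, empty_subset _, rfl, by simp⟩
  | succ k ih =>
    obtain ⟨B, h1, h2, h3⟩ := ih (by omega)
    have hn : (S \ B).Nonempty := by
      rw [← card_pos, card_sdiff_of_subset h1]
      omega
    obtain ⟨m, hm, h4⟩ := (S \ B).exists_max_image rk hn
    obtain ⟨m1, m2⟩ := mem_sdiff.mp hm
    refine ⟨insert m B, insert_subset m1 h1, by rw [card_insert_of_notMem m2, h2], ?_⟩
    intro x hx hx2 y hy
    rw [mem_insert, not_or] at hx2
    rcases mem_insert.mp hy with rfl | hy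
    · exact lt_of_le_of_ne (h4 x (mem_sdiff.mpr ⟨hx, hx2.2⟩)) (hi x hx y m1 hx2.1)
    · exact h3 x hx hx2.2 y hy

variable {V : Type} {pos : V → ℂ} {G : V → V → ℝ → ℂ}

theorem Dr.matching [Fintype V] [DecidableEq V] (h : Dr pos G) (r : V)
    (hst : ∀ rk In, Api G r rk In → Star G r rk) :
    ∃ (A B : Finset V) (f : V → V), A.card = Fintype.card V / 2 ∧ Disjoint A B ∧ Set.InjOn f A ∧
      (∀ a ∈ A, f a ∈ B) ∧ ∀ a ∈ A, ∀ a' ∈ A, a ≠ a' → ¬ X G a (f a) a' (f a') := by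
  obtain ⟨rk, In, a⟩ := h.api r
  have c1 : 0 < Fintype.card V := Fintype.card_pos_iff.mpr ⟨r⟩
  obtain ⟨B, h1, h2, h3⟩ := top_set rk (univ.erase r)
    (fun x hx y hy => a.inj x y (ne_of_mem_erase hx) (ne_of_mem_erase hy)) (Fintype.card V / 2)
    (by rw [card_erase_of_mem (mem_univ r), card_univ]; omega)
  obtain ⟨A, h4, h5⟩ := exists_subset_card_eq (s := Bᶜ) (n := Fintype.card V / 2)
    (by rw [card_compl, h2]; omega)
  have rB : r ∉ B := fun k => ne_of_mem_erase (h1 k) rfl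
  have hd : Disjoint A B := disjoint_left.mpr fun x hx => mem_compl.mp (h4 hx)
  obtain ⟨f, f1, f2, f3⟩ := bip A B hd (h5.trans h2.symm) (R := Rc G)
    (fun e f k => k.elim (fun k => Or.inl k.symm) fun k => Or.inr fun x => k x.symm)
    fun A' hA B' hB nA nB => red_ne h a (hst rk In a) A' B' (fun k => rB (hB k)) nA nB
      fun x hx y hy => by
        by_cases e : x = r
        · exact Or.inl e
        · exact Or.inr (h3 x (mem_erase.mpr ⟨e, mem_univ x⟩) (mem_compl.mp (h4 (hA hx))) y (hB hy))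
  exact ⟨A, B, f, h5, hd, f1, f2, fun x hx y hy k =>
    (f3 x hx y hy).resolve_left fun e => k (congrArg Prod.fst e)⟩

theorem perfect (n : ℕ) (pos : Fin n → ℝ × ℝ) (c : Fin n → Fin n → ℝ → ℝ × ℝ)
    (h0 : Function.Injective pos)
    (h1 : ∀ i j : Fin n, i < j →
      ContinuousOn (c i j) (Set.Icc 0 1) ∧ Set.InjOn (c i j) (Set.Icc 0 1) ∧
      c i j 0 = pos i ∧ c i j 1 = pos j ∧
      ∀ k : Fin n, ∀ s ∈ Set.Ioo (0:ℝ) 1, c i j s ≠ pos k)
    (p : Fin n → ℂ) (G : Fin n → Fin n → ℝ → ℂ) (hG : Dr p G)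
    (e : ∀ i j k l, i ≠ j → k ≠ l → ¬ X G i j k l → ∀ s ∈ Set.Ioo (0:ℝ) 1, ∀ t ∈ Set.Ioo (0:ℝ) 1,
      c (min i j) (max i j) s ≠ c (min k l) (max k l) t)
    (hst : ∀ r rk In, Api G r rk In → Star G r rk) :
    ∃ M : Finset (Fin n × Fin n), M.card = n / 2 ∧ (∀ e ∈ M, e.1 < e.2) ∧
      ∀ e ∈ M, ∀ f ∈ M, e ≠ f → ∀ s ∈ Set.Icc (0:ℝ) 1, ∀ t ∈ Set.Icc (0:ℝ) 1,
        c e.1 e.2 s ≠ c f.1 f.2 t := by
  rcases Nat.eq_zero_or_pos n with rfl | hn
  · exact ⟨∅, rfl, by simp, by simp⟩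
  obtain ⟨A, B, π, m0, m1, m2, m3, m4⟩ := hG.matching ⟨0, hn⟩ (hst _)
  have k1 : ∀ v ∈ A, ∀ w ∈ A, v ≠ π w := fun v hv w hw k =>
    disjoint_left.mp m1 hv (k ▸ m3 w hw)
  have lt : ∀ v ∈ A, min v (π v) < max v (π v) := fun v hv => min_lt_max.mpr (k1 v hv v hv)
  have ds : ∀ v ∈ A, ∀ w ∈ A, v ≠ w → ∀ x, (x = min v (π v) ∨ x = max v (π v)) →
      (x = min w (π w) ∨ x = max w (π w)) → False := by
    intro v hv w hw h x a b
    have a1 := k1 v hv w hw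
    have a2 := k1 w hw v hv
    have a3 : π v ≠ π w := fun k => h (m2 hv hw k)
    grind
  refine ⟨A.image fun v => (min v (π v), max v (π v)), ?_, ?_, ?_⟩
  · rw [card_image_of_injOn fun v hv w hw h => by
      by_contra k
      exact ds v hv w hw k _ (Or.inl rfl) (Or.inl (congrArg Prod.fst h))]
    simpa using m0
  · simp only [mem_image]
    rintro _ ⟨v, hv, rfl⟩
    exact lt v hv
  · simp only [mem_image]
    rintro _ ⟨v, hv, rfl⟩ _ ⟨w, hw, rfl⟩ h s hs t ht e1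
    have vw : v ≠ w := fun k => h (by rw [k])
    obtain ⟨-, -, a1, a2, a3⟩ := h1 _ _ (lt v hv)
    obtain ⟨-, -, b1, b2, b3⟩ := h1 _ _ (lt w hw)
    simp only at e1
    rcases tri hs with rfl | rfl | hs <;> rcases tri ht with rfl | rfl | ht
    · exact ds v hv w hw vw _ (Or.inl rfl) (Or.inl (h0 (a1.symm.trans (e1.trans b1))))
    · exact ds v hv w hw vw _ (Or.inl rfl) (Or.inr (h0 (a1.symm.trans (e1.trans b2))))
    · exact b3 _ t ht (e1.symm.trans a1)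
    · exact ds v hv w hw vw _ (Or.inr rfl) (Or.inl (h0 (a2.symm.trans (e1.trans b1))))
    · exact ds v hv w hw vw _ (Or.inr rfl) (Or.inr (h0 (a2.symm.trans (e1.trans b2))))
    · exact b3 _ t ht (e1.symm.trans a2)
    · exact a3 _ s hs (e1.trans b1)
    · exact a3 _ s hs (e1.trans b2)
    · exact e _ _ _ _ (k1 v hv v hv) (k1 w hw w hw) (m4 v hv w hw vw) s hs t ht e1

end Pool.Agent.Lib.MP_3764f3_co.LT
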