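import Pool.Agent.Lib.MP_3764f3_co.MFin

/-! Reduction of the complex of plane two-coloured edge sets to complexes of chords. -/

set_option autoImplicit false

namespace Pool.Agent.Lib.MP_3764f3_co.LT

open Set Pool.Agent.Lib.MP_3764f3_co.DC

variable {V : Type} {pos : V → ℂ} {G : V → V → ℝ → ℂ} {r : V} {rk : V → ℤ}
  {In : V → V → V → ℂ → Prop}

lemma Sta.step [DecidableEq V] {A B Y : Finset V} {Φ Ψ : Finset (V × V)} {τ : V → ℝ} {v : V} {s : ℝ}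
    (S : Sta G r rk A B Y Φ τ) (vY : v ∉ Y) (hv : v ∈ A ∨ v ∈ B) (sub : Φ ⊆ Ψ)
    (hs : s ∈ Ico (0 : ℝ) 1) (mem : ∀ g ∈ Ψ, g.1 ∈ A ∧ g.2 ∈ B) (pl : ∀ g ∈ Ψ, ∀ f ∈ Ψ, Rc G g f)
    (a1 : ∀ g ∈ Ψ, ¬ XI G r v s 1 g.1 g.2 0 1)
    (a2 : ∀ w ∈ Y, ∀ g ∈ Ψ, ¬ XI G r w (τ w) 1 g.1 g.2 0 1)
    (hang : s = 0 ∨ ∃ g ∈ Ψ, ∃ t, Cr G r v s g.1 g.2 t)
    (hung : ∀ g ∈ Ψ, g ∈ Φ ∨ ∃ t, Cr G r v s g.1 g.2 t) :
    Sta G r rk A B (insert v Y) Ψ (Function.update τ v s) := by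
  have u : ∀ w ∈ Y, Function.update τ v s w = τ w := fun w hw =>
    Function.update_of_ne (ne_of_mem_of_not_mem hw vY) _ _
  have u0 : Function.update τ v s v = s := Function.update_self ..
  refine ⟨S.rA, S.rB, S.nA, S.nB, S.lt, ?_, mem, pl, ?_, ?_, ?_, fun g hg => ?_⟩
  · simpa using ⟨hv, S.sub⟩
  · rw [Finset.forall_mem_insert, u0]
    exact ⟨hs, fun w hw => (u w hw).symm ▸ S.t0 w hw⟩
  · rw [Finset.forall_mem_insert, u0]
    exact ⟨a1, fun w hw => (u w hw).symm ▸ a2 w hw⟩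
  · rw [Finset.forall_mem_insert, u0]
    exact ⟨hang, fun w hw => (u w hw).symm ▸
      (S.hang w hw).imp_right fun ⟨g, hg, k⟩ => ⟨g, sub hg, k⟩⟩
  · rcases hung g hg with k | k
    · obtain ⟨w, hw, j⟩ := S.hung g k
      exact ⟨w, by simp [hw], (u w hw).symm ▸ j⟩
    · exact ⟨v, by simp, u0.symm ▸ k⟩

lemma Nb_step [DecidableEq V] {A B Y : Finset V} {Φ : Finset (V × V)} {τ : V → ℝ} {v : V} {s : ℝ}
    (vY : v ∉ Y) {e : V × V} : e ∈ Nb G r A B (insert v Y) Φ (Function.update τ v s) ↔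
      e ∈ Nb G r A B Y Φ τ ∧ ¬ XI G r v s 1 e.1 e.2 0 1 := by
  have u : (∀ w ∈ Y, ¬ XI G r w (Function.update τ v s w) 1 e.1 e.2 0 1) ↔
      ∀ w ∈ Y, ¬ XI G r w (τ w) 1 e.1 e.2 0 1 := forall₂_congr fun w hw => by
    rw [Function.update_of_ne (ne_of_mem_of_not_mem hw vY)]
  simp only [Nb, mem_ofPred_eq, Finset.forall_mem_insert, Function.update_self, u]
  tauto

theorem all_ne [Fintype V] (h : Dr pos G) (a : Api G r rk In) (st : Star G r rk) (n : ℕ) :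
    ∀ (A B Y : Finset V) (Φ : Finset (V × V)) (τ : V → ℝ), Fintype.card V ≤ Y.card + n →
      Sta G r rk A B Y Φ τ → NE (Rc G) (Nb G r A B Y Φ τ) := by
  classical
  induction n with
  | zero =>
    intro A B Y Φ τ hc S
    refine fin_ne h a st _ A B Y Φ τ le_rfl S fun v _ => ?_
    rw [Finset.eq_univ_of_card Y ((Finset.card_le_univ Y).antisymm hc)]
    exact Finset.mem_univ v
  | succ n ih =>
    intro A B Y Φ τ hc S
    by_cases hall : ∀ v, v ∈ A ∨ v ∈ B → v ∈ Y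
    · exact fin_ne h a st _ A B Y Φ τ le_rfl S hall
    push Not at hall
    obtain ⟨v, hv, vY⟩ := hall
    have hc' : Fintype.card V ≤ (insert v Y).card + n := by
      rw [Finset.card_insert_of_notMem vY]
      omega
    have vr : v ≠ r := by
      rintro rfl
      exact hv.elim S.rA S.rB
    obtain ⟨key, hk⟩ : ∃ key : V × V → ℝ, ∀ e, e.1 ∈ A → e.2 ∈ B →
        key e = 0 ∧ ¬ X G r v e.1 e.2 ∨ ∃ t, Cr G r v (key e) e.1 e.2 t := by
      refine ⟨fun e => if x : X G r v e.1 e.2 then x.choose else 0, fun e h1 h2 => ?_⟩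
      by_cases x : X G r v e.1 e.2
      · obtain ⟨hs, t, ht, k⟩ := x.choose_spec
        simp only [dif_pos x]
        exact .inr ⟨t, h.cr vr (ne_of_mem_of_not_mem h1 S.rA) (ne_of_mem_of_not_mem h2 S.rB)
          (fun j => (S.lt _ h1 _ h2).ne (congrArg rk j)) hs ht k⟩
      · exact .inl ⟨dif_neg x, x⟩
    have cr : ∀ e : V × V, e.1 ∈ A → e.2 ∈ B → 0 < key e → ∃ t, Cr G r v (key e) e.1 e.2 t :=
      fun e h1 h2 k => (hk e h1 h2).resolve_left fun j => k.ne' j.1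
    have ch : ∀ e : V × V, e.1 ∈ A → e.2 ∈ B → ∀ s, 0 ≤ s →
        (XI G r v s 1 e.1 e.2 0 1 ↔ s < key e) := by
      refine fun e h1 h2 s hs => ⟨fun ⟨u, hu, w, hw, k⟩ => ?_, fun k => ?_⟩
      · have m : u ∈ Ioo (0 : ℝ) 1 := ⟨hs.trans_lt hu.1, hu.2⟩
        obtain ⟨t, c⟩ := (hk e h1 h2).resolve_left fun j => j.2 ⟨u, m, w, hw, k⟩
        exact (c.uq h (Ioo_subset_Icc_self m) (Ioo_subset_Icc_self hw) k).1 ▸ hu.1
      · obtain ⟨t, c⟩ := cr e h1 h2 (hs.trans_lt k)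
        exact ⟨_, ⟨k, c.hs.2⟩, t, c.ht, c.eq⟩
    obtain ⟨s, s0, s1, s2⟩ : ∃ s ∈ Ico (0 : ℝ) 1, (∀ g ∈ Φ, key g ≤ s) ∧
        (s = 0 ∨ ∃ g ∈ Φ, ∃ t, Cr G r v s g.1 g.2 t) := by
      rcases Φ.eq_empty_or_nonempty with rfl | hn
      · exact ⟨0, by simp, by simp, .inl rfl⟩
      obtain ⟨g, hg, k⟩ := Φ.exists_max_image key hn
      rcases hk g (S.mem g hg).1 (S.mem g hg).2 with j | ⟨t, c⟩
      · exact ⟨0, by simp, j.1 ▸ k, .inl rfl⟩
      · exact ⟨_, Ioo_subset_Ico_self c.hs, k, .inr ⟨g, hg, t, c⟩⟩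
    obtain ⟨D, hD⟩ : ∃ D : Finset (V × V), ∀ e, e ∈ D ↔ e ∈ Nb G r A B Y Φ τ ∧ s < key e :=
      ⟨Finset.univ.filter fun e => e ∈ Nb G r A B Y Φ τ ∧ s < key e, by simp⟩
    refine strat key D _ (fun g hg => ((hD g).mp hg).1) (fun g hg e he n k => ?_) ?_ fun g hg => ?_
    · obtain ⟨g1, g2⟩ := (hD g).mp hg
      obtain ⟨e1, e2⟩ := (hD e).mp he
      obtain ⟨t, c⟩ := cr g g1.1 g1.2.1 (s0.1.trans_lt g2)
      obtain ⟨t', c'⟩ := cr e e1.1 e1.2.1 (s0.1.trans_lt e2)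
      exact fun j => j.resolve_left n ⟨t, c.ht, t', c'.ht, by rw [← c.eq, ← c'.eq, k]⟩
    · convert ih A B _ Φ _ hc' (S.step vY hv subset_rfl s0 S.mem S.pl (fun g hg j => (s1 g hg).not_gt
        ((ch g (S.mem g hg).1 (S.mem g hg).2 s s0.1).mp j)) S.aft s2 fun g hg => .inl hg) using 1
      ext e
      rw [Nb_step vY, mem_ofPred_eq, hD]
      refine and_congr_right fun k => ?_
      rw [ch e k.1 k.2.1 s s0.1, and_iff_right k]
    · obtain ⟨g1, g2⟩ := (hD g).mp hg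
      have p := s0.1.trans_lt g2
      obtain ⟨t, c⟩ := cr g g1.1 g1.2.1 p
      convert ih A B _ (insert g Φ) _ hc' (S.step vY hv (Finset.subset_insert g Φ)
        (Ioo_subset_Ico_self c.hs) ?_ ?_ ?_ ?_ (.inr ⟨g, by simp, t, c⟩) ?_) using 1
      · ext e
        rw [Nb_step vY, mem_ofPred_eq, hD]
        refine ⟨fun ⟨k1, k2, k3, k4⟩ => ⟨⟨k1.1, k1.2.1, ?_, ?_, k1.2.2.2.2⟩, ?_⟩,
          fun ⟨⟨k1, k2, k3, k4, k5⟩, k6⟩ => ?_⟩
        · simp [k2, k1.2.2.1]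
        · rw [Finset.forall_mem_insert]
          exact ⟨k3.resolve_left k2.symm, k1.2.2.2.1⟩
        · rw [ch e k1.1 k1.2.1 _ p.le]
          exact fun j => k4 ⟨⟨k1, g2.trans j⟩, j⟩
        · rw [Finset.mem_insert, not_or] at k3
          rw [Finset.forall_mem_insert] at k4
          rw [ch e k1 k2 _ p.le] at k6
          exact ⟨⟨k1, k2, k3.2, k4.2, k5⟩, k3.1, .inr k4.1, fun j => k6 j.2⟩
      · rw [Finset.forall_mem_insert]
        exact ⟨⟨g1.1, g1.2.1⟩, S.mem⟩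
      · simp only [Finset.forall_mem_insert]
        exact ⟨⟨.inl rfl, fun f hf => .inr fun x => g1.2.2.2.1 f hf x.symm⟩,
          fun f hf => ⟨.inr (g1.2.2.2.1 f hf), S.pl f hf⟩⟩
      · rw [Finset.forall_mem_insert, ch g g1.1 g1.2.1 _ p.le]
        exact ⟨lt_irrefl _, fun f hf j => ((s1 f hf).trans g2.le).not_gt
          ((ch f (S.mem f hf).1 (S.mem f hf).2 _ p.le).mp j)⟩
      · intro w hw
        rw [Finset.forall_mem_insert]
        exact ⟨g1.2.2.2.2 w hw, S.aft w hw⟩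
      · rw [Finset.forall_mem_insert]
        exact ⟨.inr ⟨t, c⟩, fun f hf => .inl hf⟩

theorem red_ne [Fintype V] (h : Dr pos G) (a : Api G r rk In) (st : Star G r rk) (A B : Finset V)
    (rB : r ∉ B) (nA : A.Nonempty) (nB : B.Nonempty)
    (lt : ∀ x ∈ A, ∀ y ∈ B, x = r ∨ rk x < rk y) : NE (Rc G) {e | e.1 ∈ A ∧ e.2 ∈ B} := by
  classical
  have nx : ∀ y ∈ B, ∀ z ∈ B, Rc G (r, y) (r, z) := fun y hy z hz => by
    by_cases e : y = z
    · exact .inl (by rw [e])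
    · exact .inr fun ⟨s, hs, t, ht, k⟩ => hs.1.ne' (h.adj (ne_of_mem_of_not_mem hy rB)
        (ne_of_mem_of_not_mem hz rB) e (Ioo_subset_Icc_self hs) (Ioo_subset_Icc_self ht) k).1
  rcases (A.erase r).eq_empty_or_nonempty with he | hn
  · have k : ∀ x ∈ A, x = r := fun x hx => by_contra fun j =>
      Finset.notMem_empty x (he ▸ Finset.mem_erase.mpr ⟨j, hx⟩)
    obtain ⟨x, hx⟩ := nA
    obtain ⟨y, hy⟩ := nB
    refine .cone (c := (r, y)) ⟨k x hx ▸ hx, hy⟩ fun ⟨c, d⟩ j => ?_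
    obtain rfl : c = r := k c j.1
    exact nx y hy d j.2
  have main : ∀ Y : Finset V, Y ⊆ B → ∀ Z : Finset V, Z ⊆ B →
      NE (Rc G) {e | e ∈ Nb G r (A.erase r) B Z ∅ (fun _ => 0) ∨ e.1 = r ∧ e.2 ∈ Y} := by
    intro Y
    induction Y using Finset.induction_on with
    | empty =>
      intro _ Z hZ
      simpa using all_ne h a st (Fintype.card V) (A.erase r) B Z ∅ (fun _ => 0) (by omega)
        ⟨by simp, rB, hn, nB, fun x hx y hy => (lt x (Finset.mem_of_mem_erase hx) y hy).resolve_left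
          (Finset.ne_of_mem_erase hx), fun v hv => .inr (hZ hv), by simp, by simp, by simp, by simp,
          fun _ _ => .inl rfl, by simp⟩
    | insert y Y yY ih =>
      intro hY Z hZ
      rw [Finset.insert_subset_iff] at hY
      have n1 : ∀ e ∈ Nb G r (A.erase r) B Z ∅ (fun _ => 0), e ≠ (r, y) := fun e k j =>
        Finset.ne_of_mem_erase k.1 (congrArg Prod.fst j)
      have n2 : ∀ e : V × V, e.2 ∈ Y → e ≠ (r, y) := fun e k j => yY (by simpa [j] using k)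
      have n3 : ∀ e : V × V, e ≠ (r, y) → e.1 = r → e.2 ∈ insert y Y → e.2 ∈ Y := fun e k i j =>
        (Finset.mem_insert.mp j).resolve_left fun l => k (Prod.ext i l)
      refine .del (f := (r, y)) (.inr ⟨rfl, by simp⟩) ?_ ?_
      · convert ih hY.2 Z hZ using 1
        ext e
        exact ⟨fun k => k.1.imp_right fun j => ⟨j.1, n3 e k.2 j.1 j.2⟩, fun k => k.elim
          (fun j => ⟨.inl j, n1 e j⟩) fun j => ⟨.inr ⟨j.1, by simp [j.2]⟩, n2 e j.2⟩⟩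
      · convert ih hY.2 (insert y Z) (Finset.insert_subset hY.1 hZ) using 1
        ext e
        refine ⟨fun k => k.1.imp (fun j => ⟨j.1, j.2.1, j.2.2.1, j.2.2.2.1, ?_⟩)
          fun j => ⟨j.1, n3 e k.2.1 j.1 j.2⟩, ?_⟩
        · rw [Finset.forall_mem_insert]
          exact ⟨k.2.2.resolve_left k.2.1.symm, j.2.2.2.2⟩
        rintro (⟨k1, k2, k3, k4, k5⟩ | ⟨k1, k2⟩)
        · rw [Finset.forall_mem_insert] at k5
          exact ⟨.inl ⟨k1, k2, k3, k4, k5.2⟩, n1 e ⟨k1, k2, k3, k4, k5.2⟩, .inr k5.1⟩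
        · refine ⟨.inr ⟨k1, by simp [k2]⟩, n2 e k2, ?_⟩
          rw [show e = (r, e.2) from Prod.ext k1 rfl]
          exact nx y hY.1 _ (hY.2 k2)
  by_cases rA : r ∈ A
  · convert main B subset_rfl ∅ (by simp) using 1
    ext ⟨c, d⟩
    by_cases e : c = r <;> simp [Nb, e, rA]
  · simpa [Nb, Finset.erase_eq_of_notMem rA] using main ∅ (by simp) ∅ (by simp)

end Pool.Agent.Lib.MP_3764f3_co.LT
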