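import Pool.Agent.Lib.MP_3764f3_co.MWl
import Pool.Agent.Lib.MP_3764f3_co.MChain

/-! States of the deletion process. -/

set_option autoImplicit false

namespace Pool.Agent.Lib.MP_3764f3_co.LT

open Set Pool.Agent.Lib.MP_3764f3_co.DC

variable {V : Type} {pos : V → ℂ} {G : V → V → ℝ → ℂ} {r : V} {rk : V → ℤ}
  {In : V → V → V → ℂ → Prop}

/-- Deleting the elements of `D` in the order of decreasing key. -/
lemma strat {α : Type} {R : α → α → Prop} (key : α → ℝ) (D : Finset α) :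
    ∀ U : Set α, (∀ g ∈ D, g ∈ U) → (∀ g ∈ D, ∀ e ∈ D, g ≠ e → key g = key e → ¬ R g e) →
      NE R {e | e ∈ U ∧ e ∉ D} →
      (∀ g ∈ D, NE R {e | e ∈ U ∧ e ≠ g ∧ R g e ∧ ¬ (e ∈ D ∧ key g < key e)}) → NE R U := by
  classical
  induction D using Finset.induction_on_max_value key with
  | empty => exact fun U _ _ h _ => by simpa using h
  | insert g D hg hm ih =>
    intro U h1 h2 h3 h4
    have m := @Finset.mem_insert_of_mem _ _ D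
    have n : ∀ x ∈ D, x ≠ g := fun x hx e => hg (e ▸ hx)
    refine .del (h1 g (by simp)) (ih _ (fun x hx => ⟨h1 x (m hx), n x hx⟩)
      (fun x hx y hy => h2 x (m hx) y (m hy)) ?_ fun x hx => ?_) ?_
    · convert h3 using 1
      ext e
      simp only [mem_ofPred_eq, Finset.mem_insert]
      tauto
    · convert h4 x (m hx) using 1
      ext e
      simp only [mem_ofPred_eq, Finset.mem_insert]
      refine ⟨by tauto, fun k => ⟨⟨k.1, ?_⟩, k.2.1, k.2.2.1, by tauto⟩⟩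
      rintro rfl
      exact h2 x (m hx) e (by simp) (n x hx)
        ((hm x hx).antisymm (not_lt.mp fun j => k.2.2.2 ⟨.inl rfl, j⟩)) k.2.2.1
    · convert h4 g (by simp) using 1
      ext e
      simp only [mem_ofPred_eq, Finset.mem_insert]
      refine ⟨fun k => ⟨k.1, k.2.1, k.2.2, fun j => ?_⟩, fun k => ⟨k.1, k.2.1, k.2.2.1⟩⟩
      exact (hm e (j.1.resolve_left k.2.1)).not_gt j.2

/-- Two edges are equal or do not cross. -/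
def Rc (G : V → V → ℝ → ℂ) (e f : V × V) : Prop := e = f ∨ ¬ X G e.1 e.2 f.1 f.2

/-- The statement on chords. -/
def Star (G : V → V → ℝ → ℂ) (r : V) (rk : V → ℤ) : Prop :=
  ∀ A B : Finset V, r ∉ A → r ∉ B → A.Nonempty → B.Nonempty → (∀ a ∈ A, ∀ b ∈ B, rk a < rk b) →
    NE (Rc G) {e | e.1 ∈ A ∧ e.2 ∈ B ∧ ∀ w, w ∈ A ∨ w ∈ B → ¬ X G r w e.1 e.2}

/-- A state of the deletion process: walls are fixed for the vertices in `Y`. -/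
structure Sta (G : V → V → ℝ → ℂ) (r : V) (rk : V → ℤ) (A B Y : Finset V) (Φ : Finset (V × V))
    (τ : V → ℝ) : Prop where
  rA : r ∉ A
  rB : r ∉ B
  nA : A.Nonempty
  nB : B.Nonempty
  lt : ∀ a ∈ A, ∀ b ∈ B, rk a < rk b
  sub : ∀ v ∈ Y, v ∈ A ∨ v ∈ B
  mem : ∀ g ∈ Φ, g.1 ∈ A ∧ g.2 ∈ B
  pl : ∀ g ∈ Φ, ∀ f ∈ Φ, Rc G g f
  t0 : ∀ v ∈ Y, τ v ∈ Ico (0 : ℝ) 1
  aft : ∀ v ∈ Y, ∀ g ∈ Φ, ¬ XI G r v (τ v) 1 g.1 g.2 0 1
  hang : ∀ v ∈ Y, τ v = 0 ∨ ∃ g ∈ Φ, ∃ t, Cr G r v (τ v) g.1 g.2 t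
  hung : ∀ g ∈ Φ, ∃ v ∈ Y, ∃ t, Cr G r v (τ v) g.1 g.2 t

/-- The edges left in a state. -/
def Nb (G : V → V → ℝ → ℂ) (r : V) (A B Y : Finset V) (Φ : Finset (V × V)) (τ : V → ℝ) :
    Set (V × V) :=
  {e | e.1 ∈ A ∧ e.2 ∈ B ∧ e ∉ Φ ∧ (∀ g ∈ Φ, ¬ X G g.1 g.2 e.1 e.2) ∧
    ∀ v ∈ Y, ¬ XI G r v (τ v) 1 e.1 e.2 0 1}

end Pool.Agent.Lib.MP_3764f3_co.LT
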