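import Pool.Agent.Lib.MP_3764f3_co.MSta

/-! The complex of chords which cross no edge at the root. -/

set_option autoImplicit false

namespace Pool.Agent.Lib.MP_3764f3_co.LT

open Set Pool.Agent.Lib.MP_3764f3_co.DC

variable {V : Type} {pos : V → ℂ} {G : V → V → ℝ → ℂ} {r : V} {rk : V → ℤ}
  {In : V → V → V → ℂ → Prop}

lemma X.rev (h : Dr pos G) {i j k l : V} (kl : k ≠ l) (x : X G i j k l) : X G i j l k := by
  obtain ⟨s, hs, t, ht, e⟩ := x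
  exact ⟨s, hs, 1 - t, ⟨by linarith [ht.2], by linarith [ht.1]⟩, by rw [h.rev k l kl, sub_sub_cancel, e]⟩

lemma Dr.nadj (h : Dr pos G) {i j k l : V} (ij : i ≠ j) (kl : k ≠ l) (n1 : ¬ (i = k ∧ j = l))
    (n2 : ¬ (i = l ∧ j = k)) (e : i = k ∨ i = l ∨ j = k ∨ j = l) : ¬ X G i j k l :=
  h.nx ij kl n1 n2 (sc_z (by tauto))

lemma Dr.k4 (h : Dr pos G) {a b c : V} (ar : a ≠ r) (br : b ≠ r) (cr : c ≠ r) (ab : a ≠ b)
    (ac : a ≠ c) (bc : b ≠ c) (x : X G r a b c) : ¬ X G r b a c :=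
  h.nx br.symm ac (by tauto) (by tauto)
    (h.l1 r a b c ((h.sII ar.symm br.symm cr.symm ab ac bc).2.mpr x))

/-- An inner point of an edge on the closed curve. -/
lemma Mt.inn (h : Dr pos G) {w p q c d : V} {s t u : ℝ} (m : Mt G r w s p q t) (cd : c ≠ d)
    (hu : u ∈ Ioo (0 : ℝ) 1) (k : On G r w s p q t (G c d u)) :
    (∃ x ∈ Ioo (0 : ℝ) 1, G r w x = G c d u) ∨ (∃ x ∈ Ioo (0 : ℝ) 1, G p q x = G c d u) ∨
      ∃ x ∈ Ioo (0 : ℝ) 1, G r q x = G c d u := by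
  have f : ∀ i j, i ≠ j → ∀ x ∈ Icc (0 : ℝ) 1, G i j x = G c d u → ∃ x ∈ Ioo (0 : ℝ) 1,
      G i j x = G c d u := fun i j ij x hx e => by
    rcases tri hx with rfl | rfl | l
    · exact absurd (e.symm.trans (h.g0 _ _ ij)) (h.avoid c d cd _ u hu)
    · exact absurd (e.symm.trans (h.g1 ij)) (h.avoid c d cd _ u hu)
    · exact ⟨x, l, e⟩
  obtain ⟨x, hx, e⟩ | ⟨x, hx, e⟩ | ⟨x, hx, e⟩ := k
  · exact Or.inl (f _ _ m.wr.symm x ⟨hx.1, hx.2.trans m.hs.2⟩ e)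
  · exact Or.inr (Or.inl (f _ _ m.pq x ⟨m.ht.1.trans hx.1, hx.2⟩ e))
  · exact Or.inr (Or.inr (f _ _ m.qr.symm x hx e))

lemma Api.tv (A : Api G r rk In) (h : Dr pos G) {a b c : V} (ar : a ≠ r) (br : b ≠ r) (ab : a ≠ b)
    (cr : c ≠ r) (ca : c ≠ a) (cb : c ≠ b) :
    In a a b (pos c) ↔ ¬ (cz rk a c b ↔ X G r c a b) := by
  rw [← h.g1 cr.symm, A.ray (h.tri ar br ab) cr ca cb one_pos le_rfl fun v hv e =>
    h.ne ab ca.symm cb.symm v hv (e.symm.trans (h.g1 cr.symm))]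
  exact not_congr (iff_congr Iff.rfl ⟨X.symm, X.symm⟩)

/-- An edge whose ends are separated by a triangle from one of its inner points. -/
lemma Api.lv (A : Api G r rk In) (h : Dr pos G) {a b c d e : V} (ar : a ≠ r) (br : b ≠ r) (ab : a ≠ b)
    (cr : c ≠ r) (dr : d ≠ r) (cd : c ≠ d) (er : e ≠ r) (ea : e ≠ a) (eb : e ≠ b)
    (n : ¬ X G r e a b) (x : X G r e c d)
    (hc : c = a ∨ c = b ∨ ¬ ((cz rk a c b ↔ X G r c a b) ↔ ¬ cz rk a e b))
    (hd : d = a ∨ d = b ∨ ¬ ((cz rk a d b ↔ X G r d a b) ↔ ¬ cz rk a e b)) :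
    X G r a c d ∨ X G r b c d := by
  by_contra hn
  rw [not_or] at hn
  have n1 : ¬ (a = c ∧ b = d) := by
    rintro ⟨rfl, rfl⟩
    exact n x
  have n2 : ¬ (a = d ∧ b = c) := by
    rintro ⟨rfl, rfl⟩
    exact n (x.rev h cd)
  obtain ⟨s, hs, u, hu, e1⟩ := x
  have m := h.tri ar br ab
  have e2 : In a a b (G c d u) ↔ cz rk a e b := by
    rw [← e1, A.ray m er ea eb hs.1 hs.2.le fun v hv k => ?_]
    · have : ¬ XI G a b 0 1 r e 0 s := fun ⟨v, hv, y, hy, k⟩ => n ⟨y, ⟨hy.1, hy.2.trans hs.2⟩, v, hv, k.symm⟩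
      simp only [this, iff_false, not_not]
    · rcases h.cases er.symm ab (Ioo_subset_Icc_self hs) hv k with l | l | l | l | l
      · exact n ⟨s, l.1, v, l.2, k⟩
      all_goals linarith [l.1, hs.1, hs.2]
  have f : ∀ y ∈ Ioo (0 : ℝ) 1, On G r a 1 a b 0 (G c d y) → ∃ x ∈ Ioo (0 : ℝ) 1, G a b x = G c d y :=
    fun y hy k => by
      rcases m.inn h cd hy k with ⟨x, hx, k⟩ | k | ⟨x, hx, k⟩
      exacts [absurd ⟨x, hx, y, hy, k⟩ hn.1, k, absurd ⟨x, hx, y, hy, k⟩ hn.2]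
  have f0 : ¬ On G r a 1 a b 0 (G c d u) := fun k => by
    obtain ⟨x, hx, k⟩ := f u hu k
    exact n ⟨s, hs, x, hx, e1.trans k.symm⟩
  have fv : ∀ y, y ≠ r → y ≠ a → y ≠ b → ¬ On G r a 1 a b 0 (pos y) := fun y y1 y2 y3 k => by
    have := m.vtx h k
    tauto
  have f1 : c ≠ a → c ≠ b → ∃ y ∈ Ioo 0 u, ∃ x ∈ Ioo (0 : ℝ) 1, G a b x = G c d y := fun ca cb => by
    by_contra k
    have := A.same m cd le_rfl hu.1.le hu.2.le fun y hy l => by
      rcases hy.1.eq_or_lt with rfl | l1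
      · exact fv c cr ca cb (h.g0 _ _ cd ▸ l)
      rcases hy.2.eq_or_lt with rfl | l2
      · exact f0 l
      · exact k ⟨y, ⟨l1, l2⟩, f y ⟨l1, l2.trans hu.2⟩ l⟩
    rw [h.g0 _ _ cd, A.tv h ar br ab cr ca cb, e2] at this
    clear * - this hc ca cb
    grind
  have f2 : d ≠ a → d ≠ b → ∃ y ∈ Ioo u 1, ∃ x ∈ Ioo (0 : ℝ) 1, G a b x = G c d y := fun da db => by
    by_contra k
    have := A.same m cd hu.1.le hu.2.le le_rfl fun y hy l => by
      rcases hy.2.eq_or_lt with rfl | l1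
      · exact fv d dr da db (h.g1 cd ▸ l)
      rcases hy.1.eq_or_lt with rfl | l2
      · exact f0 l
      · exact k ⟨y, ⟨l2, l1⟩, f y ⟨hu.1.trans l2, l1⟩ l⟩
    rw [h.g1 cd, A.tv h ar br ab dr da db, e2] at this
    clear * - this hd da db
    grind
  by_cases k : c ≠ a ∧ c ≠ b
  · obtain ⟨y, hy, x, hx, l⟩ := f1 k.1 k.2
    obtain ⟨j1, j2, -⟩ := h.meet a b c d ab cd n1 n2 x hx y ⟨hy.1, hy.2.trans hu.2⟩ l
    obtain ⟨y', hy', x', hx', l'⟩ := f2 j1.2.1.symm j1.2.2.2.symm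
    linarith [(j2 x' hx' y' ⟨hu.1.trans hy'.1, hy'.2⟩ l').2, hy.2, hy'.1]
  · obtain ⟨y, hy, x, hx, l⟩ := f2 (by grind) (by grind)
    have := (h.meet a b c d ab cd n1 n2 x hx y ⟨hu.1.trans hy.1, hy.2⟩ l).1
    exact k ⟨this.1.symm, this.2.2.1.symm⟩

/-- The chords of a pair of vertex sets. -/
def Sc (G : V → V → ℝ → ℂ) (r : V) (A B : Finset V) : Set (V × V) :=
  {e | e.1 ∈ A ∧ e.2 ∈ B ∧ ∀ w, w ∈ A ∨ w ∈ B → ¬ X G r w e.1 e.2}

/-- A two-coloured vertex set. -/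
structure Tc (r : V) (rk : V → ℤ) (A B : Finset V) : Prop where
  ne : ∀ w, w ∈ A ∨ w ∈ B → w ≠ r
  nA : A.Nonempty
  nB : B.Nonempty
  lt : ∀ a ∈ A, ∀ b ∈ B, rk a < rk b

lemma Tc.sub {A B A' B' : Finset V} (T : Tc r rk A B) (h1 : A' ⊆ A) (h2 : B' ⊆ B) (n1 : A'.Nonempty)
    (n2 : B'.Nonempty) : Tc r rk A' B' :=
  ⟨fun w hw => T.ne w (hw.imp (@h1 w) (@h2 w)), n1, n2, fun a ha b hb => T.lt a (h1 ha) b (h2 hb)⟩

lemma Tc.ab {A B : Finset V} (T : Tc r rk A B) {a b : V} (ha : a ∈ A) (hb : b ∈ B) : a ≠ b :=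
  fun e => (T.lt a ha b hb).ne (by rw [e])

theorem Api.n0 (P : Api G r rk In) (h : Dr pos G) (n : ℕ) :
    ∀ A B : Finset V, A.card + B.card ≤ n → Tc r rk A B → (Sc G r A B).Nonempty := by
  classical
  induction n with
  | zero => exact fun A B k T => absurd T.nA.card_pos (by omega)
  | succ n ih =>
  intro A B k T
  by_contra hn
  have inj : ∀ x, x ∈ A ∨ x ∈ B → ∀ y, y ∈ A ∨ y ∈ B → rk x = rk y → x = y := fun x hx y hy e => by
    by_contra l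
    exact P.inj x y (T.ne x hx) (T.ne y hy) l e
  have bad : ∀ v, v ∈ A ∨ v ∈ B → (∃ a ∈ A, a ≠ v) → (∃ b ∈ B, b ≠ v) → ∃ a ∈ A, ∃ b ∈ B, a ≠ v ∧ b ≠ v ∧
      X G r v a b ∧ ∀ c, c ∈ A ∨ c ∈ B → c ≠ v → ¬ X G r c a b ∧
        (c = a ∨ c = b ∨ (cz rk a c b ↔ ¬ cz rk a v b)) := by
    rintro v hv ⟨a0, a1, a2⟩ ⟨b0, b1, b2⟩
    obtain ⟨⟨a, b⟩, ha, hb, k1⟩ := ih (A.erase v) (B.erase v) (by
      have := Finset.card_erase_le (s := A) (a := v)
      have := Finset.card_erase_le (s := B) (a := v)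
      rcases hv with l | l <;> have := Finset.card_erase_lt_of_mem l <;> omega)
      (T.sub (Finset.erase_subset _ _) (Finset.erase_subset _ _) ⟨a0, by simp [a1, a2]⟩
        ⟨b0, by simp [b1, b2]⟩)
    simp only [Finset.mem_erase] at ha hb k1
    have k2 : ∀ c, c ∈ A ∨ c ∈ B → c ≠ v → ¬ X G r c a b := fun c hc cv =>
      k1 c (hc.imp (⟨cv, ·⟩) (⟨cv, ·⟩))
    have x : X G r v a b := by
      by_contra l
      exact hn ⟨(a, b), ha.2, hb.2, fun w hw => by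
        by_cases e : w = v
        exacts [e ▸ l, k2 w hw e]⟩
    refine ⟨a, ha.2, b, hb.2, ha.1, hb.1, x, fun c hc cv => ⟨k2 c hc cv, ?_⟩⟩
    by_contra l
    set Q : V → Prop := fun c => c = v ∨ c = a ∨ c = b ∨ (cz rk a c b ↔ ¬ cz rk a v b) with hQ
    have l' : ¬ Q c := fun j => j.elim cv l
    obtain ⟨⟨a', b'⟩, ha', hb', k3⟩ := ih (A.filter Q) (B.filter Q) (by
      have := Finset.card_filter_le A Q
      have := Finset.card_filter_le B Q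
      rcases hc with j | j <;>
        have := Finset.card_lt_card (Finset.filter_ssubset.mpr ⟨c, j, l'⟩) <;> omega)
      (T.sub (Finset.filter_subset _ _) (Finset.filter_subset _ _) ⟨a, by simp [ha.2, hQ]⟩
        ⟨b, by simp [hb.2, hQ]⟩)
    simp only [Finset.mem_filter] at ha' hb' k3
    refine hn ⟨(a', b'), ha'.1, hb'.1, fun w hw x' => ?_⟩
    have k4 : ∀ c, c ∈ A ∨ c ∈ B → Q c → ¬ X G r c a' b' := fun c hc q =>
      k3 c (hc.imp (⟨·, q⟩) (⟨·, q⟩))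
    have q : ¬ Q w := fun q => k4 w hw q x'
    have q' := q
    simp only [hQ, not_or] at q'
    have f : ∀ c, c ∈ A ∨ c ∈ B → Q c →
        c = a ∨ c = b ∨ ¬ ((cz rk a c b ↔ X G r c a b) ↔ ¬ cz rk a w b) := fun c hc j => by
      have := k2 c hc
      simp only [hQ] at j
      clear * - this j q' x
      grind
    exact (P.lv h (T.ne a (Or.inl ha.2)) (T.ne b (Or.inr hb.2)) (T.ab ha.2 hb.2)
      (T.ne a' (Or.inl ha'.1)) (T.ne b' (Or.inr hb'.1)) (T.ab ha'.1 hb'.1) (T.ne w hw) q'.2.1 q'.2.2.1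
      (k2 w hw q'.1) x' (f a' (Or.inl ha'.1) ha'.2) (f b' (Or.inr hb'.1) hb'.2)).elim
      (k4 a (Or.inl ha.2) (by simp [hQ])) (k4 b (Or.inr hb.2) (by simp [hQ]))
  obtain ⟨a1, m1, e1⟩ := A.exists_min_image rk T.nA
  obtain ⟨a2, m2, e2⟩ := A.exists_max_image rk T.nA
  obtain ⟨b1, m3, e3⟩ := B.exists_min_image rk T.nB
  obtain ⟨b2, m4, e4⟩ := B.exists_max_image rk T.nB
  have A2 : ∀ v ∈ A, v = a1 ∨ v = a2 := fun v hv => by
    by_contra l
    rw [not_or] at l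
    obtain ⟨a, ha, b, hb, av, -, -, f⟩ := bad v (Or.inl hv) ⟨a1, m1, Ne.symm l.1⟩
      ⟨b1, m3, (T.ab hv m3).symm⟩
    have f1 := (f a1 (Or.inl m1) (Ne.symm l.1)).2
    have f2 := (f a2 (Or.inl m2) (Ne.symm l.2)).2
    have := e1 v hv
    have := e2 v hv
    have := T.lt a2 m2 b hb
    have := T.lt a ha b hb
    have := inj v (Or.inl hv) a1 (Or.inl m1)
    have := inj v (Or.inl hv) a2 (Or.inl m2)
    have := inj a (Or.inl ha) v (Or.inl hv)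
    unfold cz at f1 f2
    clear bad ih f inj hn e1 e2 e3 e4
    grind
  have B2 : ∀ v ∈ B, v = b1 ∨ v = b2 := fun v hv => by
    by_contra l
    rw [not_or] at l
    obtain ⟨a, ha, b, hb, -, bv, -, f⟩ := bad v (Or.inr hv) ⟨a1, m1, T.ab m1 hv⟩ ⟨b1, m3, Ne.symm l.1⟩
    have f1 := (f b1 (Or.inr m3) (Ne.symm l.1)).2
    have f2 := (f b2 (Or.inr m4) (Ne.symm l.2)).2
    have := e3 v hv
    have := e4 v hv
    have := T.lt a ha b1 m3
    have := T.lt a ha b hb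
    have := inj v (Or.inr hv) b1 (Or.inr m3)
    have := inj v (Or.inr hv) b2 (Or.inr m4)
    have := inj b (Or.inr hb) v (Or.inr hv)
    unfold cz at f1 f2
    clear bad ih f inj hn e1 e2 e3 e4
    grind
  have r1 := T.ne a1 (Or.inl m1)
  have r2 := T.ne a2 (Or.inl m2)
  have r3 := T.ne b1 (Or.inr m3)
  have r4 := T.ne b2 (Or.inr m4)
  by_cases ea : a1 = a2 <;> by_cases eb : b1 = b2
  · refine hn ⟨(a1, b1), m1, m3, fun w hw => h.nadj (T.ne w hw).symm (T.ab m1 m3)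
      (fun l => r1 l.1.symm) (fun l => r3 l.1.symm) ?_⟩
    have := A2 w
    have := B2 w
    clear bad ih inj hn e1 e2 e3 e4
    grind
  · obtain ⟨a, ha, b, hb, -, bv, x, -⟩ := bad b1 (Or.inr m3) ⟨a1, m1, T.ab m1 m3⟩ ⟨b2, m4, Ne.symm eb⟩
    obtain ⟨a', ha', b', hb', -, bv', x', -⟩ := bad b2 (Or.inr m4) ⟨a1, m1, T.ab m1 m4⟩ ⟨b1, m3, eb⟩
    obtain rfl : a = a1 := (A2 a ha).elim id fun l => l.trans ea.symm
    obtain rfl : a' = a := (A2 a' ha').elim id fun l => l.trans ea.symm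
    obtain rfl := (B2 b hb).resolve_left bv
    obtain rfl := (B2 b' hb').resolve_right bv'
    exact h.k4 r3 r4 r1 eb (T.ab m1 m3).symm (T.ab m1 m4).symm (x.rev h (T.ab m1 m4))
      (x'.rev h (T.ab m1 m3))
  · obtain ⟨a, ha, b, hb, av, -, x, -⟩ := bad a1 (Or.inl m1) ⟨a2, m2, Ne.symm ea⟩
      ⟨b1, m3, (T.ab m1 m3).symm⟩
    obtain ⟨a', ha', b', hb', av', -, x', -⟩ := bad a2 (Or.inl m2) ⟨a1, m1, ea⟩
      ⟨b1, m3, (T.ab m2 m3).symm⟩
    obtain rfl : b = b1 := (B2 b hb).elim id fun l => l.trans eb.symm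
    obtain rfl : b' = b := (B2 b' hb').elim id fun l => l.trans eb.symm
    obtain rfl := (A2 a ha).resolve_left av
    obtain rfl := (A2 a' ha').resolve_right av'
    exact h.k4 r1 r2 r3 ea (T.ab m1 m3) (T.ab m2 m3) x x'
  · obtain ⟨a, ha, b, hb, -, bv, x, f⟩ := bad b1 (Or.inr m3) ⟨a1, m1, T.ab m1 m3⟩ ⟨b2, m4, Ne.symm eb⟩
    obtain ⟨a', ha', b', hb', av', -, -, f'⟩ := bad a1 (Or.inl m1) ⟨a2, m2, Ne.symm ea⟩
      ⟨b1, m3, (T.ab m1 m3).symm⟩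
    obtain rfl := (B2 b hb).resolve_left bv
    obtain rfl := (A2 a' ha').resolve_left av'
    have f1 := (f a' (Or.inl m2) (T.ab m2 m3)).2
    have f2 := (f' b (Or.inr m4) (T.ab m1 m4).symm).2
    have f3 := (f' b1 (Or.inr m3) (T.ab m1 m3).symm).1
    have := e1 a' m2
    have := e2 a ha
    have := e3 b m4
    have := e4 b' hb'
    have := T.lt a' m2 b1 m3
    have := T.lt a' m2 b' hb'
    have := inj a1 (Or.inl m1) a' (Or.inl m2)
    have := inj a (Or.inl ha) a' (Or.inl m2)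
    have := inj b1 (Or.inr m3) b (Or.inr m4)
    have := inj b' (Or.inr hb') b (Or.inr m4)
    unfold cz at f1 f2
    clear bad ih f f' inj hn e1 e2 e3 e4 A2 B2
    grind

/-- Two chords cross exactly when they are incomparable. -/
lemma Api.il (P : Api G r rk In) (h : Dr pos G) {A B : Finset V} (T : Tc r rk A B) {e f : V × V}
    (he : e ∈ Sc G r A B) (hf : f ∈ Sc G r A B) :
    Rc G e f ↔ rk e.1 ≤ rk f.1 ∧ rk f.2 ≤ rk e.2 ∨ rk f.1 ≤ rk e.1 ∧ rk e.2 ≤ rk f.2 := by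
  obtain ⟨a, b⟩ := e
  obtain ⟨c, d⟩ := f
  obtain ⟨ha, hb, k1⟩ := he
  obtain ⟨hc, hd, k2⟩ := hf
  simp only [Rc, Prod.mk.injEq] at *
  have ar := T.ne a (Or.inl ha)
  have br := T.ne b (Or.inr hb)
  have cr := T.ne c (Or.inl hc)
  have dr := T.ne d (Or.inr hd)
  have ab := T.ab ha hb
  have cd := T.ab hc hd
  have cb := T.ab hc hb
  have ad := T.ab ha hd
  by_cases e : a = c ∨ b = d
  · refine iff_of_true ?_ (by rcases e with rfl | rfl <;> omega)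
    by_cases e' : a = c ∧ b = d
    exacts [Or.inl e', Or.inr (h.nadj ab cd e' (fun l => ad l.1) (by tauto))]
  rw [not_or] at e
  have m := h.tri ar br ab
  have fv : ∀ y, y ≠ r → y ≠ a → y ≠ b → ¬ On G r a 1 a b 0 (pos y) := fun y y1 y2 y3 k => by
    have := m.vtx h k
    tauto
  have := P.par m cd cr dr (fun l => e.1 l.1) (fun l => ad l.1) le_rfl zero_le_one le_rfl
    (h.g0 _ _ cd ▸ fv c cr (Ne.symm e.1) cb) (h.g1 cd ▸ fv d dr ad.symm (Ne.symm e.2))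
    fun u hu => h.g1 ar.symm ▸ h.avoid c d cd a u hu
  rw [h.g0 _ _ cd, h.g1 cd, P.tv h ar br ab cr (Ne.symm e.1) cb,
    P.tv h ar br ab dr ad.symm (Ne.symm e.2)] at this
  change _ ↔ (X G r a c d ↔ (X G a b c d ↔ ¬ X G r b c d)) at this
  simp only [k1 c (Or.inl hc), k1 d (Or.inr hd), k2 a (Or.inl ha), k2 b (Or.inr hb), iff_false,
    not_not, not_false_eq_true, iff_true, false_iff] at this
  rw [← this]
  have := P.inj _ _ ar cr e.1
  have := P.inj _ _ br dr e.2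
  have := T.lt a ha b hb
  have := T.lt a ha d hd
  have := T.lt c hc b hb
  have := T.lt c hc d hd
  simp only [e.1, false_and, false_or, cz]
  omega

lemma Api.hl (P : Api G r rk In) (h : Dr pos G) {a i k c b d : V} {s u s' t : ℝ} (l1 : rk a ≤ rk i)
    (l2 : rk i < rk k) (l3 : rk k ≤ rk c) (l4 : rk c < rk b) (l5 : rk c < rk d)
    (x : Cr G r k s a b u) (y : Cr G r i s' d c t) (n1 : ¬ X G r i a b) (n2 : ¬ X G r k d c) :
    ∃ v ∈ Ioo 0 u, ∃ w ∈ Ioo (0 : ℝ) 1, G d c w = G a b v := by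
  by_contra hn
  have ac : a ≠ c := fun e => by
    rw [e] at l1
    omega
  have ki : k ≠ i := fun e => l2.ne' (by rw [e])
  have e0 : ¬ In i d c (pos a) := by
    by_cases e : a = i
    · rw [e, ← h.g1 y.rv.symm, P.rest y y.hs.2 le_rfl]
      unfold cz
      omega
    have := P.inj _ _ x.qv y.rv e
    rw [← h.g1 x.qv.symm, P.ray y.mt x.qv e ac one_pos le_rfl fun v hv j => ?_, not_not]
    · refine iff_of_false (by unfold cz; omega) fun ⟨v, hv, z, hz, j⟩ => ?_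
      have := (P.ord h y.mt (h.cr x.qv y.qv y.pv y.qp hz ⟨y.ht.1.trans hv.1, hv.2⟩ j.symm) hv.1).2
      unfold cz at this
      omega
    · rcases h.vert y.qp ⟨y.ht.1.le.trans hv.1, hv.2⟩ (j.symm.trans (h.g1 x.qv.symm)) with j | j
      · linarith [j.1, hv.1, y.ht.1]
      · exact ac j.2.symm
  have off : ∀ v ∈ Ico 0 u, ¬ On G r i s' d c t (G a b v) := fun v hv j => by
    rcases hv.1.eq_or_lt with rfl | l
    · rw [h.g0 _ _ x.qp] at j
      rcases y.mt.vtx h j with j | j | j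
      exacts [x.qv j, y.hs.2.ne j.2, ac j]
    have hv' : v ∈ Ioo (0 : ℝ) 1 := ⟨l, hv.2.trans x.ht.2⟩
    rcases y.mt.inn h x.qp hv' j with ⟨z, hz, j⟩ | j | ⟨z, hz, j⟩
    · exact n1 ⟨z, hz, v, hv', j⟩
    · exact hn ⟨v, ⟨l, hv.2⟩, j⟩
    · obtain ⟨j1, j2⟩ := P.ord h (h.cr y.pv x.qv x.pv x.qp hz hv' j).mt x hv.2
      have := P.inj _ _ y.pv x.rv j1
      unfold cz at j2
      omega
  rw [← h.g0 _ _ x.qp] at e0
  by_cases e : k = c
  · subst e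
    rw [P.sideq h y.mt x (by simp) x.ht.1.ne fun v hv j => off v (by
      rw [uIcc_of_ge x.ht.1.le] at hv
      exact ⟨hv.1, lt_of_le_of_ne hv.2 j⟩)] at e0
    exact e0 (iff_of_true (by unfold cz; omega) x.ht.1)
  have nx : ∀ v ∈ Icc t 1, G r k s ≠ G d c v := fun v hv j => by
    rcases h.cases x.rv.symm y.qp x.mt.hs ⟨y.ht.1.le.trans hv.1, hv.2⟩ j with l | l | l | l | l
    · exact n2 ⟨s, l.1, v, l.2, j⟩
    all_goals linarith [l.1, x.hs.1, x.hs.2]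
  rw [P.same y.mt x.qp le_rfl x.ht.1.le x.ht.2.le fun v hv => ?_, ← x.eq,
    P.ray y.mt x.rv ki e x.hs.1 x.hs.2.le nx, not_not] at e0
  · have := P.inj _ _ x.rv y.pv e
    obtain ⟨v, hv, z, hz, j⟩ := e0.mp (by unfold cz; omega)
    exact n2 ⟨z, ⟨hz.1, hz.2.trans x.hs.2⟩, v, ⟨y.ht.1.trans hv.1, hv.2⟩, j.symm⟩
  · rcases hv.2.eq_or_lt with rfl | l
    · rw [← x.eq]
      rintro (⟨z, hz, j⟩ | ⟨z, hz, j⟩ | ⟨z, hz, j⟩)
      · exact x.hs.1.ne' (h.adj y.rv x.rv ki.symm ⟨hz.1, hz.2.trans y.hs.2.le⟩ x.mt.hs j).2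
      · exact nx z hz j.symm
      · exact x.hs.1.ne' (h.adj y.pv x.rv (Ne.symm e) hz x.mt.hs j).2
    · exact off v ⟨hv.1, l⟩

lemma Api.x2 (P : Api G r rk In) (h : Dr pos G) {A B : Finset V} (T : Tc r rk A B)
    {a i k c d l j b : V} (ha : a ∈ A) (hi : i ∈ A) (hk : k ∈ A) (hc : c ∈ A) (hd : d ∈ B) (hl : l ∈ B)
    (hj : j ∈ B) (hb : b ∈ B) (l1 : rk a ≤ rk i) (l2 : rk i < rk k) (l3 : rk k ≤ rk c)
    (l4 : rk d ≤ rk l) (l5 : rk l < rk j) (l6 : rk j ≤ rk b) (x1 : X G r k a b) (x2 : X G r l a b)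
    (x3 : X G r i c d) (x4 : X G r j c d) (n1 : ¬ X G r i a b) (n2 : ¬ X G r j a b)
    (n3 : ¬ X G r k c d) (n4 : ¬ X G r l c d) : False := by
  have ar := T.ne a (Or.inl ha)
  have br := T.ne b (Or.inr hb)
  have cr := T.ne c (Or.inl hc)
  have dr := T.ne d (Or.inr hd)
  have ab := T.ab ha hb
  have cd := T.ab hc hd
  have q1 := T.lt c hc d hd
  obtain ⟨s1, p1, u1, q2, e1⟩ := x1
  obtain ⟨s2, p2, u2, q3, e2⟩ := x2
  obtain ⟨s3, p3, u3, q4, e3⟩ := x3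
  obtain ⟨s4, p4, u4, q5, e4⟩ := x4
  have c1 := h.cr (T.ne k (Or.inl hk)) ar br ab p1 q2 e1
  have c2 := h.cr (T.ne l (Or.inr hl)) ar br ab p2 q3 e2
  have c3 := h.cr (T.ne i (Or.inl hi)) cr dr cd p3 q4 e3
  have c4 := h.cr (T.ne j (Or.inr hj)) cr dr cd p4 q5 e4
  obtain ⟨v, hv, w, hw, e5⟩ := P.hl h l1 l2 l3 (by omega) q1 c1 (c3.rev h) n1
    fun x => n3 (x.rev h cd.symm)
  obtain ⟨v', hv', w', hw', e6⟩ := P.refl.hl h (a := b) (i := j) (k := l) (c := d) (b := a) (d := c)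
    (by omega) (by omega) (by omega) (by omega) (by omega) (c2.rev h) c4
    (fun x => n2 (x.rev h ab.symm)) n4
  rw [h.rev c d cd] at e5
  rw [h.rev a b ab] at e6
  have o : u1 ≤ u2 := not_lt.mp fun o => by
    have := (P.ord h c2.mt c1 o).2
    have := P.inj _ _ c2.rv br c2.rp
    have := P.inj _ _ c1.rv ar c1.rq
    unfold cz at *
    omega
  have := ((h.meet c d a b cd ab (fun e => by rw [e.1] at l3; omega) (fun e => T.ab hc hb e.1) (1 - w)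
    ⟨by linarith [hw.2], by linarith [hw.1]⟩ v ⟨hv.1, hv.2.trans q2.2⟩ e5).2.1 w' hw' (1 - v')
    ⟨by linarith [hv'.2, q3.1], by linarith [hv'.1]⟩ e6).2
  linarith [hv.2, hv'.2]

lemma Api.up (P : Api G r rk In) (h : Dr pos G) {A B : Finset V} (T : Tc r rk A B) {i l k j : V}
    (h1 : (i, l) ∈ Sc G r A B) (h2 : (k, j) ∈ Sc G r A B) (l1 : rk i < rk k) (l2 : rk l < rk j)
    (lo : ∀ e ∈ Sc G r A B, ¬ (rk e.1 ≤ rk i ∧ rk j ≤ rk e.2)) :
    Sc G r (A.filter (rk k ≤ rk ·)) (B.filter (rk · ≤ rk l)) ⊆ Sc G r A B := by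
  obtain ⟨hi, hl, k1⟩ := h1
  obtain ⟨hk, hj, k2⟩ := h2
  simp only at hi hl k1 hk hj k2
  have q := T.lt k hk l hl
  have inj : ∀ x, x ∈ A ∨ x ∈ B → ∀ y, y ∈ A ∨ y ∈ B → rk x = rk y → x = y := fun x hx y hy e => by
    by_contra l
    exact P.inj x y (T.ne x hx) (T.ne y hy) l e
  have lv : ∀ a ∈ A, ∀ b ∈ B, (∀ w, w ∈ A ∨ w ∈ B → ¬ X G r w a b) → ∀ c ∈ A, ∀ d ∈ B, ∀ e,
      e ∈ A ∨ e ∈ B → X G r e c d → rk e ≠ rk a → rk e ≠ rk b →
      (rk c = rk a ∨ (cz rk a c b ↔ ¬ cz rk a e b)) → (rk d = rk b ∨ (cz rk a d b ↔ ¬ cz rk a e b)) →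
      X G r a c d ∨ X G r b c d := fun a ha b hb k c hc d hd e he x e1 e2 e3 e4 =>
    P.lv h (T.ne a (Or.inl ha)) (T.ne b (Or.inr hb)) (T.ab ha hb) (T.ne c (Or.inl hc))
      (T.ne d (Or.inr hd)) (T.ab hc hd) (T.ne e he) (fun l => e1 (by rw [l])) (fun l => e2 (by rw [l]))
      (k e he) x
      (e3.imp (inj c (Or.inl hc) a (Or.inl ha)) fun l => Or.inr (by simp [k c (Or.inl hc), l]))
      (Or.inr (e4.imp (inj d (Or.inr hd) b (Or.inr hb)) fun l => by simp [k d (Or.inr hd), l]))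
  rintro ⟨c, d⟩ ⟨hc, hd, k3⟩
  simp only [Finset.mem_filter] at hc hd k3
  refine ⟨hc.1, hd.1, fun w hw x => ?_⟩
  obtain ⟨⟨a, b⟩, ha, hb, k4⟩ := P.n0 h _ (A.filter (rk · ≤ rk i)) (B.filter (rk j ≤ rk ·)) le_rfl
    (T.sub (Finset.filter_subset _ _) (Finset.filter_subset _ _) ⟨i, by simp [hi]⟩ ⟨j, by simp [hj]⟩)
  simp only [Finset.mem_filter] at ha hb k4
  obtain ⟨v, hv, y⟩ : ∃ v, (v ∈ A ∨ v ∈ B) ∧ X G r v a b := by
    by_contra k
    exact lo (a, b) ⟨ha.1, hb.1, fun v hv y => k ⟨v, hv, y⟩⟩ ⟨ha.2, hb.2⟩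
  have n1 := k4 i (Or.inl ⟨hi, le_rfl⟩)
  have n2 := k4 j (Or.inr ⟨hj, le_rfl⟩)
  have n3 := k3 k (Or.inl ⟨hk, le_rfl⟩)
  have n4 := k3 l (Or.inr ⟨hl, le_rfl⟩)
  have q1 := ha.2
  have q2 := hb.2
  have q3 := hc.2
  have q4 := hd.2
  have q5 := T.lt c hc.1 d hd.1
  have p1 : ∀ e, e ∈ A ∨ e ∈ B → X G r e a b → rk i < rk e → rk e < rk l → X G r l a b :=
    fun e he x e1 e2 => (lv i hi l hl k1 a ha.1 b hb.1 e he x (by omega) (by omega)
      (by unfold cz; omega) (by unfold cz; omega)).resolve_left n1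
  have p2 : ∀ e, e ∈ A ∨ e ∈ B → X G r e a b → rk k < rk e → rk e < rk j → X G r k a b :=
    fun e he x e1 e2 => (lv k hk j hj k2 a ha.1 b hb.1 e he x (by omega) (by omega)
      (by unfold cz; omega) (by unfold cz; omega)).resolve_right n2
  have p3 : ∀ e, e ∈ A ∨ e ∈ B → X G r e c d → rk e < rk i ∨ rk l < rk e → X G r i c d :=
    fun e he x e1 => (lv i hi l hl k1 c hc.1 d hd.1 e he x (by omega) (by omega)
      (by unfold cz; omega) (by unfold cz; omega)).resolve_right n4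
  have p4 : ∀ e, e ∈ A ∨ e ∈ B → X G r e c d → rk e < rk k ∨ rk j < rk e → X G r j c d :=
    fun e he x e1 => (lv k hk j hj k2 c hc.1 d hd.1 e he x (by omega) (by omega)
      (by unfold cz; omega) (by unfold cz; omega)).resolve_left n3
  have v1 : rk i < rk v ∧ rk v < rk j := by
    rcases hv with m | m
    · exact ⟨not_le.mp fun l => k4 v (Or.inl ⟨m, l⟩) y, T.lt v m j hj⟩
    · exact ⟨T.lt i hi v m, not_le.mp fun l => k4 v (Or.inr ⟨m, l⟩) y⟩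
  have w1 : rk w < rk k ∨ rk l < rk w :=
    hw.imp (fun m => not_le.mp fun l => k3 w (Or.inl ⟨m, l⟩) x)
      fun m => not_le.mp fun l => k3 w (Or.inr ⟨m, l⟩) x
  have z1 : X G r k a b ∧ X G r l a b := by
    by_cases e : rk v < rk l
    · have := p1 v hv y v1.1 e
      exact ⟨p2 l (Or.inr hl) this q l2, this⟩
    · have := p2 v hv y (by omega) v1.2
      exact ⟨this, p1 k (Or.inl hk) this l1 q⟩
  have z2 : X G r i c d ∧ X G r j c d := by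
    rcases w1 with e | e
    · have := p4 w hw x (Or.inl e)
      exact ⟨p3 j (Or.inr hj) this (Or.inr l2), this⟩
    · have := p3 w hw x (Or.inr e)
      exact ⟨this, p4 i (Or.inl hi) this (Or.inl l1)⟩
  exact P.x2 h T ha.1 hi hk hc.1 hd.1 hl hj hb.1 q1 l1 q3 q4 l2 q2 z1.1 z1.2 z2.1 z2.2 n1 n2 n3 n4

theorem Api.star0 (P : Api G r rk In) (h : Dr pos G) (n : ℕ) :
    ∀ A B : Finset V, A.card ≤ n → Tc r rk A B → NE (Rc G) (Sc G r A B) := by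
  classical
  induction n with
  | zero => exact fun A B k T => absurd T.nA.card_pos (by omega)
  | succ n ih =>
  intro A B k T
  have fin : (Sc G r A B).Finite := (A ×ˢ B).finite_toSet.subset fun e he => by
    simpa using ⟨he.1, he.2.1⟩
  obtain ⟨s, hs, mn⟩ := exists_min_image _ (fun e => rk e.1 - rk e.2) fin (P.n0 h _ A B le_rfl T)
  have inj : ∀ e ∈ Sc G r A B, ∀ f ∈ Sc G r A B, rk e.1 = rk f.1 → rk e.2 = rk f.2 → e = f :=
    fun e he f hf e1 e2 => Prod.ext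
      (by_contra fun l => P.inj _ _ (T.ne _ (Or.inl he.1)) (T.ne _ (Or.inl hf.1)) l e1)
      (by_contra fun l => P.inj _ _ (T.ne _ (Or.inr he.2.1)) (T.ne _ (Or.inr hf.2.1)) l e2)
  have mD : ∀ e, e ∈ fin.toFinset.filter (fun e => ¬ Rc G s e) ↔ e ∈ Sc G r A B ∧ ¬ Rc G s e := by
    simp
  refine strat (fun e => ((rk e.1 - rk e.2 : ℤ) : ℝ)) (fin.toFinset.filter fun e => ¬ Rc G s e) _
    (fun g hg => ((mD g).mp hg).1) (fun g hg e he n l => ?_)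
    (.cone (c := s) ⟨hs, fun l => ((mD s).mp l).2 (Or.inl rfl)⟩ fun x hx =>
      by_contra fun l => hx.2 ((mD x).mpr ⟨hx.1, l⟩)) fun g hg => ?_
  · have l' : rk g.1 - rk g.2 = rk e.1 - rk e.2 := by exact_mod_cast l
    have := inj g ((mD g).mp hg).1 e ((mD e).mp he).1
    rw [P.il h T ((mD g).mp hg).1 ((mD e).mp he).1]
    clear * - l' this n
    grind
  obtain ⟨hg, ng⟩ := (mD g).mp hg
  rw [P.il h T hs hg] at ng
  obtain ⟨i, l, k', j, h1, h2, l1, l2, e⟩ : ∃ i l k j, (i, l) ∈ Sc G r A B ∧ (k, j) ∈ Sc G r A B ∧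
      rk i < rk k ∧ rk l < rk j ∧ (s = (i, l) ∧ g = (k, j) ∨ g = (i, l) ∧ s = (k, j)) := by
    by_cases e : rk s.1 < rk g.1
    · exact ⟨s.1, s.2, g.1, g.2, hs, hg, e, by omega, Or.inl ⟨rfl, rfl⟩⟩
    · exact ⟨g.1, g.2, s.1, s.2, hg, hs, by omega, by omega, Or.inr ⟨rfl, rfl⟩⟩
  have up := P.up h T h1 h2 l1 l2 fun x hx l => by
    have := mn x hx
    rcases e with ⟨rfl, -⟩ | ⟨-, rfl⟩ <;> simp only at this <;> omega
  have mU : ∀ x, x ∈ Sc G r (A.filter (rk k' ≤ rk ·)) (B.filter (rk · ≤ rk l)) ↔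
      x ∈ Sc G r A B ∧ rk k' ≤ rk x.1 ∧ rk x.2 ≤ rk l := fun x =>
    ⟨fun m => ⟨up m, (Finset.mem_filter.mp m.1).2, (Finset.mem_filter.mp m.2.1).2⟩,
      fun m => ⟨Finset.mem_filter.mpr ⟨m.1.1, m.2.1⟩, Finset.mem_filter.mpr ⟨m.1.2.1, m.2.2⟩,
        fun w hw => m.1.2.2 w (hw.imp (fun m => (Finset.mem_filter.mp m).1)
          fun m => (Finset.mem_filter.mp m).1)⟩⟩
  have cl : (A.filter (rk k' ≤ rk ·)).card < A.card :=
    Finset.card_lt_card (Finset.filter_ssubset.mpr ⟨i, h1.1, l1.not_ge⟩)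
  refine (ih (A.filter (rk k' ≤ rk ·)) _ (by omega)
    (T.sub (Finset.filter_subset _ _) (Finset.filter_subset (rk · ≤ rk l) _)
      ⟨k', by simpa using h2.1⟩ ⟨l, by simpa using h1.2.1⟩)).join _ (fun x hx => ?_)
    fun x hx y hy ny => ?_
  · obtain ⟨m, m1, m2⟩ := (mU x).mp hx
    refine ⟨m, ?_, ?_, fun c => ((mD x).mp c.1).2 ?_⟩
    · rintro rfl
      rcases e with ⟨-, rfl⟩ | ⟨rfl, -⟩ <;> simp only at m1 m2 <;> omega
    · rw [P.il h T hg m]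
      rcases e with ⟨-, rfl⟩ | ⟨rfl, -⟩ <;> simp only <;> omega
    · rw [P.il h T hs m]
      rcases e with ⟨rfl, -⟩ | ⟨-, rfl⟩ <;> simp only <;> omega
  · obtain ⟨m, m1, m2⟩ := (mU x).mp hx
    obtain ⟨y1, y2, y3, y4⟩ := hy
    have y5 := inj y y1 g hg
    have y6 := mn y y1
    rw [mU] at ny
    rw [mD, P.il h T hs y1, Int.cast_lt] at y4
    rw [P.il h T hg y1] at y3
    rw [P.il h T m y1]
    simp only [y1, true_and, y2, imp_false] at ny y4 y5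
    rcases e with ⟨rfl, rfl⟩ | ⟨rfl, rfl⟩ <;> simp only at * <;> omega

theorem Api.star (h : Dr pos G) (P : Api G r rk In) : Star G r rk := fun A B h1 h2 h3 h4 h5 =>
  P.star0 h _ A B le_rfl ⟨fun _ hw e => hw.elim (fun l => h1 (e ▸ l)) fun l => h2 (e ▸ l), h3, h4, h5⟩

end Pool.Agent.Lib.MP_3764f3_co.LT
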