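import Pool.Agent.Lib.MP_3764f3_co.MWl

/-! Edges of the region outside all wedges of a closed system. -/

set_option autoImplicit false

namespace Pool.Agent.Lib.MP_3764f3_co.LT

open Set

variable {V : Type} {pos : V → ℂ} {G : V → V → ℝ → ℂ} {r : V} {W : Finset V} {H : V → V → Prop}
  {τ : V → ℝ} {rk : V → ℤ} {In : V → V → V → ℂ → Prop} {Z : Set V} {P : V → V → V → ℝ → Prop}

/-- A vertex outside all wedges or in the system is not inside a wedge. -/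
lemma Sys.vout (h : Dr pos G) (A : Api G r rk In) (l : Wl G r W H τ) (S : Sys G r rk W H τ Z P)
    {w p q : V} {t : ℝ} (k : P w p q t) {v : V} (vW : v ∈ W) (vq : v ≠ q)
    (o : Wo pos rk In Z P v) : In w p q (pos v) ↔ cz rk w p q := by
  obtain ⟨k', -, -, -⟩ := S.wd _ _ _ _ k
  have vr := l.ne vW
  rcases o with o | o
  · rw [← h.g1 vr.symm]
    by_cases vw : v = w
    · subst vw
      exact A.rest k' k'.hs.2 le_rfl
    · obtain ⟨o1, o2⟩ := S.out _ _ _ _ k v o vw vq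
      rw [A.ray k'.mt vr vw vq one_pos le_rfl fun x hx e =>
        k'.von h vr vq (Or.inr (Or.inl ⟨x, hx, by rw [← e, h.g1 vr.symm]⟩)), o2]
      simp only [o1, iff_false, not_not]
  · exact not_not.mp (o _ _ _ _ k)

/-- The wall of a vertex outside the system misses the curve of a wedge. -/
lemma Sys.tail (h : Dr pos G) (l : Wl G r W H τ) (S : Sys G r rk W H τ Z P) {w p q : V} {t : ℝ}
    (k : P w p q t) {v : V} (vW : v ∈ W) (vZ : v ∉ Z) {u : ℝ} (hu : u ∈ Ioc (τ v) 1) :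
    ¬ On G r w (τ w) p q t (G r v u) := by
  obtain ⟨k', hH, wZ, qZ⟩ := S.wd _ _ _ _ k
  have vr := l.ne vW
  have u0 : 0 < u := (l.t0 v vW).1.trans_lt hu.1
  have m : u ∈ Icc (0 : ℝ) 1 := ⟨u0.le, hu.2⟩
  have vw : w ≠ v := fun e => vZ (e ▸ wZ)
  have vq : q ≠ v := fun e => vZ (e ▸ qZ)
  rintro (⟨y, hy, e⟩ | ⟨y, hy, e⟩ | ⟨y, hy, e⟩)
  · exact u0.ne' (h.adj k'.rv vr vw ⟨hy.1, hy.2.trans k'.hs.2.le⟩ m e).2
  · rcases h.cases vr.symm k'.qp m ⟨k'.ht.1.le.trans hy.1, hy.2⟩ e.symm with j | j | j | j | j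
    · exact l.aft v vW p q hH ⟨u, ⟨hu.1, j.1.2⟩, y, j.2, e.symm⟩
    · exact u0.ne' j.1
    · linarith [j.2.1, hy.1, k'.ht.1]
    · exact u0.ne' j.1
    · exact vq j.2.2.symm
  · exact u0.ne' (h.adj k'.pv vr vq hy m e).2

lemma Sys.s1 (h : Dr pos G) (A : Api G r rk In) (l : Wl G r W H τ) (S : Sys G r rk W H τ Z P)
    {c d : V} (cW : c ∈ W) (dW : d ∈ W) (cd : c ≠ d) (i : Inn pos G r rk In Z P c d)
    {w p q : V} {t : ℝ} (k : P w p q t) {b : ℝ} (hb : b ∈ Ioo (0 : ℝ) 1) :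
    ¬ On G r w (τ w) p q t (G c d b) ∧ ¬ Ins rk In w p q (G c d b) := by
  obtain ⟨k', -, wZ, qZ⟩ := S.wd _ _ _ _ k
  have cr := l.ne cW
  have dr := l.ne dW
  have nr : ∀ u ∈ Z, ∀ x ∈ Icc (0 : ℝ) 1, ∀ y ∈ Ioo (0 : ℝ) 1, G r u x ≠ G c d y :=
    fun u hu x hx y hy e => by
      rcases h.cases (l.ne (S.zW u hu)).symm cd hx (Ioo_subset_Icc_self hy) e with j | j | j | j | j
      exacts [i.2.2 u hu ⟨x, j.1, y, hy, e⟩, hy.1.ne' j.2.1, hy.1.ne' j.2.1, hy.2.ne j.2.1,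
        hy.2.ne j.2.1]
  have n1 : ¬ (p = c ∧ q = d) := by
    rintro ⟨rfl, rfl⟩
    exact nr w wZ _ k'.mt.hs _ k'.ht k'.eq
  have n2 : ¬ (p = d ∧ q = c) := by
    rintro ⟨rfl, rfl⟩
    exact nr w wZ _ k'.mt.hs _ (k'.rev h).ht (k'.rev h).eq
  have np : ∀ y ∈ Ioo (0 : ℝ) 1, ∀ x ∈ Icc t 1, G p q x ≠ G c d y := fun y hy x hx e => by
    rcases h.mt k'.qp cd n1 n2 ⟨k'.ht.1.le.trans hx.1, hx.2⟩ (Ioo_subset_Icc_self hy) e with
      j | j | j | j | j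
    · obtain ⟨x1, -, -, -, qc, qd⟩ := j
      rcases hx.1.eq_or_lt with rfl | tx
      · exact nr w wZ _ k'.mt.hs y hy (k'.eq.trans e)
      have e1 := A.par k'.mt cd cr dr n1 n2 le_rfl zero_le_one le_rfl
        (by rw [h.g0 _ _ cd]; exact k'.von h cr qc.symm)
        (by rw [h.g1 cd]; exact k'.von h dr qd.symm)
        fun u hu e => nr w wZ _ k'.mt.hs u hu e.symm
      have x2 : ¬ XI G r w 0 (τ w) c d 0 1 := fun ⟨a, ha, u, hu, e⟩ =>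
        nr w wZ a ⟨ha.1.le, ha.2.le.trans k'.hs.2.le⟩ u hu e
      have x3 : ¬ XI G r q 0 1 c d 0 1 := fun ⟨a, ha, u, hu, e⟩ =>
        nr q qZ a (Ioo_subset_Icc_self ha) u hu e
      have x4 : XI G p q t 1 c d 0 1 := ⟨x, ⟨tx, x1.2⟩, y, hy, e⟩
      rw [h.g0 _ _ cd, h.g1 cd, S.vout h A l k cW qc.symm i.1, S.vout h A l k dW qd.symm i.2.1] at e1
      simp [x2, x3, x4] at e1
    exacts [hy.1.ne' j.2.1, hy.1.ne' j.2.1, hy.2.ne j.2.1, hy.2.ne j.2.1]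
  have no : ∀ y ∈ Ioo (0 : ℝ) 1, ¬ On G r w (τ w) p q t (G c d y) := by
    rintro y hy (⟨x, hx, e⟩ | ⟨x, hx, e⟩ | ⟨x, hx, e⟩)
    exacts [nr w wZ x ⟨hx.1, hx.2.trans k'.hs.2.le⟩ y hy e, np y hy x hx e, nr q qZ x hx y hy e]
  refine ⟨no b hb, not_not.mpr ?_⟩
  by_cases cq : c = q
  · have dq : d ≠ q := fun e => cd (cq.trans e.symm)
    rw [A.same k'.mt cd hb.1.le hb.2.le le_rfl fun u hu => ?_, h.g1 cd]
    · exact S.vout h A l k dW dq i.2.1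
    rcases hu.2.eq_or_lt with rfl | j
    · rw [h.g1 cd]
      exact k'.von h dr dq
    · exact no u ⟨hb.1.trans_le hu.1, j⟩
  · rw [← A.same k'.mt cd le_rfl hb.1.le hb.2.le fun u hu => ?_, h.g0 _ _ cd]
    · exact S.vout h A l k cW cq i.1
    rcases hu.1.eq_or_lt with rfl | j
    · rw [h.g0 _ _ cd]
      exact k'.von h cr cq
    · exact no u ⟨j, hu.2.trans_lt hb.2⟩

lemma Sys.hw (h : Dr pos G) (A : Api G r rk In) (l : Wl G r W H τ) (S : Sys G r rk W H τ Z P)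
    {c d v : V} {a : ℝ} (k : H c d) (i : Inn pos G r rk In Z P c d) (vW : v ∈ W)
    (x : Cr G r v (τ v) c d a) : Wo pos rk In Z P v := by
  refine or_iff_not_imp_left.mpr fun vZ w p q t j => ?_
  obtain ⟨cW, dW, cd⟩ := l.mem c d k
  obtain ⟨o1, o2⟩ := S.s1 h A l cW dW cd i j x.ht
  rw [← x.eq] at o1 o2
  unfold Ins at o2 ⊢
  rwa [← h.g1 x.rv.symm, ← A.same (S.wd _ _ _ _ j).1.mt x.rv.symm x.hs.1.le x.hs.2.le le_rfl
    fun u hu => ?_]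
  rcases hu.1.eq_or_lt with rfl | m
  · exact o1
  · exact S.tail h l j vW vZ ⟨m, hu.2⟩

lemma Sys.far (h : Dr pos G) (A : Api G r rk In) (l : Wl G r W H τ) (S : Sys G r rk W H τ Z P)
    {c d v : V} (cW : c ∈ W) (dW : d ∈ W) (cd : c ≠ d) (i : Inn pos G r rk In Z P c d) (vW : v ∈ W)
    (x : ¬ Wo pos rk In Z P v) : ¬ XI G r v (τ v) 1 c d 0 1 := by
  rintro ⟨u, hu, b, hb, e⟩
  refine x (or_iff_not_imp_left.mpr fun vZ w p q t j => ?_)
  have o2 := (S.s1 h A l cW dW cd i j hb).2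
  have vr := (l.ne vW).symm
  rw [← e] at o2
  unfold Ins at o2 ⊢
  rwa [← h.g1 vr, ← A.same (S.wd _ _ _ _ j).1.mt vr ((l.t0 v vW).1.trans hu.1.le) hu.2.le le_rfl
    fun y hy => S.tail h l j vW vZ ⟨hu.1.trans_le hy.1, hy.2⟩]

end Pool.Agent.Lib.MP_3764f3_co.LT
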