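import Pool.Agent.Lib.MP_3764f3_co.MApi

/-! Walls hanging on a plane set of edges, closed systems of wedges. -/

set_option autoImplicit false

namespace Pool.Agent.Lib.MP_3764f3_co.LT

open Set

variable {V : Type}

/-- A plane set `H` of edges on `W`; the ray `r v` is crossed by `H` for the last time at `τ v`. -/
structure Wl (G : V → V → ℝ → ℂ) (r : V) (W : Finset V) (H : V → V → Prop) (τ : V → ℝ) : Prop where
  rW : r ∉ W
  sy : ∀ p q, H p q → H q p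
  mem : ∀ p q, H p q → p ∈ W ∧ q ∈ W ∧ p ≠ q
  pl : ∀ p q c d, H p q → H c d → ¬ (p = c ∧ q = d) → ¬ (p = d ∧ q = c) → ¬ X G p q c d
  t0 : ∀ v ∈ W, τ v ∈ Ico (0 : ℝ) 1
  aft : ∀ v ∈ W, ∀ p q, H p q → ¬ XI G r v (τ v) 1 p q 0 1
  hang : ∀ v ∈ W, τ v = 0 ∨ ∃ p q t, H p q ∧ Cr G r v (τ v) p q t

/-- An edge that crosses no wall. -/
structure Ok (G : V → V → ℝ → ℂ) (r : V) (W : Finset V) (H : V → V → Prop) (τ : V → ℝ) (c d : V) :
    Prop where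
  cW : c ∈ W
  dW : d ∈ W
  cd : c ≠ d
  pl : ∀ p q, H p q → ¬ (p = c ∧ q = d) → ¬ (p = d ∧ q = c) → ¬ X G p q c d
  aft : ∀ v ∈ W, ¬ XI G r v (τ v) 1 c d 0 1

/-- A closed system of wedges. -/
structure Sys (G : V → V → ℝ → ℂ) (r : V) (rk : V → ℤ) (W : Finset V) (H : V → V → Prop) (τ : V → ℝ)
    (Z : Set V) (P : V → V → V → ℝ → Prop) : Prop where
  zW : ∀ u ∈ Z, u ∈ W
  wd : ∀ w p q t, P w p q t → Cr G r w (τ w) p q t ∧ H p q ∧ w ∈ Z ∧ q ∈ Z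
  two : ∀ u ∈ Z, τ u ≠ 0 → ∀ β : Prop, ∃ w p q t, P w p q t ∧
    (u = w ∧ (cz rk w q p ↔ β) ∨ u = q ∧ (cz rk w p q ↔ β))
  out : ∀ w p q t, P w p q t → ∀ u ∈ Z, u ≠ w → u ≠ q →
    ¬ XI G p q t 1 r u 0 1 ∧ (cz rk w u q ↔ cz rk w p q)

/-- The inside of a wedge. -/
def Ins (rk : V → ℤ) (In : V → V → V → ℂ → Prop) (w p q : V) (z : ℂ) : Prop :=
  ¬ (In w p q z ↔ cz rk w p q)

/-- Vertices of the system or outside all wedges. -/
def Wo (pos : V → ℂ) (rk : V → ℤ) (In : V → V → V → ℂ → Prop) (Z : Set V)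
    (P : V → V → V → ℝ → Prop) (v : V) : Prop :=
  v ∈ Z ∨ ∀ w p q t, P w p q t → ¬ Ins rk In w p q (pos v)

/-- Edges of the region outside all wedges. -/
def Inn (pos : V → ℂ) (G : V → V → ℝ → ℂ) (r : V) (rk : V → ℤ) (In : V → V → V → ℂ → Prop)
    (Z : Set V) (P : V → V → V → ℝ → Prop) (c d : V) : Prop :=
  Wo pos rk In Z P c ∧ Wo pos rk In Z P d ∧ ∀ u ∈ Z, ¬ X G r u c d

variable {pos : V → ℂ} {G : V → V → ℝ → ℂ} {r : V} {W : Finset V} {H : V → V → Prop} {τ : V → ℝ}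

lemma Wl.ne (l : Wl G r W H τ) {v : V} (hv : v ∈ W) : v ≠ r := fun e => l.rW (e ▸ hv)

lemma Wl.ok (l : Wl G r W H τ) {c d : V} (k : H c d) : Ok G r W H τ c d :=
  ⟨(l.mem c d k).1, (l.mem c d k).2.1, (l.mem c d k).2.2, fun p q k' => l.pl p q c d k' k,
    fun v hv => l.aft v hv c d k⟩

/-- A vertex other than `r` and `q` is not on the curve of a wedge. -/
lemma Cr.von (h : Dr pos G) {w p q c : V} {s t : ℝ} (k : Cr G r w s p q t) (cr : c ≠ r) (cq : c ≠ q) :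
    ¬ On G r w s p q t (pos c) := by
  rintro (⟨u, hu, e⟩ | ⟨u, hu, e⟩ | ⟨u, hu, e⟩)
  · rcases h.vert k.rv.symm ⟨hu.1, hu.2.trans k.hs.2.le⟩ e with j | j
    · exact cr j.2.symm
    · linarith [j.1, hu.2, k.hs.2]
  · rcases h.vert k.qp ⟨k.ht.1.le.trans hu.1, hu.2⟩ e with j | j
    · linarith [j.1, hu.1, k.ht.1]
    · exact cq j.2.symm
  · rcases h.vert k.pv.symm hu e with j | j
    · exact cr j.2.symm
    · exact cq j.2.symm

end Pool.Agent.Lib.MP_3764f3_co.LT
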