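import Pool.Agent.Lib.MP_3764f3_co.Polar

set_option autoImplicit false

namespace Pool.Agent.Lib.MP_3764f3_co

open Set

theorem exists_cycle {n : ℕ} (hn : 3 ≤ n) (W : ℕ → Fin n)
    (hW : ∀ t t', t < t' → t' < n → W t ≠ W t') (R : Fin n → Fin n → Fin n → Fin n → Prop)
    (hR : ∀ t t', t < n → t' < n → t ≠ t' → R (W t) (W ((t + 1) % n)) (W t') (W ((t' + 1) % n))) :
    ∃ σ : Equiv.Perm (Fin n), σ.IsCycle ∧ σ.support = Finset.univ ∧
      ∀ v w : Fin n, v ≠ w → R v (σ v) w (σ w) := by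
  have hinj : Function.Injective fun t : Fin n => W t := by
    intro t t' e
    rcases lt_trichotomy t t' with h | h | h
    · exact absurd e (hW t t' h t'.2)
    · exact h
    · exact absurd e.symm (hW t' t h t.2)
  let e : Equiv.Perm (Fin n) := Equiv.ofBijective _ (Finite.injective_iff_bijective.1 hinj)
  have hrot : ∀ t : Fin n, (finRotate n t : ℕ) = (t + 1) % n := by
    obtain ⟨m, rfl⟩ : ∃ m, n = m + 2 + 1 := ⟨n - 3, by omega⟩
    intro t
    rw [finRotate_apply, Fin.val_add]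
    rfl
  refine ⟨e * finRotate n * e⁻¹, (isCycle_finRotate_of_le (by omega)).conj, ?_, ?_⟩
  · rw [Equiv.Perm.support_conj, support_finRotate_of_le (by omega), Finset.map_univ_equiv]
  · intro v w hvw
    obtain ⟨t, rfl⟩ := e.surjective v
    obtain ⟨t', rfl⟩ := e.surjective w
    have h1 : ∀ t : Fin n, (e * finRotate n * e⁻¹) (e t) = W ((t + 1) % n) := by
      intro t
      simp only [Equiv.Perm.mul_apply, Equiv.Perm.inv_def, Equiv.symm_apply_apply]
      rw [← hrot]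
      rfl
    rw [h1, h1]
    exact hR t t' t.2 t'.2 (fun h => hvw (by rw [Fin.ext h]))

theorem mm_ne {n : ℕ} {a b c d : Fin n} (h : min a b ≠ min c d ∧ min a b ≠ max c d ∧
    max a b ≠ min c d ∧ max a b ≠ max c d) : a ≠ c ∧ a ≠ d ∧ b ≠ c ∧ b ≠ d := by
  obtain ⟨n1, n2, n3, n4⟩ := h
  rcases le_total a b with l | l <;> rcases le_total c d with l' | l' <;>
    simp only [l, l', min_eq_left, min_eq_right, max_eq_left, max_eq_right] at n1 n2 n3 n4 <;>
    exact ⟨by assumption, by assumption, by assumption, by assumption⟩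

theorem mm_eq {n : ℕ} {a b c d : Fin n} (h1 : min a b = min c d) (h2 : max a b = max c d) :
    (a = c ∧ b = d) ∨ (a = d ∧ b = c) := by
  rcases le_total a b with l | l <;> rcases le_total c d with l' | l' <;>
    simp only [l, l', min_eq_left, min_eq_right, max_eq_left, max_eq_right] at h1 h2 <;>
    simp [h1, h2]

theorem main0 (n : ℕ) (hn : 3 ≤ n) (pos : Fin n → ℝ × ℝ) (c : Fin n → Fin n → ℝ → ℝ × ℝ)
    (hc : ∀ i j : Fin n, i < j →
      ContinuousOn (c i j) (Set.Icc 0 1) ∧ Set.InjOn (c i j) (Set.Icc 0 1) ∧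
      c i j 0 = pos i ∧ c i j 1 = pos j ∧
      ∀ k : Fin n, ∀ s ∈ Set.Ioo (0:ℝ) 1, c i j s ≠ pos k)
    (hx : ∀ i j k l : Fin n, i < j → k < l → (i, j) ≠ (k, l) →
      ∀ s ∈ Set.Ioo (0:ℝ) 1, ∀ t ∈ Set.Ioo (0:ℝ) 1, c i j s = c k l t →
        (i ≠ k ∧ i ≠ l ∧ j ≠ k ∧ j ≠ l) ∧
        (∀ s' ∈ Set.Ioo (0:ℝ) 1, ∀ t' ∈ Set.Ioo (0:ℝ) 1,
          c i j s' = c k l t' → s' = s ∧ t' = t) ∧
        ∃ ε : ℝ, 0 < ε ∧ ∃ h : (ℝ × ℝ) ≃ₜ (ℝ × ℝ),
          h (c i j s) = 0 ∧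
          (∀ u ∈ Set.Ioo (s - ε) (s + ε), (h (c i j u)).2 = 0) ∧
          (∀ u ∈ Set.Ioo (t - ε) (t + ε), (h (c k l u)).1 = 0))
    {Ψ : ℝ × ℝ → ℝ × ℝ} {P : ℝ} (C : Chart Ψ P)
    (hE : ∀ i j : Fin n, i < j →
      ∃ α β φ g, Arc Ψ (c i j) α β φ g ∧ α < P ∧ P < β ∧ β < α + P) :
    ∃ σ : Equiv.Perm (Fin n), σ.IsCycle ∧ σ.support = Finset.univ ∧
      ∀ v w : Fin n, v ≠ w → ∀ s ∈ Set.Ioo (0:ℝ) 1, ∀ t ∈ Set.Ioo (0:ℝ) 1,
        c (min v (σ v)) (max v (σ v)) s ≠ c (min w (σ w)) (max w (σ w)) t := by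
  have hP := C.pos
  have m0 : (0:ℝ) ∈ Icc (0:ℝ) 1 := ⟨le_rfl, zero_le_one⟩
  have m1 : (1:ℝ) ∈ Icc (0:ℝ) 1 := ⟨zero_le_one, le_rfl⟩
  have per : ∀ x y, Ψ (x + P, y) = Ψ (x, y) := fun x y => (C.eq_iff _ _ _ _).2 ⟨rfl, 1, by simp⟩
  -- the two ends of an edge
  have hE' : ∀ i j : Fin n, i < j → ∃ α β φ g, Arc Ψ (c i j) α (β + P) φ g ∧
      0 < β ∧ β < α ∧ α < P ∧
      ((pos i = Ψ (α, g α) ∧ pos j = Ψ (β, g (β + P))) ∨
        (pos j = Ψ (α, g α) ∧ pos i = Ψ (β, g (β + P)))) := by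
    intro i j hij
    obtain ⟨α, β, φ, g, A, h1, h2, h3⟩ := hE i j hij
    obtain ⟨-, -, e0, e1, -⟩ := hc i j hij
    obtain ⟨β, rfl⟩ : ∃ β', β = β' + P := ⟨β - P, by ring⟩
    refine ⟨α, β, φ, g, A, by linarith, by linarith, h1, ?_⟩
    rw [← e0, ← e1, A.eq 0 m0, A.eq 1 m1]
    rcases A.ends with ⟨a0, a1⟩ | ⟨a0, a1⟩
    · exact Or.inl ⟨by rw [a0], by rw [a1, per]⟩
    · exact Or.inr ⟨by rw [a1], by rw [a0, per]⟩
  have hV : ∀ i : Fin n, ∃ x y, 0 < x ∧ x < P ∧ pos i = Ψ (x, y) := by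
    intro i
    obtain ⟨j, hj⟩ : ∃ j : Fin n, j ≠ i := by
      by_cases h : i = ⟨0, by omega⟩
      · exact ⟨⟨1, by omega⟩, by rw [h]; simp⟩
      · exact ⟨_, Ne.symm h⟩
    rcases lt_or_gt_of_ne hj with h | h
    · obtain ⟨α, β, φ, g, -, h1, h2, h3, ⟨-, e⟩ | ⟨e, -⟩⟩ := hE' j i h
      · exact ⟨_, _, h1, by linarith, e⟩
      · exact ⟨_, _, by linarith, h3, e⟩
    · obtain ⟨α, β, φ, g, -, h1, h2, h3, ⟨e, -⟩ | ⟨-, e⟩⟩ := hE' i j h
      · exact ⟨_, _, by linarith, h3, e⟩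
      · exact ⟨_, _, h1, by linarith, e⟩
  choose θ' h' p0 p1 p2 using hV
  have uq : ∀ i x y, 0 < x → x < P → pos i = Ψ (x, y) → x = θ' i ∧ y = h' i := by
    intro i x y h1 h2 e
    rw [p2 i, C.eq_iff] at e
    obtain ⟨e1, k, e2⟩ := e
    have := p0 i
    have := p1 i
    exact ⟨(int_zero hP e2 (by linarith) (by linarith)).symm, e1.symm⟩
  have hE2 : ∀ i j : Fin n, i < j → ∃ φ g,
      (θ' j < θ' i ∧ Arc Ψ (c i j) (θ' i) (θ' j + P) φ g ∧ g (θ' i) = h' i ∧
        g (θ' j + P) = h' j) ∨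
      (θ' i < θ' j ∧ Arc Ψ (c i j) (θ' j) (θ' i + P) φ g ∧ g (θ' j) = h' j ∧
        g (θ' i + P) = h' i) := by
    intro i j hij
    obtain ⟨α, β, φ, g, A, h1, h2, h3, ⟨e1, e2⟩ | ⟨e1, e2⟩⟩ := hE' i j hij
    · obtain ⟨rfl, a1⟩ := uq _ _ _ (by linarith) h3 e1
      obtain ⟨rfl, a2⟩ := uq _ _ _ h1 (by linarith) e2
      exact ⟨φ, g, Or.inl ⟨h2, A, a1, a2⟩⟩
    · obtain ⟨rfl, a1⟩ := uq _ _ _ (by linarith) h3 e1
      obtain ⟨rfl, a2⟩ := uq _ _ _ h1 (by linarith) e2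
      exact ⟨φ, g, Or.inr ⟨h2, A, a1, a2⟩⟩
  have hinj : Function.Injective θ' := by
    intro i j e
    rcases lt_trichotomy i j with h | h | h
    · obtain ⟨φ, g, ⟨a, -⟩ | ⟨a, -⟩⟩ := hE2 i j h <;> linarith
    · exact h
    · obtain ⟨φ, g, ⟨a, -⟩ | ⟨a, -⟩⟩ := hE2 j i h <;> linarith
  have hE3 : ∀ x y : Fin n, θ' x < θ' y → ∃ φ g,
      Arc Ψ (c (min x y) (max x y)) (θ' y) (θ' x + P) φ g ∧ g (θ' y) = h' y ∧
        g (θ' x + P) = h' x := by
    intro x y hxy
    rcases lt_trichotomy x y with h | h | h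
    · rw [min_eq_left h.le, max_eq_right h.le]
      obtain ⟨φ, g, ⟨a, -⟩ | ⟨-, a⟩⟩ := hE2 x y h
      · linarith
      · exact ⟨φ, g, a⟩
    · rw [h] at hxy; exact absurd hxy (lt_irrefl _)
    · rw [min_eq_right h.le, max_eq_left h.le]
      obtain ⟨φ, g, ⟨-, a⟩ | ⟨a, -⟩⟩ := hE2 y x h
      · exact ⟨φ, g, a⟩
      · linarith
  -- sort the vertices by angle
  obtain ⟨V, hVm⟩ : ∃ V : ℕ → Fin n, ∀ a b, a < b → b < n → θ' (V a) < θ' (V b) := by
    have hs : StrictMono (θ' ∘ Tuple.sort θ') :=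
      (Tuple.monotone_sort θ').strictMono_of_injective (hinj.comp (Tuple.sort θ').injective)
    refine ⟨fun a => if h : a < n then Tuple.sort θ' ⟨a, h⟩ else ⟨0, by omega⟩, ?_⟩
    intro a b h1 h2
    simp only [dif_pos h2, dif_pos (h1.trans h2)]
    exact hs (show (⟨a, h1.trans h2⟩ : Fin n) < ⟨b, h2⟩ from h1)
  have hVi : ∀ a b, a < n → b < n → V a = V b → a = b := by
    intro a b ha hb e
    rcases lt_trichotomy a b with h | h | h
    · exact absurd (hVm a b h hb) (by rw [e]; exact lt_irrefl _)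
    · exact h
    · exact absurd (hVm b a h ha) (by rw [e]; exact lt_irrefl _)
  have hE4 : ∀ a b : ℕ, ∃ φ g : ℝ → ℝ, a < b → b < n →
      Arc Ψ (c (min (V a) (V b)) (max (V a) (V b))) (θ' (V b)) (θ' (V a) + P) φ g ∧
        g (θ' (V b)) = h' (V b) ∧ g (θ' (V a) + P) = h' (V a) := by
    intro a b
    by_cases h : a < b ∧ b < n
    · obtain ⟨φ, g, A⟩ := hE3 _ _ (hVm a b h.1 h.2)
      exact ⟨φ, g, fun _ _ => A⟩
    · exact ⟨id, id, fun h1 h2 => absurd ⟨h1, h2⟩ h⟩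
  choose φ g hA using hE4
  let E : ℕ → ℕ → ℝ → ℝ × ℝ := fun a b => c (min (V a) (V b)) (max (V a) (V b))
  have hlt : ∀ a b, a < b → b < n → min (V a) (V b) < max (V a) (V b) := fun a b h1 h2 =>
    min_lt_max.2 (fun e => h1.ne (hVi a b (by omega) h2 e))
  have hmeet : ∀ a b c d, a < b → b < n → c < d → d < n → (a ≠ c ∨ b ≠ d) →
      ∀ s ∈ Set.Ioo (0:ℝ) 1, ∀ t ∈ Set.Ioo (0:ℝ) 1, E a b s = E c d t →
        (a ≠ c ∧ a ≠ d ∧ b ≠ c ∧ b ≠ d) ∧
        (∀ s' ∈ Set.Ioo (0:ℝ) 1, ∀ t' ∈ Set.Ioo (0:ℝ) 1,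
          E a b s' = E c d t' → s' = s ∧ t' = t) ∧
        ∃ ε : ℝ, 0 < ε ∧ ∃ h : (ℝ × ℝ) ≃ₜ (ℝ × ℝ),
          h (E a b s) = 0 ∧
          (∀ u ∈ Set.Ioo (s - ε) (s + ε), (h (E a b u)).2 = 0) ∧
          (∀ u ∈ Set.Ioo (t - ε) (t + ε), (h (E c d u)).1 = 0) := by
    intro a b c d h1 h2 h3 h4 h5 s hs t ht e
    have hne : (min (V a) (V b), max (V a) (V b)) ≠ (min (V c) (V d), max (V c) (V d)) := by
      intro e'
      rw [Prod.mk.injEq] at e'
      rcases mm_eq e'.1 e'.2 with ⟨i1, i2⟩ | ⟨i1, i2⟩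
      · have := hVi a c (by omega) (by omega) i1
        have := hVi b d (by omega) (by omega) i2
        omega
      · have := hVi a d (by omega) (by omega) i1
        have := hVi b c (by omega) (by omega) i2
        omega
    obtain ⟨N, H⟩ := hx _ _ _ _ (hlt a b h1 h2) (hlt c d h3 h4) hne s hs t ht e
    obtain ⟨n1, n2, n3, n4⟩ := mm_ne N
    exact ⟨⟨fun e => n1 (by rw [e]), fun e => n2 (by rw [e]), fun e => n3 (by rw [e]),
      fun e => n4 (by rw [e])⟩, H⟩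
  have hpt : ∀ a b, a < b → b < n → ∀ x ∈ Ioo (θ' (V b)) (θ' (V a) + P),
      ∃ s ∈ Ioo (0:ℝ) 1, φ a b s = x ∧ E a b s = Ψ (x, g a b x) := by
    intro a b h1 h2 x hx
    obtain ⟨s, hs, e⟩ := (hA a b h1 h2).1.surj x hx
    exact ⟨s, hs, e, by rw [← e]; exact (hA a b h1 h2).1.eq s (Ioo_subset_Icc_self hs)⟩
  have wrap : ∀ a b, θ' (V b) < θ' (V a) + P := fun a b => by
    have := p0 (V a); have := p1 (V b); linarith
  have G : GT n P (fun a => θ' (V a)) (fun a => h' (V a)) g :=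
    { mono := hVm
      wrap := fun a b _ _ => wrap a b
      cont := fun a b h1 h2 => (hA a b h1 h2).1.cg
      left := fun a b h1 h2 => (hA a b h1 h2).2.1
      right := fun a b h1 h2 => (hA a b h1 h2).2.2
      av1 := by
        intro a b k h1 h2 h3 e
        obtain ⟨s, hs, -, e'⟩ := hpt a b h1 (by omega) _ ⟨hVm b k h2 h3, wrap a k⟩
        exact (hc _ _ (hlt a b h1 (by omega))).2.2.2.2 (V k) s hs (by
          rw [p2 (V k), ← e]; exact e')
      av2 := by
        intro k a b h1 h2 h3 e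
        obtain ⟨s, hs, -, e'⟩ := hpt a b h2 h3 (θ' (V k) + P)
          ⟨wrap k b, by have := hVm k a h1 (by omega); linarith⟩
        exact (hc _ _ (hlt a b h2 h3)).2.2.2.2 (V k) s hs (by
          rw [p2 (V k), ← e, ← per]; exact e')
      adj := by
        intro a b c d h1 h2 h3 h4 h5 h6 x hx1 hx2 e
        obtain ⟨s, hs, -, e1⟩ := hpt a b h1 h2 x hx1
        obtain ⟨t, ht, -, e2⟩ := hpt c d h3 h4 x hx2
        have := (hmeet a b c d h1 h2 h3 h4 h5 s hs t ht (by rw [e1, e2, e])).1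
        omega
      two := by
        intro a b c d h1 h2 h3 h4 x hx y hy e e'
        have l1 := hVm a b h1 (by omega)
        have l2 := hVm b c h2 (by omega)
        have l3 := hVm c d h3 h4
        have l4 := wrap a c
        have l5 := wrap b d
        have x1 := hx.1; have x2 := hx.2; have y1 := hy.1; have y2 := hy.2
        obtain ⟨s, hs, a1, e1⟩ := hpt a b h1 (by omega) x ⟨by linarith, by linarith⟩
        obtain ⟨t, ht, -, e2⟩ := hpt c d h3 h4 x ⟨by linarith, by linarith⟩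
        obtain ⟨s', hs', a2, e3⟩ := hpt a b h1 (by omega) y ⟨by linarith, by linarith⟩
        obtain ⟨t', ht', -, e4⟩ := hpt c d h3 h4 (y + P) ⟨by linarith, by linarith⟩
        have := ((hmeet a b c d h1 (by omega) h3 h4 (by omega) s hs t ht
          (by rw [e1, e2, e])).2.1 s' hs' t' ht' (by rw [e3, e4, e', per])).1
        rw [this, a1] at a2
        linarith
      uniq := by
        intro a b c d h1 h2 h3 h4 x hx y hy e e'
        have l4 := wrap a c
        have l5 := wrap b d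
        have x1 := hx.1; have x2 := hx.2; have y1 := hy.1; have y2 := hy.2
        obtain ⟨s, hs, a1, e1⟩ := hpt a b h1 (by omega) x ⟨by linarith, by linarith⟩
        obtain ⟨t, ht, -, e2⟩ := hpt c d h3 h4 (x + P) ⟨by linarith, by linarith⟩
        obtain ⟨s', hs', a2, e3⟩ := hpt a b h1 (by omega) y ⟨by linarith, by linarith⟩
        obtain ⟨t', ht', -, e4⟩ := hpt c d h3 h4 (y + P) ⟨by linarith, by linarith⟩
        have := ((hmeet a b c d h1 (by omega) h3 h4 (by omega) s hs t ht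
          (by rw [e1, e2, e, per])).2.1 s' hs' t' ht' (by rw [e3, e4, e', per])).1
        rw [this, a1] at a2
        exact a2
      tang := by
        intro a b c' d h1 h2 h3 h4 x hx0 e
        have l4 := wrap a c'
        have l5 := wrap b d
        have x1 := hx0.1; have x2 := hx0.2
        obtain ⟨s, hs, a1, e1⟩ := hpt a b h1 (by omega) x ⟨by linarith, by linarith⟩
        obtain ⟨t, ht, a2, e2⟩ := hpt c' d h3 h4 (x + P) ⟨by linarith, by linarith⟩
        obtain ⟨ε, hε, h, q1, q2, q3⟩ := (hmeet a b c' d h1 (by omega) h3 h4 (by omega) s hs t ht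
          (by rw [e1, e2, e, per])).2.2
        have c1 := hc _ _ (hlt a b h1 (by omega))
        have c2 := hc _ _ (hlt c' d h3 h4)
        have key : ∀ σ : ℝ, σ * σ = 1 → ¬ ∀ y ∈ Ioo (θ' (V b)) (θ' (V c')), y ≠ x →
            0 < σ * (g c' d (y + P) - g a b y) := by
          intro σ hσ H
          refine no_tangent C (hA a b h1 (by omega)).1 ((hA c' d h3 h4).1.shift C)
            (by have := hVm a b h1 (by omega); linarith) c1.1 c1.2.1 c2.1 c2.2.1 hs ht
            (by rw [a1, a2]; ring) (by rw [a1]; exact e) hε h q1 q2 q3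
            (u := θ' (V b)) (v := θ' (V c')) (σ := σ) (by rw [a1]; exact hx0)
            (by rw [a1]; exact H) hσ
        constructor
        · intro H
          exact key 1 (by norm_num) (fun y hy hne => by have := H y hy hne; linarith)
        · intro H
          exact key (-1) (by norm_num) (fun y hy hne => by have := H y hy hne; linarith) }
  obtain ⟨w, w1, w2, w3⟩ := G.good hn
  have hD : ∀ a b c d, a < b → b < n → c < d → d < n → GT.D0 P (fun a => θ' (V a)) g a b c d →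
      ∀ s ∈ Set.Ioo (0:ℝ) 1, ∀ t ∈ Set.Ioo (0:ℝ) 1, E a b s ≠ E c d t := by
    intro a b c d h1 h2 h3 h4 H s hs t ht e
    have A := (hA a b h1 h2).1
    have B := (hA c d h3 h4).1
    have e' := e
    simp only [E] at e'
    rw [A.eq s (Ioo_subset_Icc_self hs), B.eq t (Ioo_subset_Icc_self ht), C.eq_iff] at e'
    obtain ⟨e1, k, e2⟩ := e'
    have x0 := A.mapsI s hs
    have y0 := B.mapsI t ht
    refine H _ x0 _ y0 ?_ e1
    have x1 := x0.1; have x2 := x0.2; have y1 := y0.1; have y2 := y0.2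
    have := p0 (V b); have := p1 (V a); have := p0 (V d); have := p1 (V c)
    have a1 : (k : ℝ) < 2 := by
      by_contra hc
      have := mul_le_mul_of_nonneg_right (not_lt.1 hc) hP.le
      linarith
    have a2 : (-2 : ℝ) < k := by
      by_contra hc
      have := mul_le_mul_of_nonneg_right (not_lt.1 hc) hP.le
      linarith
    have a3 : k < 2 := by exact_mod_cast a1
    have a4 : -2 < k := by exact_mod_cast a2
    have : k = 0 ∨ k = -1 ∨ k = 1 := by omega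
    rcases this with rfl | rfl | rfl
    · left; simp at e2; linarith
    · right; left; simp at e2; linarith
    · right; right; simp at e2; linarith
  have hEs : ∀ a b, E (min a b) (max a b) = c (min (V a) (V b)) (max (V a) (V b)) := by
    intro a b
    rcases le_total a b with l | l
    · rw [min_eq_left l, max_eq_right l]
    · rw [min_eq_right l, max_eq_left l, min_comm, max_comm]
  have hnext : ∀ t, t < n → w t ≠ w ((t + 1) % n) := by
    intro t ht
    rcases Nat.lt_or_ge (t + 1) n with h | h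
    · rw [Nat.mod_eq_of_lt h]; exact w2 t (t + 1) (by omega) h
    · have : t + 1 = n := by omega
      rw [this, Nat.mod_self]
      exact (w2 0 t (by omega) ht).symm
  have hfin : ∀ t t', t < t' → t' < n → ∀ s ∈ Set.Ioo (0:ℝ) 1, ∀ s' ∈ Set.Ioo (0:ℝ) 1,
      c (min (V (w t)) (V (w ((t + 1) % n)))) (max (V (w t)) (V (w ((t + 1) % n)))) s ≠
      c (min (V (w t')) (V (w ((t' + 1) % n)))) (max (V (w t')) (V (w ((t' + 1) % n)))) s' := by
    intro t t' h1 h2
    rw [← hEs, ← hEs]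
    have b1 := w1 t (by omega)
    have b2 := w1 t' h2
    have b3 := w1 ((t + 1) % n) (Nat.mod_lt _ (by omega))
    have b4 := w1 ((t' + 1) % n) (Nat.mod_lt _ (by omega))
    exact hD _ _ _ _ (min_lt_max.2 (hnext t (by omega))) (by omega) (min_lt_max.2 (hnext t' h2))
      (by omega) (w3 t t' h1 h2)
  refine exists_cycle hn (fun t => V (w t))
    (fun t t' h1 h2 e => w2 t t' h1 h2 (hVi _ _ (w1 t (by omega)) (w1 t' h2) e))
    (fun v v' x x' => ∀ s ∈ Set.Ioo (0:ℝ) 1, ∀ t ∈ Set.Ioo (0:ℝ) 1,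
      c (min v v') (max v v') s ≠ c (min x x') (max x x') t) ?_
  intro t t' h1 h2 hne
  rcases lt_or_gt_of_ne hne with h | h
  · exact hfin t t' h h2
  · exact fun s hs s' hs' => (hfin t' t h h1 s' hs' s hs).symm

end Pool.Agent.Lib.MP_3764f3_co
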