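import Mathlib

-- part Pool.Agent.Lib.MP_3764f3_co.Comb
section

set_option autoImplicit false

namespace Pool.Agent.Lib.MP_3764f3_co

/-- Nested chain of pairs: for a relation with the two strict transitivity rules there is, for
every gap `g`, a pair `p, p + g` such that `p` beats everything right of `p + g` and `p + g` beats
everything left of `p`. -/
theorem chain (N : ℕ) (B : ℕ → ℕ → Prop)
    (T1 : ∀ a x d m, a < x → x < d → d < m → m < N → B a d → B x m → B a m)
    (T2 : ∀ a x d m, a < x → x < d → d < m → m < N → ¬ B a d → ¬ B x m → ¬ B a m) :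
    ∀ k g, g + k + 1 = N → 1 ≤ g →
      ∃ p, p + g < N ∧ (∀ y, p + g < y → y < N → B p y) ∧ (∀ z, z < p → ¬ B z (p + g)) := by
  intro k
  induction k with
  | zero =>
    intro g hg _
    exact ⟨0, by omega, fun y h1 h2 => by omega, fun z hz => by omega⟩
  | succ k ih =>
    intro g hg h1
    obtain ⟨p, hp, hy, hz⟩ := ih (g + 1) (by omega) (by omega)
    by_cases hB : B p (p + (g + 1))
    · refine ⟨p, by omega, fun y h2 h3 => ?_, fun z h2 h3 => ?_⟩
      · rcases Nat.lt_or_ge (p + (g + 1)) y with h | h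
        · exact hy y h h3
        · have : y = p + (g + 1) := by omega
          rw [this]; exact hB
      · exact hz z h2 (T1 z p (p + g) (p + (g + 1)) h2 (by omega) (by omega) hp h3 hB)
    · refine ⟨p + 1, by omega, fun y h2 h3 => ?_, fun z h2 => ?_⟩
      · by_contra hn
        exact T2 p (p + 1) (p + (g + 1)) y (by omega) (by omega) (by omega) h3 hB hn
          (hy y (by omega) h3)
      · have e : p + 1 + g = p + (g + 1) := by omega
        rw [e]
        rcases Nat.lt_or_ge z p with h | h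
        · exact hz z h
        · have : z = p := by omega
          rw [this]; exact hB

/-- Transitivity rules of the above-below signs of a generalized twisted drawing. -/
structure Rules (n : ℕ) (s : ℕ → ℕ → Prop) : Prop where
  T1 : ∀ a x d m, a < x → x ≤ d → d < m → m < n → a + 2 ≤ d → x + 2 ≤ m → s a d → s x m → s a m
  T2 : ∀ a x d m, a < x → x ≤ d → d < m → m < n → a + 2 ≤ d → x + 2 ≤ m →
    ¬ s a d → ¬ s x m → ¬ s a m

/-- There is a top vertex. -/
theorem top {n : ℕ} {s : ℕ → ℕ → Prop} (R : Rules n s) (hn : 2 ≤ n) :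
    ∃ v, v < n ∧ (∀ y, v + 2 ≤ y → y < n → s v y) ∧ (∀ z, z + 2 ≤ v → ¬ s z v) := by
  obtain ⟨p, hp, hy, hz⟩ := chain n s
    (fun a x d m h1 h2 h3 h4 => R.T1 a x d m h1 h2.le h3 h4 (by omega) (by omega))
    (fun a x d m h1 h2 h3 h4 => R.T2 a x d m h1 h2.le h3 h4 (by omega) (by omega))
    (n - 2) 1 (by omega) le_rfl
  by_cases h : ∀ z, z + 2 ≤ p → ¬ s z p
  · exact ⟨p, by omega, fun y h1 h2 => hy y (by omega) h2, h⟩
  · push Not at h
    obtain ⟨z, hz1, hz2⟩ := h
    refine ⟨p + 1, hp, fun y h1 h2 => ?_, fun z h1 => hz z (by omega)⟩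
    by_contra hn'
    have h3 : s z y := R.T1 z p p y (by omega) le_rfl (by omega) h2 hz1 (by omega) hz2
      (hy y (by omega) h2)
    exact R.T2 z (p + 1) (p + 1) y (by omega) le_rfl (by omega) h2 (by omega) h1
      (hz z (by omega)) hn' h3

/-- `x` beats `y`. -/
def Beats (s : ℕ → ℕ → Prop) (x y : ℕ) : Prop := if x < y then s x y else ¬ s y x

theorem beats_lt {s : ℕ → ℕ → Prop} {x y : ℕ} (h : x < y) : Beats s x y ↔ s x y := by
  simp [Beats, h]

theorem beats_gt {s : ℕ → ℕ → Prop} {x y : ℕ} (h : y < x) : Beats s x y ↔ ¬ s y x := by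
  simp [Beats, not_lt.2 h.le]

/-- All instances of the rules on five sorted points. -/
theorem five {n : ℕ} {s : ℕ → ℕ → Prop} (R : Rules n s) {a b c d e : ℕ} (h1 : a < b) (h2 : b < c)
    (h3 : c < d) (h4 : d < e) (h5 : e < n) :
    ((s a c ↔ s b d) → (s a d ↔ s a c)) ∧ ((s a c ↔ s b e) → (s a e ↔ s a c)) ∧
    ((s a d ↔ s b e) → (s a e ↔ s a d)) ∧ ((s a d ↔ s c e) → (s a e ↔ s a d)) ∧
    ((s b d ↔ s c e) → (s b e ↔ s b d)) ∧ ((s a c ↔ s c e) → (s a e ↔ s a c)) := by
  have key : ∀ a x d m, a < x → x ≤ d → d < m → m < n → a + 2 ≤ d → x + 2 ≤ m →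
      ((s a d ↔ s x m) → (s a m ↔ s a d)) := by
    intro a x d m g1 g2 g3 g4 g5 g6
    have := R.T1 a x d m g1 g2 g3 g4 g5 g6
    have := R.T2 a x d m g1 g2 g3 g4 g5 g6
    tauto
  exact ⟨key a b c d (by omega) (by omega) (by omega) (by omega) (by omega) (by omega),
    key a b c e (by omega) (by omega) (by omega) (by omega) (by omega) (by omega),
    key a b d e (by omega) (by omega) (by omega) (by omega) (by omega) (by omega),
    key a c d e (by omega) (by omega) (by omega) (by omega) (by omega) (by omega),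
    key b c d e (by omega) (by omega) (by omega) (by omega) (by omega) (by omega),
    key a c c e (by omega) (by omega) (by omega) (by omega) (by omega) (by omega)⟩

theorem prop5 {ac ad ae bd be ce : Prop}
    (h : ((ac ↔ bd) → (ad ↔ ac)) ∧ ((ac ↔ be) → (ae ↔ ac)) ∧
      ((ad ↔ be) → (ae ↔ ad)) ∧ ((ad ↔ ce) → (ae ↔ ad)) ∧
      ((bd ↔ ce) → (be ↔ bd)) ∧ ((ac ↔ ce) → (ae ↔ ac))) :
    ((bd ↔ ce) → (be ↔ bd)) ∧
    (bd → be → (ce ↔ ¬ ad) → (¬ ac ↔ ce)) ∧
    (ce → ¬ ac → (¬ ad ↔ ¬ be) → (¬ bd ↔ ¬ ad)) ∧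
    (¬ ad → ¬ bd → (¬ be ↔ ac) → (¬ ce ↔ ¬ be)) ∧
    ((ac ↔ bd) → (ad ↔ ac)) := by
  by_cases h1 : ac <;> by_cases h2 : ad <;> by_cases h3 : ae <;> by_cases h4 : bd <;>
    by_cases h5 : be <;> by_cases h6 : ce <;> simp_all

/-- Position `i` counted cyclically from `v`. -/
def rot (n v i : ℕ) : ℕ := if v + i < n then v + i else v + i - n

/-- After cutting at a top vertex, the strict rules hold in the rotated order. -/
theorem rot_rules {n : ℕ} {s : ℕ → ℕ → Prop} (R : Rules n s) {v : ℕ} (hv : v < n)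
    (hy : ∀ y, v + 2 ≤ y → y < n → s v y) (hz : ∀ z, z + 2 ≤ v → ¬ s z v)
    {a x d m : ℕ} (h0 : 0 < a) (h1 : a < x) (h2 : x < d) (h3 : d < m) (h4 : m < n) :
    (Beats s (rot n v a) (rot n v d) ↔ Beats s (rot n v x) (rot n v m)) →
      (Beats s (rot n v a) (rot n v m) ↔ Beats s (rot n v a) (rot n v d)) := by
  unfold rot
  by_cases c4 : v + m < n
  · rw [if_pos c4, if_pos (by omega : v + d < n), if_pos (by omega : v + x < n),
      if_pos (by omega : v + a < n), beats_lt (by omega), beats_lt (by omega), beats_lt (by omega)]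
    exact (prop5 (five R (a := v) (b := v + a) (c := v + x) (d := v + d) (e := v + m)
      (by omega) (by omega) (by omega) (by omega) (by omega))).1
  by_cases c3 : v + d < n
  · rw [if_neg c4, if_pos c3, if_pos (by omega : v + x < n),
      if_pos (by omega : v + a < n), beats_lt (by omega), beats_gt (by omega), beats_gt (by omega)]
    exact (prop5 (five R (a := v + m - n) (b := v) (c := v + a) (d := v + x) (e := v + d)
      (by omega) (by omega) (by omega) (by omega) (by omega))).2.1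
      (hy (v + x) (by omega) (by omega)) (hy (v + d) (by omega) (by omega))
  by_cases c2 : v + x < n
  · rw [if_neg c4, if_neg c3, if_pos c2,
      if_pos (by omega : v + a < n), beats_gt (by omega), beats_gt (by omega), beats_gt (by omega)]
    exact (prop5 (five R (a := v + d - n) (b := v + m - n) (c := v) (d := v + a) (e := v + x)
      (by omega) (by omega) (by omega) (by omega) (by omega))).2.2.1
      (hy (v + x) (by omega) (by omega)) (hz (v + d - n) (by omega))
  by_cases c1 : v + a < n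
  · rw [if_neg c4, if_neg c3, if_neg c2, if_pos c1,
      beats_gt (by omega), beats_lt (by omega), beats_gt (by omega)]
    exact (prop5 (five R (a := v + x - n) (b := v + d - n) (c := v + m - n) (d := v) (e := v + a)
      (by omega) (by omega) (by omega) (by omega) (by omega))).2.2.2.1
      (hz (v + x - n) (by omega)) (hz (v + d - n) (by omega))
  · rw [if_neg c4, if_neg c3, if_neg c2, if_neg c1,
      beats_lt (by omega), beats_lt (by omega), beats_lt (by omega)]
    exact (prop5 (five R (a := v + a - n) (b := v + x - n) (c := v + d - n) (d := v + m - n)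
      (e := v) (by omega) (by omega) (by omega) (by omega) (by omega))).2.2.2.2

/-- What is known about disjointness `D a b c d` of the edges `ab` and `cd`. -/
structure Disj (n : ℕ) (s : ℕ → ℕ → Prop) (D : ℕ → ℕ → ℕ → ℕ → Prop) : Prop where
  sw : ∀ {a b c d}, D a b c d → D b a c d
  sy : ∀ {a b c d}, D a b c d → D c d a b
  adj : ∀ a b c, a < n → b < n → c < n → a ≠ b → a ≠ c → b ≠ c → D a b a c
  int : ∀ a b c d, a < b → b < c → c < d → d < n → D a c b d
  sep : ∀ a b c d, a < b → b < c → c < d → d < n → (s a c ↔ s b d) → D a b c d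
  nest : ∀ a b c d, a < b → b < c → c < d → d < n → ¬ (s a c ↔ s b d) → D a d b c

theorem Disj.sw' {n : ℕ} {s : ℕ → ℕ → Prop} {D : ℕ → ℕ → ℕ → ℕ → Prop} (H : Disj n s D)
    {a b c d : ℕ} (h : D a b c d) : D a b d c := H.sy (H.sw (H.sy h))

/-- The disjointness data in the rotated order. -/
theorem rot_disj {n : ℕ} {s : ℕ → ℕ → Prop} {D : ℕ → ℕ → ℕ → ℕ → Prop} (H : Disj n s D)
    {v : ℕ} (hv : v < n) :
    Disj n (fun a b => Beats s (rot n v a) (rot n v b))
      (fun a b c d => D (rot n v a) (rot n v b) (rot n v c) (rot n v d)) where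
  sw := fun h => H.sw h
  sy := fun h => H.sy h
  adj := by
    intro a b c ha hb hc h1 h2 h3
    apply H.adj <;> unfold rot <;> split_ifs <;> omega
  int := by
    intro a b c d h1 h2 h3 h4
    unfold rot
    by_cases c4 : v + d < n
    · rw [if_pos c4, if_pos (by omega : v + c < n), if_pos (by omega : v + b < n),
        if_pos (by omega : v + a < n)]
      exact H.int _ _ _ _ (by omega) (by omega) (by omega) (by omega)
    by_cases c3 : v + c < n
    · rw [if_neg c4, if_pos c3, if_pos (by omega : v + b < n), if_pos (by omega : v + a < n)]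
      exact H.sw' (H.sy (H.int _ _ _ _ (by omega) (by omega) (by omega) (by omega)))
    by_cases c2 : v + b < n
    · rw [if_neg c4, if_neg c3, if_pos c2, if_pos (by omega : v + a < n)]
      exact H.sw (H.sw' (H.int _ _ _ _ (by omega) (by omega) (by omega) (by omega)))
    by_cases c1 : v + a < n
    · rw [if_neg c4, if_neg c3, if_neg c2, if_pos c1]
      exact H.sw (H.sy (H.int _ _ _ _ (by omega) (by omega) (by omega) (by omega)))
    · rw [if_neg c4, if_neg c3, if_neg c2, if_neg c1]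
      exact H.int _ _ _ _ (by omega) (by omega) (by omega) (by omega)
  sep := by
    intro a b c d h1 h2 h3 h4
    unfold rot
    by_cases c4 : v + d < n
    · rw [if_pos c4, if_pos (by omega : v + c < n), if_pos (by omega : v + b < n),
        if_pos (by omega : v + a < n), beats_lt (by omega), beats_lt (by omega)]
      exact H.sep _ _ _ _ (by omega) (by omega) (by omega) (by omega)
    by_cases c3 : v + c < n
    · rw [if_neg c4, if_pos c3, if_pos (by omega : v + b < n), if_pos (by omega : v + a < n),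
        beats_lt (by omega), beats_gt (by omega)]
      intro h
      exact H.sw' (H.sy (H.nest _ _ _ _ (by omega) (by omega) (by omega) (by omega) (by tauto)))
    by_cases c2 : v + b < n
    · rw [if_neg c4, if_neg c3, if_pos c2, if_pos (by omega : v + a < n),
        beats_gt (by omega), beats_gt (by omega)]
      intro h
      exact H.sy (H.sep _ _ _ _ (by omega) (by omega) (by omega) (by omega) (by tauto))
    by_cases c1 : v + a < n
    · rw [if_neg c4, if_neg c3, if_neg c2, if_pos c1, beats_gt (by omega), beats_lt (by omega)]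
      intro h
      exact H.sw (H.nest _ _ _ _ (by omega) (by omega) (by omega) (by omega) (by tauto))
    · rw [if_neg c4, if_neg c3, if_neg c2, if_neg c1, beats_lt (by omega), beats_lt (by omega)]
      exact H.sep _ _ _ _ (by omega) (by omega) (by omega) (by omega)
  nest := by
    intro a b c d h1 h2 h3 h4
    unfold rot
    by_cases c4 : v + d < n
    · rw [if_pos c4, if_pos (by omega : v + c < n), if_pos (by omega : v + b < n),
        if_pos (by omega : v + a < n), beats_lt (by omega), beats_lt (by omega)]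
      exact H.nest _ _ _ _ (by omega) (by omega) (by omega) (by omega)
    by_cases c3 : v + c < n
    · rw [if_neg c4, if_pos c3, if_pos (by omega : v + b < n), if_pos (by omega : v + a < n),
        beats_lt (by omega), beats_gt (by omega)]
      intro h
      exact H.sw (H.sep _ _ _ _ (by omega) (by omega) (by omega) (by omega) (by tauto))
    by_cases c2 : v + b < n
    · rw [if_neg c4, if_neg c3, if_pos c2, if_pos (by omega : v + a < n),
        beats_gt (by omega), beats_gt (by omega)]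
      intro h
      exact H.sw (H.sw' (H.sy
        (H.nest _ _ _ _ (by omega) (by omega) (by omega) (by omega) (by tauto))))
    by_cases c1 : v + a < n
    · rw [if_neg c4, if_neg c3, if_neg c2, if_pos c1, beats_gt (by omega), beats_lt (by omega)]
      intro h
      exact H.sy (H.sw' (H.sep _ _ _ _ (by omega) (by omega) (by omega) (by omega) (by tauto)))
    · rw [if_neg c4, if_neg c3, if_neg c2, if_neg c1, beats_lt (by omega), beats_lt (by omega)]
      exact H.nest _ _ _ _ (by omega) (by omega) (by omega) (by omega)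

/-- A cyclic listing `w` of `0, ..., n-1` whose consecutive pairs are pairwise disjoint edges. -/
def Good (n : ℕ) (D : ℕ → ℕ → ℕ → ℕ → Prop) (w : ℕ → ℕ) : Prop :=
  (∀ t, t < n → w t < n) ∧ (∀ t t', t < t' → t' < n → w t ≠ w t') ∧
  ∀ t t', t < t' → t' < n → D (w t) (w ((t + 1) % n)) (w t') (w ((t' + 1) % n))

/-- Two distinct long chords of an odd polygon `lo, ..., lo + 2k` are disjoint. -/
theorem chord {n : ℕ} {s : ℕ → ℕ → Prop} {D : ℕ → ℕ → ℕ → ℕ → Prop} (H : Disj n s D)
    {lo k a b c d : ℕ} (hk : 1 ≤ k) (hn : lo + 2 * k < n) (ha : lo ≤ a) (hc : lo ≤ c)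
    (hb : b ≤ lo + 2 * k) (hd : d ≤ lo + 2 * k) (h1 : b = a + k ∨ b = a + k + 1)
    (h2 : d = c + k ∨ d = c + k + 1) (hne : a ≠ c ∨ b ≠ d) : D a b c d := by
  rcases lt_trichotomy a c with h | h | h
  · rcases lt_trichotomy c b with g | g | g
    · rcases lt_trichotomy b d with f | f | f
      · exact H.int _ _ _ _ h g f (by omega)
      · subst f
        exact H.sw (H.sw' (H.adj b a c (by omega) (by omega) (by omega) (by omega) (by omega)
          (by omega)))
      · omega
    · subst g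
      exact H.sw (H.adj c a d (by omega) (by omega) (by omega) (by omega) (by omega) (by omega))
    · omega
  · subst h
    exact H.adj a b d (by omega) (by omega) (by omega) (by omega) (by omega) (by omega)
  · rcases lt_trichotomy a d with g | g | g
    · rcases lt_trichotomy d b with f | f | f
      · exact H.sy (H.int _ _ _ _ h g f (by omega))
      · subst f
        exact H.sw (H.sw' (H.adj d a c (by omega) (by omega) (by omega) (by omega) (by omega)
          (by omega)))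
      · omega
    · subst g
      exact H.sw' (H.adj a b c (by omega) (by omega) (by omega) (by omega) (by omega) (by omega))
    · omega

/-- Unordered version of `chord`. -/
theorem chord' {n : ℕ} {s : ℕ → ℕ → Prop} {D : ℕ → ℕ → ℕ → ℕ → Prop} (H : Disj n s D)
    {lo k a b c d : ℕ} (hk : 1 ≤ k) (hn : lo + 2 * k < n) (ha : lo ≤ a) (hb : lo ≤ b)
    (hc : lo ≤ c) (hd : lo ≤ d) (ha' : a ≤ lo + 2 * k) (hb' : b ≤ lo + 2 * k)
    (hc' : c ≤ lo + 2 * k) (hd' : d ≤ lo + 2 * k) (h1 : b = a + k ∨ a = b + k + 1)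
    (h2 : d = c + k ∨ c = d + k + 1) (hne : a ≠ c) : D a b c d := by
  rcases h1 with h1 | h1 <;> rcases h2 with h2 | h2
  · exact chord H hk hn ha hc hb' hd' (Or.inl h1) (Or.inl h2) (by omega)
  · exact H.sw' (chord H hk hn ha hd hb' hc' (Or.inl h1) (Or.inr h2) (by omega))
  · exact H.sw (chord H hk hn hb hc ha' hd' (Or.inr h1) (Or.inl h2) (by omega))
  · exact H.sw (H.sw' (chord H hk hn hb hd ha' hc' (Or.inr h1) (Or.inr h2) (by omega)))

/-- The star polygon walk `q, q + k, q + 2k, ...` on `0, ..., 2k`. -/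
def walk (k q t : ℕ) : ℕ :=
  if t % 2 = 0 then (if t / 2 ≤ q then q - t / 2 else q + (2 * k + 1) - t / 2)
  else (if q + k - t / 2 ≤ 2 * k then q + k - t / 2 else q + k - t / 2 - (2 * k + 1))

theorem walk_le {k q t : ℕ} (hq : q ≤ 2 * k) (ht : t ≤ 2 * k) : walk k q t ≤ 2 * k := by
  unfold walk; split_ifs <;> omega

theorem walk_ne {k q t t' : ℕ} (hq : q ≤ 2 * k) (h : t < t') (ht : t' ≤ 2 * k) :
    walk k q t ≠ walk k q t' := by
  unfold walk; split_ifs <;> omega

theorem walk_step {k q t : ℕ} (hq : q ≤ 2 * k) (ht : t < 2 * k) :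
    walk k q (t + 1) = walk k q t + k ∨ walk k q t = walk k q (t + 1) + k + 1 := by
  unfold walk; split_ifs <;> omega

theorem walk_zero {k q : ℕ} : walk k q 0 = q := by
  simp [walk]

theorem walk_last {k q : ℕ} (hq : q ≤ 2 * k) :
    q = walk k q (2 * k) + k ∨ walk k q (2 * k) = q + k + 1 := by
  unfold walk; split_ifs <;> omega

theorem good_odd {k : ℕ} (hk : 1 ≤ k) {s : ℕ → ℕ → Prop} {D : ℕ → ℕ → ℕ → ℕ → Prop}
    (H : Disj (2 * k + 1) s D) : Good (2 * k + 1) D (walk k 0) := by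
  have hle : ∀ t, t ≤ 2 * k → walk k 0 t ≤ 2 * k := fun t ht => walk_le (by omega) ht
  have hstep : ∀ t, t < 2 * k + 1 → walk k 0 ((t + 1) % (2 * k + 1)) = walk k 0 t + k ∨
      walk k 0 t = walk k 0 ((t + 1) % (2 * k + 1)) + k + 1 := by
    intro t ht
    rcases Nat.lt_or_ge t (2 * k) with h | h
    · rw [Nat.mod_eq_of_lt (by omega)]; exact walk_step (by omega) h
    · have : t = 2 * k := by omega
      subst this
      rw [Nat.mod_self, walk_zero]; exact walk_last (by omega)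
  have hmod : ∀ t, (t + 1) % (2 * k + 1) ≤ 2 * k := fun t =>
    Nat.lt_succ_iff.1 (Nat.mod_lt _ (by omega))
  refine ⟨fun t ht => Nat.lt_succ_of_le (hle t (by omega)),
    fun t t' h h' => walk_ne (by omega) h (by omega), fun t t' h h' => ?_⟩
  exact chord' H (lo := 0) hk (by omega) (by omega) (by omega) (by omega) (by omega)
    (by simpa using hle t (by omega)) (by simpa using hle _ (hmod t))
    (by simpa using hle t' (by omega)) (by simpa using hle _ (hmod t'))
    (hstep t (by omega)) (hstep t' h') (walk_ne (by omega) h (by omega))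

/-- The even case, with the top vertex at position `0`. -/
theorem good_even0 {k : ℕ} (hk : 1 ≤ k) {s : ℕ → ℕ → Prop} {D : ℕ → ℕ → ℕ → ℕ → Prop}
    (H : Disj (2 * k + 2) s D) (h0 : ∀ y, 2 ≤ y → y ≤ 2 * k → s 0 y) {p : ℕ} (hp : p ≤ k)
    (hy : ∀ y, p + k < y → y ≤ 2 * k → s (p + 1) (y + 1))
    (hz : ∀ z, z < p → ¬ s (z + 1) (p + k + 1)) :
    Good (2 * k + 2) D (fun t => if t = 0 then 0 else walk k (p + k) (t - 1) + 1) := by
  have hq : p + k ≤ 2 * k := by omega
  have hlast : walk k (p + k) (2 * k) = p := by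
    have := walk_last hq
    have := walk_le hq (le_refl (2 * k))
    omega
  -- the two edges at the top vertex avoid the long chords
  have A : ∀ a b, a ≤ 2 * k → b ≤ 2 * k → (b = a + k ∨ b = a + k + 1) → (a ≠ p ∨ b ≠ p + k) →
      D 0 (p + 1) (a + 1) (b + 1) ∧ D 0 (p + k + 1) (a + 1) (b + 1) := by
    intro a b ha hb hab hne
    constructor
    · rcases lt_trichotomy a p with h | h | h
      · rcases lt_trichotomy p b with g | g | g
        · exact H.int _ _ _ _ (by omega) (by omega) (by omega) (by omega)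
        · subst g
          exact H.sw (H.sw' (H.adj _ _ _ (by omega) (by omega) (by omega) (by omega) (by omega)
            (by omega)))
        · omega
      · subst h
        exact H.sw (H.adj _ _ _ (by omega) (by omega) (by omega) (by omega) (by omega) (by omega))
      · refine H.sep _ _ _ _ (by omega) (by omega) (by omega) (by omega) ?_
        exact iff_of_true (h0 _ (by omega) (by omega)) (hy b (by omega) hb)
    · rcases lt_trichotomy b (p + k) with h | h | h
      · refine H.nest _ _ _ _ (by omega) (by omega) (by omega) (by omega) ?_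
        have h1 := h0 (b + 1) (by omega) (by omega)
        have h2 := hz a (by omega)
        tauto
      · subst h
        exact H.sw (H.sw' (H.adj _ _ _ (by omega) (by omega) (by omega) (by omega) (by omega)
          (by omega)))
      · rcases lt_trichotomy a (p + k) with g | g | g
        · exact H.int _ _ _ _ (by omega) (by omega) (by omega) (by omega)
        · subst g
          exact H.sw (H.adj _ _ _ (by omega) (by omega) (by omega) (by omega) (by omega)
            (by omega))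
        · omega
  have A' : ∀ t, t < 2 * k →
      D 0 (p + 1) (walk k (p + k) t + 1) (walk k (p + k) (t + 1) + 1) ∧
      D 0 (p + k + 1) (walk k (p + k) t + 1) (walk k (p + k) (t + 1) + 1) := by
    intro t ht
    have h1 := walk_le hq (t := t) (by omega)
    have h2 := walk_le hq (t := t + 1) (by omega)
    have h3 := walk_ne hq ht le_rfl
    rw [hlast] at h3
    rcases walk_step hq ht with h | h
    · exact A _ _ h1 h2 (Or.inl h) (Or.inl h3)
    · have := A _ _ h2 h1 (Or.inr h) (by omega)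
      exact ⟨H.sw' this.1, H.sw' this.2⟩
  refine ⟨fun t ht => ?_, fun t t' h h' => ?_, fun t t' h h' => ?_⟩
  · have := walk_le hq (t := t - 1) (by omega)
    dsimp only
    split_ifs <;> omega
  · dsimp only
    rw [if_neg (by omega : ¬ t' = 0)]
    split_ifs with h1
    · omega
    · have := walk_ne hq (t := t - 1) (t' := t' - 1) (by omega) (by omega)
      omega
  · dsimp only
    rw [Nat.mod_eq_of_lt (by omega : t + 1 < 2 * k + 2), if_neg (by omega : ¬ t' = 0),
      if_neg (by omega : ¬ t + 1 = 0), Nat.add_sub_cancel]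
    rcases Nat.lt_or_ge t' (2 * k + 1) with g | g
    · rw [Nat.mod_eq_of_lt (by omega : t' + 1 < 2 * k + 2), if_neg (by omega : ¬ t' + 1 = 0),
        Nat.add_sub_cancel]
      obtain ⟨u', rfl⟩ : ∃ u', t' = u' + 1 := ⟨t' - 1, by omega⟩
      rw [Nat.add_sub_cancel]
      split_ifs with h1
      · subst h1
        rw [walk_zero]
        exact (A' u' (by omega)).2
      · obtain ⟨u, rfl⟩ : ∃ u, t = u + 1 := ⟨t - 1, by omega⟩
        rw [Nat.add_sub_cancel]
        have a1 := walk_le hq (t := u) (by omega)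
        have a2 := walk_le hq (t := u + 1) (by omega)
        have a3 := walk_le hq (t := u') (by omega)
        have a4 := walk_le hq (t := u' + 1) (by omega)
        have a5 := walk_step hq (t := u) (by omega)
        have a6 := walk_step hq (t := u') (by omega)
        have a7 := walk_ne hq (t := u) (t' := u') (by omega) (by omega)
        exact chord' H (lo := 1) hk (by omega) (by omega) (by omega) (by omega) (by omega)
          (by omega) (by omega) (by omega) (by omega) (by omega) (by omega) (by omega)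
    · have : t' = 2 * k + 1 := by omega
      subst this
      rw [show 2 * k + 1 + 1 = 2 * k + 2 from rfl, Nat.mod_self, if_pos rfl, Nat.add_sub_cancel,
        hlast]
      split_ifs with h1
      · subst h1
        rw [walk_zero]
        exact H.sw' (H.adj _ _ _ (by omega) (by omega) (by omega) (by omega) (by omega) (by omega))
      · obtain ⟨u, rfl⟩ : ∃ u, t = u + 1 := ⟨t - 1, by omega⟩
        rw [Nat.add_sub_cancel]
        exact H.sw' (H.sy (A' u (by omega)).1)

/-- The combinatorial theorem. -/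
theorem exists_good {n : ℕ} (hn : 3 ≤ n) {s : ℕ → ℕ → Prop} {D : ℕ → ℕ → ℕ → ℕ → Prop}
    (R : Rules n s) (H : Disj n s D) : ∃ w, Good n D w := by
  rcases Nat.even_or_odd' n with ⟨m, hm | hm⟩
  · obtain ⟨k, rfl⟩ : ∃ k, m = k + 1 := ⟨m - 1, by omega⟩
    have hn' : n = 2 * k + 2 := by omega
    subst hn'
    obtain ⟨v, hv, hy, hz⟩ := top R (by omega)
    have H' := rot_disj H hv
    obtain ⟨p, hp, py, pz⟩ := chain (2 * k + 1)
      (fun a b => Beats s (rot (2 * k + 2) v (a + 1)) (rot (2 * k + 2) v (b + 1)))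
      (fun a x d m h1 h2 h3 h4 b1 b2 =>
        (rot_rules R hv hy hz (a := a + 1) (x := x + 1) (d := d + 1) (m := m + 1) (by omega)
          (by omega) (by omega) (by omega) (by omega) (iff_of_true b1 b2)).2 b1)
      (fun a x d m h1 h2 h3 h4 b1 b2 b3 => b1
        ((rot_rules R hv hy hz (a := a + 1) (x := x + 1) (d := d + 1) (m := m + 1) (by omega)
          (by omega) (by omega) (by omega) (by omega) (iff_of_false b1 b2)).1 b3))
      k k (by omega) (by omega)
    have h0 : ∀ y, 2 ≤ y → y ≤ 2 * k →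
        Beats s (rot (2 * k + 2) v 0) (rot (2 * k + 2) v y) := by
      intro y h1 h2
      unfold rot
      rw [if_pos (by omega : v + 0 < 2 * k + 2), Nat.add_zero]
      split_ifs with h3
      · rw [beats_lt (by omega)]; exact hy _ (by omega) h3
      · rw [beats_gt (by omega)]; exact hz _ (by omega)
    obtain ⟨g1, g2, g3⟩ := good_even0 (by omega) H' h0 (p := p) (by omega)
      (fun y h1 h2 => py y h1 (by omega)) (fun z h1 => pz z h1)
    refine ⟨fun t => rot (2 * k + 2) v (if t = 0 then 0 else walk k (p + k) (t - 1) + 1),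
      fun t ht => ?_, fun t t' h h' => ?_, g3⟩
    · have := g1 t ht
      dsimp only at this ⊢
      unfold rot
      split_ifs at this ⊢ <;> omega
    · have a1 := g1 t (by omega)
      have a2 := g1 t' h'
      have a3 := g2 t t' h h'
      dsimp only at a1 a2 a3 ⊢
      generalize (if t = 0 then 0 else walk k (p + k) (t - 1) + 1) = x at *
      generalize (if t' = 0 then 0 else walk k (p + k) (t' - 1) + 1) = y at *
      unfold rot
      split_ifs <;> omega
  · subst hm
    exact ⟨_, good_odd (by omega) H⟩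

end Pool.Agent.Lib.MP_3764f3_co
end

-- part Pool.Agent.Lib.MP_3764f3_co.Graph
section

set_option autoImplicit false

namespace Pool.Agent.Lib.MP_3764f3_co

open Set

theorem ivt {F G : ℝ → ℝ} {z w : ℝ} (hzw : z ≤ w) (hF : ContinuousOn F (Icc z w))
    (hG : ContinuousOn G (Icc z w)) (h1 : F z < G z) (h2 : G w < F w) :
    ∃ x ∈ Ioo z w, F x = G x := by
  have := intermediate_value_Ioo hzw (hF.sub hG)
  obtain ⟨x, hx, h⟩ := this (show (0:ℝ) ∈ Ioo (F z - G z) (F w - G w) from ⟨by linarith, by linarith⟩)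
  exact ⟨x, hx, by simpa [sub_eq_zero] using h⟩

theorem keep {F G : ℝ → ℝ} {u v z w : ℝ} (hF : ContinuousOn F (Icc u v))
    (hG : ContinuousOn G (Icc u v)) (hne : ∀ x ∈ Ioo u v, F x ≠ G x) (hz : z ∈ Icc u v)
    (hw : w ∈ Icc u v) (h1 : F z < G z) (h2 : F w ≠ G w) : F w < G w := by
  by_contra hc
  have h3 : G w < F w := lt_of_le_of_ne (not_lt.1 hc) h2.symm
  rcases le_total z w with h | h
  · have hs : Icc z w ⊆ Icc u v := Icc_subset_Icc hz.1 hw.2
    obtain ⟨x, hx, e⟩ := ivt h (hF.mono hs) (hG.mono hs) h1 h3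
    exact hne x ⟨lt_of_le_of_lt hz.1 hx.1, lt_of_lt_of_le hx.2 hw.2⟩ e
  · have hs : Icc w z ⊆ Icc u v := Icc_subset_Icc hw.1 hz.2
    obtain ⟨x, hx, e⟩ := ivt h (hG.mono hs) (hF.mono hs) h3 h1
    exact hne x ⟨lt_of_le_of_lt hw.1 hx.1, lt_of_lt_of_le hx.2 hz.2⟩ e.symm

/-- A generalized twisted drawing in logarithmic polar coordinates: vertex `a` has angle `θ a`
and height `h a`; the edge `ab` with `a < b` is the graph of `g a b` over `[θ b, θ a + P]`. -/
structure GT (n : ℕ) (P : ℝ) (θ h : ℕ → ℝ) (g : ℕ → ℕ → ℝ → ℝ) : Prop where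
  mono : ∀ a b, a < b → b < n → θ a < θ b
  wrap : ∀ a b, a < n → b < n → θ b < θ a + P
  cont : ∀ a b, a < b → b < n → ContinuousOn (g a b) (Icc (θ b) (θ a + P))
  left : ∀ a b, a < b → b < n → g a b (θ b) = h b
  right : ∀ a b, a < b → b < n → g a b (θ a + P) = h a
  av1 : ∀ a b k, a < b → b < k → k < n → g a b (θ k) ≠ h k
  av2 : ∀ k a b, k < a → a < b → b < n → g a b (θ k + P) ≠ h k
  adj : ∀ a b c d, a < b → b < n → c < d → d < n → (a ≠ c ∨ b ≠ d) →
    (a = c ∨ a = d ∨ b = c ∨ b = d) →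
    ∀ x ∈ Ioo (θ b) (θ a + P), x ∈ Ioo (θ d) (θ c + P) → g a b x ≠ g c d x
  two : ∀ a b c d, a < b → b < c → c < d → d < n → ∀ x ∈ Ioo (θ d) (θ a + P),
    ∀ y ∈ Ioo (θ b) (θ c), g a b x = g c d x → g a b y ≠ g c d (y + P)
  uniq : ∀ a b c d, a < b → b < c → c < d → d < n → ∀ x ∈ Ioo (θ b) (θ c),
    ∀ y ∈ Ioo (θ b) (θ c), g a b x = g c d (x + P) → g a b y = g c d (y + P) → x = y
  tang : ∀ a b c d, a < b → b < c → c < d → d < n → ∀ x ∈ Ioo (θ b) (θ c),
    g a b x = g c d (x + P) →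
    (¬ ∀ y ∈ Ioo (θ b) (θ c), y ≠ x → g a b y < g c d (y + P)) ∧
    (¬ ∀ y ∈ Ioo (θ b) (θ c), y ≠ x → g c d (y + P) < g a b y)

namespace GT

variable {n : ℕ} {P : ℝ} {θ h : ℕ → ℝ} {g : ℕ → ℕ → ℝ → ℝ}

theorem neg (G : GT n P θ h g) : GT n P θ (fun a => - h a) (fun a b x => - g a b x) where
  mono := G.mono
  wrap := G.wrap
  cont := fun a b h1 h2 => (G.cont a b h1 h2).neg
  left := fun a b h1 h2 => by simp [G.left a b h1 h2]
  right := fun a b h1 h2 => by simp [G.right a b h1 h2]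
  av1 := fun a b k h1 h2 h3 => by simpa using G.av1 a b k h1 h2 h3
  av2 := fun k a b h1 h2 h3 => by simpa using G.av2 k a b h1 h2 h3
  adj := fun a b c d h1 h2 h3 h4 h5 h6 x h7 h8 => by
    simpa using G.adj a b c d h1 h2 h3 h4 h5 h6 x h7 h8
  two := fun a b c d h1 h2 h3 h4 x hx y hy e => by
    simpa using G.two a b c d h1 h2 h3 h4 x hx y hy (by simpa using e)
  uniq := fun a b c d h1 h2 h3 h4 x hx y hy e e' =>
    G.uniq a b c d h1 h2 h3 h4 x hx y hy (by simpa using e) (by simpa using e')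
  tang := fun a b c d h1 h2 h3 h4 x hx e => by
    have := G.tang a b c d h1 h2 h3 h4 x hx (by simpa using e)
    simp only [neg_lt_neg_iff]
    exact ⟨this.2, this.1⟩

theorem le (G : GT n P θ h g) {a b : ℕ} (h1 : a ≤ b) (h2 : b < n) : θ a ≤ θ b := by
  rcases h1.lt_or_eq with h | h
  · exact (G.mono a b h h2).le
  · rw [h]

/-- Adjacent edges keep their order. -/
theorem cmp (G : GT n P θ h g) {a b c d : ℕ} (h1 : a < b) (h2 : b < n) (h3 : c < d) (h4 : d < n)
    (h5 : a ≠ c ∨ b ≠ d) (h6 : a = c ∨ a = d ∨ b = c ∨ b = d) {z w : ℝ}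
    (hz : z ∈ Icc (θ b) (θ a + P)) (hz' : z ∈ Icc (θ d) (θ c + P))
    (hw : w ∈ Icc (θ b) (θ a + P)) (hw' : w ∈ Icc (θ d) (θ c + P))
    (hlt : g a b z < g c d z) (hne : g a b w ≠ g c d w) : g a b w < g c d w := by
  refine keep (u := max (θ b) (θ d)) (v := min (θ a + P) (θ c + P))
    ((G.cont a b h1 h2).mono (Icc_subset_Icc (le_max_left _ _) (min_le_left _ _)))
    ((G.cont c d h3 h4).mono (Icc_subset_Icc (le_max_right _ _) (min_le_right _ _)))
    (fun x hx => G.adj a b c d h1 h2 h3 h4 h5 h6 x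
      ⟨lt_of_le_of_lt (le_max_left _ _) hx.1, lt_of_lt_of_le hx.2 (min_le_left _ _)⟩
      ⟨lt_of_le_of_lt (le_max_right _ _) hx.1, lt_of_lt_of_le hx.2 (min_le_right _ _)⟩)
    ⟨max_le hz.1 hz'.1, le_min hz.2 hz'.2⟩ ⟨max_le hw.1 hw'.1, le_min hw.2 hw'.2⟩ hlt hne

theorem cmp' (G : GT n P θ h g) {a b c d : ℕ} (h1 : a < b) (h2 : b < n) (h3 : c < d) (h4 : d < n)
    (h5 : a ≠ c ∨ b ≠ d) (h6 : a = c ∨ a = d ∨ b = c ∨ b = d) {z w : ℝ}
    (hz : z ∈ Icc (θ b) (θ a + P)) (hz' : z ∈ Icc (θ d) (θ c + P))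
    (hw : w ∈ Ioo (θ b) (θ a + P)) (hw' : w ∈ Ioo (θ d) (θ c + P))
    (hlt : g a b z < g c d z) : g a b w < g c d w :=
  G.cmp h1 h2 h3 h4 h5 h6 hz hz' (Ioo_subset_Icc_self hw) (Ioo_subset_Icc_self hw') hlt
    (G.adj a b c d h1 h2 h3 h4 h5 h6 w hw hw')

theorem m1 (G : GT n P θ h g) {a b k : ℕ} (h1 : a < n) (h2 : b ≤ k) (h3 : k < n) :
    θ k ∈ Icc (θ b) (θ a + P) := ⟨G.le h2 h3, (G.wrap a k h1 h3).le⟩

theorem m2 (G : GT n P θ h g) {a b k : ℕ} (h1 : a < n) (h2 : b < n) (h3 : k ≤ a) :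
    θ k + P ∈ Icc (θ b) (θ a + P) :=
  ⟨(G.wrap k b (by omega) h2).le, by have := G.le h3 h1; linarith⟩

theorem tri (G : GT n P θ h g) {a j d : ℕ} (h1 : a < j) (h2 : j < d) (h3 : d < n) :
    h d < g a j (θ d) ↔ g j d (θ a + P) < h a := by
  constructor
  · intro H
    rw [← G.right a j h1 (by omega)]
    refine G.cmp h2 h3 h1 (by omega) (by omega) (by omega) (z := θ d)
      (G.m1 (by omega) le_rfl h3) (G.m1 (by omega) h2.le h3)
      (G.m2 (by omega) h3 h1.le) (G.m2 (by omega) (by omega) le_rfl) ?_ ?_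
    · rwa [G.left j d h2 h3]
    · rw [G.right a j h1 (by omega)]; exact G.av2 a j d h1 h2 h3
  · intro H
    rw [← G.left j d h2 h3]
    refine G.cmp h2 h3 h1 (by omega) (by omega) (by omega) (z := θ a + P)
      (G.m2 (by omega) h3 h1.le) (G.m2 (by omega) (by omega) le_rfl)
      (G.m1 (by omega) le_rfl h3) (G.m1 (by omega) h2.le h3) ?_ ?_
    · rwa [G.right a j h1 (by omega)]
    · rw [G.left j d h2 h3]; exact (G.av1 a j d h1 h2 h3).symm

theorem cont' (G : GT n P θ h g) {b c d : ℕ} (h2 : b < n) (h3 : c < d) (h4 : d < n) :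
    ContinuousOn (fun x => g c d (x + P)) (Icc (θ b) (θ c)) := by
  refine (G.cont c d h3 h4).comp (by fun_prop) (fun x hx => ⟨?_, ?_⟩)
  · have := G.wrap b d h2 h4; have := hx.1; linarith
  · have := hx.2; linarith

theorem cont'' (G : GT n P θ h g) {a b c : ℕ} (h1 : a < b) (h2 : b < n) (h3 : c < n) :
    ContinuousOn (g a b) (Icc (θ b) (θ c)) :=
  (G.cont a b h1 h2).mono (Icc_subset_Icc le_rfl (G.wrap a c (by omega) h3).le)

theorem indep0 (G : GT n P θ h g) {a b c d : ℕ} (h1 : a < b) (h2 : b < c) (h3 : c < d)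
    (h4 : d < n) (H1 : h d < g a b (θ d)) (H2 : g a c (θ d) < h d) : False := by
  have s1 : h a < g c d (θ a + P) := by
    have := (G.tri (h1.trans h2) h3 h4).not.1 (not_lt.2 H2.le)
    exact lt_of_le_of_ne (not_lt.1 this) (G.av2 a c d (h1.trans h2) h3 h4).symm
  obtain ⟨x, hx, ex⟩ := ivt (F := g c d) (G := g a b) (z := θ d) (w := θ a + P)
    (G.wrap a d (by omega) h4).le
    ((G.cont c d h3 h4).mono (Icc_subset_Icc le_rfl (G.m2 (b := d) (by omega) h4 (by omega)).2))
    ((G.cont a b h1 (by omega)).mono (Icc_subset_Icc (G.le (by omega) h4) le_rfl))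
    (by rwa [G.left c d h3 h4]) (by rwa [G.right a b h1 (by omega)])
  have s3 : h c < g a b (θ c) := by
    rw [← G.left a c (h1.trans h2) (by omega)]
    refine G.cmp (h1.trans h2) (by omega) h1 (by omega) (by omega) (by omega) (z := θ d)
      (G.m1 (by omega) h3.le h4) (G.m1 (by omega) (by omega) h4)
      (G.m1 (by omega) le_rfl (by omega)) (G.m1 (by omega) h2.le (by omega)) (H2.trans H1) ?_
    rw [G.left a c (h1.trans h2) (by omega)]
    exact (G.av1 a b c h1 h2 (by omega)).symm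
  have s4 : g b c (θ a + P) < h a := (G.tri h1 h2 (by omega)).1 s3
  have s5 : h b < g c d (θ b + P) := by
    rw [← G.right b c h2 (by omega)]
    refine G.cmp h2 (by omega) h3 h4 (by omega) (by omega) (z := θ a + P)
      (G.m2 (by omega) (by omega) h1.le) (G.m2 (by omega) h4 (by omega))
      (G.m2 (by omega) (by omega) le_rfl) (G.m2 (by omega) h4 h2.le) (s4.trans s1) ?_
    rw [G.right b c h2 (by omega)]
    exact (G.av2 b c d h2 h3 h4).symm
  obtain ⟨y, hy, ey⟩ := ivt (F := g a b) (G := fun x => g c d (x + P)) (z := θ b) (w := θ c)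
    (G.le h2.le (by omega)) (G.cont'' h1 (by omega) (by omega)) (G.cont' (by omega) h3 h4)
    (by rwa [G.left a b h1 (by omega)]) (by simpa [G.right c d h3 h4] using s3)
  exact G.two a b c d h1 h2 h3 h4 x hx y hy ex.symm ey

/-- The sign: edges from `a` pass above `k`. -/
def S (θ h : ℕ → ℝ) (g : ℕ → ℕ → ℝ → ℝ) (a k : ℕ) : Prop := h k < g a (a + 1) (θ k)

theorem up (G : GT n P θ h g) {a j k : ℕ} (h1 : a < j) (h2 : j < k) (h3 : k < n) :
    h k < g a j (θ k) ↔ S θ h g a k := by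
  unfold S
  rcases Nat.lt_or_ge (a + 1) j with hj | hj
  · constructor
    · intro H
      by_contra H'
      have : g a (a + 1) (θ k) < h k :=
        lt_of_le_of_ne (not_lt.1 H') (G.av1 a (a + 1) k (by omega) (by omega) h3)
      exact G.neg.indep0 (a := a) (b := a + 1) (c := j) (d := k) (by omega) hj h2 h3
        (by simpa using this) (by simpa using H)
    · intro H
      by_contra H'
      exact G.indep0 (a := a) (b := a + 1) (c := j) (d := k) (by omega) hj h2 h3 H
        (lt_of_le_of_ne (not_lt.1 H') (G.av1 a j k h1 h2 h3))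
  · have : j = a + 1 := by omega
    rw [this]

theorem up' (G : GT n P θ h g) {a j k : ℕ} (h1 : a < j) (h2 : j < k) (h3 : k < n) :
    g a j (θ k) < h k ↔ ¬ S θ h g a k := by
  rw [← G.up h1 h2 h3, not_lt]
  exact ⟨le_of_lt, fun H => lt_of_le_of_ne H (G.av1 a j k h1 h2 h3)⟩

theorem dn (G : GT n P θ h g) {a j k : ℕ} (h1 : a < j) (h2 : j < k) (h3 : k < n) :
    g j k (θ a + P) < h a ↔ S θ h g a k := by
  rw [← G.tri h1 h2 h3, G.up h1 h2 h3]

theorem dn' (G : GT n P θ h g) {a j k : ℕ} (h1 : a < j) (h2 : j < k) (h3 : k < n) :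
    h a < g j k (θ a + P) ↔ ¬ S θ h g a k := by
  rw [← G.dn h1 h2 h3, not_lt]
  exact ⟨le_of_lt, fun H => lt_of_le_of_ne H (G.av2 a j k h1 h2 h3).symm⟩

theorem S_neg (G : GT n P θ h g) {a k : ℕ} (h1 : a + 2 ≤ k) (h3 : k < n) :
    S θ (fun a => - h a) (fun a b x => - g a b x) a k ↔ ¬ S θ h g a k := by
  rw [← G.up' (j := a + 1) (by omega) (by omega) h3]
  simp [S]

theorem T1s (G : GT n P θ h g) {a x d m : ℕ} (h1 : a < x) (h2 : x < d) (h3 : d < m) (h4 : m < n)
    (H1 : S θ h g a d) (H2 : S θ h g x m) : S θ h g a m := by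
  rw [← G.up (h1.trans h2) h3 h4]
  refine ((G.up h2 h3 h4).2 H2).trans ?_
  refine G.cmp' h2 (by omega) (h1.trans h2) (by omega) (by omega) (by omega) (z := θ a + P)
    (G.m2 (by omega) (by omega) h1.le) (G.m2 (by omega) (by omega) le_rfl)
    ⟨G.mono d m h3 h4, G.wrap x m (by omega) h4⟩ ⟨G.mono d m h3 h4, G.wrap a m (by omega) h4⟩ ?_
  rw [G.right a d (h1.trans h2) (by omega)]
  exact (G.dn h1 h2 (by omega)).2 H1

theorem T1 (G : GT n P θ h g) (a x d m : ℕ) (h1 : a < x) (h2 : x ≤ d) (h3 : d < m) (h4 : m < n)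
    (h5 : a + 2 ≤ d) (h6 : x + 2 ≤ m)
    (H1 : S θ h g a d) (H2 : S θ h g x m) : S θ h g a m := by
  rcases h2.lt_or_eq with h2 | h2
  · exact G.T1s h1 h2 h3 h4 H1 H2
  subst h2
  by_contra H
  have n1 : ¬ S θ h g (a + 1) m := fun H' => H (G.T1s (by omega) (by omega) h3 h4 H1 H')
  have n2 : ¬ S θ h g a (x + 1) := fun H' => H (G.T1s h1 (by omega) (by omega) h4 H' H2)
  have e1 := (G.dn' (a := a + 1) (j := x + 1) (by omega) (by omega) h4).2 n1
  have e2 := (G.up' (a := a) (j := a + 1) (k := x + 1) (by omega) (by omega) (by omega)).2 n2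
  have e3 := (G.up (a := a) (j := a + 1) (k := x) (by omega) (by omega) (by omega)).2 H1
  have e4 := (G.dn (a := x) (j := x + 1) (k := m) (by omega) (by omega) h4).2 H2
  have c1 := G.cont'' (a := a) (b := a + 1) (c := x + 1) (by omega) (by omega) (by omega)
  have c2 := G.cont' (b := a + 1) (c := x + 1) (d := m) (by omega) (by omega) h4
  have l1 := G.mono (a + 1) x (by omega) (by omega)
  have l2 := G.mono x (x + 1) (by omega) (by omega)
  obtain ⟨y, hy, ey⟩ := ivt l1.le (c1.mono (Icc_subset_Icc le_rfl l2.le))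
    (c2.mono (Icc_subset_Icc le_rfl l2.le))
    (by rwa [G.left a (a + 1) (by omega) (by omega)]) (e4.trans e3)
  obtain ⟨z, hz, ez⟩ := ivt l2.le (c2.mono (Icc_subset_Icc l1.le le_rfl))
    (c1.mono (Icc_subset_Icc l1.le le_rfl)) (e4.trans e3)
    (by simpa [G.right (x + 1) m (by omega) h4] using e2)
  have := G.uniq a (a + 1) (x + 1) m (by omega) (by omega) (by omega) h4 y
    ⟨hy.1, hy.2.trans l2⟩ z ⟨l1.trans hz.1, hz.2⟩ ey ez.symm
  have := hy.2; have := hz.1
  linarith

theorem rules (G : GT n P θ h g) : Rules n (S θ h g) where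
  T1 := G.T1
  T2 := fun a x d m h1 h2 h3 h4 h5 h6 H1 H2 =>
    (G.S_neg (by omega) h4).1 (G.neg.T1 a x d m h1 h2 h3 h4 h5 h6
      ((G.S_neg h5 (by omega)).2 H1) ((G.S_neg h6 h4).2 H2))

theorem bar0 (G : GT n P θ h g) {a j j' d : ℕ} (h1 : a < j) (h2 : j < d) (h1' : a < j')
    (h2' : j' < d) (h3 : d < n) (H : S θ h g a d) {x : ℝ} (hx : x ∈ Ioo (θ d) (θ a + P)) :
    g j' d x < g a d x ∧ g a d x < g a j x := by
  constructor
  · refine G.cmp' h2' h3 (h1.trans h2) h3 (by omega) (by omega) (z := θ a + P)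
      (G.m2 (by omega) h3 h1'.le) (G.m2 (by omega) h3 le_rfl)
      ⟨hx.1, by have := G.mono a j' h1' (by omega); have := hx.2; linarith⟩ hx ?_
    rw [G.right a d (h1.trans h2) h3]
    exact (G.dn h1' h2' h3).2 H
  · refine G.cmp' (h1.trans h2) h3 h1 (by omega) (by omega) (by omega) (z := θ d)
      (G.m1 (by omega) le_rfl h3) (G.m1 (by omega) h2.le h3) hx
      ⟨(G.mono j d h2 h3).trans hx.1, hx.2⟩ ?_
    rw [G.left a d (h1.trans h2) h3]
    exact (G.up h1 h2 h3).2 H

theorem bar (G : GT n P θ h g) {a j j' d : ℕ} (h1 : a < j) (h2 : j < d) (h1' : a < j')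
    (h2' : j' < d) (h3 : d < n) {x : ℝ} (hx : x ∈ Ioo (θ d) (θ a + P)) :
    g a j x ≠ g j' d x := by
  by_cases H : S θ h g a d
  · have := G.bar0 h1 h2 h1' h2' h3 H hx
    exact (this.1.trans this.2).ne'
  · have := G.neg.bar0 h1 h2 h1' h2' h3 ((G.S_neg (by omega) h3).2 H) hx
    have := this.1.trans this.2
    simp only [neg_lt_neg_iff] at this
    exact this.ne

theorem sep0 (G : GT n P θ h g) {a b c d : ℕ} (h1 : a < b) (h2 : b < c) (h3 : c < d) (h4 : d < n)
    (H1 : S θ h g a c) (H2 : S θ h g b d) {x : ℝ} (hx : x ∈ Ioo (θ b) (θ c)) :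
    g a b x ≠ g c d (x + P) := by
  intro e
  refine (G.tang a b c d h1 h2 h3 h4 x hx e).2 (fun y hy hne => ?_)
  have c1 := G.cont'' (c := c) h1 (by omega) (by omega)
  have c2 := G.cont' (b := b) (by omega) h3 h4
  have hy' : g c d (y + P) ≠ g a b y := fun e' =>
    hne (G.uniq a b c d h1 h2 h3 h4 y hy x hx e'.symm e)
  rcases lt_or_gt_of_ne hne with l | l
  · refine keep (F := fun x => g c d (x + P)) (G := g a b) (u := θ b) (v := x) (z := θ b)
      (c2.mono (Icc_subset_Icc le_rfl hx.2.le)) (c1.mono (Icc_subset_Icc le_rfl hx.2.le))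
      (fun z hz e' => hz.2.ne (G.uniq a b c d h1 h2 h3 h4 z ⟨hz.1, hz.2.trans hx.2⟩ x hx e'.symm e))
      ⟨le_rfl, hx.1.le⟩ ⟨hy.1.le, l.le⟩ ?_ hy'
    rw [G.left a b h1 (by omega)]
    exact (G.dn h2 h3 h4).2 H2
  · refine keep (F := fun x => g c d (x + P)) (G := g a b) (u := x) (v := θ c) (z := θ c)
      (c2.mono (Icc_subset_Icc hx.1.le le_rfl)) (c1.mono (Icc_subset_Icc hx.1.le le_rfl))
      (fun z hz e' => hz.1.ne' (G.uniq a b c d h1 h2 h3 h4 z ⟨hx.1.trans hz.1, hz.2⟩ x hx e'.symm e))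
      ⟨hx.2.le, le_rfl⟩ ⟨l.le, hy.2.le⟩ ?_ hy'
    simp only [G.right c d h3 h4]
    exact (G.up h1 h2 (by omega)).2 H1

theorem nest0 (G : GT n P θ h g) {a b c d : ℕ} (h1 : a < b) (h2 : b < c) (h3 : c < d) (h4 : d < n)
    (H1 : S θ h g a c) (H2 : ¬ S θ h g b d) {x : ℝ} (hx : x ∈ Ioo (θ d) (θ a + P)) :
    g b c x < g a d x := by
  have lab := G.mono a b h1 (by omega)
  have lcd := G.mono c d h3 h4
  have hx1 := hx.1
  have hx2 := hx.2
  by_cases H : S θ h g a d
  · refine lt_trans ?_ (G.bar0 h1 (h2.trans h3) h1 (h2.trans h3) h4 H hx).1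
    refine G.cmp' h2 (by omega) (h2.trans h3) h4 (by omega) (by omega) (z := θ d)
      (G.m1 (by omega) h3.le h4) (G.m1 (by omega) le_rfl h4)
      ⟨by linarith, by linarith⟩ ⟨by linarith, by linarith⟩ ?_
    rw [G.left b d (h2.trans h3) h4]
    exact (G.up' h2 h3 h4).2 H2
  · have := (G.neg.bar0 (h1.trans h2) h3 (h1.trans h2) h3 h4 ((G.S_neg (by omega) h4).2 H) hx).2
    simp only [neg_lt_neg_iff] at this
    refine lt_trans ?_ this
    refine G.cmp' h2 (by omega) (h1.trans h2) (by omega) (by omega) (by omega) (z := θ a + P)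
      (G.m2 (by omega) (by omega) h1.le) (G.m2 (by omega) (by omega) le_rfl)
      ⟨by linarith, by linarith⟩ ⟨by linarith, by linarith⟩ ?_
    rw [G.right a c (h1.trans h2) (by omega)]
    exact (G.dn h1 h2 (by omega)).2 H1

/-- The open edges `ab` and `cd` (with `a < b`, `c < d`) have no common point. -/
def D0 (P : ℝ) (θ : ℕ → ℝ) (g : ℕ → ℕ → ℝ → ℝ) (a b c d : ℕ) : Prop :=
  ∀ x ∈ Ioo (θ b) (θ a + P), ∀ y ∈ Ioo (θ d) (θ c + P), (y = x ∨ y = x + P ∨ x = y + P) →
    g a b x ≠ g c d y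

theorem lt_of (G : GT n P θ h g) {a b : ℕ} (ha : a < n) (H : θ a < θ b) : a < b := by
  by_contra hc
  exact absurd (G.le (not_lt.1 hc) ha) (not_le.2 H)

theorem disj (G : GT n P θ h g) : Disj n (S θ h g)
    (fun a b c d => D0 P θ g (min a b) (max a b) (min c d) (max c d)) where
  sw := fun {a b c d} H => by rwa [min_comm b a, max_comm b a]
  sy := fun {a b c d} H x hx y hy e => (H y hy x hx (by tauto)).symm
  adj := by
    intro a b c ha hb hc h1 h2 h3 x hx y hy e
    rcases e with e | e | e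
    · subst e
      exact G.adj _ _ _ _ (by omega) (by omega) (by omega) (by omega) (by omega) (by omega) y hx hy
    · have : θ (max a b) < θ (min a c) := by have := hx.1; have := hy.2; linarith
      have := G.lt_of (by omega) this
      omega
    · have : θ (max a c) < θ (min a b) := by have := hy.1; have := hx.2; linarith
      have := G.lt_of (by omega) this
      omega
  int := by
    intro a b c d h1 h2 h3 h4
    rw [min_eq_left (by omega : a ≤ c), max_eq_right (by omega : a ≤ c),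
      min_eq_left (by omega : b ≤ d), max_eq_right (by omega : b ≤ d)]
    intro x hx y hy e
    rcases e with e | e | e
    · subst e
      exact G.bar (h1.trans h2) h3 h1 (h2.trans h3) h4 ⟨hy.1, hx.2⟩
    · have := G.mono b c h2 (by omega); have := hx.1; have := hy.2; linarith
    · have := G.mono a d (by omega) h4; have := hy.1; have := hx.2; linarith
  sep := by
    intro a b c d h1 h2 h3 h4 H
    rw [min_eq_left h1.le, max_eq_right h1.le, min_eq_left h3.le, max_eq_right h3.le]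
    intro x hx y hy e
    rcases e with e | e | e
    · subst e
      exact G.bar h1 (h2.trans h3) (h1.trans h2) h3 h4 ⟨hy.1, hx.2⟩
    · subst e
      have hx' : x ∈ Ioo (θ b) (θ c) := ⟨hx.1, by have := hy.2; linarith⟩
      by_cases H1 : S θ h g a c
      · exact G.sep0 h1 h2 h3 h4 H1 (H.1 H1) hx'
      · have := G.neg.sep0 h1 h2 h3 h4 ((G.S_neg (by omega) (by omega)).2 H1)
          ((G.S_neg (by omega) h4).2 (fun H2 => H1 (H.2 H2))) hx'
        simpa using this
    · have := G.mono a d (by omega) h4; have := hy.1; have := hx.2; linarith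
  nest := by
    intro a b c d h1 h2 h3 h4 H
    rw [min_eq_left (by omega : a ≤ d), max_eq_right (by omega : a ≤ d), min_eq_left h2.le,
      max_eq_right h2.le]
    intro x hx y hy e
    rcases e with e | e | e
    · subst e
      by_cases H1 : S θ h g a c
      · exact (G.nest0 h1 h2 h3 h4 H1 (by tauto) hx).ne'
      · have := G.neg.nest0 h1 h2 h3 h4 ((G.S_neg (by omega) (by omega)).2 H1)
          (by rw [G.S_neg (by omega) h4]; tauto) hx
        simp only [neg_lt_neg_iff] at this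
        exact this.ne
    · have := G.mono b d (by omega) h4; have := hx.1; have := hy.2; linarith
    · have := G.mono a c (by omega) (by omega); have := hy.1; have := hx.2; linarith

theorem good (G : GT n P θ h g) (hn : 3 ≤ n) :
    ∃ w, Good n (fun a b c d => D0 P θ g (min a b) (max a b) (min c d) (max c d)) w :=
  exists_good hn G.rules G.disj

end GT

end Pool.Agent.Lib.MP_3764f3_co
end

-- part Pool.Agent.Lib.MP_3764f3_co.Arc
section

set_option autoImplicit false

namespace Pool.Agent.Lib.MP_3764f3_co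

open Set

/-- An abstract logarithmic polar chart with period `P`. -/
structure Chart (Ψ : ℝ × ℝ → ℝ × ℝ) (P : ℝ) : Prop where
  pos : 0 < P
  cont : Continuous Ψ
  eq_iff : ∀ x y x' y', Ψ (x, y) = Ψ (x', y') ↔ y = y' ∧ ∃ k : ℤ, x = x' + k * P

theorem int_zero {P x x' : ℝ} {k : ℤ} (hP : 0 < P) (e : x = x' + k * P) (h1 : x - x' < P)
    (h2 : x' - x < P) : x = x' := by
  have a1 : (k : ℝ) < 1 := by
    by_contra hc
    have := mul_le_mul_of_nonneg_right (not_lt.1 hc) hP.le
    linarith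
  have a2 : (-1 : ℝ) < k := by
    by_contra hc
    have := mul_le_mul_of_nonneg_right (not_lt.1 hc) hP.le
    linarith
  have a3 : k < 1 := by exact_mod_cast a1
  have a4 : -1 < k := by exact_mod_cast a2
  have : k = 0 := by omega
  subst this
  simpa using e

theorem exists_graph {φ y : ℝ → ℝ} {K : Set ℝ} (hK : IsCompact K) (hφ : ContinuousOn φ K)
    (hy : ContinuousOn y K) (hi : InjOn φ K) :
    ∃ g : ℝ → ℝ, ContinuousOn g (φ '' K) ∧ ∀ s ∈ K, g (φ s) = y s := by
  classical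
  have hg : ∀ s ∈ K, y (Function.invFunOn φ K (φ s)) = y s := fun s hs => by
    rw [hi.leftInvOn_invFunOn hs]
  refine ⟨fun x => y (Function.invFunOn φ K x), ?_, hg⟩
  rw [continuousOn_iff_isClosed]
  intro C hC
  refine ⟨φ '' (K ∩ y ⁻¹' C), ?_, ?_⟩
  · have h1 : IsCompact (K ∩ y ⁻¹' C) :=
      hK.of_isClosed_subset (hy.preimage_isClosed_of_isClosed hK.isClosed hC) inter_subset_left
    exact (h1.image_of_continuousOn (hφ.mono inter_subset_left)).isClosed
  · ext x
    constructor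
    · rintro ⟨h1, s, hs, rfl⟩
      refine ⟨⟨s, ⟨hs, ?_⟩, rfl⟩, s, hs, rfl⟩
      have := hg s hs
      simp only [mem_preimage] at h1 ⊢
      rwa [this] at h1
    · rintro ⟨⟨s, ⟨hs, h1⟩, rfl⟩, h2⟩
      refine ⟨?_, h2⟩
      simp only [mem_preimage] at h1 ⊢
      rwa [hg s hs]

/-- The curve `γ` is the graph of `g` over `[α, β]`, parametrized through the angle `φ`. -/
structure Arc (Ψ : ℝ × ℝ → ℝ × ℝ) (γ : ℝ → ℝ × ℝ) (α β : ℝ) (φ g : ℝ → ℝ) : Prop where
  cφ : ContinuousOn φ (Icc 0 1)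
  inj : InjOn φ (Icc 0 1)
  cg : ContinuousOn g (Icc α β)
  maps : ∀ s ∈ Icc (0:ℝ) 1, φ s ∈ Icc α β
  mapsI : ∀ s ∈ Ioo (0:ℝ) 1, φ s ∈ Ioo α β
  surj : ∀ x ∈ Ioo α β, ∃ s ∈ Ioo (0:ℝ) 1, φ s = x
  eq : ∀ s ∈ Icc (0:ℝ) 1, γ s = Ψ (φ s, g (φ s))
  ends : (φ 0 = α ∧ φ 1 = β) ∨ (φ 0 = β ∧ φ 1 = α)

theorem exists_arc {Ψ : ℝ × ℝ → ℝ × ℝ} {γ : ℝ → ℝ × ℝ} {φ y : ℝ → ℝ}
    (hφ : ContinuousOn φ (Icc 0 1)) (hy : ContinuousOn y (Icc 0 1)) (hi : InjOn φ (Icc 0 1))
    (he : ∀ s ∈ Icc (0:ℝ) 1, γ s = Ψ (φ s, y s)) :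
    ∃ α β g, Arc Ψ γ α β φ g := by
  obtain ⟨g, cg, hg⟩ := exists_graph isCompact_Icc hφ hy hi
  have h0 : (0:ℝ) ∈ Icc (0:ℝ) 1 := ⟨le_rfl, zero_le_one⟩
  have h1 : (1:ℝ) ∈ Icc (0:ℝ) 1 := ⟨zero_le_one, le_rfl⟩
  rcases hφ.strictMonoOn_of_injOn_Icc' zero_le_one hi with hm | hm
  · have him := hφ.image_Icc_of_monotoneOn zero_le_one hm.monotoneOn
    refine ⟨φ 0, φ 1, g, hφ, hi, him ▸ cg, fun s hs => him ▸ mem_image_of_mem φ hs,
      fun s hs => ⟨hm h0 (Ioo_subset_Icc_self hs) hs.1, hm (Ioo_subset_Icc_self hs) h1 hs.2⟩,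
      fun x hx => intermediate_value_Ioo zero_le_one hφ hx,
      fun s hs => by rw [hg s hs, he s hs], Or.inl ⟨rfl, rfl⟩⟩
  · have him := hφ.image_Icc_of_antitoneOn zero_le_one hm.antitoneOn
    refine ⟨φ 1, φ 0, g, hφ, hi, him ▸ cg, fun s hs => him ▸ mem_image_of_mem φ hs,
      fun s hs => ⟨hm (Ioo_subset_Icc_self hs) h1 hs.2, hm h0 (Ioo_subset_Icc_self hs) hs.1⟩,
      fun x hx => intermediate_value_Ioo' zero_le_one hφ hx,
      fun s hs => by rw [hg s hs, he s hs], Or.inr ⟨rfl, rfl⟩⟩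

theorem Arc.lt {Ψ : ℝ × ℝ → ℝ × ℝ} {γ : ℝ → ℝ × ℝ} {α β : ℝ} {φ g : ℝ → ℝ}
    (A : Arc Ψ γ α β φ g) : α < β := by
  have := A.mapsI (1 / 2) ⟨by norm_num, by norm_num⟩
  exact this.1.trans this.2

/-- If every class of angles modulo the period is met at most once, the arc is shorter than
the period. -/
theorem Arc.short {Ψ : ℝ × ℝ → ℝ × ℝ} {γ : ℝ → ℝ × ℝ} {α β P : ℝ} {φ g : ℝ → ℝ}
    (A : Arc Ψ γ α β φ g) (hP : 0 < P)
    (hi : ∀ s ∈ Icc (0:ℝ) 1, ∀ t ∈ Icc (0:ℝ) 1, φ s = φ t + P → s = t) : β < α + P := by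
  have h0 : (0:ℝ) ∈ Icc (0:ℝ) 1 := ⟨le_rfl, zero_le_one⟩
  have h1 : (1:ℝ) ∈ Icc (0:ℝ) 1 := ⟨zero_le_one, le_rfl⟩
  by_contra hc
  rcases (not_lt.1 hc).lt_or_eq with h | h
  · obtain ⟨s, hs, e⟩ := A.surj (α + P) ⟨by linarith, h⟩
    rcases A.ends with ⟨e0, -⟩ | ⟨-, e1⟩
    · exact hs.1.ne' (hi s (Ioo_subset_Icc_self hs) 0 h0 (by rw [e, e0]))
    · exact hs.2.ne (hi s (Ioo_subset_Icc_self hs) 1 h1 (by rw [e, e1]))
  · rcases A.ends with ⟨e0, e1⟩ | ⟨e0, e1⟩
    · exact one_ne_zero (hi 1 h1 0 h0 (by rw [e0, e1, h]))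
    · exact zero_ne_one (hi 0 h0 1 h1 (by rw [e0, e1, h]))

theorem Arc.shift {Ψ : ℝ × ℝ → ℝ × ℝ} {P : ℝ} (C : Chart Ψ P) {γ : ℝ → ℝ × ℝ} {α β : ℝ}
    {φ g : ℝ → ℝ} (A : Arc Ψ γ α β φ g) :
    Arc Ψ γ (α - P) (β - P) (fun s => φ s - P) (fun x => g (x + P)) where
  cφ := A.cφ.sub continuousOn_const
  inj := fun s hs t ht e => A.inj hs ht (by simpa using e)
  cg := A.cg.comp (by fun_prop) (fun x hx => ⟨by have := hx.1; linarith, by have := hx.2; linarith⟩)
  maps := fun s hs => ⟨by have := (A.maps s hs).1; linarith, by have := (A.maps s hs).2; linarith⟩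
  mapsI := fun s hs =>
    ⟨by have := (A.mapsI s hs).1; linarith, by have := (A.mapsI s hs).2; linarith⟩
  surj := fun x hx => by
    obtain ⟨s, hs, e⟩ := A.surj (x + P) ⟨by have := hx.1; linarith, by have := hx.2; linarith⟩
    exact ⟨s, hs, by rw [e]; ring⟩
  eq := fun s hs => by
    rw [A.eq s hs, C.eq_iff]
    exact ⟨by simp, 1, by simp⟩
  ends := by
    rcases A.ends with ⟨e0, e1⟩ | ⟨e0, e1⟩
    · exact Or.inl ⟨by rw [e0], by rw [e1]⟩
    · exact Or.inr ⟨by rw [e0], by rw [e1]⟩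

/-- A continuous injective function vanishing at an interior point takes opposite signs
arbitrarily close to it, and its range contains a neighbourhood of zero. -/
theorem opp {f : ℝ → ℝ} {t ε : ℝ} (hε : 0 < ε) (hc : ContinuousOn f (Icc (t - ε) (t + ε)))
    (hi : InjOn f (Icc (t - ε) (t + ε))) (h0 : f t = 0) :
    (∀ κ, 0 < κ → κ ≤ ε → f (t - κ) * f (t + κ) < 0) ∧
    ∃ ρ > 0, ∀ z, |z| < ρ → ∃ u ∈ Icc (t - ε) (t + ε), f u = z := by
  have mt : t ∈ Icc (t - ε) (t + ε) := ⟨by linarith, by linarith⟩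
  have key : ∀ κ, 0 < κ → κ ≤ ε →
      (f (t - κ) < 0 ∧ 0 < f (t + κ)) ∨ (0 < f (t - κ) ∧ f (t + κ) < 0) := by
    intro κ h1 h2
    have m1 : t - κ ∈ Icc (t - ε) (t + ε) := ⟨by linarith, by linarith⟩
    have m2 : t + κ ∈ Icc (t - ε) (t + ε) := ⟨by linarith, by linarith⟩
    rcases hc.strictMonoOn_of_injOn_Icc' (by linarith) hi with hm | hm
    · exact Or.inl ⟨h0 ▸ hm m1 mt (by linarith), h0 ▸ hm mt m2 (by linarith)⟩
    · exact Or.inr ⟨h0 ▸ hm m1 mt (by linarith), h0 ▸ hm mt m2 (by linarith)⟩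
  refine ⟨fun κ h1 h2 => ?_, ?_⟩
  · rcases key κ h1 h2 with ⟨a, b⟩ | ⟨a, b⟩
    · exact mul_neg_of_neg_of_pos a b
    · exact mul_neg_of_pos_of_neg a b
  · rcases key ε hε le_rfl with ⟨a, b⟩ | ⟨a, b⟩
    · refine ⟨min (- f (t - ε)) (f (t + ε)), lt_min (by linarith) b, fun z hz => ?_⟩
      have h1 := min_le_left (- f (t - ε)) (f (t + ε))
      have h2 := min_le_right (- f (t - ε)) (f (t + ε))
      have h3 := abs_lt.1 hz
      exact intermediate_value_Icc (by linarith) hc ⟨by linarith, by linarith⟩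
    · refine ⟨min (f (t - ε)) (- f (t + ε)), lt_min a (by linarith), fun z hz => ?_⟩
      have h1 := min_le_left (f (t - ε)) (- f (t + ε))
      have h2 := min_le_right (f (t - ε)) (- f (t + ε))
      have h3 := abs_lt.1 hz
      exact intermediate_value_Icc' (by linarith) hc ⟨by linarith, by linarith⟩

/-- A proper crossing is not a tangency. -/
theorem no_tangent {Ψ : ℝ × ℝ → ℝ × ℝ} {P : ℝ} (C : Chart Ψ P) {γ δ : ℝ → ℝ × ℝ}
    {α β α' β' : ℝ} {φ F ψ G : ℝ → ℝ} (A : Arc Ψ γ α β φ F) (B : Arc Ψ δ α' β' ψ G)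
    (hs : β < α + P) (cγ : ContinuousOn γ (Icc 0 1)) (iγ : InjOn γ (Icc 0 1))
    (cδ : ContinuousOn δ (Icc 0 1)) (iδ : InjOn δ (Icc 0 1))
    {s t : ℝ} (hs0 : s ∈ Ioo (0:ℝ) 1) (ht0 : t ∈ Ioo (0:ℝ) 1) (e1 : φ s = ψ t)
    (e2 : F (φ s) = G (φ s)) {ε : ℝ} (hε : 0 < ε) (h : (ℝ × ℝ) ≃ₜ (ℝ × ℝ)) (h0 : h (γ s) = 0)
    (hγ : ∀ u ∈ Ioo (s - ε) (s + ε), (h (γ u)).2 = 0)
    (hδ : ∀ u ∈ Ioo (t - ε) (t + ε), (h (δ u)).1 = 0)
    {u v σ : ℝ} (hx : φ s ∈ Ioo u v)
    (hlt : ∀ y ∈ Ioo u v, y ≠ φ s → 0 < σ * (G y - F y)) (hσ : σ * σ = 1) : False := by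
  set x := φ s with hxdef
  have hxA : x ∈ Ioo α β := A.mapsI s hs0
  have hxB : x ∈ Ioo α' β' := by rw [e1]; exact B.mapsI t ht0
  have est : δ t = γ s := by
    rw [A.eq s (Ioo_subset_Icc_self hs0), B.eq t (Ioo_subset_Icc_self ht0), ← e1, ← e2]
  -- a small radius for both curves
  obtain ⟨η, hη, η1, η2, η3, η4, η5⟩ : ∃ η > 0, η < ε ∧ η < s ∧ η < 1 - s ∧ η < t ∧ η < 1 - t := by
    have a1 := hs0.1; have a2 := hs0.2; have a3 := ht0.1; have a4 := ht0.2
    refine ⟨min (min ε (min s (1 - s))) (min t (1 - t)) / 2, by positivity, ?_, ?_, ?_, ?_, ?_⟩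
    all_goals
      have b0 : 0 < min (min ε (min s (1 - s))) (min t (1 - t)) := by positivity
      have b1 := min_le_left (min ε (min s (1 - s))) (min t (1 - t))
      have b2 := min_le_right (min ε (min s (1 - s))) (min t (1 - t))
      have b3 := min_le_left ε (min s (1 - s))
      have b4 := min_le_right ε (min s (1 - s))
      have b5 := min_le_left s (1 - s)
      have b6 := min_le_right s (1 - s)
      have b7 := min_le_left t (1 - t)
      have b8 := min_le_right t (1 - t)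
      linarith
  have sub1 : Icc (s - η) (s + η) ⊆ Icc 0 1 := Icc_subset_Icc (by linarith) (by linarith)
  have sub2 : Icc (t - η) (t + η) ⊆ Icc 0 1 := Icc_subset_Icc (by linarith) (by linarith)
  have sub3 : Icc (s - η) (s + η) ⊆ Ioo (s - ε) (s + ε) :=
    Icc_subset_Ioo (by linarith) (by linarith)
  have sub4 : Icc (t - η) (t + η) ⊆ Ioo (t - ε) (t + ε) :=
    Icc_subset_Ioo (by linarith) (by linarith)
  obtain ⟨-, ρ, hρ, hρ'⟩ := opp (f := fun u => (h (γ u)).1) (t := s) hη
    (continuous_fst.comp_continuousOn (h.continuous.comp_continuousOn (cγ.mono sub1)))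
    (fun a ha b hb e => iγ (sub1 ha) (sub1 hb)
      (h.injective (Prod.ext e (by rw [hγ a (sub3 ha), hγ b (sub3 hb)]))))
    (by simp [h0])
  obtain ⟨hopp, -⟩ := opp (f := fun u => (h (δ u)).2) (t := t) hη
    (continuous_snd.comp_continuousOn (h.continuous.comp_continuousOn (cδ.mono sub2)))
    (fun a ha b hb e => iδ (sub2 ha) (sub2 hb)
      (h.injective (Prod.ext (by rw [hδ a (sub4 ha), hδ b (sub4 hb)]) e)))
    (by simp [est, h0])
  -- the map of a box on one side of the first curve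
  let K : ℝ × ℝ → ℝ × ℝ := fun p => h (Ψ (p.1, F p.1 + σ * p.2))
  have cF : ∀ y ∈ Ioo α β, ContinuousAt F y := fun y hy =>
    A.cg.continuousAt (Icc_mem_nhds hy.1 hy.2)
  have cK : ∀ p : ℝ × ℝ, p.1 ∈ Ioo α β → ContinuousAt K p := by
    intro p hp
    have := cF p.1 hp
    refine h.continuous.continuousAt.comp (C.cont.continuousAt.comp ?_)
    refine continuousAt_fst.prodMk (ContinuousAt.add ?_ (by fun_prop))
    exact ContinuousAt.comp (f := Prod.fst) this continuousAt_fst
  have K0 : K (x, 0) = 0 := by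
    simp only [K, mul_zero, add_zero]
    rw [← A.eq s (Ioo_subset_Icc_self hs0), h0]
  obtain ⟨μ, hμ, hμ'⟩ : ∃ μ > 0, ∀ p : ℝ × ℝ, dist p (x, 0) < μ →
      |(K p).1| < ρ ∧ p.1 ∈ Ioo α β ∧ p.1 ∈ Ioo u v := by
    have a1 : ∀ᶠ p in nhds ((x, 0) : ℝ × ℝ), |(K p).1| < ρ := by
      have : ContinuousAt (fun p => |(K p).1|) (x, 0) :=
        (continuous_abs.continuousAt).comp (continuousAt_fst.comp (cK (x, 0) hxA))
      exact this.eventually (gt_mem_nhds (by simpa [K0] using hρ))
    have a2 : ∀ᶠ p in nhds ((x, 0) : ℝ × ℝ), p.1 ∈ Ioo α β :=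
      continuousAt_fst.eventually (isOpen_Ioo.mem_nhds hxA)
    have a3 : ∀ᶠ p in nhds ((x, 0) : ℝ × ℝ), p.1 ∈ Ioo u v :=
      continuousAt_fst.eventually (isOpen_Ioo.mem_nhds hx)
    obtain ⟨μ, hμ, H⟩ := Metric.eventually_nhds_iff.1 (a1.and (a2.and a3))
    exact ⟨μ, hμ, fun p hp => H hp⟩
  let box : Set (ℝ × ℝ) := Ioo (x - μ) (x + μ) ×ˢ Ioo 0 μ
  have hbox : ∀ p ∈ box, dist p (x, 0) < μ := by
    intro p hp
    rw [Prod.dist_eq, max_lt_iff, Real.dist_eq, Real.dist_eq, abs_lt, abs_lt]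
    have := hp.1.1; have := hp.1.2; have := hp.2.1; have := hp.2.2
    refine ⟨⟨by linarith, by linarith⟩, ⟨by linarith, by linarith⟩⟩
  have nz : ∀ p ∈ box, (K p).2 ≠ 0 := by
    intro p hp e
    obtain ⟨b1, b2, -⟩ := hμ' p (hbox p hp)
    obtain ⟨w, hw, ew⟩ := hρ' _ b1
    have : h (γ w) = K p := Prod.ext ew (by rw [hγ w (sub3 hw), e])
    have e' := h.injective this
    rw [A.eq w (sub1 hw), C.eq_iff] at e'
    obtain ⟨e3, k, e4⟩ := e'
    have mw := A.maps w (sub1 hw)
    have e5 : φ w = p.1 := int_zero C.pos e4 (by have := mw.2; have := b2.1; linarith)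
      (by have := mw.1; have := b2.2; linarith)
    rw [e5] at e3
    have e6 : σ * p.2 = 0 := by linarith
    have e7 : p.2 = 0 := by
      have : σ * (σ * p.2) = 0 := by rw [e6, mul_zero]
      rwa [← mul_assoc, hσ, one_mul] at this
    exact hp.2.1.ne' e7
  have pre : IsPreconnected box := isPreconnected_Ioo.prod isPreconnected_Ioo
  have cK2 : ContinuousOn (fun p => (K p).2) box := fun p hp =>
    (continuousAt_snd.comp (cK p (hμ' p (hbox p hp)).2.1)).continuousWithinAt
  -- points of the second curve in the box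
  let L : ℝ → ℝ × ℝ := fun w => (ψ w, σ * (G (ψ w) - F (ψ w)))
  have cψ : ContinuousAt ψ t := B.cφ.continuousAt (Icc_mem_nhds ht0.1 ht0.2)
  have cL : ContinuousAt L t := by
    have a1 : ContinuousAt F (ψ t) := cF _ (e1 ▸ hxA)
    have a2 : ContinuousAt G (ψ t) := B.cg.continuousAt (by
      rw [← e1]; exact Icc_mem_nhds hxB.1 hxB.2)
    exact cψ.prodMk (continuousAt_const.mul ((a2.comp cψ).sub (a1.comp cψ)))
  have L0 : L t = (x, 0) := by
    simp only [L, ← e1, e2, sub_self, mul_zero]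
  obtain ⟨ν, hν, hν'⟩ := Metric.continuousAt_iff.1 cL μ hμ
  have inbox : ∀ w, w ≠ t → |w - t| < ν → w ∈ Icc (0:ℝ) 1 → L w ∈ box ∧ K (L w) = h (δ w) := by
    intro w hw1 hw2 hw3
    have d1 := hν' (x := w) (by rwa [Real.dist_eq])
    rw [L0] at d1
    have d2 := (hμ' _ d1).2.2
    rw [Prod.dist_eq, max_lt_iff, Real.dist_eq, Real.dist_eq, abs_lt, abs_lt] at d1
    have d3 : ψ w ≠ x := by
      rw [e1]; exact fun e => hw1 (B.inj hw3 (Ioo_subset_Icc_self ht0) e)
    have d4 := hlt _ d2 d3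
    refine ⟨⟨⟨by have := d1.1.1; linarith, by have := d1.1.2; linarith⟩,
      ⟨d4, by have := d1.2.2; linarith⟩⟩, ?_⟩
    simp only [K, L]
    rw [B.eq w hw3, ← mul_assoc, hσ]
    simp
  obtain ⟨κ, κ0, κ1, κ2⟩ : ∃ κ > 0, κ < ν ∧ κ ≤ η :=
    ⟨min ν η / 2, by positivity, by
      have := min_le_left ν η; have : 0 < min ν η := by positivity
      linarith, by
      have := min_le_right ν η; have : 0 < min ν η := by positivity
      linarith⟩
  obtain ⟨i1, j1⟩ := inbox (t - κ) (by linarith) (by rw [abs_lt]; constructor <;> linarith)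
    (sub2 ⟨by linarith, by linarith⟩)
  obtain ⟨i2, j2⟩ := inbox (t + κ) (by linarith) (by rw [abs_lt]; constructor <;> linarith)
    (sub2 ⟨by linarith, by linarith⟩)
  have hneg := hopp κ κ0 κ2
  simp only [← j1, ← j2] at hneg
  rcases mul_neg_iff.1 hneg with ⟨a, b⟩ | ⟨a, b⟩
  · obtain ⟨p, hp, e⟩ := pre.intermediate_value i2 i1 cK2 ⟨b.le, a.le⟩
    exact nz p hp e
  · obtain ⟨p, hp, e⟩ := pre.intermediate_value i1 i2 cK2 ⟨a.le, b.le⟩
    exact nz p hp e

end Pool.Agent.Lib.MP_3764f3_co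
end

-- part Pool.Agent.Lib.MP_3764f3_co.Polar
section

set_option autoImplicit false

namespace Pool.Agent.Lib.MP_3764f3_co

open Set Complex

/-- Direction with angle `x` measured from `r`. -/
noncomputable def dir (r : ℝ × ℝ) (x : ℝ) : ℝ × ℝ :=
  equivRealProdCLM (equivRealProdCLM.symm r * exp (x * I))

/-- Logarithmic polar coordinates around `O`, angle measured from `r`. -/
noncomputable def pol (O r : ℝ × ℝ) (p : ℝ × ℝ) : ℝ × ℝ := O + Real.exp p.2 • dir r p.1

theorem pol_eq (O r : ℝ × ℝ) (x y : ℝ) :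
    pol O r (x, y) = O + equivRealProdCLM (equivRealProdCLM.symm r * exp (y + x * I)) := by
  unfold pol dir
  rw [← map_smul, exp_add, real_smul, ofReal_exp]
  congr 2
  ring

theorem symm_ne {r : ℝ × ℝ} (hr : r ≠ 0) : equivRealProdCLM.symm r ≠ 0 := by
  simpa using hr

theorem dir_ne {r : ℝ × ℝ} (hr : r ≠ 0) (x : ℝ) : dir r x ≠ 0 := by
  unfold dir
  simp only [ne_eq, EmbeddingLike.map_eq_zero_iff, mul_eq_zero, not_or]
  exact ⟨by simpa using hr, exp_ne_zero _⟩

theorem dir_zero (r : ℝ × ℝ) : dir r 0 = r := by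
  simp [dir]

theorem dir_per (r : ℝ × ℝ) (x : ℝ) : dir r (x + 2 * Real.pi) = dir r x := by
  unfold dir
  congr 2
  push_cast
  rw [add_mul, exp_add, exp_two_pi_mul_I, mul_one]

theorem chart (O : ℝ × ℝ) {r : ℝ × ℝ} (hr : r ≠ 0) : Chart (pol O r) (2 * Real.pi) where
  pos := by positivity
  cont := by
    unfold pol dir
    fun_prop
  eq_iff := by
    intro x y x' y'
    rw [pol_eq, pol_eq, add_right_inj, EmbeddingLike.apply_eq_iff_eq,
      mul_right_inj' (symm_ne hr), exp_eq_exp_iff_exists_int]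
    constructor
    · rintro ⟨k, hk⟩
      have h1 := congrArg re hk
      have h2 := congrArg im hk
      simp at h1 h2
      exact ⟨h1, k, h2⟩
    · rintro ⟨rfl, k, rfl⟩
      exact ⟨k, by push_cast; ring⟩

theorem exists_lift (O : ℝ × ℝ) {r : ℝ × ℝ} (hr : r ≠ 0) {γ : ℝ → ℝ × ℝ}
    (hc : ContinuousOn γ (Icc 0 1)) (hO : ∀ s ∈ Icc (0:ℝ) 1, γ s ≠ O) :
    ∃ φ y : ℝ → ℝ, ContinuousOn φ (Icc 0 1) ∧ ContinuousOn y (Icc 0 1) ∧
      ∀ s ∈ Icc (0:ℝ) 1, γ s = pol O r (φ s, y s) := by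
  have hR := symm_ne hr
  let z : unitInterval → ℂ := fun s => equivRealProdCLM.symm (γ s - O) / equivRealProdCLM.symm r
  have hz : ∀ s, z s ≠ 0 := fun s =>
    div_ne_zero (by simpa [sub_eq_zero] using hO s s.2) hR
  have cγ : Continuous fun s : unitInterval => γ s := hc.domRestrict
  have cz : Continuous z := by
    refine Continuous.div_const ?_ _
    exact equivRealProdCLM.symm.continuous.comp (cγ.sub continuous_const)
  let Z : C(unitInterval, {z : ℂ // z ≠ 0}) := ⟨fun s => ⟨z s, hz s⟩, cz.subtype_mk _⟩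
  obtain ⟨Γ, hΓ, -⟩ := isCoveringMap_exp.exists_path_lifts Z (log (z 0))
    (Subtype.ext (exp_log (hz 0)).symm)
  have cΓ : Continuous fun s : ℝ => Γ (projIcc 0 1 zero_le_one s) :=
    Γ.continuous.comp continuous_projIcc
  refine ⟨fun s => (Γ (projIcc 0 1 zero_le_one s)).im, fun s => (Γ (projIcc 0 1 zero_le_one s)).re,
    (continuous_im.comp cΓ).continuousOn, (continuous_re.comp cΓ).continuousOn, fun s hs => ?_⟩
  rw [pol_eq, re_add_im, projIcc_of_mem _ hs]
  have : exp (Γ ⟨s, hs⟩) = z ⟨s, hs⟩ := congrArg Subtype.val (congrFun hΓ ⟨s, hs⟩)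
  rw [this]
  simp only [z]
  rw [mul_div_cancel₀ _ hR, ContinuousLinearEquiv.apply_symm_apply]
  simp

/-- An edge met at most once by every ray from `O` and met in an interior point by the ray in
direction `r` is a graph over an interval containing the period. -/
theorem exists_edge (O : ℝ × ℝ) {r : ℝ × ℝ} (hr : r ≠ 0) {γ : ℝ → ℝ × ℝ}
    (hc : ContinuousOn γ (Icc 0 1))
    (hm : ∀ d : ℝ × ℝ, d ≠ 0 → ∀ s ∈ Icc (0:ℝ) 1, ∀ t ∈ Icc (0:ℝ) 1,
      (∃ a : ℝ, 0 ≤ a ∧ γ s = O + a • d) → (∃ b : ℝ, 0 ≤ b ∧ γ t = O + b • d) → s = t)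
    (h0 : ∃ s ∈ Ioo (0:ℝ) 1, ∃ a : ℝ, 0 ≤ a ∧ γ s = O + a • r) :
    ∃ α β φ g, Arc (pol O r) γ α β φ g ∧ α < 2 * Real.pi ∧ 2 * Real.pi < β ∧
      β < α + 2 * Real.pi := by
  have C := chart O hr
  have hO : ∀ s ∈ Icc (0:ℝ) 1, γ s ≠ O := by
    intro s hs e
    have key : ∀ t ∈ Icc (0:ℝ) 1, s = t := by
      intro t ht
      by_cases e' : γ t = O
      · exact hm r hr s hs t ht ⟨0, le_rfl, by simp [e]⟩ ⟨0, le_rfl, by simp [e']⟩
      · exact hm (γ t - O) (sub_ne_zero.2 e') s hs t ht ⟨0, le_rfl, by simp [e]⟩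
          ⟨1, zero_le_one, by simp⟩
    have a := key 0 ⟨le_rfl, zero_le_one⟩
    have b := key 1 ⟨zero_le_one, le_rfl⟩
    linarith
  obtain ⟨φ, y, cφ, cy, he⟩ := exists_lift O hr hc hO
  obtain ⟨s0, hs0, a, ha, ea⟩ := h0
  have ha' : 0 < a := by
    rcases ha.lt_or_eq with h | h
    · exact h
    · exact absurd (by simp [ea, ← h]) (hO s0 (Ioo_subset_Icc_self hs0))
  have e0 : pol O r (φ s0, y s0) = pol O r (0, Real.log a) := by
    rw [← he s0 (Ioo_subset_Icc_self hs0), ea]
    simp [pol, dir_zero, Real.exp_log ha']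
  obtain ⟨-, k, hk⟩ := (C.eq_iff _ _ _ _).1 e0
  let ψ : ℝ → ℝ := fun s => φ s - (k - 1) * (2 * Real.pi)
  have he' : ∀ s ∈ Icc (0:ℝ) 1, γ s = pol O r (ψ s, y s) := by
    intro s hs
    rw [he s hs, C.eq_iff]
    exact ⟨rfl, k - 1, by simp [ψ]⟩
  have hd : ∀ s ∈ Icc (0:ℝ) 1, ∀ t ∈ Icc (0:ℝ) 1, dir r (ψ s) = dir r (ψ t) → s = t := by
    intro s hs t ht e
    exact hm (dir r (ψ t)) (dir_ne hr _) s hs t ht
      ⟨Real.exp (y s), (Real.exp_pos _).le, by rw [he' s hs, ← e]; rfl⟩
      ⟨Real.exp (y t), (Real.exp_pos _).le, by rw [he' t ht]; rfl⟩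
  obtain ⟨α, β, g, A⟩ := exists_arc (Ψ := pol O r) (γ := γ) (φ := ψ) (y := y)
    (cφ.sub continuousOn_const) cy (fun s hs t ht e => hd s hs t ht (by rw [e])) he'
  have hψ : ψ s0 = 2 * Real.pi := by simp only [ψ, hk]; ring
  have := A.mapsI s0 hs0
  rw [hψ] at this
  exact ⟨α, β, ψ, g, A, this.1, this.2,
    A.short C.pos (fun s hs t ht e => hd s hs t ht (by rw [e, dir_per]))⟩

end Pool.Agent.Lib.MP_3764f3_co
end
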